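import Pool.Agent.Lib.UMB.W.E0

/-! # UMB.W chunk E1: derivatives of θ = F(v) -/

set_option autoImplicit false

open Filter Topology Set MeasureTheory
open scoped ContDiff BigOperators
open Pool.Agent.Lib.PenroseSph (E3 Tens pd)
open UMB.Lin (Ann cAnn sig)

namespace UMB.W

theorem e1_pos {p0 : ℝ} {p : ℝ → ℝ} (hp : Expo p0 p) {κ : ℝ} (hκ : 0 < κ) {z : ℝ} (hz : 0 ≤ z) :
    0 < KK p z + κ := by
  have := (KK_bd hp hz).1
  linarith

/-- **E1a.** -/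
theorem theta_smooth {p0 : ℝ} {p : ℝ → ℝ} (hp : Expo p0 p) {κ : ℝ} (hκ : 0 < κ) {U : Set E3} (hU : IsOpen U) {v : E3 → ℝ}
    (hv : ContDiffOn ℝ ∞ v U) (h0 : ∀ x ∈ U, 0 ≤ v x) : ContDiffOn ℝ ∞ (theta p κ v) U := by
  have h1 : ContDiffOn ℝ ∞ (FF p κ ∘ v) U :=
    (FF_smooth hp hκ).comp hv fun x hx => e1_pos hp hκ (h0 x hx)
  exact h1

theorem e1_diff {U : Set E3} (hU : IsOpen U) {v : E3 → ℝ}
    (hv : ContDiffOn ℝ ∞ v U) {x : E3} (hx : x ∈ U) : DifferentiableAt ℝ v x :=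
  (hv.differentiableOn (by simp)).differentiableAt (hU.mem_nhds hx)

/-- **E1b.** Chain rule, `F' = -(K+κ)⁻¹`. -/
theorem D1_theta {p0 : ℝ} {p : ℝ → ℝ} (hp : Expo p0 p) {κ : ℝ} (hκ : 0 < κ) {U : Set E3} (hU : IsOpen U) {v : E3 → ℝ}
    (hv : ContDiffOn ℝ ∞ v U) (h0 : ∀ x ∈ U, 0 ≤ v x) {x : E3} (hx : x ∈ U) (i : Fin 3) :
    D1 (theta p κ v) x i = - (KK p (v x) + κ)⁻¹ * D1 v x i := by
  have hd := e1_diff hU hv hx
  have h1 : HasFDerivAt (theta p κ v) ((- (KK p (v x) + κ)⁻¹) • fderiv ℝ v x) x :=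
    (FF_deriv hp hκ (h0 x hx)).comp_hasFDerivAt x hd.hasFDerivAt
  unfold D1 pd
  rw [h1.fderiv]
  rfl

/-- **E1c.** `F'' = kt (K+κ)⁻²`. E1b holds on the open set `U`, differentiate it. -/
theorem D2_theta {p0 : ℝ} {p : ℝ → ℝ} (hp : Expo p0 p) {κ : ℝ} (hκ : 0 < κ) {U : Set E3} (hU : IsOpen U) {v : E3 → ℝ}
    (hv : ContDiffOn ℝ ∞ v U) (h0 : ∀ x ∈ U, 0 ≤ v x) {x : E3} (hx : x ∈ U) (i j : Fin 3) :
    D2 (theta p κ v) x i j = - (KK p (v x) + κ)⁻¹ * D2 v x i j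
      + kt p (v x) * (KK p (v x) + κ)⁻¹ ^ 2 * D1 v x i * D1 v x j := by
  have hd := e1_diff hU hv hx
  have hpos := e1_pos hp hκ (h0 x hx)
  have hev : pd j (theta p κ v) =ᶠ[𝓝 x] fun y => (- (KK p (v y) + κ)⁻¹) * pd j v y := by
    filter_upwards [hU.mem_nhds hx] with y hy
    exact D1_theta hp hκ hU hv h0 hy j
  have hg : HasDerivAt (fun z => - (KK p z + κ)⁻¹) (kt p (v x) * (KK p (v x) + κ)⁻¹ ^ 2) (v x) := by
    have h1 := (((KK_deriv hp (v x)).add_const κ).fun_inv hpos.ne').neg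
    refine h1.congr_deriv ?_
    field_simp
  have hA : HasFDerivAt (fun y => - (KK p (v y) + κ)⁻¹)
      ((kt p (v x) * (KK p (v x) + κ)⁻¹ ^ 2) • fderiv ℝ v x) x :=
    hg.comp_hasFDerivAt x hd.hasFDerivAt
  have hB : DifferentiableAt ℝ (pd j v) x := by
    have h2 : ContDiffOn ℝ 1 (fderiv ℝ v) U := (hv.fderiv_of_isOpen hU (m := 1) (by
      norm_cast))
    have h3 : DifferentiableAt ℝ (fderiv ℝ v) x :=
      (h2.differentiableOn (by norm_num)).differentiableAt (hU.mem_nhds hx)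
    exact h3.clm_apply (differentiableAt_const _)
  have h4 : D2 (theta p κ v) x i j = pd i (fun y => (- (KK p (v y) + κ)⁻¹) * pd j v y) x := by
    change pd i (pd j (theta p κ v)) x = _
    unfold pd at hev ⊢
    rw [hev.fderiv_eq]
  rw [h4]
  change fderiv ℝ (fun y => (- (KK p (v y) + κ)⁻¹) * pd j v y) x (EuclideanSpace.single i 1) = _
  have h5 : HasFDerivAt (fun y => (- (KK p (v y) + κ)⁻¹) * pd j v y)
      ((- (KK p (v x) + κ)⁻¹) • fderiv ℝ (pd j v) x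
        + pd j v x • ((kt p (v x) * (KK p (v x) + κ)⁻¹ ^ 2) • fderiv ℝ v x)) x :=
    hA.mul hB.hasFDerivAt
  rw [h5.fderiv]
  simp only [ContinuousLinearMap.add_apply, ContinuousLinearMap.smul_apply, smul_eq_mul]
  unfold D1 D2 pd
  ring

end UMB.W
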