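import Pool.Agent.Lib.UMB.W.Defs

/-! # UMB.W chunk M0: the scaled mollifier -/

set_option autoImplicit false

open Filter Topology Set MeasureTheory
open scoped ContDiff BigOperators
open Pool.Agent.Lib.PenroseSph (E3 Tens pd)
open UMB.Lin (Ann cAnn sig)

namespace UMB.W

/-- **M0.** Scaling (`MeasureTheory.Measure.integral_comp_smul`, finrank 3). -/
theorem mol_etad {D : OpData} (hD : D.Ok) : Mol D.d D.etad := by
  have hd := hD.d_pos
  have hd3 : 0 < D.d ^ 3 := pow_pos hd 3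
  refine ⟨?_, ?_, ?_, ?_⟩
  · have h1 : ContDiff ℝ ∞ fun x : E3 => D.d⁻¹ • x := by fun_prop
    exact contDiff_const.mul (hD.eta_smooth.comp h1)
  · intro x
    exact mul_nonneg (inv_nonneg.2 hd3.le) (hD.eta_nonneg _)
  · intro x hx
    have h1 : 1 ≤ ‖D.d⁻¹ • x‖ := by
      rw [norm_smul, Real.norm_eq_abs, abs_of_pos (inv_pos.2 hd), inv_mul_eq_div, le_div_iff₀ hd]
      linarith
    show (D.d ^ 3)⁻¹ * D.eta (D.d⁻¹ • x) = 0
    rw [hD.eta_supp _ h1, mul_zero]
  · have h1 := MeasureTheory.Measure.integral_comp_smul (volume : Measure E3) D.eta D.d⁻¹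
    have hfr : Module.finrank ℝ E3 = 3 := by
      simp
    rw [hfr, hD.eta_int] at h1
    have h2 : ∫ x : E3, D.etad x = (D.d ^ 3)⁻¹ * ∫ x : E3, D.eta (D.d⁻¹ • x) := by
      rw [← integral_const_mul]
      rfl
    rw [h2, h1]
    have h3 : |((D.d⁻¹ ^ 3)⁻¹ : ℝ)| = D.d ^ 3 := by
      rw [inv_pow, inv_inv, abs_of_pos hd3]
    rw [h3, smul_eq_mul, mul_one]
    exact inv_mul_cancel₀ hd3.ne'

end UMB.W
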