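import Pool.Agent.Lib.UMB.W.Defs
import Pool.Agent.Lib.H16RA.Polar

/-! # UMB.W chunk M7C: Morrey's estimate, Hoelder -/

set_option autoImplicit false

open Filter Topology Set MeasureTheory
open scoped ContDiff BigOperators
open Pool.Agent.Lib.PenroseSph (E3 Tens pd)
open UMB.Lin (Ann cAnn sig)

namespace UMB.W

theorem m7c_pow {y : ℝ} (hy : 0 < y) : y ^ 2 * ((y ^ 2)⁻¹) ^ (4 / 3 : ℝ) = y ^ (-(2 / 3) : ℝ) := by
  rw [Real.inv_rpow (by positivity), ← Real.rpow_natCast, ← Real.rpow_mul hy.le, ← Real.rpow_neg hy.le,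
    ← Real.rpow_add hy]
  norm_num

theorem m7c_ker_int (d : ℝ) : IntegrableOn (fun z : E3 => ((‖z‖ ^ 2)⁻¹) ^ (4 / 3 : ℝ)) (Metric.ball (0 : E3) d) := by
  have h := (integrableOn_fun_norm_addHaar (E := E3) (volume : Measure E3) (f := fun r : ℝ => ((r ^ 2)⁻¹) ^ (4 / 3 : ℝ)) (r := d))
  refine h.mpr ?_
  have hdim : Module.finrank ℝ E3 - 1 = 2 := by simp
  rw [hdim]
  have h2 : IntegrableOn (fun y : ℝ => y ^ (-(2 / 3) : ℝ)) (Ioo 0 d) := by
    rcases le_or_gt d 0 with hd | hd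
    · rw [Ioo_eq_empty (by linarith)]
      exact integrableOn_empty
    · have h3 := intervalIntegral.intervalIntegrable_rpow' (a := 0) (b := d) (r := -(2 / 3)) (by norm_num)
      rw [intervalIntegrable_iff_integrableOn_Ioo_of_le hd.le] at h3
      exact h3
  refine h2.congr_fun ?_ measurableSet_Ioo
  intro y hy
  simp only [smul_eq_mul]
  exact (m7c_pow hy.1).symm

theorem m7c_ker {d : ℝ} (hd : 0 < d) :
    ∫ z in Metric.ball (0 : E3) d, ((‖z‖ ^ 2)⁻¹) ^ (4 / 3 : ℝ) =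
      9 * (volume : Measure E3).real (Metric.ball (0 : E3) 1) * d ^ (1 / 3 : ℝ) := by
  have h1 : ∫ z in Metric.ball (0 : E3) d, ((‖z‖ ^ 2)⁻¹) ^ (4 / 3 : ℝ) =
      ∫ z : E3, (Iio d).indicator (fun r : ℝ => ((r ^ 2)⁻¹) ^ (4 / 3 : ℝ)) ‖z‖ := by
    rw [← integral_indicator Metric.isOpen_ball.measurableSet]
    congr 1
    funext z
    simp only [indicator, Metric.mem_ball, dist_zero_right, mem_Iio]
  rw [h1, integral_fun_norm_addHaar (volume : Measure E3)]
  have hdim : Module.finrank ℝ E3 = 3 := by simp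
  rw [hdim]
  have h2 : ∫ y in Ioi (0 : ℝ), y ^ (3 - 1) • (Iio d).indicator (fun r : ℝ => ((r ^ 2)⁻¹) ^ (4 / 3 : ℝ)) y =
      3 * d ^ (1 / 3 : ℝ) := by
    have h3 : ∀ y ∈ Ioi (0 : ℝ), y ^ (3 - 1) • (Iio d).indicator (fun r : ℝ => ((r ^ 2)⁻¹) ^ (4 / 3 : ℝ)) y =
        (Iio d).indicator (fun y : ℝ => y ^ (-(2 / 3) : ℝ)) y := by
      intro y hy
      by_cases h : y < d
      · rw [indicator_of_mem (by exact h), indicator_of_mem (by exact h), smul_eq_mul]
        exact m7c_pow hy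
      · rw [indicator_of_notMem (by exact h), indicator_of_notMem (by exact h), smul_zero]
    rw [setIntegral_congr_fun measurableSet_Ioi h3, setIntegral_indicator measurableSet_Iio]
    have h4 : Ioi (0 : ℝ) ∩ Iio d = Ioo 0 d := rfl
    rw [h4, ← integral_Ioc_eq_integral_Ioo, ← intervalIntegral.integral_of_le hd.le,
      integral_rpow (Or.inl (by norm_num))]
    have h5 : (-(2 / 3) + 1 : ℝ) = 1 / 3 := by norm_num
    rw [h5, Real.zero_rpow (by norm_num)]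
    ring
  rw [h2]
  simp only [nsmul_eq_mul, smul_eq_mul]
  push_cast
  ring

/-- **M7C.** Hoelder with exponents `4` and `4/3`: `∫_{|z|<d} |z|^{-8/3} dz = 4π ∫_0^d r^{-2/3} dr = 12 π d^{1/3}`
(`integral_fun_norm_addHaar`, or `H16RA.polar`). `g` bounded, measurable, nonnegative. -/
theorem morrey_hoelder : ∃ C : ℝ, 0 ≤ C ∧ ∀ (g : E3 → ℝ) (B I : ℝ), Measurable g → (∀ y, 0 ≤ g y) → (∀ y, g y ≤ B) →
    IntegrableOn (fun y => g y ^ 4) univ → ∫ y, g y ^ 4 ≤ I → ∀ (x : E3) (d : ℝ), 0 < d →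
    ∫ z in Metric.ball (0 : E3) d, g (x - z) * (‖z‖ ^ 2)⁻¹ ≤ C * d ^ (1 / 4 : ℝ) * I ^ (1 / 4 : ℝ) := by
  set V := (volume : Measure E3).real (Metric.ball (0 : E3) 1) with hV
  have hV0 : 0 ≤ V := measureReal_nonneg
  refine ⟨(9 * V) ^ (3 / 4 : ℝ), by positivity, ?_⟩
  intro g B I hg h0 hB hint hI x d hd
  have hpq : (4 : ℝ).HolderConjugate (4 / 3) := Real.holderConjugate_iff.mpr ⟨by norm_num, by norm_num⟩
  have hgm : Measurable (fun z : E3 => g (x - z)) := hg.comp (measurable_const.sub measurable_id)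
  have hfin : IsFiniteMeasure ((volume : Measure E3).restrict (Metric.ball (0 : E3) d)) :=
    ⟨by rw [Measure.restrict_apply_univ]; exact measure_ball_lt_top⟩
  have h1 : MemLp (fun z : E3 => g (x - z)) (ENNReal.ofReal 4) ((volume : Measure E3).restrict (Metric.ball (0 : E3) d)) := by
    refine MemLp.of_bound hgm.aestronglyMeasurable B ?_
    refine Filter.Eventually.of_forall fun z => ?_
    rw [Real.norm_eq_abs, abs_of_nonneg (h0 _)]
    exact hB _
  have hkm : Measurable (fun z : E3 => (‖z‖ ^ 2)⁻¹) := by fun_prop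
  have h2 : MemLp (fun z : E3 => (‖z‖ ^ 2)⁻¹) (ENNReal.ofReal (4 / 3)) ((volume : Measure E3).restrict (Metric.ball (0 : E3) d)) := by
    rw [← integrable_norm_rpow_iff hkm.aestronglyMeasurable (by simp) (by simp)]
    rw [ENNReal.toReal_ofReal (by norm_num)]
    refine (m7c_ker_int d).congr ?_
    refine Filter.Eventually.of_forall fun z => ?_
    show _ = ‖(‖z‖ ^ 2)⁻¹‖ ^ (4 / 3 : ℝ)
    rw [Real.norm_eq_abs, abs_of_nonneg (by positivity)]
  have hH := integral_mul_le_Lp_mul_Lq_of_nonneg hpq (Filter.Eventually.of_forall fun z => h0 (x - z))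
    (Filter.Eventually.of_forall fun z : E3 => (by positivity : 0 ≤ (‖z‖ ^ 2)⁻¹)) h1 h2
  refine hH.trans ?_
  rw [m7c_ker hd]
  have h3 : ∫ z in Metric.ball (0 : E3) d, g (x - z) ^ (4 : ℝ) ≤ I := by
    have h4 : ∀ z, g (x - z) ^ (4 : ℝ) = g (x - z) ^ 4 := fun z => by
      have := Real.rpow_natCast (g (x - z)) 4
      exact_mod_cast this
    simp_rw [h4]
    rw [integrableOn_univ] at hint
    have hint' : Integrable (fun z => g (x - z) ^ 4) := hint.comp_sub_left x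
    calc ∫ z in Metric.ball (0 : E3) d, g (x - z) ^ 4 ≤ ∫ z, g (x - z) ^ 4 :=
          setIntegral_le_integral hint' (Filter.Eventually.of_forall fun z => pow_nonneg (h0 _) 4)
      _ = ∫ y, g y ^ 4 := integral_sub_left_eq_self (fun y => g y ^ 4) volume x
      _ ≤ I := hI
  have h5 : 0 ≤ ∫ z in Metric.ball (0 : E3) d, g (x - z) ^ (4 : ℝ) :=
    integral_nonneg fun z => Real.rpow_nonneg (h0 _) _
  have h6 : (∫ z in Metric.ball (0 : E3) d, g (x - z) ^ (4 : ℝ)) ^ (1 / 4 : ℝ) ≤ I ^ (1 / 4 : ℝ) :=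
    Real.rpow_le_rpow h5 h3 (by norm_num)
  have h7 : (9 * V * d ^ (1 / 3 : ℝ)) ^ (1 / (4 / 3) : ℝ) = (9 * V) ^ (3 / 4 : ℝ) * d ^ (1 / 4 : ℝ) := by
    have h8 : (1 / (4 / 3) : ℝ) = 3 / 4 := by norm_num
    rw [h8, Real.mul_rpow (by positivity) (by positivity), ← Real.rpow_mul hd.le]
    norm_num
  rw [h7]
  calc _ ≤ I ^ (1 / 4 : ℝ) * ((9 * V) ^ (3 / 4 : ℝ) * d ^ (1 / 4 : ℝ)) :=
        mul_le_mul_of_nonneg_right h6 (by positivity)
    _ = _ := by ring

end UMB.W
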