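import Pool.Agent.Lib.UMB.W.EDefs
import Pool.Agent.Lib.UMB.W.M0
import Pool.Agent.Lib.UMB.Lin.G1

/-! # UMB.W: regularity and integrability facts for solutions of the mollified problem (used by F4 to F7) -/

set_option autoImplicit false

open Filter Topology Set MeasureTheory
open scoped ContDiff BigOperators
open Pool.Agent.Lib.PenroseSph (E3 Tens pd)
open UMB.Lin (Ann cAnn sig)

namespace UMB.W

/-- Bounded and continuous on the annulus: integrable there. -/
theorem sr_intOn {R : ℝ} {f : E3 → ℝ} (hf : ContinuousOn f (Ann R)) {M : ℝ} (hM : ∀ x ∈ Ann R, |f x| ≤ M) :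
    IntegrableOn f (Ann R) := by
  refine IntegrableOn.of_bound (UMB.Lin.volume_Ann_lt_top R)
    (hf.aestronglyMeasurable (UMB.Lin.measurableSet_Ann R)) M ?_
  filter_upwards [ae_restrict_mem (UMB.Lin.measurableSet_Ann R)] with x hx
  exact hM x hx

theorem sr_ext_eq (R : ℝ) (v : E3 → ℝ) : ext R v = (Metric.ball (0 : E3) 1).indicator (fun _ => (1 : ℝ)) +
    (cAnn R).indicator v := by
  ext x
  simp only [ext, Pi.add_apply, Set.indicator, Metric.mem_ball, dist_zero_right]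
  by_cases h1 : ‖x‖ < 1
  · have h2 : x ∉ cAnn R := fun h => absurd h.1 (not_le.2 h1)
    simp [h1, h2]
  · by_cases h3 : ‖x‖ ≤ R
    · have h2 : x ∈ cAnn R := ⟨not_lt.1 h1, h3⟩
      simp [h1, h2, h3]
    · have h2 : x ∉ cAnn R := fun h => h3 h.2
      simp [h1, h2, h3]

/-- The extension is integrable. -/
theorem sr_ext_int {R : ℝ} {v : E3 → ℝ} (hv : ContinuousOn v (cAnn R)) : Integrable (ext R v) := by
  rw [sr_ext_eq]
  apply Integrable.add
  · rw [integrable_indicator_iff Metric.isOpen_ball.measurableSet]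
    exact integrableOn_const (by
      exact ((isCompact_closedBall (0 : E3) 1).measure_lt_top.trans_le' (measure_mono Metric.ball_subset_closedBall)).ne)
  · rw [integrable_indicator_iff (UMB.Lin.isCompact_cAnn R).measurableSet]
    exact hv.integrableOn_compact (UMB.Lin.isCompact_cAnn R)

theorem sr_ext_nonneg {R : ℝ} {v : E3 → ℝ} (h0 : ∀ x ∈ cAnn R, 0 ≤ v x) (x : E3) : 0 ≤ ext R v x := by
  unfold ext
  split_ifs with h1 h2
  · exact zero_le_one
  · exact h0 x ⟨not_lt.1 h1, h2⟩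
  · exact le_rfl

theorem sr_ext_le {R : ℝ} {v : E3 → ℝ} (h0 : ∀ x ∈ cAnn R, v x ≤ 1) (x : E3) : ext R v x ≤ 1 := by
  unfold ext
  split_ifs with h1 h2
  · exact le_rfl
  · exact h0 x ⟨not_lt.1 h1, h2⟩
  · exact zero_le_one

/-- Convolution of an integrable function with a continuous compactly supported one. -/
theorem sr_conv_cont {f g : E3 → ℝ} (hf : Integrable f) (hg : Continuous g) (hc : HasCompactSupport g) :
    Continuous fun x => ∫ y, f y * g (x - y) := by
  exact hc.continuous_convolution_right (ContinuousLinearMap.mul ℝ ℝ) hf.locallyIntegrable hg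

theorem sr_etad_supp {D : OpData} (hD : D.Ok) : HasCompactSupport D.etad := by
  have hm := mol_etad hD
  refine HasCompactSupport.of_support_subset_isCompact (isCompact_closedBall (0 : E3) D.d) ?_
  intro x hx
  rw [mem_closedBall_zero_iff]
  by_contra hc
  exact hx (hm.supp x (not_le.1 hc).le)

theorem sr_pd_etad {D : OpData} (hD : D.Ok) (i : Fin 3) :
    Continuous (pd i D.etad) ∧ HasCompactSupport (pd i D.etad) := by
  have hm := mol_etad hD
  constructor
  · have h1 : Continuous (fderiv ℝ D.etad) := hm.smooth.continuous_fderiv (by simp)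
    exact h1.clm_apply continuous_const
  · exact (sr_etad_supp hD).fderiv_apply (𝕜 := ℝ) _

/-- `vd` is continuous. -/
theorem sr_vd_cont {D : OpData} (hD : D.Ok) {v : E3 → ℝ} (hv : ContinuousOn v (cAnn D.R)) : Continuous (D.vd v) :=
  sr_conv_cont (sr_ext_int hv) (mol_etad hD).smooth.continuous (sr_etad_supp hD)

/-- `qd` is continuous. -/
theorem sr_qd_cont {D : OpData} (hD : D.Ok) {v : E3 → ℝ} (hv : ContinuousOn v (cAnn D.R)) (i : Fin 3) :
    Continuous fun x => D.qd v x i :=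
  sr_conv_cont (sr_ext_int hv) (sr_pd_etad hD i).1 (sr_pd_etad hD i).2

/-- `vd` has values in `[0,1]`. -/
theorem sr_vd_mem {D : OpData} (hD : D.Ok) {v : E3 → ℝ} (hv : ContinuousOn v (cAnn D.R))
    (h0 : ∀ x ∈ cAnn D.R, 0 ≤ v x) (h1 : ∀ x ∈ cAnn D.R, v x ≤ 1) (x : E3) :
    0 ≤ D.vd v x ∧ D.vd v x ≤ 1 := by
  have hm := mol_etad hD
  have hi : Integrable D.etad := hm.smooth.continuous.integrable_of_hasCompactSupport (sr_etad_supp hD)
  have hi' : Integrable fun y => D.etad (x - y) := hi.comp_sub_left x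
  have e1 : ∫ y, D.etad (x - y) = 1 := by
    rw [integral_sub_left_eq_self D.etad volume x]
    exact hm.int
  constructor
  · exact integral_nonneg fun y => mul_nonneg (sr_ext_nonneg h0 y) (hm.nonneg _)
  · unfold OpData.vd
    rw [← e1]
    refine integral_mono_of_nonneg (Eventually.of_forall fun y =>
      mul_nonneg (sr_ext_nonneg h0 y) (hm.nonneg _)) hi' (Eventually.of_forall fun y => ?_)
    show ext D.R v y * D.etad (x - y) ≤ D.etad (x - y)
    have := mul_le_mul_of_nonneg_right (sr_ext_le h1 y) (hm.nonneg (x - y))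
    linarith

/-- The first derivatives of a solution are continuous on the annulus. -/
theorem sr_D1_cont {R : ℝ} {v : E3 → ℝ} (hv : ContDiffOn ℝ ∞ v (Ann R)) (i : Fin 3) :
    ContinuousOn (fun x => D1 v x i) (Ann R) := by
  have h2 : ContDiffOn ℝ 1 (fderiv ℝ v) (Ann R) :=
    hv.fderiv_of_isOpen (UMB.Lin.isOpen_Ann R) (m := 1) (by norm_cast)
  exact h2.continuousOn.clm_apply continuousOn_const

/-- The second derivatives of a solution are continuous on the annulus. -/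
theorem sr_D2_cont {R : ℝ} {v : E3 → ℝ} (hv : ContDiffOn ℝ ∞ v (Ann R)) (i j : Fin 3) :
    ContinuousOn (fun x => D2 v x i j) (Ann R) := by
  have h2 : ContDiffOn ℝ 1 (fderiv ℝ v) (Ann R) :=
    hv.fderiv_of_isOpen (UMB.Lin.isOpen_Ann R) (m := 1) (by norm_cast)
  have h3 : ContDiffOn ℝ 1 (pd j v) (Ann R) := h2.clm_apply contDiffOn_const
  have h4 : ContinuousOn (fderiv ℝ (pd j v)) (Ann R) :=
    h3.continuousOn_fderiv_of_isOpen (UMB.Lin.isOpen_Ann R) (by norm_num)
  exact h4.clm_apply continuousOn_const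

theorem sr_cont_pd {w : E3 → ℝ} (hw : ContDiff ℝ ∞ w) (i : Fin 3) : ContDiff ℝ ∞ (pd i w) := by
  have h1 : ContDiff ℝ ∞ (fderiv ℝ w) := hw.fderiv_right (by simp)
  exact h1.clm_apply contDiff_const

/-- The derivatives of a solution up to second order are bounded on the annulus. -/
theorem sr_bdd {D : OpData} {v : E3 → ℝ} (hS : Sol D v) : ∃ M : ℝ, 0 ≤ M ∧
    (∀ x ∈ Ann D.R, ∀ i, |D1 v x i| ≤ M) ∧ ∀ x ∈ Ann D.R, ∀ i j, |D2 v x i j| ≤ M := by
  obtain ⟨w, hw, hw'⟩ := hS.approx 1 one_pos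
  have h1 : ∀ i, ContinuousOn (pd i w) (cAnn D.R) := fun i => (sr_cont_pd hw.smooth i).continuous.continuousOn
  have h2 : ∀ i j, ContinuousOn (pd i (pd j w)) (cAnn D.R) := fun i j =>
    (sr_cont_pd (sr_cont_pd hw.smooth j) i).continuous.continuousOn
  choose C hC using fun i => (UMB.Lin.isCompact_cAnn D.R).exists_bound_of_continuousOn (h1 i)
  choose C' hC' using fun i j => (UMB.Lin.isCompact_cAnn D.R).exists_bound_of_continuousOn (h2 i j)
  have a1 : 0 ≤ ∑ i, |C i| := Finset.sum_nonneg fun _ _ => abs_nonneg _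
  have a2 : 0 ≤ ∑ i, ∑ j, |C' i j| := Finset.sum_nonneg fun _ _ => Finset.sum_nonneg fun _ _ => abs_nonneg _
  refine ⟨∑ i, |C i| + ∑ i, ∑ j, |C' i j| + 1, by positivity, fun x hx i => ?_, fun x hx i j => ?_⟩
  · have e1 := (hw' x hx).2.1 i
    have e2 : |D1 w x i| ≤ C i := hC i x (UMB.Lin.Ann_subset D.R hx)
    have e3 : |C i| ≤ ∑ i, |C i| :=
      Finset.single_le_sum (f := fun i => |C i|) (fun _ _ => abs_nonneg _) (Finset.mem_univ i)
    have e4 : |D1 v x i| ≤ |D1 w x i - D1 v x i| + |D1 w x i| := by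
      have := abs_sub_abs_le_abs_sub (D1 v x i) (D1 w x i)
      rw [abs_sub_comm] at this
      linarith
    have e5 := le_abs_self (C i)
    linarith
  · have e1 := (hw' x hx).2.2 i j
    have e2 : |D2 w x i j| ≤ C' i j := hC' i j x (UMB.Lin.Ann_subset D.R hx)
    have e3 : |C' i j| ≤ ∑ j, |C' i j| :=
      Finset.single_le_sum (f := fun j => |C' i j|) (fun _ _ => abs_nonneg _) (Finset.mem_univ j)
    have e3' : ∑ j, |C' i j| ≤ ∑ i, ∑ j, |C' i j| :=
      Finset.single_le_sum (f := fun i => ∑ j, |C' i j|)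
        (fun _ _ => Finset.sum_nonneg fun _ _ => abs_nonneg _) (Finset.mem_univ i)
    have e4 : |D2 v x i j| ≤ |D2 w x i j - D2 v x i j| + |D2 w x i j| := by
      have := abs_sub_abs_le_abs_sub (D2 v x i j) (D2 w x i j)
      rw [abs_sub_comm] at this
      linarith
    have e5 := le_abs_self (C' i j)
    linarith

theorem sr_bdd_of_cont {R : ℝ} {f : E3 → ℝ} (hf : Continuous f) : ∃ M : ℝ, 0 ≤ M ∧ ∀ x ∈ Ann R, |f x| ≤ M := by
  obtain ⟨C, hC⟩ := (UMB.Lin.isCompact_cAnn R).exists_bound_of_continuousOn hf.continuousOn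
  exact ⟨|C|, abs_nonneg _, fun x hx => (hC x (UMB.Lin.Ann_subset R hx)).trans (le_abs_self _)⟩

theorem sr_sq_le {a M : ℝ} (h : |a| ≤ M) : |a ^ 2| ≤ M ^ 2 := by
  rw [abs_pow]
  exact pow_le_pow_left₀ (abs_nonneg _) h 2

/-- `fsq (D2 v)` is integrable on the annulus. -/
theorem sr_int_fsq {D : OpData} {v : E3 → ℝ} (hS : Sol D v) : IntegrableOn (fun x => fsq (D2 v x)) (Ann D.R) := by
  obtain ⟨M, hM, -, h2⟩ := sr_bdd hS
  unfold fsq
  refine integrable_finsetSum _ fun i _ => integrable_finsetSum _ fun j _ => ?_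
  exact sr_intOn ((sr_D2_cont hS.smooth i j).pow 2) (M := M ^ 2) fun x hx => sr_sq_le (h2 x hx i j)

/-- `vsq (D1 v)` is integrable on the annulus. -/
theorem sr_int_vsq {D : OpData} {v : E3 → ℝ} (hS : Sol D v) : IntegrableOn (fun x => vsq (D1 v x)) (Ann D.R) := by
  obtain ⟨M, hM, h1, -⟩ := sr_bdd hS
  unfold vsq
  refine integrable_finsetSum _ fun i _ => ?_
  exact sr_intOn ((sr_D1_cont hS.smooth i).pow 2) (M := M ^ 2) fun x hx => sr_sq_le (h1 x hx i)

/-- `vsq (D1 v) ^ 2` is integrable on the annulus. -/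
theorem sr_int_vsq2 {D : OpData} {v : E3 → ℝ} (hS : Sol D v) :
    IntegrableOn (fun x => vsq (D1 v x) ^ 2) (Ann D.R) := by
  obtain ⟨M, hM, h1, -⟩ := sr_bdd hS
  refine sr_intOn (M := (3 * M ^ 2) ^ 2) ?_ ?_
  · unfold vsq
    exact (continuousOn_finsetSum _ fun i _ => (sr_D1_cont hS.smooth i).pow 2).pow 2
  · intro x hx
    apply sr_sq_le
    unfold vsq
    refine (Finset.abs_sum_le_sum_abs _ _).trans ?_
    refine (Finset.sum_le_sum fun i _ => sr_sq_le (h1 x hx i)).trans (le_of_eq ?_)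
    simp [Finset.sum_const]

/-- `vsq (qd - D1 v)` is integrable on the annulus. -/
theorem sr_int_q {D : OpData} (hD : D.Ok) {v : E3 → ℝ} (hS : Sol D v) :
    IntegrableOn (fun x => vsq (fun i => D.qd v x i - D1 v x i)) (Ann D.R) := by
  obtain ⟨M, hM, h1, -⟩ := sr_bdd hS
  unfold vsq
  refine integrable_finsetSum _ fun i _ => ?_
  obtain ⟨M', hM', h2⟩ := sr_bdd_of_cont (R := D.R) (sr_qd_cont hD hS.cont i)
  refine sr_intOn (((sr_qd_cont hD hS.cont i).continuousOn.sub (sr_D1_cont hS.smooth i)).pow 2)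
    (M := (M' + M) ^ 2) fun x hx => sr_sq_le ?_
  exact (abs_sub _ _).trans (add_le_add (h2 x hx) (h1 x hx i))

/-- `(vd - v)^2` is integrable on the annulus. -/
theorem sr_int_v {D : OpData} (hD : D.Ok) {v : E3 → ℝ} (hS : Sol D v) :
    IntegrableOn (fun x => (D.vd v x - v x) ^ 2) (Ann D.R) := by
  refine sr_intOn (((sr_vd_cont hD hS.cont).continuousOn.sub hS.smooth.continuousOn).pow 2)
    (M := 1 ^ 2) fun x hx => sr_sq_le ?_
  obtain ⟨h1, h2⟩ := sr_vd_mem hD hS.cont hS.nonneg hS.le_one x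
  have h3 := hS.nonneg x (UMB.Lin.Ann_subset D.R hx)
  have h4 := hS.le_one x (UMB.Lin.Ann_subset D.R hx)
  rw [abs_le]
  constructor <;> linarith

/-- A smooth function is Lipschitz on `[0,1]`. -/
theorem sr_lip {p : ℝ → ℝ} (hp : ContDiff ℝ ∞ p) : ∃ L : ℝ, 0 ≤ L ∧ ∀ y z : ℝ, 0 ≤ y → y ≤ 1 → 0 ≤ z → z ≤ 1 →
    |p y - p z| ≤ L * |y - z| := by
  have hd : Continuous (deriv p) := hp.continuous_deriv (by simp)
  obtain ⟨C, hC⟩ := (isCompact_Icc (a := (0 : ℝ)) (b := 1)).exists_bound_of_continuousOn hd.continuousOn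
  refine ⟨|C|, abs_nonneg _, fun y z hy0 hy1 hz0 hz1 => ?_⟩
  have := (convex_Icc (0 : ℝ) 1).norm_image_sub_le_of_norm_deriv_le (f := p) (C := |C|)
    (fun x _ => (hp.differentiable (by simp)).differentiableAt)
    (fun x hx => (hC x hx).trans (le_abs_self _)) (⟨hz0, hz1⟩ : z ∈ Icc (0 : ℝ) 1) (⟨hy0, hy1⟩ : y ∈ Icc (0 : ℝ) 1)
  exact this

/-- `√y ≤ (y/δ + δ)/2` -/
theorem sr_sqrt_le {y δ : ℝ} (hy : 0 ≤ y) (hδ : 0 < δ) : Real.sqrt y ≤ (y / δ + δ) / 2 := by
  have h1 := Real.sq_sqrt hy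
  rw [le_div_iff₀ (by norm_num : (0 : ℝ) < 2)]
  have h2 : 0 ≤ (Real.sqrt y - δ) ^ 2 / δ := by positivity
  have h3 : (Real.sqrt y - δ) ^ 2 / δ = y / δ + δ - Real.sqrt y * 2 := by
    have : (Real.sqrt y - δ) ^ 2 = y - 2 * δ * Real.sqrt y + δ ^ 2 := by rw [sub_sq, h1]; ring
    rw [this]
    field_simp
    ring
  linarith

/-- `√x √y ≤ (δ x + y/δ)/2` -/
theorem sr_mul_le {x y δ : ℝ} (hx : 0 ≤ x) (hy : 0 ≤ y) (hδ : 0 < δ) :
    Real.sqrt x * Real.sqrt y ≤ (δ * x + y / δ) / 2 := by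
  have h1 := Real.sq_sqrt hx
  have h1' := Real.sq_sqrt hy
  rw [le_div_iff₀ (by norm_num : (0 : ℝ) < 2)]
  have h2 : 0 ≤ (δ * Real.sqrt x - Real.sqrt y) ^ 2 / δ := by positivity
  have h3 : (δ * Real.sqrt x - Real.sqrt y) ^ 2 / δ = δ * x + y / δ - Real.sqrt x * Real.sqrt y * 2 := by
    have : (δ * Real.sqrt x - Real.sqrt y) ^ 2 = δ ^ 2 * x - 2 * δ * (Real.sqrt x * Real.sqrt y) + y := by
      rw [sub_sq, mul_pow, h1, h1']; ring
    rw [this]
    field_simp
    ring
  linarith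

end UMB.W
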