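import Pool.Agent.Lib.UMB.W.M7B
import Pool.Agent.Lib.UMB.W.M7C
import Pool.Agent.Lib.UMB.W.SolReg

/-! # UMB.W chunk M7: sup bound of the mollification error -/

set_option autoImplicit false

open Filter Topology Set MeasureTheory
open scoped ContDiff BigOperators
open Pool.Agent.Lib.PenroseSph (E3 Tens pd)
open UMB.Lin (Ann cAnn sig)

namespace UMB.W

theorem m7_ext_bd {R : ℝ} {w : E3 → ℝ} (hw : Cls R w) (y : E3) : |ext R w y| ≤ 2 := by
  unfold ext
  split_ifs with h1 h2
  · norm_num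
  · exact hw.bd y ⟨not_lt.1 h1, h2⟩
  · norm_num

theorem m7_ext_meas {R : ℝ} {w : E3 → ℝ} (hw : Cls R w) : Measurable (ext R w) := by
  rw [sr_ext_eq]
  exact (measurable_const.indicator Metric.isOpen_ball.measurableSet).add
    (hw.smooth.continuous.measurable.indicator (UMB.Lin.isCompact_cAnn R).measurableSet)

/-- **M7.** `(∫ ext R w y η(x-y) dy) - w x = ∫ η(y) (ext R w (x-y) - ext R w x) dy` (`∫ η = 1`, `ext R w x = w x` on the closed
annulus), M7B, M7C with `g = 1_Ann √vsq (D1 w)`, `g⁴ = 1_Ann vsq²`. -/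
theorem vd_sup {R : ℝ} (hR : 1 < R) (M : ℝ) : ∃ C : ℝ, 0 ≤ C ∧ ∀ (d : ℝ) (η w : E3 → ℝ), 0 < d → Mol d η →
    (∀ y, η y ≤ M * (d ^ 3)⁻¹) → Cls R w → ∀ x ∈ cAnn R,
    |(∫ y, ext R w y * η (x - y)) - w x| ≤ C * d ^ (1 / 4 : ℝ) * (∫ x in Ann R, vsq (D1 w x) ^ 2) ^ (1 / 4 : ℝ) := by
  obtain ⟨C, hC, h⟩ := morrey_hoelder
  refine ⟨|M| / 3 * C, by positivity, fun d η w hd hη hM hw x hx => ?_⟩
  have hηc : Continuous η := hη.smooth.continuous
  have hηs : HasCompactSupport η := by
    refine HasCompactSupport.of_support_subset_isCompact (isCompact_closedBall (0 : E3) d) ?_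
    intro x hx
    rw [mem_closedBall_zero_iff]
    by_contra hc
    exact hx (hη.supp x (not_le.1 hc).le)
  have hηi : Integrable η := hηc.integrable_of_hasCompactSupport hηs
  have hex : w x = ext R w x := by
    unfold ext
    rw [if_neg (not_lt.2 hx.1), if_pos hx.2]
  have e1 : ∫ y, ext R w y * η (x - y) = ∫ y, ext R w (x - y) * η y := by
    have := integral_sub_left_eq_self (fun y : E3 => ext R w (x - y) * η y) volume x
    rw [← this]
    refine integral_congr_ae (Eventually.of_forall fun y => ?_)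
    simp
  have hm : Measurable fun y : E3 => ext R w (x - y) :=
    (m7_ext_meas hw).comp (measurable_const.sub measurable_id)
  have i1 : Integrable (fun y : E3 => ext R w (x - y) * η y) := by
    refine Integrable.mono' (hηi.const_mul 2) (hm.mul hηc.measurable).aestronglyMeasurable
      (Eventually.of_forall fun y => ?_)
    rw [Real.norm_eq_abs, abs_mul, abs_of_nonneg (hη.nonneg y)]
    exact mul_le_mul_of_nonneg_right (m7_ext_bd hw _) (hη.nonneg y)
  have e2 : (∫ y, ext R w y * η (x - y)) - w x = ∫ y, (ext R w (x - y) - ext R w x) * η y := by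
    have e3 : ∀ y : E3, (ext R w (x - y) - ext R w x) * η y = ext R w (x - y) * η y - ext R w x * η y :=
      fun y => by ring
    simp_rw [e3]
    rw [integral_sub i1 (hηi.const_mul _), integral_const_mul, hη.int, e1, mul_one, hex]
  have hM0 : 0 ≤ M := by
    have h1 := (hη.nonneg 0).trans (hM 0)
    have h2 : 0 < (d ^ 3)⁻¹ := by positivity
    exact nonneg_of_mul_nonneg_left h1 h2
  set g : E3 → ℝ := (Ann R).indicator (fun y => Real.sqrt (vsq (D1 w y))) with hg
  have hpc : ∀ i, Continuous (pd i w) := fun i => (sr_cont_pd hw.smooth i).continuous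
  have hvc : Continuous fun y => vsq (D1 w y) := by
    unfold vsq D1
    exact continuous_finsetSum _ fun i _ => (hpc i).pow 2
  have hvnn : ∀ y, 0 ≤ vsq (D1 w y) := fun y => Finset.sum_nonneg fun _ _ => sq_nonneg _
  obtain ⟨B, hB0, hB⟩ := sr_bdd_of_cont (R := R) (f := fun y => Real.sqrt (vsq (D1 w y)))
    (Real.continuous_sqrt.comp hvc)
  have hgm : Measurable g :=
    (Real.continuous_sqrt.comp hvc).measurable.indicator (UMB.Lin.measurableSet_Ann R)
  have hg0 : ∀ y, 0 ≤ g y := fun y => Set.indicator_nonneg (fun _ _ => Real.sqrt_nonneg _) y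
  have hgB : ∀ y, g y ≤ B := by
    intro y
    by_cases hy : y ∈ Ann R
    · rw [hg, Set.indicator_of_mem hy]
      exact (le_abs_self _).trans (hB y hy)
    · rw [hg, Set.indicator_of_notMem hy]
      exact hB0
  have hg4 : (fun y => g y ^ 4) = (Ann R).indicator (fun y => vsq (D1 w y) ^ 2) := by
    ext y
    by_cases hy : y ∈ Ann R
    · rw [hg, Set.indicator_of_mem hy, Set.indicator_of_mem hy]
      have := Real.sq_sqrt (hvnn y)
      calc Real.sqrt (vsq (D1 w y)) ^ 4 = (Real.sqrt (vsq (D1 w y)) ^ 2) ^ 2 := by ring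
        _ = _ := by rw [this]
    · rw [hg, Set.indicator_of_notMem hy, Set.indicator_of_notMem hy]
      norm_num
  have hgi : IntegrableOn (fun y => g y ^ 4) univ := by
    rw [integrableOn_univ, hg4, integrable_indicator_iff (UMB.Lin.measurableSet_Ann R)]
    exact UMB.Lin.integrableOn_Ann (hvc.pow 2)
  have hgI : ∫ y, g y ^ 4 ≤ ∫ x in Ann R, vsq (D1 w x) ^ 2 := by
    rw [hg4, integral_indicator (UMB.Lin.measurableSet_Ann R)]
  have h1 := morrey_pot hR hw hx hd hη hM
  have h2 := h g B _ hgm hg0 hgB hgi hgI x d hd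
  rw [e2]
  have h3 : |∫ y, (ext R w (x - y) - ext R w x) * η y| ≤ ∫ y, η y * |ext R w (x - y) - ext R w x| := by
    refine (abs_integral_le_integral_abs).trans (le_of_eq ?_)
    refine integral_congr_ae (Eventually.of_forall fun y => ?_)
    show |(ext R w (x - y) - ext R w x) * η y| = η y * |ext R w (x - y) - ext R w x|
    rw [abs_mul, abs_of_nonneg (hη.nonneg y), mul_comm]
  refine (h3.trans h1).trans ?_
  have h4 : M / 3 * ∫ z in Metric.ball (0 : E3) d, g (x - z) * (‖z‖ ^ 2)⁻¹ ≤
      M / 3 * (C * d ^ (1 / 4 : ℝ) * (∫ x in Ann R, vsq (D1 w x) ^ 2) ^ (1 / 4 : ℝ)) :=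
    mul_le_mul_of_nonneg_left h2 (by positivity)
  refine h4.trans (le_of_eq ?_)
  rw [abs_of_nonneg hM0]
  ring

end UMB.W
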