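import Pool.Agent.Lib.UMB.W.F2U
import Pool.Agent.Lib.UMB.W.M0
import Pool.Agent.Lib.UMB.W.M7

/-! # UMB.W chunk M8: sup bound of the mollification error for solutions -/

set_option autoImplicit false

open Filter Topology Set MeasureTheory
open scoped ContDiff BigOperators
open Pool.Agent.Lib.PenroseSph (E3 Tens pd)
open UMB.Lin (Ann cAnn sig)

namespace UMB.W

theorem m8_vsq_le {a b : Fin 3 → ℝ} {ε : ℝ} (h : ∀ i, |a i - b i| ≤ ε) (hε : ε ≤ 1) :
    vsq a ^ 2 ≤ 8 * vsq b ^ 2 + 72 := by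
  have h1 : vsq a ≤ 2 * vsq b + 6 := by
    unfold vsq
    have h2 : ∀ i, a i ^ 2 ≤ 2 * b i ^ 2 + 2 := by
      intro i
      have h3 := (h i).trans hε
      have h4 : (a i - b i) ^ 2 ≤ 1 := by
        rw [← sq_abs]
        have := abs_nonneg (a i - b i)
        nlinarith
      nlinarith [sq_nonneg (a i - 2 * b i)]
    refine (Finset.sum_le_sum fun i _ => h2 i).trans (le_of_eq ?_)
    rw [Finset.sum_add_distrib, ← Finset.mul_sum]
    simp
    norm_num
  have h0 : 0 ≤ vsq a := Finset.sum_nonneg fun _ _ => sq_nonneg _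
  have h0' : 0 ≤ vsq b := Finset.sum_nonneg fun _ _ => sq_nonneg _
  have h3 : vsq a ^ 2 ≤ (2 * vsq b + 6) ^ 2 := pow_le_pow_left₀ h0 h1 2
  nlinarith [sq_nonneg (2 * vsq b - 6)]

/-- **M8.** M7 for `w` from `Sol.approx` with `ε`, then `ε → 0` (as in F3; `|w - v| ≤ ε` also on the closed annulus by
continuity); `∫ vsq (D1 w)²` converges to `∫ vsq (D1 v)² ≤ C` (F2U). `D.etad ≤ M d⁻³` if `eta ≤ M`. -/
theorem sol_sup {D : OpData} (hD : D.Ok) (K M : ℝ) : ∃ C : ℝ, 0 ≤ C ∧ ∀ (k : Tens) (eps d : ℝ) (eta : E3 → ℝ),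
    (∀ x ∈ cAnn D.R, ∀ i j, |k x i j| ≤ K) → (∀ x, eta x ≤ M) → (OpData.updk D k eps d eta).Ok →
    ∀ v : E3 → ℝ, Sol (OpData.updk D k eps d eta) v → ∀ x ∈ cAnn D.R,
      |(OpData.updk D k eps d eta).vd v x - v x| ≤ C * d ^ (1 / 4 : ℝ) := by
  obtain ⟨C2, hC2, h2⟩ := sol_bdU hD K
  obtain ⟨C7, hC7, h7⟩ := vd_sup hD.one_lt_R M
  set V : ℝ := (volume (Ann D.R)).toReal with hV
  have hV0 : 0 ≤ V := ENNReal.toReal_nonneg
  refine ⟨C7 * (8 * C2 + 72 * V) ^ (1 / 4 : ℝ), by positivity, fun k eps d eta hk heta hOk v hS x hx => ?_⟩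
  have hd : 0 < d := hOk.d_pos
  set D' := OpData.updk D k eps d eta with hD'
  have hm : Mol d D'.etad := mol_etad hOk
  have hmM : ∀ y, D'.etad y ≤ M * (d ^ 3)⁻¹ := by
    intro y
    have h1 : 0 < (d ^ 3)⁻¹ := by positivity
    have h3 : D'.etad y = (d ^ 3)⁻¹ * eta (d⁻¹ • y) := rfl
    rw [h3, mul_comm]
    exact mul_le_mul_of_nonneg_right (heta _) h1.le
  have i3 : IntegrableOn (fun x => fsq (D2 v x)) (Ann D.R) := sr_int_fsq (D := D') hS
  have i4 : IntegrableOn (fun x => vsq (D1 v x)) (Ann D.R) := sr_int_vsq (D := D') hS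
  have i5 : IntegrableOn (fun x => vsq (D1 v x) ^ 2) (Ann D.R) := sr_int_vsq2 (D := D') hS
  have g3 : ∫ x in Ann D.R, vsq (D1 v x) ^ 2 ≤ C2 := by
    refine le_trans ?_ (h2 k eps d eta hk hOk v hS)
    refine integral_mono i5 ((i3.add i4).add i5) fun x => ?_
    have e1 : 0 ≤ vsq (D1 v x) := Finset.sum_nonneg fun _ _ => sq_nonneg _
    have e2 : 0 ≤ fsq (D2 v x) := Finset.sum_nonneg fun _ _ => Finset.sum_nonneg fun _ _ => sq_nonneg _
    show vsq (D1 v x) ^ 2 ≤ fsq (D2 v x) + vsq (D1 v x) + vsq (D1 v x) ^ 2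
    linarith
  refine le_of_forall_pos_le_add fun ε hε => ?_
  set ε' : ℝ := min 1 (ε / 2) with hε'
  have hε'0 : 0 < ε' := lt_min one_pos (by linarith)
  have hε'1 : ε' ≤ 1 := min_le_left _ _
  have hε'2 : ε' ≤ ε / 2 := min_le_right _ _
  obtain ⟨w, hw, hw'⟩ := hS.approx ε' hε'0
  have hw : Cls D.R w := hw
  have hwv : ∀ y ∈ cAnn D.R, |w y - v y| ≤ ε' := by
    intro y hy
    rcases eq_or_lt_of_le hy.1 with h1 | h1
    · have : ‖y‖ = 1 := h1.symm
      rw [hw.one y this, hS.one y this]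
      simp [hε'0.le]
    · rcases eq_or_lt_of_le hy.2 with h3 | h3
      · rw [hw.zero y h3, hS.zero y h3]
        simp [hε'0.le]
      · exact (hw' y ⟨h1, h3⟩).1
  have hext : ∀ y, |ext D.R w y - ext D.R v y| ≤ ε' := by
    intro y
    unfold ext
    split_ifs with h1 h3
    · simp [hε'0.le]
    · exact hwv y ⟨not_lt.1 h1, h3⟩
    · simp [hε'0.le]
  have hηs := sr_etad_supp hOk
  have hηc : Continuous D'.etad := hm.smooth.continuous
  have hηi : Integrable D'.etad := hηc.integrable_of_hasCompactSupport hηs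
  have hηi' : Integrable fun y => D'.etad (x - y) := hηi.comp_sub_left x
  have hη1 : ∫ y, D'.etad (x - y) = 1 := by
    rw [integral_sub_left_eq_self D'.etad volume x]
    exact hm.int
  have iw : Integrable fun y => ext D.R w y * D'.etad (x - y) := by
    refine Integrable.mono' (hηi'.const_mul 2)
      ((m7_ext_meas hw).aestronglyMeasurable.mul hηi'.aestronglyMeasurable)
      (Eventually.of_forall fun y => ?_)
    rw [Real.norm_eq_abs, abs_mul, abs_of_nonneg (hm.nonneg _)]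
    exact mul_le_mul_of_nonneg_right (m7_ext_bd hw _) (hm.nonneg _)
  have iv : Integrable fun y => ext D.R v y * D'.etad (x - y) := by
    have hvi : Integrable (ext D.R v) := sr_ext_int hS.cont
    refine Integrable.mono' (hηi'.const_mul 1)
      (hvi.aestronglyMeasurable.mul hηi'.aestronglyMeasurable)
      (Eventually.of_forall fun y => ?_)
    rw [Real.norm_eq_abs, abs_mul, abs_of_nonneg (hm.nonneg _), abs_of_nonneg (sr_ext_nonneg (R := D.R) hS.nonneg y)]
    exact mul_le_mul_of_nonneg_right (sr_ext_le (R := D.R) hS.le_one y) (hm.nonneg _)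
  have hdiff : |(∫ y, ext D.R w y * D'.etad (x - y)) - D'.vd v x| ≤ ε' := by
    have e1 : (∫ y, ext D.R w y * D'.etad (x - y)) - D'.vd v x =
        ∫ y, (ext D.R w y - ext D.R v y) * D'.etad (x - y) := by
      have : D'.vd v x = ∫ y, ext D.R v y * D'.etad (x - y) := rfl
      rw [this, ← integral_sub iw iv]
      refine integral_congr_ae (Eventually.of_forall fun y => ?_)
      show ext D.R w y * D'.etad (x - y) - ext D.R v y * D'.etad (x - y) = _
      ring
    rw [e1]
    refine abs_integral_le_integral_abs.trans ?_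
    calc ∫ y, |(ext D.R w y - ext D.R v y) * D'.etad (x - y)| ≤ ∫ y, ε' * D'.etad (x - y) := by
          refine integral_mono_of_nonneg (Eventually.of_forall fun y => abs_nonneg _)
            (hηi'.const_mul _) (Eventually.of_forall fun y => ?_)
          show |(ext D.R w y - ext D.R v y) * D'.etad (x - y)| ≤ ε' * D'.etad (x - y)
          rw [abs_mul, abs_of_nonneg (hm.nonneg _)]
          exact mul_le_mul_of_nonneg_right (hext y) (hm.nonneg _)
      _ = ε' := by rw [integral_const_mul, hη1, mul_one]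
  have h8 := h7 d D'.etad w hd hm hmM hw x hx
  have h9 : ∫ x in Ann D.R, vsq (D1 w x) ^ 2 ≤ 8 * C2 + 72 * V := by
    have j1 : IntegrableOn (fun x => 8 * vsq (D1 v x) ^ 2 + 72) (Ann D.R) :=
      (i5.const_mul 8).add (integrableOn_const (UMB.Lin.volume_Ann_lt_top D.R).ne)
    calc ∫ x in Ann D.R, vsq (D1 w x) ^ 2 ≤ ∫ x in Ann D.R, (8 * vsq (D1 v x) ^ 2 + 72) := by
          refine integral_mono_of_nonneg (Eventually.of_forall fun x => sq_nonneg _) j1 ?_
          filter_upwards [ae_restrict_mem (UMB.Lin.measurableSet_Ann D.R)] with y hy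
          exact m8_vsq_le (hw' y hy).2.1 hε'1
      _ = 8 * (∫ x in Ann D.R, vsq (D1 v x) ^ 2) + 72 * V := by
          rw [integral_add (i5.const_mul 8) (integrableOn_const (UMB.Lin.volume_Ann_lt_top D.R).ne),
            integral_const_mul]
          simp [hV, Measure.real]
          ring
      _ ≤ _ := by gcongr
  have h10 : |(∫ y, ext D.R w y * D'.etad (x - y)) - w x| ≤
      C7 * d ^ (1 / 4 : ℝ) * (8 * C2 + 72 * V) ^ (1 / 4 : ℝ) := by
    refine h8.trans (mul_le_mul_of_nonneg_left ?_ (by positivity))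
    refine Real.rpow_le_rpow ?_ h9 (by norm_num)
    exact integral_nonneg fun x => sq_nonneg _
  have h11 := hwv x hx
  have h12 : |D'.vd v x - v x| ≤ |(∫ y, ext D.R w y * D'.etad (x - y)) - D'.vd v x| +
      |(∫ y, ext D.R w y * D'.etad (x - y)) - w x| + |w x - v x| := by
    set A := ∫ y, ext D.R w y * D'.etad (x - y)
    have e : D'.vd v x - v x = -(A - D'.vd v x) + (A - w x) + (w x - v x) := by ring
    rw [e]
    refine (abs_add_le _ _).trans (add_le_add_left ?_ _)
    refine (abs_add_le _ _).trans (le_of_eq ?_)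
    rw [abs_neg]
  have e5 : C7 * (8 * C2 + 72 * V) ^ (1 / 4 : ℝ) * d ^ (1 / 4 : ℝ) =
      C7 * d ^ (1 / 4 : ℝ) * (8 * C2 + 72 * V) ^ (1 / 4 : ℝ) := by ring
  rw [e5]
  linarith

end UMB.W
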