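import Pool.Agent.Lib.UMB.W.Defs

/-!
# UMB.W: from the solution `v` to `θ = F(v)`, the error `e`; solutions of the mollified problem
-/

set_option autoImplicit false

open Filter Topology Set MeasureTheory
open scoped ContDiff BigOperators
open Pool.Agent.Lib.PenroseSph (E3 Tens pd)
open UMB.Lin (Ann cAnn sig)

namespace UMB.W

/-- Exponent function: smooth, `1 < p0 ≤ p ≤ 2`. -/
structure Expo (p0 : ℝ) (p : ℝ → ℝ) : Prop where
  one_lt : 1 < p0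
  smooth : ContDiff ℝ ∞ p
  ge : ∀ z, p0 ≤ p z
  le : ∀ z, p z ≤ 2

/-- `(3-p)/(p-1)`. -/
noncomputable def kt (p : ℝ → ℝ) (z : ℝ) : ℝ := (3 - p z) / (p z - 1)

/-- `K(z) = ∫_0^z kt`. -/
noncomputable def KK (p : ℝ → ℝ) (z : ℝ) : ℝ := ∫ t in (0 : ℝ)..z, kt p t

/-- `F(z) = ∫_z^1 1/(K+κ)`. -/
noncomputable def FF (p : ℝ → ℝ) (κ z : ℝ) : ℝ := ∫ t in z..(1 : ℝ), (KK p t + κ)⁻¹

/-- `θ = F(v)`. -/
noncomputable def theta (p : ℝ → ℝ) (κ : ℝ) (v : E3 → ℝ) (x : E3) : ℝ := FF p κ (v x)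

/-- The matrix `Mh = D²θ - Γ dθ + 2 dθ dθ - y² g - y k` for a covariant metric `gc`, `y = sqrt (G(dθ,dθ))`. -/
noncomputable def Mh (G gc k : Matrix (Fin 3) (Fin 3) ℝ) (Gam : Fin 3 → Matrix (Fin 3) (Fin 3) ℝ)
    (t1 : Fin 3 → ℝ) (t2 : Matrix (Fin 3) (Fin 3) ℝ) : Matrix (Fin 3) (Fin 3) ℝ := fun i j =>
  t2 i j - ∑ m, Gam m i j * t1 m + 2 * t1 i * t1 j - q1 G t1 * gc i j - Real.sqrt (q1 G t1) * k i j

/-- The size function of the misalignment: `min (|dv|, eps + 2 |q - dv|)` in the metric `G`. -/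
noncomputable def rho (G : Matrix (Fin 3) (Fin 3) ℝ) (eps : ℝ) (q u : Fin 3 → ℝ) : ℝ :=
  min (Real.sqrt (q1 G u)) (eps + 2 * Real.sqrt (q1 G (fun i => q i - u i)))

/-- A solution of the mollified problem, smooth inside, of class `C³` near the closed annulus, with uniform approximation by test
functions up to second order. -/
structure Sol (D : OpData) (v : E3 → ℝ) : Prop where
  cont : ContinuousOn v (cAnn D.R)
  smooth : ContDiffOn ℝ ∞ v (Ann D.R)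
  one : ∀ x : E3, ‖x‖ = 1 → v x = 1
  zero : ∀ x : E3, ‖x‖ = D.R → v x = 0
  nonneg : ∀ x ∈ cAnn D.R, 0 ≤ v x
  le_one : ∀ x ∈ cAnn D.R, v x ≤ 1
  solves : D.Solves v
  approx : ∀ ε : ℝ, 0 < ε → ∃ w : E3 → ℝ, Cls D.R w ∧ ∀ x ∈ Ann D.R, |w x - v x| ≤ ε ∧
    (∀ i, |D1 w x i - D1 v x i| ≤ ε) ∧ ∀ i j, |D2 w x i j - D2 v x i j| ≤ ε
  near : ∃ U : Set E3, IsOpen U ∧ cAnn D.R ⊆ U ∧ ContDiffOn ℝ 3 v U

/-- Change of the small parameters and of the mollifier. -/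
def OpData.upd (D : OpData) (eps d : ℝ) (eta : E3 → ℝ) : OpData := { D with eps := eps, d := d, eta := eta }

end UMB.W
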