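import Pool.Agent.Lib.UMB.W.EDefs

/-! # UMB.W chunk E2: the algebra of the error -/

set_option autoImplicit false

open Filter Topology Set MeasureTheory
open scoped ContDiff BigOperators
open Pool.Agent.Lib.PenroseSph (E3 Tens pd)
open UMB.Lin (Ann cAnn sig)

namespace UMB.W

theorem e2_q1_smul (G : Matrix (Fin 3) (Fin 3) ℝ) (u : Fin 3 → ℝ) (c : ℝ) :
    q1 G (fun i => c * u i) = c ^ 2 * q1 G u := by
  simp only [q1, Finset.mul_sum]
  refine Finset.sum_congr rfl fun i _ => Finset.sum_congr rfl fun j _ => ?_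
  ring

theorem e2_trgc {G gc a : Matrix (Fin 3) (Fin 3) ℝ} {n : Fin 3 → ℝ} {P : ℝ}
    (hgs : ∀ i j, gc i j = gc j i)
    (hgc : ∀ i j, ∑ l, G i l * gc l j = if i = j then 1 else 0)
    (ha : ∀ i j, a i j = G i j + (P - 2) * n i * n j) :
    tr2 a gc = 3 + (P - 2) * q1 gc n := by
  have h1 : tr2 G gc = 3 := by
    have h2 : tr2 G gc = ∑ i : Fin 3, ∑ l, G i l * gc l i := by
      simp only [tr2]
      refine Finset.sum_congr rfl fun i _ => Finset.sum_congr rfl fun j _ => ?_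
      rw [hgs i j]
    rw [h2]
    simp [hgc]
  have h3 : tr2 a gc = tr2 G gc + (P - 2) * q1 gc n := by
    simp only [tr2, q1, Finset.mul_sum, ← Finset.sum_add_distrib]
    refine Finset.sum_congr rfl fun i _ => Finset.sum_congr rfl fun j _ => ?_
    rw [ha]
    ring
  rw [h3, h1]

theorem e2_lin (a B k gc : Matrix (Fin 3) (Fin 3) ℝ) (Gam : Fin 3 → Matrix (Fin 3) (Fin 3) ℝ) (u : Fin 3 → ℝ)
    (φ t q s : ℝ) :
    tr2 a (fun i j => (- φ * B i j + t * φ ^ 2 * u i * u j) - ∑ m, Gam m i j * (- φ * u m)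
        + 2 * (- φ * u i) * (- φ * u j) - q * gc i j - s * k i j)
      = - φ * tr2 a B + (t + 2) * φ ^ 2 * q1 a u + φ * ∑ m, tr2 a (Gam m) * u m - q * tr2 a gc - s * tr2 a k := by
  simp only [tr2, q1, Fin.sum_univ_three]
  ring

/-- **E2.** Pure algebra: `a = G + (P-2) n n`, `gc` inverse of `G`, `u = dv`, `B = D²v`, `φ = 1/(K+κ) ≥ 0`, `s = √G(u,u)`,
equation `a:B + ∑ (-a:Γ_i + (a:k) n_i) u_i = 0`; `θ_i = -φ u_i`, `θ_ij = -φ B_ij + t φ² u_i u_j`. Then `G(dθ,dθ) = φ² s²`,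
`√(G(dθ,dθ)) = φ s`, `a:gc = 3 + (P-2) gc(n,n)`. -/
theorem e_alg {G gc k B a : Matrix (Fin 3) (Fin 3) ℝ} {Gam : Fin 3 → Matrix (Fin 3) (Fin 3) ℝ} {n u : Fin 3 → ℝ}
    {P φ t : ℝ} (hφ : 0 ≤ φ) (hG : ∀ i j, G i j = G j i) (hgs : ∀ i j, gc i j = gc j i)
    (hgc : ∀ i j, ∑ l, G i l * gc l j = if i = j then 1 else 0)
    (ha : ∀ i j, a i j = G i j + (P - 2) * n i * n j) (hu : 0 ≤ q1 G u)
    (heq : tr2 a B + ∑ i, (- tr2 a (Gam i) + tr2 a k * n i) * u i = 0) :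
    tr2 a (Mh G gc k Gam (fun i => - φ * u i) (fun i j => - φ * B i j + t * φ ^ 2 * u i * u j))
      = φ * tr2 a k * ((∑ i, n i * u i) - Real.sqrt (q1 G u))
        + φ ^ 2 * ((t + 2) * q1 a u - q1 G u * (3 + (P - 2) * q1 gc n)) := by
  have h1 : q1 G (fun i => - φ * u i) = φ ^ 2 * q1 G u := by
    rw [e2_q1_smul]
    ring
  have h2 : Real.sqrt (φ ^ 2 * q1 G u) = φ * Real.sqrt (q1 G u) := by
    rw [Real.sqrt_mul (sq_nonneg φ), Real.sqrt_sq hφ]
  have h3 : Mh G gc k Gam (fun i => - φ * u i) (fun i j => - φ * B i j + t * φ ^ 2 * u i * u j)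
      = fun i j => (- φ * B i j + t * φ ^ 2 * u i * u j) - ∑ m, Gam m i j * (- φ * u m)
        + 2 * (- φ * u i) * (- φ * u j) - (φ ^ 2 * q1 G u) * gc i j - (φ * Real.sqrt (q1 G u)) * k i j := by
    funext i j
    simp only [Mh, h1, h2]
  rw [h3, e2_lin, e2_trgc hgs hgc ha]
  have h4 : ∑ i, (- tr2 a (Gam i) + tr2 a k * n i) * u i
      = - (∑ m, tr2 a (Gam m) * u m) + tr2 a k * ∑ i, n i * u i := by
    rw [Finset.mul_sum, ← Finset.sum_neg_distrib, ← Finset.sum_add_distrib]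
    refine Finset.sum_congr rfl fun i _ => ?_
    ring
  rw [h4] at heq
  linear_combination (-φ) * heq

end UMB.W
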