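import Pool.Agent.Lib.UMB.W.E3

/-! # UMB.W chunk E4: the size of the error -/

set_option autoImplicit false

open Filter Topology Set MeasureTheory
open scoped ContDiff BigOperators
open Pool.Agent.Lib.PenroseSph (E3 Tens pd)
open UMB.Lin (Ann cAnn sig)

namespace UMB.W

theorem e4_q1_rank (G a : Matrix (Fin 3) (Fin 3) ℝ) (n u : Fin 3 → ℝ) (P : ℝ)
    (ha : ∀ i j, a i j = G i j + (P - 2) * n i * n j) :
    q1 a u = q1 G u + (P - 2) * (∑ i, n i * u i) ^ 2 := by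
  unfold q1
  simp only [ha, Fin.sum_univ_three]
  ring

theorem e4_q1_nonneg {G : Matrix (Fin 3) (Fin 3) ℝ} (hp : ∀ u : Fin 3 → ℝ, u ≠ 0 → 0 < q1 G u)
    (u : Fin 3 → ℝ) : 0 ≤ q1 G u := by
  by_cases h : u = 0
  · subst h
    simp [q1]
  · exact (hp u h).le

/-- **E4.** `t = (3-p)/(p-1)`, `P` any number in `[1,2]`. With `q1 a u = G(u,u) + (P-2)(n·u)²`:
`(t+2) q1 a u - s²(3+(P-2)|n|²) = s² ((t+2)(P-1) - (P+1)) - (P-2)(t+2)(s² - (n·u)²) + (P-2) s² (1 - |n|²)` and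
`(t+2)(P-1) - (P+1) = (t+1)(P-p)`; `s² - (n·u)² = (s - n·u)(s + n·u) ≤ 2ρ·2s` (E3a). -/
theorem e_size {G gc k a : Matrix (Fin 3) (Fin 3) ℝ} (hG : ∀ i j, G i j = G j i) (hgs : ∀ i j, gc i j = gc j i)
    (hgc : ∀ i j, ∑ l, G i l * gc l j = if i = j then 1 else 0)
    (hp : ∀ u : Fin 3 → ℝ, u ≠ 0 → 0 < q1 G u)
    {eps : ℝ} (he : 0 < eps) (q u : Fin 3 → ℝ) {n : Fin 3 → ℝ}
    (hn : ∀ i, n i = (∑ j, G i j * q j) / Real.sqrt (q1 G q + eps ^ 2))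
    {P p φ t : ℝ} (hP1 : 1 ≤ P) (hP2 : P ≤ 2) (hp1 : 1 < p) (hp2 : p ≤ 2) (ht : t = (3 - p) / (p - 1)) (hφ : 0 ≤ φ)
    (ha : ∀ i j, a i j = G i j + (P - 2) * n i * n j) :
    |φ * tr2 a k * ((∑ i, n i * u i) - Real.sqrt (q1 G u))
        + φ ^ 2 * ((t + 2) * q1 a u - q1 G u * (3 + (P - 2) * q1 gc n))|
      ≤ 2 * φ * |tr2 a k| * rho G eps q u
        + φ ^ 2 * ((t + 1) * q1 G u * |P - p| + (4 * t + 10) * Real.sqrt (q1 G u) * rho G eps q u) := by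
  obtain ⟨h1, h2⟩ := mis1 hG hp he q u hn
  obtain ⟨h3, -⟩ := mis1 hG hp he q (fun i => - u i) hn
  obtain ⟨h4, h5⟩ := mis2 hG hgs hgc hp he q u hn
  have e1 : q1 G (fun i => - u i) = q1 G u := by
    unfold q1
    refine Finset.sum_congr rfl fun i _ => Finset.sum_congr rfl fun j _ => ?_
    ring
  have e2 : ∑ i, n i * (- u i) = - ∑ i, n i * u i := by
    simp only [mul_neg, Finset.sum_neg_distrib]
  rw [e1, e2] at h3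
  rw [e4_q1_rank G a n u P ha]
  have hq0 := e4_q1_nonneg hp u
  have hs2 : Real.sqrt (q1 G u) ^ 2 = q1 G u := Real.sq_sqrt hq0
  set s := Real.sqrt (q1 G u)
  have hs0 : 0 ≤ s := Real.sqrt_nonneg _
  set c := ∑ i, n i * u i
  set r := rho G eps q u
  set N := q1 gc n
  set τ := tr2 a k
  rw [← hs2] at h5 ⊢
  have hr0 : 0 ≤ r := by linarith
  have hp10 : 0 < p - 1 := by linarith
  have ht0 : 0 ≤ t := by
    rw [ht]
    apply div_nonneg <;> linarith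
  have hid : (t + 2) * (P - 1) - (P + 1) = (t + 1) * (P - p) := by
    rw [ht]
    field_simp
    ring
  have e3 : (t + 2) * (s ^ 2 + (P - 2) * c ^ 2) - s ^ 2 * (3 + (P - 2) * N) =
      (t + 1) * s ^ 2 * (P - p) + (2 - P) * ((t + 2) * ((s - c) * (s + c)) - s ^ 2 * (1 - N)) := by
    have : (t + 2) * (s ^ 2 + (P - 2) * c ^ 2) - s ^ 2 * (3 + (P - 2) * N) =
      s ^ 2 * ((t + 2) * (P - 1) - (P + 1)) +
      (2 - P) * ((t + 2) * ((s - c) * (s + c)) - s ^ 2 * (1 - N)) := by ring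
    rw [this, hid]
    ring
  rw [e3]
  have b1 : |φ * τ * (c - s)| ≤ 2 * φ * |τ| * r := by
    rw [abs_mul, abs_mul, abs_of_nonneg hφ, abs_sub_comm, abs_of_nonneg h1]
    have := mul_le_mul_of_nonneg_left h2 (mul_nonneg hφ (abs_nonneg τ))
    linarith
  have b2 : |(t + 1) * s ^ 2 * (P - p)| = (t + 1) * s ^ 2 * |P - p| := by
    rw [abs_mul, abs_of_nonneg (by positivity)]
  have b3 : |(2 - P) * ((t + 2) * ((s - c) * (s + c)) - s ^ 2 * (1 - N))| ≤ (4 * t + 10) * s * r := by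
    have c1 : 0 ≤ (s - c) * (s + c) := mul_nonneg h1 (by linarith)
    have c2 : (s - c) * (s + c) ≤ (2 * r) * (2 * s) :=
      mul_le_mul h2 (by linarith) (by linarith) (by positivity)
    have c3 : 0 ≤ s ^ 2 * (1 - N) := mul_nonneg (sq_nonneg _) (by linarith)
    have c4 : (t + 2) * ((s - c) * (s + c)) ≤ (t + 2) * ((2 * r) * (2 * s)) :=
      mul_le_mul_of_nonneg_left c2 (by linarith)
    have c5 : 0 ≤ (t + 2) * ((s - c) * (s + c)) := mul_nonneg (by linarith) c1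
    have c6 : |(t + 2) * ((s - c) * (s + c)) - s ^ 2 * (1 - N)| ≤ (4 * t + 10) * s * r := by
      rw [abs_le]
      have : 0 ≤ s * r := mul_nonneg hs0 hr0
      constructor <;> nlinarith
    rw [abs_mul, abs_of_nonneg (by linarith : 0 ≤ 2 - P)]
    calc (2 - P) * |(t + 2) * ((s - c) * (s + c)) - s ^ 2 * (1 - N)| ≤ 1 * ((4 * t + 10) * s * r) :=
          mul_le_mul (by linarith) c6 (abs_nonneg _) (by norm_num)
      _ = _ := one_mul _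
  refine (abs_add_le _ _).trans (add_le_add b1 ?_)
  rw [abs_mul, abs_of_nonneg (sq_nonneg φ)]
  apply mul_le_mul_of_nonneg_left _ (sq_nonneg φ)
  refine (abs_add_le _ _).trans ?_
  rw [b2]
  linarith

/-- **E4b.** The quotient `e²/y` with `y = φ s`: `ρ ≤ s`; `x/0 = 0` in Lean, and `e = 0` if `s = 0`.
Here `e ≤ A φ ρ + φ² (T s² δ + T s ρ)`, `φ ≤ Φ`. (`(x+y+z)² ≤ 3(x²+y²+z²)`.) -/
theorem e_quot {e s φ ρ δ A T Φ : ℝ} (hs : 0 ≤ s) (hφ : 0 ≤ φ) (hΦ : φ ≤ Φ) (hρ : 0 ≤ ρ) (hρs : ρ ≤ s) (hδ : 0 ≤ δ)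
    (hδ1 : δ ≤ 1) (hA : 0 ≤ A) (hT : 0 ≤ T) (he : |e| ≤ A * φ * ρ + φ ^ 2 * (T * s ^ 2 * δ + T * s * ρ)) :
    e ^ 2 / (φ * s) ≤ 3 * (A ^ 2 * Φ * ρ + T ^ 2 * Φ ^ 3 * (s ^ 3 * δ + s ^ 2 * ρ)) := by
  have hΦ0 : 0 ≤ Φ := hφ.trans hΦ
  have hR : 0 ≤ 3 * (A ^ 2 * Φ * ρ + T ^ 2 * Φ ^ 3 * (s ^ 3 * δ + s ^ 2 * ρ)) := by positivity
  rcases eq_or_lt_of_le (mul_nonneg hφ hs) with h0 | h0
  · rw [← h0, div_zero]
    exact hR
  · rw [div_le_iff₀ h0]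
    have h1 : e ^ 2 ≤ (A * φ * ρ + φ ^ 2 * T * s ^ 2 * δ + φ ^ 2 * T * s * ρ) ^ 2 := by
      rw [← sq_abs e]
      apply pow_le_pow_left₀ (abs_nonneg _)
      linarith
    have h2 : (A * φ * ρ + φ ^ 2 * T * s ^ 2 * δ + φ ^ 2 * T * s * ρ) ^ 2 ≤
        3 * ((A * φ * ρ) ^ 2 + (φ ^ 2 * T * s ^ 2 * δ) ^ 2 + (φ ^ 2 * T * s * ρ) ^ 2) := by
      nlinarith [sq_nonneg (A * φ * ρ - φ ^ 2 * T * s ^ 2 * δ),
        sq_nonneg (A * φ * ρ - φ ^ 2 * T * s * ρ), sq_nonneg (φ ^ 2 * T * s ^ 2 * δ - φ ^ 2 * T * s * ρ)]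
    have hρ2 : ρ ^ 2 ≤ ρ * s := by
      rw [sq]
      exact mul_le_mul_of_nonneg_left hρs hρ
    have hδ2 : δ ^ 2 ≤ δ := by nlinarith
    have hφ3 : φ ^ 3 ≤ Φ ^ 3 := pow_le_pow_left₀ hφ hΦ 3
    have h3 : (A * φ * ρ) ^ 2 ≤ A ^ 2 * Φ * ρ * (φ * s) := by
      calc (A * φ * ρ) ^ 2 = (A ^ 2 * φ) * (φ * ρ ^ 2) := by ring
        _ ≤ (A ^ 2 * Φ) * (φ * (ρ * s)) := by gcongr
        _ = _ := by ring
    have h4 : (φ ^ 2 * T * s ^ 2 * δ) ^ 2 ≤ T ^ 2 * Φ ^ 3 * (s ^ 3 * δ) * (φ * s) := by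
      calc (φ ^ 2 * T * s ^ 2 * δ) ^ 2 = (T ^ 2 * φ ^ 3) * (φ * s ^ 4 * δ ^ 2) := by ring
        _ ≤ (T ^ 2 * Φ ^ 3) * (φ * s ^ 4 * δ) := by gcongr
        _ = _ := by ring
    have h5 : (φ ^ 2 * T * s * ρ) ^ 2 ≤ T ^ 2 * Φ ^ 3 * (s ^ 2 * ρ) * (φ * s) := by
      calc (φ ^ 2 * T * s * ρ) ^ 2 = (T ^ 2 * φ ^ 3) * (φ * s ^ 2 * ρ ^ 2) := by ring
        _ ≤ (T ^ 2 * Φ ^ 3) * (φ * s ^ 2 * (ρ * s)) := by gcongr
        _ = _ := by ring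
    have h6 : 3 * (A ^ 2 * Φ * ρ + T ^ 2 * Φ ^ 3 * (s ^ 3 * δ + s ^ 2 * ρ)) * (φ * s) =
        3 * (A ^ 2 * Φ * ρ * (φ * s) + T ^ 2 * Φ ^ 3 * (s ^ 3 * δ) * (φ * s) +
          T ^ 2 * Φ ^ 3 * (s ^ 2 * ρ) * (φ * s)) := by ring
    rw [h6]
    linarith

end UMB.W
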