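import Pool.Agent.Lib.UMB.W.F4
import Pool.Agent.Lib.UMB.W.E1
import Pool.Agent.Lib.UMB.W.E2
import Pool.Agent.Lib.UMB.W.E4
import Pool.Agent.Lib.UMB.W.SolReg

/-! # UMB.W chunk F5: the error integral -/

set_option autoImplicit false

open Filter Topology Set MeasureTheory
open scoped ContDiff BigOperators
open Pool.Agent.Lib.PenroseSph (E3 Tens pd)
open UMB.Lin (Ann cAnn sig)

namespace UMB.W

theorem f5_expo {D : OpData} (hD : D.Ok) : Expo D.p0 D.p :=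
  ⟨hD.one_lt_p0, hD.p_smooth, hD.p_ge, hD.p_le⟩

theorem f5_isOpen (R : ℝ) : IsOpen (Ann R) :=
  (isOpen_lt continuous_const continuous_norm).inter (isOpen_lt continuous_norm continuous_const)

theorem f5_inv {G : Matrix (Fin 3) (Fin 3) ℝ} (hG : G.IsSymm) (hp : ∀ u : Fin 3 → ℝ, u ≠ 0 → 0 < q1 G u) :
    (∀ i j, G⁻¹ i j = G⁻¹ j i) ∧ ∀ i j, ∑ l, G i l * G⁻¹ l j = if i = j then 1 else 0 := by
  have hdet : G.det ≠ 0 := by
    intro h0
    obtain ⟨u, hu, hu0⟩ := Matrix.exists_mulVec_eq_zero_iff.mpr h0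
    have h1 := hp u hu
    have h2 : q1 G u = ∑ i, u i * (G.mulVec u) i := by
      unfold q1
      refine Finset.sum_congr rfl fun i _ => ?_
      rw [Matrix.mulVec, dotProduct, Finset.mul_sum]
      refine Finset.sum_congr rfl fun j _ => ?_
      ring
    rw [h2, hu0] at h1
    simp at h1
  have hu : IsUnit G.det := isUnit_iff_ne_zero.mpr hdet
  refine ⟨fun i j => ?_, fun i j => ?_⟩
  · have h1 : G⁻¹.transpose = G⁻¹ := by
      rw [Matrix.transpose_nonsing_inv, hG]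
    calc G⁻¹ i j = G⁻¹.transpose j i := rfl
      _ = G⁻¹ j i := by rw [h1]
  · have h1 := Matrix.mul_nonsing_inv G hu
    have h2 := congrFun (congrFun h1 i) j
    rw [Matrix.mul_apply] at h2
    rw [h2, Matrix.one_apply]

theorem f5_q1_smul (G : Matrix (Fin 3) (Fin 3) ℝ) (c : ℝ) (u : Fin 3 → ℝ) :
    q1 G (fun i => c * u i) = c ^ 2 * q1 G u := by
  unfold q1
  rw [Finset.mul_sum]
  refine Finset.sum_congr rfl fun i _ => ?_
  rw [Finset.mul_sum]
  refine Finset.sum_congr rfl fun j _ => ?_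
  ring

theorem f5_q1_cont {D : OpData} (hD : D.Ok) {u : E3 → Fin 3 → ℝ}
    (hu : ∀ i, ContinuousOn (fun x => u x i) (Ann D.R)) :
    ContinuousOn (fun x => q1 (D.G x) (u x)) (Ann D.R) := by
  unfold q1
  refine continuousOn_finsetSum _ fun i _ => continuousOn_finsetSum _ fun j _ => ?_
  have hG : ContinuousOn (fun x => D.G x i j) (Ann D.R) :=
    (hD.G_smooth i j).continuousOn.mono fun x hx => lt_trans hD.a_lt hx.1
  exact (hG.mul (hu i)).mul (hu j)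

theorem f5_s_bdd {D : OpData} (hD : D.Ok) {v : E3 → ℝ} {M : ℝ} (hM : ∀ x ∈ Ann D.R, ∀ i, |D1 v x i| ≤ M) :
    ∃ S : ℝ, 0 ≤ S ∧ ∀ x ∈ Ann D.R, Real.sqrt (q1 (D.G x) (D1 v x)) ≤ S := by
  obtain ⟨B, hB, hb⟩ := exists_bd hD
  refine ⟨Real.sqrt (∑ _i : Fin 3, ∑ _j : Fin 3, B * M * M), Real.sqrt_nonneg _, fun x hx => ?_⟩
  refine Real.sqrt_le_sqrt ?_
  unfold q1
  refine Finset.sum_le_sum fun i _ => Finset.sum_le_sum fun j _ => ?_
  have h1 := (hb x ⟨hx.1.le, hx.2.le⟩).1 i j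
  have h2 := hM x hx i
  have h3 := hM x hx j
  refine (le_abs_self _).trans ?_
  rw [abs_mul, abs_mul]
  have h0 := abs_nonneg (D.G x i j)
  exact mul_le_mul (mul_le_mul h1 h2 (abs_nonneg _) hB) h3 (abs_nonneg _)
    (mul_nonneg hB ((abs_nonneg _).trans h2))

theorem f5_rho_cont {D : OpData} (hD : D.Ok) {eps d : ℝ} {eta : E3 → ℝ} (hU : (OpData.upd D eps d eta).Ok) {v : E3 → ℝ}
    (hv : Sol (OpData.upd D eps d eta) v) :
    ContinuousOn (fun x => rho (D.G x) eps ((OpData.upd D eps d eta).qd v x) (D1 v x)) (Ann D.R) := by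
  have h1 : ∀ i, ContinuousOn (fun x => D1 v x i) (Ann D.R) := sr_D1_cont hv.smooth
  have h2 : ∀ i, ContinuousOn (fun x => (OpData.upd D eps d eta).qd v x i - D1 v x i) (Ann D.R) := fun i =>
    (sr_qd_cont hU hv.cont i).continuousOn.sub (h1 i)
  have h3 := (f5_q1_cont hD h1).sqrt
  have h4 := (f5_q1_cont hD (u := fun x i => (OpData.upd D eps d eta).qd v x i - D1 v x i) h2).sqrt
  unfold rho
  exact ContinuousOn.inf h3 (continuousOn_const.add (continuousOn_const.mul h4))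

theorem f5_int {D : OpData} (hD : D.Ok) {eps d : ℝ} {eta : E3 → ℝ} (hU : (OpData.upd D eps d eta).Ok) {v : E3 → ℝ}
    (hv : Sol (OpData.upd D eps d eta) v) :
    IntegrableOn (fun x => rho (D.G x) eps ((OpData.upd D eps d eta).qd v x) (D1 v x)
        + Real.sqrt (q1 (D.G x) (D1 v x)) ^ 2 * rho (D.G x) eps ((OpData.upd D eps d eta).qd v x) (D1 v x)
        + Real.sqrt (q1 (D.G x) (D1 v x)) ^ 3 * |D.p ((OpData.upd D eps d eta).vd v x) - D.p (v x)|)
      (Ann D.R) := by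
  obtain ⟨M, hM, h1, -⟩ := sr_bdd hv
  obtain ⟨S, hS, h2⟩ := f5_s_bdd hD (v := v) (M := M) h1
  have heps : 0 < eps := hU.eps_pos
  have hs := (f5_q1_cont hD (u := fun x => D1 v x) (sr_D1_cont (R := D.R) hv.smooth)).sqrt
  have hr := f5_rho_cont hD hU hv
  have hvd : ContinuousOn (fun x => D.p ((OpData.upd D eps d eta).vd v x)) (Ann D.R) :=
    (hD.p_smooth.continuous.comp (sr_vd_cont hU hv.cont)).continuousOn
  have hpv : ContinuousOn (fun x => D.p (v x)) (Ann D.R) :=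
    hD.p_smooth.continuous.comp_continuousOn (s := Ann D.R) (f := v) hv.smooth.continuousOn
  refine sr_intOn (M := S + S ^ 2 * S + S ^ 3 * 1) ((hr.add ((hs.pow 2).mul hr)).add ((hs.pow 3).mul (hvd.sub hpv).abs))
    fun x hx => ?_
  have hρ0 : 0 ≤ rho (D.G x) eps ((OpData.upd D eps d eta).qd v x) (D1 v x) :=
    le_min (Real.sqrt_nonneg _) (by positivity)
  have hρs : rho (D.G x) eps ((OpData.upd D eps d eta).qd v x) (D1 v x) ≤ S :=
    (min_le_left _ _).trans (h2 x hx)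
  have hδ : |D.p ((OpData.upd D eps d eta).vd v x) - D.p (v x)| ≤ 1 := by
    have hP1 := hD.p_ge ((OpData.upd D eps d eta).vd v x)
    have hP2 := hD.p_le ((OpData.upd D eps d eta).vd v x)
    have hp1 := hD.p_ge (v x)
    have hp2 := hD.p_le (v x)
    have hp0 := hD.one_lt_p0
    rw [abs_le]; constructor <;> linarith
  have hs0 := Real.sqrt_nonneg (q1 (D.G x) (D1 v x))
  have hsS := h2 x hx
  have hδ0 := abs_nonneg (D.p ((OpData.upd D eps d eta).vd v x) - D.p (v x))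
  rw [abs_of_nonneg (by positivity)]
  gcongr

/-- the pointwise estimate -/
theorem f5_pt {D : OpData} (hD : D.Ok) {B : ℝ} (hB : 0 ≤ B) {eps d : ℝ} {eta : E3 → ℝ}
    (hU : (OpData.upd D eps d eta).Ok) {v : E3 → ℝ} (hv : Sol (OpData.upd D eps d eta) v) {κ : ℝ} (hκ : 0 < κ)
    {x : E3} (hx : x ∈ Ann D.R) (hk : |tr2 ((OpData.upd D eps d eta).aa v x) (D.k x)| ≤ B) :
    tr2 ((OpData.upd D eps d eta).aa v x)
          (Mh (D.G x) (D.G x)⁻¹ (D.k x) (fun m => D.Gam m x) (D1 (theta D.p κ v) x) (D2 (theta D.p κ v) x)) ^ 2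
        / Real.sqrt (q1 (D.G x) (D1 (theta D.p κ v) x))
      ≤ 3 * ((2 * B) ^ 2 * κ⁻¹ * rho (D.G x) eps ((OpData.upd D eps d eta).qd v x) (D1 v x)
        + (8 / (D.p0 - 1) + 10) ^ 2 * κ⁻¹ ^ 3 *
          (Real.sqrt (q1 (D.G x) (D1 v x)) ^ 3 * |D.p ((OpData.upd D eps d eta).vd v x) - D.p (v x)|
            + Real.sqrt (q1 (D.G x) (D1 v x)) ^ 2 * rho (D.G x) eps ((OpData.upd D eps d eta).qd v x) (D1 v x))) := by
  have hE := f5_expo hD
  have hxa : D.a < ‖x‖ := lt_trans hD.a_lt hx.1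
  have hxc : x ∈ cAnn D.R := ⟨hx.1.le, hx.2.le⟩
  have hG : ∀ i j, D.G x i j = D.G x j i := fun i j => (hD.G_symm x hxa).apply j i
  obtain ⟨hgs, hgc⟩ := f5_inv (hD.G_symm x hxa) (hD.G_pos x hxa)
  have hpos := hD.G_pos x hxa
  have heps : 0 < eps := hU.eps_pos
  have hv0 : 0 ≤ v x := hv.nonneg x hxc
  have hvU : ∀ y ∈ Ann D.R, 0 ≤ v y := fun y hy => hv.nonneg y ⟨hy.1.le, hy.2.le⟩
  have hvs : ContDiffOn ℝ ∞ v (Ann D.R) := hv.smooth
  have hK := (KK_bd hE hv0).1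
  have hKκ : 0 < KK D.p (v x) + κ := by linarith
  set φ : ℝ := (KK D.p (v x) + κ)⁻¹ with hφd
  have hφ : 0 ≤ φ := inv_nonneg.mpr hKκ.le
  have hφκ : φ ≤ κ⁻¹ := inv_anti₀ hκ (by linarith)
  have hkt := kt_bd hE (v x)
  have h1 : D1 (theta D.p κ v) x = fun i => - φ * D1 v x i := by
    funext i
    exact D1_theta hE hκ (f5_isOpen _) hvs hvU hx i
  have h2 : D2 (theta D.p κ v) x = fun i j => - φ * D2 v x i j + kt D.p (v x) * φ ^ 2 * D1 v x i * D1 v x j := by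
    funext i j
    exact D2_theta hE hκ (f5_isOpen _) hvs hvU hx i j
  have hq0 : 0 ≤ q1 (D.G x) (D1 v x) := by
    by_cases hu : D1 v x = 0
    · rw [hu]; simp [q1]
    · exact (hpos _ hu).le
  have hsq : Real.sqrt (q1 (D.G x) (D1 (theta D.p κ v) x)) = φ * Real.sqrt (q1 (D.G x) (D1 v x)) := by
    rw [h1, f5_q1_smul, neg_sq, Real.sqrt_mul (sq_nonneg _), Real.sqrt_sq hφ]
  have halg := e_alg (G := D.G x) (gc := (D.G x)⁻¹) (k := D.k x) (B := D2 v x)
    (a := (OpData.upd D eps d eta).aa v x) (Gam := fun m => D.Gam m x) (n := (OpData.upd D eps d eta).nn v x)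
    (u := D1 v x) (P := D.p ((OpData.upd D eps d eta).vd v x)) (φ := φ) (t := kt D.p (v x)) hφ hG hgs hgc
    (fun i j => rfl) hq0 (hv.solves x hx)
  have hρ0 : 0 ≤ rho (D.G x) eps ((OpData.upd D eps d eta).qd v x) (D1 v x) :=
    le_min (Real.sqrt_nonneg _) (by positivity)
  have hρs : rho (D.G x) eps ((OpData.upd D eps d eta).qd v x) (D1 v x) ≤ Real.sqrt (q1 (D.G x) (D1 v x)) :=
    min_le_left _ _
  have hP1 := hD.p_ge ((OpData.upd D eps d eta).vd v x)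
  have hP2 := hD.p_le ((OpData.upd D eps d eta).vd v x)
  have hp1 := hD.p_ge (v x)
  have hp2 := hD.p_le (v x)
  have hp0 := hD.one_lt_p0
  have hsize := e_size (G := D.G x) (gc := (D.G x)⁻¹) (k := D.k x)
    (a := (OpData.upd D eps d eta).aa v x) hG hgs hgc hpos heps ((OpData.upd D eps d eta).qd v x) (D1 v x)
    (n := (OpData.upd D eps d eta).nn v x) (fun i => rfl) (P := D.p ((OpData.upd D eps d eta).vd v x))
    (p := D.p (v x)) (φ := φ) (t := kt D.p (v x)) (by linarith) hP2 (by linarith) hp2 rfl hφ (fun i j => rfl)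
  rw [hsq, h1, h2, halg]
  refine e_quot (T := 8 / (D.p0 - 1) + 10) (A := 2 * B) (Real.sqrt_nonneg _) hφ hφκ hρ0 hρs (abs_nonneg _) ?_ ?_ ?_ ?_
  · rw [abs_le]; constructor <;> linarith
  · positivity
  · have : 0 < D.p0 - 1 := by linarith
    positivity
  · refine hsize.trans ?_
    have ht1 : kt D.p (v x) + 1 ≤ 8 / (D.p0 - 1) + 10 := by
      have : 0 < 2 / (D.p0 - 1) := by
        have : 0 < D.p0 - 1 := by linarith
        positivity
      have h8 : 8 / (D.p0 - 1) = 4 * (2 / (D.p0 - 1)) := by ring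
      rw [h8]
      linarith [hkt.2]
    have ht2 : 4 * kt D.p (v x) + 10 ≤ 8 / (D.p0 - 1) + 10 := by
      have h8 : 8 / (D.p0 - 1) = 4 * (2 / (D.p0 - 1)) := by ring
      rw [h8]
      linarith [hkt.2]
    have hss : q1 (D.G x) (D1 v x) = Real.sqrt (q1 (D.G x) (D1 v x)) ^ 2 := (Real.sq_sqrt hq0).symm
    set s := Real.sqrt (q1 (D.G x) (D1 v x)) with hs
    set ρ := rho (D.G x) eps ((OpData.upd D eps d eta).qd v x) (D1 v x) with hρ
    set δ := |D.p ((OpData.upd D eps d eta).vd v x) - D.p (v x)| with hδ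
    have hs0 : 0 ≤ s := Real.sqrt_nonneg _
    have hδ0 : 0 ≤ δ := abs_nonneg _
    rw [hss]
    have e1 : 2 * φ * |tr2 ((OpData.upd D eps d eta).aa v x) (D.k x)| * ρ ≤ 2 * B * φ * ρ := by
      have := mul_le_mul_of_nonneg_left hk (mul_nonneg (by norm_num : (0:ℝ) ≤ 2) hφ)
      have := mul_le_mul_of_nonneg_right this hρ0
      linarith
    have e2 : (kt D.p (v x) + 1) * s ^ 2 * δ ≤ (8 / (D.p0 - 1) + 10) * s ^ 2 * δ :=
      mul_le_mul_of_nonneg_right (mul_le_mul_of_nonneg_right ht1 (sq_nonneg s)) hδ0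
    have e3 : (4 * kt D.p (v x) + 10) * s * ρ ≤ (8 / (D.p0 - 1) + 10) * s * ρ :=
      mul_le_mul_of_nonneg_right (mul_le_mul_of_nonneg_right ht2 hs0) hρ0
    have e4 := mul_le_mul_of_nonneg_left (add_le_add e2 e3) (sq_nonneg φ)
    linarith

/-- **F5. The error integral.** `κ > 0` is arbitrary (it may depend on `v`), `gc` the inverse of `G`.
E1, E2 give `a : Mh = e` pointwise, E4, E4b, F1 (`|a:k| ≤ B`), `φ = (K+κ)⁻¹ ≤ κ⁻¹`, F4. (`kt + 1, 4 kt + 10 ≤ 18/(p0-1)`.) -/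
theorem e_int {D : OpData} (hD : D.Ok) : ∃ C : ℝ, 0 ≤ C ∧ ∀ (eps d : ℝ) (eta : E3 → ℝ), (OpData.upd D eps d eta).Ok →
    d ≤ 1 → eps ≤ 1 → ∀ v : E3 → ℝ, Sol (OpData.upd D eps d eta) v → ∀ κ : ℝ, 0 < κ →
      ∫ x in Ann D.R, tr2 ((OpData.upd D eps d eta).aa v x)
          (Mh (D.G x) (D.G x)⁻¹ (D.k x) (fun m => D.Gam m x) (D1 (theta D.p κ v) x) (D2 (theta D.p κ v) x)) ^ 2
        / Real.sqrt (q1 (D.G x) (D1 (theta D.p κ v) x))
      ≤ C * (κ⁻¹ + κ⁻¹ ^ 3) * (eps + d ^ (1 / 4 : ℝ)) := by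
  obtain ⟨B, hB, hBd⟩ := coeff_bd hD
  obtain ⟨C4, hC4, h4⟩ := err_int hD
  refine ⟨3 * ((2 * B) ^ 2 + (8 / (D.p0 - 1) + 10) ^ 2) * C4, by positivity, ?_⟩
  intro eps d eta hU hd he v hv κ hκ
  have hI := h4 eps d eta hU hd he v hv
  have hint := f5_int hD hU hv
  set W : ℝ := 3 * ((2 * B) ^ 2 + (8 / (D.p0 - 1) + 10) ^ 2) * (κ⁻¹ + κ⁻¹ ^ 3) with hW
  have hκi : 0 < κ⁻¹ := inv_pos.mpr hκ
  have hW0 : 0 ≤ W := by positivity
  have hmono : ∫ x in Ann D.R, tr2 ((OpData.upd D eps d eta).aa v x)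
          (Mh (D.G x) (D.G x)⁻¹ (D.k x) (fun m => D.Gam m x) (D1 (theta D.p κ v) x) (D2 (theta D.p κ v) x)) ^ 2
        / Real.sqrt (q1 (D.G x) (D1 (theta D.p κ v) x))
      ≤ ∫ x in Ann D.R, W * (rho (D.G x) eps ((OpData.upd D eps d eta).qd v x) (D1 v x)
        + Real.sqrt (q1 (D.G x) (D1 v x)) ^ 2 * rho (D.G x) eps ((OpData.upd D eps d eta).qd v x) (D1 v x)
        + Real.sqrt (q1 (D.G x) (D1 v x)) ^ 3 * |D.p ((OpData.upd D eps d eta).vd v x) - D.p (v x)|) := by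
    refine integral_mono_of_nonneg ?_ (Integrable.const_mul hint W) ?_
    · exact Eventually.of_forall fun x => div_nonneg (sq_nonneg _) (Real.sqrt_nonneg _)
    · refine (ae_restrict_iff' (f5_isOpen _).measurableSet).mpr (Eventually.of_forall fun x hx => ?_)
      refine (f5_pt hD hB hU hv hκ hx (hBd eps d eta hU v x ⟨hx.1.le, hx.2.le⟩).2.2.2).trans ?_
      have heps : 0 < eps := hU.eps_pos
      have hρ0 : 0 ≤ rho (D.G x) eps ((OpData.upd D eps d eta).qd v x) (D1 v x) :=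
        le_min (Real.sqrt_nonneg _) (by positivity)
      set ρ := rho (D.G x) eps ((OpData.upd D eps d eta).qd v x) (D1 v x) with hρ
      set s := Real.sqrt (q1 (D.G x) (D1 v x)) with hs
      set δ := |D.p ((OpData.upd D eps d eta).vd v x) - D.p (v x)| with hδ
      have hs0 : 0 ≤ s := Real.sqrt_nonneg _
      have hδ0 : 0 ≤ δ := abs_nonneg _
      have a1 : 0 ≤ s ^ 2 * ρ := by positivity
      have a2 : 0 ≤ s ^ 3 * δ := by positivity
      have b1 : 0 ≤ κ⁻¹ ^ 3 := by positivity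
      set T2 := (8 / (D.p0 - 1) + 10) ^ 2 with hT2
      have hT0 : 0 ≤ T2 := sq_nonneg _
      have hB0 : 0 ≤ (2 * B) ^ 2 := sq_nonneg _
      set B2 := (2 * B) ^ 2 with hB2
      set c1 := κ⁻¹ with hc1
      set c3 := c1 ^ 3 with hc3
      show 3 * (B2 * c1 * ρ + T2 * c3 * (s ^ 3 * δ + s ^ 2 * ρ)) ≤ W * (ρ + s ^ 2 * ρ + s ^ 3 * δ)
      rw [hW]
      set X := s ^ 2 * ρ with hX
      set Y := s ^ 3 * δ with hY
      have hc10 : 0 ≤ c1 := hκi.le
      have k1 : 0 ≤ B2 * c3 * ρ := by positivity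
      have k2 : 0 ≤ B2 * (c1 + c3) * (X + Y) := by positivity
      have k3 : 0 ≤ T2 * (c1 + c3) * ρ := by positivity
      have k4 : 0 ≤ T2 * c1 * (X + Y) := by positivity
      nlinarith [k1, k2, k3, k4]
  refine hmono.trans ?_
  rw [integral_const_mul]
  calc W * _ ≤ W * (C4 * (eps + d ^ (1 / 4 : ℝ))) := mul_le_mul_of_nonneg_left hI hW0
    _ = _ := by rw [hW]; ring

end UMB.W
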