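import Pool.Agent.Lib.UMB.W.Defs

/-! # UMB.W chunk I1: interpolation -/

set_option autoImplicit false

open Filter Topology Set MeasureTheory
open scoped ContDiff BigOperators
open Pool.Agent.Lib.PenroseSph (E3 Tens pd)
open UMB.Lin (Ann cAnn sig)

namespace UMB.W

theorem i1_pd_smooth {w : E3 → ℝ} (hw : ContDiff ℝ ∞ w) (i : Fin 3) : ContDiff ℝ ∞ (pd i w) := by
  have h1 : ContDiff ℝ ∞ (fderiv ℝ w) := hw.fderiv_right (by simp)
  exact h1.clm_apply contDiff_const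

theorem i1_pd_mul {f g : E3 → ℝ} (hf : ContDiff ℝ ∞ f) (hg : ContDiff ℝ ∞ g) (i : Fin 3) (x : E3) :
    pd i (fun y => f y * g y) x = pd i f x * g x + f x * pd i g x := by
  have hf1 : DifferentiableAt ℝ f x := (hf.differentiable (by simp)) x
  have hg1 : DifferentiableAt ℝ g x := (hg.differentiable (by simp)) x
  unfold pd
  have h := fderiv_mul hf1 hg1
  have h2 : (fun y => f y * g y) = f * g := rfl
  rw [h2, h]
  simp [smul_eq_mul]
  ring

theorem i1_pd_sub {f g : E3 → ℝ} (hf : ContDiff ℝ ∞ f) (hg : ContDiff ℝ ∞ g) (i : Fin 3) (x : E3) :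
    pd i (fun y => f y - g y) x = pd i f x - pd i g x := by
  have hf1 : DifferentiableAt ℝ f x := (hf.differentiable (by simp)) x
  have hg1 : DifferentiableAt ℝ g x := (hg.differentiable (by simp)) x
  unfold pd
  have h := fderiv_sub hf1 hg1
  have h2 : (fun y => f y - g y) = f - g := rfl
  rw [h2, h]
  rfl

theorem i1_cAnn_compact (R : ℝ) : IsCompact (cAnn R) := by
  have h : cAnn R ⊆ Metric.closedBall (0 : E3) R := by
    intro x hx
    rw [mem_closedBall_zero_iff]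
    exact hx.2
  have hc : IsClosed (cAnn R) := by
    have h1 : IsClosed {x : E3 | 1 ≤ ‖x‖} := isClosed_le continuous_const continuous_norm
    have h2 : IsClosed {x : E3 | ‖x‖ ≤ R} := isClosed_le continuous_norm continuous_const
    exact h1.inter h2
  exact (isCompact_closedBall (0 : E3) R).of_isClosed_subset hc h

theorem i1_Ann_sub (R : ℝ) : Ann R ⊆ cAnn R := fun _ hx => ⟨hx.1.le, hx.2.le⟩

theorem i1_Ann_meas (R : ℝ) : MeasurableSet (Ann R) := by
  have h1 : IsOpen {x : E3 | 1 < ‖x‖} := isOpen_lt continuous_const continuous_norm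
  have h2 : IsOpen {x : E3 | ‖x‖ < R} := isOpen_lt continuous_norm continuous_const
  exact (h1.inter h2).measurableSet

theorem i1_int {R : ℝ} {f : E3 → ℝ} (hf : Continuous f) : IntegrableOn f (Ann R) :=
  (hf.continuousOn.integrableOn_compact (i1_cAnn_compact R)).mono_set (i1_Ann_sub R)

theorem i1_int_pd_zero {R : ℝ} (hR : 1 < R) (i : Fin 3) {f : E3 → ℝ} (hf : ContDiff ℝ ∞ f)
    (h1 : ∀ x : E3, ‖x‖ = 1 → f x = 0) (h2 : ∀ x : E3, ‖x‖ = R → f x = 0) :
    ∫ x in Ann R, pd i f x = 0 := by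
  rw [UMB.Lin.int_pd hR i (hf.of_le (by simp))]
  have e1 : ∀ n : Metric.sphere (0 : E3) 1, f (R • (n : E3)) * (n : E3) i = 0 := by
    intro n
    have hn : ‖(n : E3)‖ = 1 := by
      have := n.2
      rwa [mem_sphere_zero_iff_norm] at this
    rw [h2 (R • (n : E3)) (by rw [norm_smul, hn, Real.norm_of_nonneg (by linarith), mul_one]), zero_mul]
  have e2 : ∀ n : Metric.sphere (0 : E3) 1, f (n : E3) * (n : E3) i = 0 := by
    intro n
    have hn : ‖(n : E3)‖ = 1 := by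
      have := n.2
      rwa [mem_sphere_zero_iff_norm] at this
    rw [h1 (n : E3) hn, zero_mul]
  simp only [e1, e2, integral_zero, mul_zero, sub_zero]

/-- The radial comparison function. -/
noncomputable def i1psi (R : ℝ) (x : E3) : ℝ := (R ^ 2 - ‖x‖ ^ 2) / (R ^ 2 - 1)

theorem i1_psi_smooth (R : ℝ) : ContDiff ℝ ∞ (i1psi R) := by
  unfold i1psi
  exact (contDiff_const.sub (contDiff_norm_sq ℝ)).div_const _

theorem i1_psi_pd {R : ℝ} (i : Fin 3) (x : E3) : pd i (i1psi R) x = - (2 * x i) / (R ^ 2 - 1) := by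
  have h1 : HasFDerivAt (fun y : E3 => ‖y‖ ^ 2) (2 • (innerSL ℝ x)) x := (hasStrictFDerivAt_norm_sq x).hasFDerivAt
  have h3 := ((hasFDerivAt_const (R ^ 2) x).sub h1).const_smul (R ^ 2 - 1)⁻¹
  have h2 : pd i (i1psi R) x = (R ^ 2 - 1)⁻¹ * (0 - 2 * (innerSL ℝ x) (EuclideanSpace.single i (1 : ℝ))) := by
    have h6 : i1psi R = fun y => (R ^ 2 - 1)⁻¹ • (R ^ 2 - ‖y‖ ^ 2) := by
      funext y
      unfold i1psi
      rw [smul_eq_mul]; ring
    have h7 : fderiv ℝ (i1psi R) x = (R ^ 2 - 1)⁻¹ •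
        ((0 : E3 →L[ℝ] ℝ) - ((2 : ℕ) • (innerSL ℝ x : E3 →L[ℝ] ℝ) : E3 →L[ℝ] ℝ)) := by
      rw [h6]
      exact h3.fderiv
    unfold pd
    rw [h7]
    simp
  have h4 : (innerSL ℝ x) (EuclideanSpace.single i (1 : ℝ)) = x i := by
    rw [innerSL_apply_apply, EuclideanSpace.inner_single_right]
    simp
  rw [h2, h4]
  ring

theorem i1_psi_one {R : ℝ} (hR : 1 < R) (x : E3) (hx : ‖x‖ = 1) : i1psi R x = 1 := by
  unfold i1psi
  rw [hx]
  have : R ^ 2 - 1 ≠ 0 := by nlinarith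
  rw [one_pow, div_self this]

theorem i1_psi_zero {R : ℝ} (x : E3) (hx : ‖x‖ = R) : i1psi R x = 0 := by
  unfold i1psi
  rw [hx, sub_self, zero_div]

theorem i1_psi_bd {R : ℝ} (hR : 1 < R) (x : E3) (hx : x ∈ cAnn R) : |i1psi R x| ≤ 1 := by
  unfold i1psi
  have h1 : 0 < R ^ 2 - 1 := by nlinarith
  have h2 := hx.1
  have h3 := hx.2
  have h4 : 1 ≤ ‖x‖ ^ 2 := by nlinarith
  have h5 : ‖x‖ ^ 2 ≤ R ^ 2 := by nlinarith [norm_nonneg x]
  rw [abs_le]
  constructor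
  · rw [le_div_iff₀ h1]; linarith
  · rw [div_le_iff₀ h1]; linarith

/-- Bound for the square of the gradient of `ψ`. -/
theorem i1_psi_grad {R : ℝ} (hR : 1 < R) (x : E3) (hx : x ∈ cAnn R) :
    ∑ i, (pd i (i1psi R) x) ^ 2 ≤ (2 * R / (R ^ 2 - 1)) ^ 2 := by
  have h1 : 0 < R ^ 2 - 1 := by nlinarith
  have h0 : ‖x‖ ^ 2 = ∑ i, (x i) ^ 2 := by
    rw [EuclideanSpace.norm_sq_eq]
    exact Finset.sum_congr rfl fun i _ => by rw [Real.norm_eq_abs, sq_abs]
  have h2 : ∑ i, (pd i (i1psi R) x) ^ 2 = (2 / (R ^ 2 - 1)) ^ 2 * ‖x‖ ^ 2 := by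
    rw [h0, Finset.mul_sum]
    exact Finset.sum_congr rfl fun i _ => by rw [i1_psi_pd]; ring
  rw [h2]
  have h5 : ‖x‖ ^ 2 ≤ R ^ 2 := by nlinarith [norm_nonneg x, hx.2]
  calc (2 / (R ^ 2 - 1)) ^ 2 * ‖x‖ ^ 2 ≤ (2 / (R ^ 2 - 1)) ^ 2 * R ^ 2 :=
        mul_le_mul_of_nonneg_left h5 (sq_nonneg _)
    _ = (2 * R / (R ^ 2 - 1)) ^ 2 := by ring

/-- `w - ψ` is bounded by `3`. -/
theorem i1_u_bd {R : ℝ} (hR : 1 < R) {w : E3 → ℝ} (hw : Cls R w) (x : E3) (hx : x ∈ cAnn R) :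
    |w x - i1psi R x| ≤ 3 := by
  have h1 := hw.bd x hx
  have h2 := i1_psi_bd hR x hx
  calc |w x - i1psi R x| ≤ |w x| + |i1psi R x| := abs_sub _ _
    _ ≤ 3 := by linarith

/-- Integration by parts against `w - ψ`. -/
theorem i1_parts {R : ℝ} (hR : 1 < R) {w : E3 → ℝ} (hw : Cls R w) {g : Fin 3 → E3 → ℝ}
    (hg : ∀ i, ContDiff ℝ ∞ (g i)) :
    ∫ x in Ann R, ∑ i, ((pd i w x - pd i (i1psi R) x) * g i x
      + (w x - i1psi R x) * pd i (g i) x) = 0 := by
  have hu : ContDiff ℝ ∞ (fun y => w y - i1psi R y) := hw.smooth.sub (i1_psi_smooth R)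
  have e : ∀ x, ∑ i, ((pd i w x - pd i (i1psi R) x) * g i x
      + (w x - i1psi R x) * pd i (g i) x) =
      ∑ i, pd i (fun y => (w y - i1psi R y) * g i y) x := by
    intro x
    refine Finset.sum_congr rfl fun i _ => ?_
    rw [i1_pd_mul hu (hg i), i1_pd_sub hw.smooth (i1_psi_smooth R)]
  simp only [e]
  rw [integral_finsetSum]
  · refine Finset.sum_eq_zero fun i _ => ?_
    refine i1_int_pd_zero hR i (hu.mul (hg i)) ?_ ?_
    · intro x hx
      rw [hw.one x hx, i1_psi_one hR x hx, sub_self, zero_mul]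
    · intro x hx
      rw [hw.zero x hx, i1_psi_zero x hx, sub_self, zero_mul]
  · intro i _
    exact i1_int (i1_pd_smooth (hu.mul (hg i)) i).continuous

/-- **I1.** `ψ(x) = (R² - |x|²)/(R² - 1)`; `w - ψ = 0` on both spheres, so by `UMB.Lin.int_pd`
`0 = ∫ ∑ ∂_i ((w-ψ) ∂_i w) = ∫ |∇w|² - ∇ψ·∇w + (w-ψ) Δw`, and `|w-ψ| ≤ 3`, `|∇ψ| ≤ 2R/(R²-1)`, `|Δw| ≤ √3 √fsq`. -/
theorem interp {R : ℝ} (hR : 1 < R) : ∃ C : ℝ, 0 ≤ C ∧ ∀ w : E3 → ℝ, Cls R w →
    ∫ x in Ann R, vsq (D1 w x) ≤ C * ∫ x in Ann R, (Real.sqrt (fsq (D2 w x)) + Real.sqrt (vsq (D1 w x))) := by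
  have hR1 : 0 < R ^ 2 - 1 := by nlinarith
  set a : ℝ := 2 * R / (R ^ 2 - 1) with ha
  have ha0 : 0 ≤ a := by positivity
  refine ⟨a + 6, by linarith, fun w hw => ?_⟩
  have hc1 : ∀ i, Continuous (pd i w) := fun i => (i1_pd_smooth hw.smooth i).continuous
  have hc2 : ∀ i j, Continuous (pd i (pd j w)) := fun i j =>
    (i1_pd_smooth (i1_pd_smooth hw.smooth j) i).continuous
  have hcp : ∀ i, Continuous (pd i (i1psi R)) := fun i =>
    (i1_pd_smooth (i1_psi_smooth R) i).continuous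
  have hcw : Continuous w := hw.smooth.continuous
  have hcps : Continuous (i1psi R) := (i1_psi_smooth R).continuous
  have hp := i1_parts hR hw (g := fun i => pd i w) (fun i => i1_pd_smooth hw.smooth i)
  have hcv : Continuous fun x => vsq (D1 w x) := by
    unfold vsq D1
    fun_prop
  have hcf : Continuous fun x => fsq (D2 w x) := by
    unfold fsq D2
    fun_prop
  have e : ∀ x, vsq (D1 w x) = (∑ i, ((pd i w x - pd i (i1psi R) x) * pd i w x
      + (w x - i1psi R x) * pd i (pd i w) x)) +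
      (∑ i, (pd i (i1psi R) x * pd i w x) - (w x - i1psi R x) * ∑ i, pd i (pd i w) x) := by
    intro x
    unfold vsq D1
    simp only [Fin.sum_univ_three]
    ring
  have h1 : ∫ x in Ann R, vsq (D1 w x) = ∫ x in Ann R,
      (∑ i, (pd i (i1psi R) x * pd i w x) - (w x - i1psi R x) * ∑ i, pd i (pd i w) x) := by
    simp only [e]
    rw [integral_add, hp, zero_add]
    · exact i1_int (by fun_prop)
    · exact i1_int (by fun_prop)
  rw [h1, ← integral_const_mul]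
  refine setIntegral_mono_on (i1_int (by fun_prop)) (i1_int ?_) (i1_Ann_meas R) ?_
  · exact continuous_const.mul ((Real.continuous_sqrt.comp hcf).add (Real.continuous_sqrt.comp hcv))
  · intro x hx
    have hx' := i1_Ann_sub R hx
    have hu := i1_u_bd hR hw x hx'
    have hg := i1_psi_grad hR x hx'
    have hv0 : 0 ≤ vsq (D1 w x) := by unfold vsq; positivity
    have hf0 : 0 ≤ fsq (D2 w x) := by unfold fsq; positivity
    have s1 := Real.sq_sqrt hv0
    have s2 := Real.sq_sqrt hf0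
    have t1 := Real.sqrt_nonneg (vsq (D1 w x))
    have t2 := Real.sqrt_nonneg (fsq (D2 w x))
    have b1 : ∑ i, (pd i (i1psi R) x * pd i w x) ≤ a * Real.sqrt (vsq (D1 w x)) := by
      have hcs := Finset.sum_mul_sq_le_sq_mul_sq Finset.univ (fun i => pd i (i1psi R) x) (fun i => pd i w x)
      have hv : ∑ i, (pd i w x) ^ 2 = vsq (D1 w x) := rfl
      rw [hv] at hcs
      have h3 : (∑ i, (pd i (i1psi R) x * pd i w x)) ^ 2 ≤ (a * Real.sqrt (vsq (D1 w x))) ^ 2 := by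
        rw [mul_pow, s1]
        exact hcs.trans (mul_le_mul_of_nonneg_right hg hv0)
      exact (abs_le_of_sq_le_sq' h3 (by positivity)).2
    have b2 : |∑ i, pd i (pd i w) x| ≤ 2 * Real.sqrt (fsq (D2 w x)) := by
      have h3 : (∑ i, pd i (pd i w) x) ^ 2 ≤ (2 * Real.sqrt (fsq (D2 w x))) ^ 2 := by
        rw [mul_pow, s2]
        unfold fsq D2
        simp only [Fin.sum_univ_three]
        nlinarith [sq_nonneg (pd 0 (pd 0 w) x - pd 1 (pd 1 w) x), sq_nonneg (pd 0 (pd 0 w) x - pd 2 (pd 2 w) x),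
          sq_nonneg (pd 1 (pd 1 w) x - pd 2 (pd 2 w) x), sq_nonneg (pd 0 (pd 1 w) x), sq_nonneg (pd 0 (pd 2 w) x),
          sq_nonneg (pd 1 (pd 0 w) x), sq_nonneg (pd 1 (pd 2 w) x), sq_nonneg (pd 2 (pd 0 w) x),
          sq_nonneg (pd 2 (pd 1 w) x), sq_nonneg (pd 0 (pd 0 w) x), sq_nonneg (pd 1 (pd 1 w) x), sq_nonneg (pd 2 (pd 2 w) x)]
      exact abs_le_of_sq_le_sq h3 (by positivity)
    have b3 : -((w x - i1psi R x) * ∑ i, pd i (pd i w) x) ≤ 6 * Real.sqrt (fsq (D2 w x)) := by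
      have h4 : |(w x - i1psi R x) * ∑ i, pd i (pd i w) x| ≤ 3 * (2 * Real.sqrt (fsq (D2 w x))) := by
        rw [abs_mul]
        exact mul_le_mul hu b2 (abs_nonneg _) (by norm_num)
      have h5 := neg_abs_le ((w x - i1psi R x) * ∑ i, pd i (pd i w) x)
      linarith
    show ∑ i, (pd i (i1psi R) x * pd i w x) - (w x - i1psi R x) * ∑ i, pd i (pd i w) x ≤
      (a + 6) * (Real.sqrt (fsq (D2 w x)) + Real.sqrt (vsq (D1 w x)))
    nlinarith [mul_nonneg ha0 t2]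

end UMB.W
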