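import Pool.Agent.Lib.UMB.W.Defs
import Pool.Agent.Lib.UMB.W.I1

/-! # UMB.W chunk L1: fourth power of the gradient -/

set_option autoImplicit false

open Filter Topology Set MeasureTheory
open scoped ContDiff BigOperators
open Pool.Agent.Lib.PenroseSph (E3 Tens pd)
open UMB.Lin (Ann cAnn sig)

namespace UMB.W

/-- Pointwise Young inequality. -/
theorem l1_point {q s D T f a u : ℝ} (hq : 0 ≤ q) (hf : 0 ≤ f) (hs : s ^ 2 ≤ a ^ 2 * q)
    (hD : D ^ 2 ≤ q ^ 2 * f) (hT : T ^ 2 ≤ 3 * f) (hu : |u| ≤ 3) :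
    q * s - u * (2 * D + q * T) ≤ q ^ 2 / 2 + 8 * a ^ 4 + 126 * f := by
  have h1 : q * s ≤ q ^ 2 / 4 + 8 * a ^ 4 := by
    nlinarith [sq_nonneg (q - 4 * s), sq_nonneg (q - 8 * a ^ 2)]
  have h2 : (2 * D + q * T) ^ 2 ≤ 14 * (f * q ^ 2) := by
    have e1 : (q * T) ^ 2 ≤ 3 * (f * q ^ 2) := by
      have := mul_le_mul_of_nonneg_left hT (sq_nonneg q)
      nlinarith
    nlinarith [sq_nonneg (2 * D - q * T)]
  have h3 : |u * (2 * D + q * T)| ≤ q ^ 2 / 4 + 126 * f := by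
    have e2 : |2 * D + q * T| ^ 2 ≤ 14 * (f * q ^ 2) := by rwa [sq_abs]
    have e3 : (3 * |2 * D + q * T|) ^ 2 ≤ (q ^ 2 / 4 + 126 * f) ^ 2 := by
      nlinarith [sq_nonneg (q ^ 2 / 4 - 126 * f)]
    have e4 : 3 * |2 * D + q * T| ≤ q ^ 2 / 4 + 126 * f :=
      (abs_le_of_sq_le_sq' e3 (by positivity)).2
    rw [abs_mul]
    exact (mul_le_mul_of_nonneg_right hu (abs_nonneg _)).trans e4
  have h4 := neg_abs_le (u * (2 * D + q * T))
  linarith

/-- **L1.** `ψ` as in I1. `0 = ∫ ∑ ∂_i ((w-ψ) |∇w|² ∂_i w) = ∫ |∇w|⁴ - |∇w|² ∇ψ·∇w + (w-ψ)(|∇w|² Δw + 2 D²w(∇w,∇w))`, so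
`∫ |∇w|⁴ ≤ C ∫ |∇w|³ + 15 ∫ |∇w|² |D²w|`, and Young: `C t³ ≤ t⁴/4 + C'`, `15 t² b ≤ t⁴/4 + 225 b²`. All integrands are
continuous on the compact closed annulus. -/
theorem grad_four {R : ℝ} (hR : 1 < R) : ∃ C : ℝ, 0 ≤ C ∧ ∀ w : E3 → ℝ, Cls R w →
    ∫ x in Ann R, vsq (D1 w x) ^ 2 ≤ C * (1 + ∫ x in Ann R, fsq (D2 w x)) := by
  have hR1 : 0 < R ^ 2 - 1 := by nlinarith
  set a : ℝ := 2 * R / (R ^ 2 - 1) with ha
  have ha0 : 0 ≤ a := by positivity
  set vol : ℝ := ∫ _x in Ann R, (1 : ℝ) with hvol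
  have hvol0 : 0 ≤ vol := integral_nonneg fun _ => by norm_num
  refine ⟨16 * a ^ 4 * vol + 252, by positivity, fun w hw => ?_⟩
  have hs1 : ∀ i, ContDiff ℝ ∞ (pd i w) := fun i => i1_pd_smooth hw.smooth i
  have hc1 : ∀ i, Continuous (pd i w) := fun i => (hs1 i).continuous
  have hc2 : ∀ i j, Continuous (pd i (pd j w)) := fun i j => (i1_pd_smooth (hs1 j) i).continuous
  have hcp : ∀ i, Continuous (pd i (i1psi R)) := fun i =>
    (i1_pd_smooth (i1_psi_smooth R) i).continuous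
  have hcw : Continuous w := hw.smooth.continuous
  have hcps : Continuous (i1psi R) := (i1_psi_smooth R).continuous
  have hsq : ContDiff ℝ ∞ (fun x => vsq (D1 w x)) := by
    unfold vsq D1
    exact ContDiff.sum fun i _ => (hs1 i).pow 2
  have hcv : Continuous fun x => vsq (D1 w x) := hsq.continuous
  have hcf : Continuous fun x => fsq (D2 w x) := by
    unfold fsq D2
    fun_prop
  have hp := i1_parts hR hw (g := fun i y => vsq (D1 w y) * pd i w y) (fun i => hsq.mul (hs1 i))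
  have hdq : ∀ i x, pd i (fun y => vsq (D1 w y)) x = 2 * ∑ j, pd j w x * pd i (pd j w) x := by
    intro i x
    have h1 : (fun y => vsq (D1 w y)) = fun y => ∑ j, pd j w y * pd j w y := by
      funext y
      unfold vsq D1
      exact Finset.sum_congr rfl fun j _ => by ring
    rw [h1]
    have h2 : pd i (fun y => ∑ j, pd j w y * pd j w y) x = ∑ j, pd i (fun y => pd j w y * pd j w y) x := by
      unfold pd
      rw [fderiv_fun_sum]
      · simp
      · intro j _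
        exact (((hs1 j).mul (hs1 j)).differentiable (by simp)) x
    rw [h2, Finset.mul_sum]
    refine Finset.sum_congr rfl fun j _ => ?_
    rw [i1_pd_mul (hs1 j) (hs1 j)]
    ring
  have e0 : ∀ i x, pd i (fun y => vsq (D1 w y) * pd i w y) x =
      (2 * ∑ j, pd j w x * pd i (pd j w) x) * pd i w x + vsq (D1 w x) * pd i (pd i w) x := by
    intro i x
    rw [i1_pd_mul hsq (hs1 i), hdq]
  have e : ∀ x, vsq (D1 w x) ^ 2 = (∑ i, ((pd i w x - pd i (i1psi R) x) * (vsq (D1 w x) * pd i w x)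
      + (w x - i1psi R x) * pd i (fun y => vsq (D1 w y) * pd i w y) x)) +
      (vsq (D1 w x) * (∑ i, pd i (i1psi R) x * pd i w x) - (w x - i1psi R x) *
        (2 * (∑ i, ∑ j, (pd i w x * pd j w x) * pd i (pd j w) x) + vsq (D1 w x) * ∑ i, pd i (pd i w) x)) := by
    intro x
    simp only [e0]
    have h5 : vsq (D1 w x) = ∑ i, pd i w x ^ 2 := rfl
    have h6 : vsq (D1 w x) ^ 2 = vsq (D1 w x) * ∑ i, pd i w x ^ 2 := by rw [← h5]; ring
    rw [h6]
    simp only [Fin.sum_univ_three]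
    ring
  have hint1 : IntegrableOn (fun x => vsq (D1 w x) ^ 2) (Ann R) := i1_int (hcv.pow 2)
  have hint2 : IntegrableOn (fun x => fsq (D2 w x)) (Ann R) := i1_int hcf
  have hcsum : Continuous fun x => (vsq (D1 w x) * (∑ i, pd i (i1psi R) x * pd i w x) - (w x - i1psi R x) *
        (2 * (∑ i, ∑ j, (pd i w x * pd j w x) * pd i (pd j w) x) + vsq (D1 w x) * ∑ i, pd i (pd i w) x)) := by
    fun_prop
  have h1 : ∫ x in Ann R, vsq (D1 w x) ^ 2 = ∫ x in Ann R,
      (vsq (D1 w x) * (∑ i, pd i (i1psi R) x * pd i w x) - (w x - i1psi R x) *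
        (2 * (∑ i, ∑ j, (pd i w x * pd j w x) * pd i (pd j w) x) + vsq (D1 w x) * ∑ i, pd i (pd i w) x)) := by
    simp only [e]
    rw [integral_add, hp, zero_add]
    · have hc3 : ∀ i, Continuous (fun x => pd i (fun y => vsq (D1 w y) * pd i w y) x) := fun i =>
        (i1_pd_smooth (hsq.mul (hs1 i)) i).continuous
      exact i1_int (by fun_prop)
    · exact i1_int hcsum
  have h2 : ∫ x in Ann R, vsq (D1 w x) ^ 2 ≤ ∫ x in Ann R,
      (vsq (D1 w x) ^ 2 / 2 + (8 * a ^ 4 * 1 + 126 * fsq (D2 w x))) := by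
    rw [h1]
    refine setIntegral_mono_on (i1_int hcsum) (i1_int (by fun_prop)) (i1_Ann_meas R) ?_
    intro x hx
    have hx' := i1_Ann_sub R hx
    have hu := i1_u_bd hR hw x hx'
    have hg := i1_psi_grad hR x hx'
    have hv0 : 0 ≤ vsq (D1 w x) := by unfold vsq; positivity
    have hf0 : 0 ≤ fsq (D2 w x) := by unfold fsq; positivity
    have hv : ∑ i, (pd i w x) ^ 2 = vsq (D1 w x) := rfl
    have b1 : (∑ i, (pd i (i1psi R) x * pd i w x)) ^ 2 ≤ a ^ 2 * vsq (D1 w x) := by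
      have hcs := Finset.sum_mul_sq_le_sq_mul_sq Finset.univ (fun i => pd i (i1psi R) x) (fun i => pd i w x)
      rw [hv] at hcs
      exact hcs.trans (mul_le_mul_of_nonneg_right hg hv0)
    have b2 : (∑ i, pd i (pd i w) x) ^ 2 ≤ 3 * fsq (D2 w x) := by
      unfold fsq D2
      simp only [Fin.sum_univ_three]
      nlinarith [sq_nonneg (pd 0 (pd 0 w) x - pd 1 (pd 1 w) x), sq_nonneg (pd 0 (pd 0 w) x - pd 2 (pd 2 w) x),
        sq_nonneg (pd 1 (pd 1 w) x - pd 2 (pd 2 w) x), sq_nonneg (pd 0 (pd 1 w) x), sq_nonneg (pd 0 (pd 2 w) x),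
        sq_nonneg (pd 1 (pd 0 w) x), sq_nonneg (pd 1 (pd 2 w) x), sq_nonneg (pd 2 (pd 0 w) x),
        sq_nonneg (pd 2 (pd 1 w) x)]
    have b3 : (∑ i, ∑ j, (pd i w x * pd j w x) * pd i (pd j w) x) ^ 2 ≤ vsq (D1 w x) ^ 2 * fsq (D2 w x) := by
      have hcs := Finset.sum_mul_sq_le_sq_mul_sq (Finset.univ ×ˢ Finset.univ)
        (fun p : Fin 3 × Fin 3 => pd p.1 w x * pd p.2 w x) (fun p => pd p.1 (pd p.2 w) x)
      rw [Finset.sum_product, Finset.sum_product, Finset.sum_product] at hcs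
      have h7 : ∑ i, ∑ j, (pd i w x * pd j w x) ^ 2 = vsq (D1 w x) ^ 2 := by
        rw [← hv, sq (∑ i, (pd i w x) ^ 2), Finset.sum_mul_sum]
        exact Finset.sum_congr rfl fun i _ => Finset.sum_congr rfl fun j _ => by ring
      simp only [] at hcs
      rw [h7] at hcs
      exact hcs
    have h8 := l1_point hv0 hf0 b1 b3 b2 hu
    show _ ≤ _
    linarith
  have h3 : ∫ x in Ann R, (vsq (D1 w x) ^ 2 / 2 + (8 * a ^ 4 * 1 + 126 * fsq (D2 w x))) =
      (∫ x in Ann R, vsq (D1 w x) ^ 2) / 2 + (8 * a ^ 4 * vol + 126 * ∫ x in Ann R, fsq (D2 w x)) := by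
    rw [integral_add (hint1.div_const 2), integral_add, integral_div, integral_const_mul, integral_const_mul]
    · exact i1_int (by fun_prop)
    · exact hint2.const_mul 126
    · exact i1_int (by fun_prop)
  rw [h3] at h2
  have h4 : 0 ≤ ∫ x in Ann R, fsq (D2 w x) := integral_nonneg fun x => by
    show 0 ≤ fsq (D2 w x)
    unfold fsq; positivity
  have h5 : 0 ≤ 16 * a ^ 4 * vol := by positivity
  nlinarith [mul_nonneg h5 h4]

end UMB.W
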