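import Pool.Agent.Lib.UMB.W.W1
import Pool.Agent.Lib.UMB.W.I1
import Pool.Agent.Lib.UMB.W.L1

/-! # UMB.W chunk W2: the W^{2,2} bound -/

set_option autoImplicit false

open Filter Topology Set MeasureTheory
open scoped ContDiff BigOperators
open Pool.Agent.Lib.PenroseSph (E3 Tens pd)
open UMB.Lin (Ann cAnn sig)

namespace UMB.W

/-- **W2.** W1 and I1: `∫ vsq ≤ C ∫ (√fsq + √vsq) ≤ h ∫ (fsq + vsq) + C_h` (the annulus has finite volume), insert, choose
`h` small. L1 for the fourth power. -/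
theorem w22 {R : ℝ} (hR : 1 < R) {lam Lam c C1 B : ℝ} (hl : 0 < lam) (hc : 0 < c) (hC1 : 0 ≤ C1) (hB : 0 ≤ B) :
    ∃ C : ℝ, 0 ≤ C ∧ ∀ S : Tens, Fld R lam Lam S → ∀ w : E3 → ℝ, Cls R w → ∀ (A : Tens) (f : E3 → ℝ),
      (∀ x ∈ Ann R, Cord c C1 (S x) (A x)) →
      (∀ x ∈ Ann R, |tr2 (A x) (D2 w x)| ≤ B * Real.sqrt (vsq (D1 w x)) + f x) →
      (∀ x ∈ Ann R, 0 ≤ f x) → IntegrableOn (fun x => f x ^ 2) (Ann R) →
      ∫ x in Ann R, (fsq (D2 w x) + vsq (D1 w x) + vsq (D1 w x) ^ 2) ≤ C * (1 + ∫ x in Ann R, f x ^ 2) := by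
  obtain ⟨CE, hCE0, hCE⟩ := energy_ineq (Lam := Lam) hR hl hc hC1 hB
  obtain ⟨CI, hCI0, hCI⟩ := interp hR
  obtain ⟨CL, hCL0, hCL⟩ := grad_four hR
  set V0 : ℝ := volume.real (Ann R) with hV0
  have hV0n : 0 ≤ V0 := measureReal_nonneg
  -- weight for Young
  set D : ℝ := 2 * (CE + 1) * CI + 1 with hD
  have hDpos : 0 < D := by positivity
  -- `∫ vsq ≤ (1/(2 (CE+1))) ∫ (fsq + vsq) ...`
  set M : ℝ := (CE + 1) * CI * D * V0 with hM
  have hM0 : 0 ≤ M := by positivity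
  refine ⟨2 * (M + CE) + CL * (1 + 2 * (M + CE)), by positivity, ?_⟩
  intro S hS w hw A f hCord hA hf0 hfi
  have hws := hw.smooth
  have hcf : Continuous (fun x => fsq (D2 w x)) := w1_cont_fsq hws
  have hcv : Continuous (fun x => vsq (D1 w x)) := (w1_contDiff_vsq hws).continuous
  have iF : IntegrableOn (fun x => fsq (D2 w x)) (Ann R) := UMB.Lin.integrableOn_Ann hcf
  have iV : IntegrableOn (fun x => vsq (D1 w x)) (Ann R) := UMB.Lin.integrableOn_Ann hcv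
  have iV2 : IntegrableOn (fun x => vsq (D1 w x) ^ 2) (Ann R) := UMB.Lin.integrableOn_Ann (hcv.pow 2)
  have iFV : IntegrableOn (fun x => fsq (D2 w x) + vsq (D1 w x)) (Ann R) := iF.add iV
  have iS : IntegrableOn (fun x => Real.sqrt (fsq (D2 w x)) + Real.sqrt (vsq (D1 w x))) (Ann R) :=
    UMB.Lin.integrableOn_Ann ((Real.continuous_sqrt.comp hcf).add (Real.continuous_sqrt.comp hcv))
  have i1 : IntegrableOn (fun _ : E3 => D) (Ann R) := UMB.Lin.integrableOn_Ann continuous_const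
  have hmeas := UMB.Lin.measurableSet_Ann R
  have hE := hCE S hS w hw A f hCord hA hf0 hfi
  have hI := hCI w hw
  have hL := hCL w hw
  have hY : ∫ x in Ann R, (Real.sqrt (fsq (D2 w x)) + Real.sqrt (vsq (D1 w x)))
      ≤ 1 / (2 * D) * (∫ x in Ann R, (fsq (D2 w x) + vsq (D1 w x))) + D * V0 := by
    have h1 : ∫ x in Ann R, (Real.sqrt (fsq (D2 w x)) + Real.sqrt (vsq (D1 w x)))
        ≤ ∫ x in Ann R, (1 / (2 * D) * (fsq (D2 w x) + vsq (D1 w x)) + D) := by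
      refine setIntegral_mono_on iS ((iFV.const_mul _).add i1) hmeas ?_
      intro x _
      have hf := Real.sq_sqrt (w1_fsq_nonneg (D2 w x))
      have hv := Real.sq_sqrt (w1_vsq_nonneg (D1 w x))
      set p := Real.sqrt (fsq (D2 w x))
      set q := Real.sqrt (vsq (D1 w x))
      rw [← hf, ← hv]
      have h2 : 0 ≤ ((p - D) ^ 2 + (q - D) ^ 2) / (2 * D) := by positivity
      have h3 : ((p - D) ^ 2 + (q - D) ^ 2) / (2 * D) = 1 / (2 * D) * (p ^ 2 + q ^ 2) + D - (p + q) := by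
        field_simp
        ring
      linarith
    refine h1.trans_eq ?_
    rw [integral_add (iFV.const_mul _) i1, integral_const_mul]
    simp [hV0, Measure.real, mul_comm]
  have eFV : ∫ x in Ann R, (fsq (D2 w x) + vsq (D1 w x))
      = (∫ x in Ann R, fsq (D2 w x)) + ∫ x in Ann R, vsq (D1 w x) := integral_add iF iV
  have hF0 : 0 ≤ ∫ x in Ann R, fsq (D2 w x) := setIntegral_nonneg hmeas fun x _ => w1_fsq_nonneg _
  have hVn : 0 ≤ ∫ x in Ann R, vsq (D1 w x) := setIntegral_nonneg hmeas fun x _ => w1_vsq_nonneg _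
  have hf20 : 0 ≤ ∫ x in Ann R, f x ^ 2 := setIntegral_nonneg hmeas fun x _ => sq_nonneg _
  have eAll : ∫ x in Ann R, (fsq (D2 w x) + vsq (D1 w x) + vsq (D1 w x) ^ 2)
      = (∫ x in Ann R, fsq (D2 w x)) + (∫ x in Ann R, vsq (D1 w x)) + ∫ x in Ann R, vsq (D1 w x) ^ 2 := by
    rw [integral_add iFV iV2, eFV]
  rw [eFV] at hY
  rw [eAll]
  set IF := ∫ x in Ann R, fsq (D2 w x)
  set IV := ∫ x in Ann R, vsq (D1 w x)
  set If := ∫ x in Ann R, f x ^ 2
  set IS := ∫ x in Ann R, (Real.sqrt (fsq (D2 w x)) + Real.sqrt (vsq (D1 w x)))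
  have h1 : (CE + 1) * IV ≤ 1 / 2 * (IF + IV) + M := by
    have h2 : (CE + 1) * IV ≤ (CE + 1) * (CI * IS) := mul_le_mul_of_nonneg_left hI (by positivity)
    have h3 : (CE + 1) * (CI * IS) ≤ (CE + 1) * CI * (1 / (2 * D) * (IF + IV) + D * V0) := by
      rw [← mul_assoc]
      exact mul_le_mul_of_nonneg_left hY (by positivity)
    have h4 : (CE + 1) * CI * (1 / (2 * D)) ≤ 1 / 4 := by
      rw [mul_one_div, div_le_div_iff₀ (by positivity) (by norm_num)]
      rw [hD]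
      nlinarith
    have h5 : (CE + 1) * CI * (1 / (2 * D)) * (IF + IV) ≤ 1 / 4 * (IF + IV) :=
      mul_le_mul_of_nonneg_right h4 (by positivity)
    rw [hM]
    nlinarith
  have h6 : IF + IV ≤ 2 * (M + CE * If) := by
    nlinarith
  have h7 : IF + IV ≤ 2 * (M + CE) * (1 + If) := by
    nlinarith [mul_nonneg hM0 hf20]
  have h8 : CL * (1 + IF) ≤ CL * ((1 + 2 * (M + CE)) * (1 + If)) := by
    refine mul_le_mul_of_nonneg_left ?_ hCL0
    nlinarith
  nlinarith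

end UMB.W
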