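import Pool.Agent.Lib.UMB.W.F1
import Pool.Agent.Lib.UMB.W.W2

/-! # UMB.W chunk F2: the uniform W^{2,2} bound for the solutions -/

set_option autoImplicit false

open Filter Topology Set MeasureTheory
open scoped ContDiff BigOperators
open Pool.Agent.Lib.PenroseSph (E3 Tens pd)
open UMB.Lin (Ann cAnn sig)

namespace UMB.W

theorem f2_annM (R : ℝ) : MeasurableSet (Ann R) := by
  have h1 : MeasurableSet {x : E3 | 1 < ‖x‖} := (isOpen_lt continuous_const continuous_norm).measurableSet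
  have h2 : MeasurableSet {x : E3 | ‖x‖ < R} := (isOpen_lt continuous_norm continuous_const).measurableSet
  exact h1.inter h2

theorem f2_annB (R : ℝ) : Ann R ⊆ Metric.closedBall (0 : E3) R := by
  intro x hx
  rw [mem_closedBall_zero_iff]
  exact hx.2.le

theorem f2_annF (R : ℝ) : volume (Ann R) < ⊤ :=
  lt_of_le_of_lt (measure_mono (f2_annB R)) (isCompact_closedBall (0 : E3) R).measure_lt_top

theorem f2_intOn {R : ℝ} {g : E3 → ℝ} (hg : Continuous g) : IntegrableOn g (Ann R) :=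
  (hg.continuousOn.integrableOn_compact (isCompact_closedBall (0 : E3) R)).mono_set (f2_annB R)

theorem f2_pd_cont {f : E3 → ℝ} (hf : ContDiff ℝ ∞ f) (i : Fin 3) : ContDiff ℝ ∞ (pd i f) :=
  (hf.fderiv_right (m := ∞) (by exact_mod_cast le_top)).clm_apply contDiff_const

theorem f2_vsq_cont {w : E3 → ℝ} (hw : ContDiff ℝ ∞ w) : Continuous fun x => vsq (D1 w x) := by
  unfold vsq D1
  exact continuous_finset_sum _ fun i _ => ((f2_pd_cont hw i).continuous).pow 2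

theorem f2_fsq_cont {w : E3 → ℝ} (hw : ContDiff ℝ ∞ w) : Continuous fun x => fsq (D2 w x) := by
  unfold fsq D2
  exact continuous_finset_sum _ fun i _ => continuous_finset_sum _ fun j _ =>
    ((f2_pd_cont (f2_pd_cont hw j) i).continuous).pow 2

theorem f2_abs_le (u : Fin 3 → ℝ) (i : Fin 3) : |u i| ≤ Real.sqrt (vsq u) := by
  rw [← Real.sqrt_sq_eq_abs]
  refine Real.sqrt_le_sqrt ?_
  exact Finset.single_le_sum (f := fun i => u i ^ 2) (fun j _ => sq_nonneg _) (Finset.mem_univ i)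

theorem f2_dot {B : ℝ} {b : Fin 3 → ℝ} (hb : ∀ i, |b i| ≤ B) {u : Fin 3 → ℝ} {s : ℝ} (hu : ∀ i, |u i| ≤ s) :
    |∑ i, b i * u i| ≤ 3 * (B * s) := by
  have hB : 0 ≤ B := (abs_nonneg _).trans (hb 0)
  refine (Finset.abs_sum_le_sum_abs _ _).trans ?_
  have h1 : ∀ i ∈ (Finset.univ : Finset (Fin 3)), |b i * u i| ≤ B * s := by
    intro i _
    rw [abs_mul]
    exact mul_le_mul (hb i) (hu i) (abs_nonneg _) hB
  refine (Finset.sum_le_sum h1).trans ?_
  simp

theorem f2_tr {B : ℝ} {A M : Matrix (Fin 3) (Fin 3) ℝ} (hA : ∀ i j, |A i j| ≤ B) {s : ℝ}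
    (hM : ∀ i j, |M i j| ≤ s) : |tr2 A M| ≤ 9 * (B * s) := by
  have hB : 0 ≤ B := (abs_nonneg _).trans (hA 0 0)
  unfold tr2
  refine (Finset.abs_sum_le_sum_abs _ _).trans ?_
  have h1 : ∀ i ∈ (Finset.univ : Finset (Fin 3)), |∑ j, A i j * M i j| ≤ 3 * (B * s) := by
    intro i _
    exact f2_dot (hA i) (hM i)
  refine (Finset.sum_le_sum h1).trans ?_
  simp
  linarith

theorem f2_tr_sub (A M N : Matrix (Fin 3) (Fin 3) ℝ) : tr2 A N = tr2 A M - tr2 A (fun i j => M i j - N i j) := by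
  unfold tr2
  rw [← Finset.sum_sub_distrib]
  refine Finset.sum_congr rfl fun i _ => ?_
  rw [← Finset.sum_sub_distrib]
  refine Finset.sum_congr rfl fun j _ => ?_
  ring

/-- The uniform bound for the approximations. -/
theorem f2_w {D : OpData} (hD : D.Ok) : ∃ C : ℝ, 0 ≤ C ∧ ∀ (eps d : ℝ) (eta : E3 → ℝ), (OpData.upd D eps d eta).Ok →
    ∀ v : E3 → ℝ, Sol (OpData.upd D eps d eta) v → ∀ ε : ℝ, 0 < ε → ε ≤ 1 →
      ∃ w : E3 → ℝ, Cls D.R w ∧ (∀ x ∈ Ann D.R, |w x - v x| ≤ ε ∧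
        (∀ i, |D1 w x i - D1 v x i| ≤ ε) ∧ ∀ i j, |D2 w x i j - D2 v x i j| ≤ ε) ∧
      ∫ x in Ann D.R, (fsq (D2 w x) + vsq (D1 w x) + vsq (D1 w x) ^ 2) ≤ C := by
  obtain ⟨S, lam, Lam, hLam, hS, hSG⟩ := exists_metric hD
  obtain ⟨B, hB, hcb⟩ := coeff_bd hD
  have hp0 := hD.one_lt_p0
  have hc : 0 < (D.p0 - 1) / 2 := by linarith
  have hC1 : 0 ≤ 7 / (D.p0 - 1) := div_nonneg (by norm_num) (by linarith)
  obtain ⟨C, hC, hw22⟩ := w22 (R := D.R) hD.one_lt_R (lam := lam) (Lam := Lam) hS.lam_pos hc hC1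
    (B := 3 * B) (by linarith)
  have hI : ∀ ε : ℝ, ∫ x in Ann D.R, (12 * B * ε) ^ 2 = (12 * B * ε) ^ 2 * (volume (Ann D.R)).toReal := by
    intro ε
    rw [setIntegral_const, smul_eq_mul, mul_comm]
    rfl
  refine ⟨C * (1 + (12 * B) ^ 2 * (volume (Ann D.R)).toReal), ?_, ?_⟩
  · have := ENNReal.toReal_nonneg (a := volume (Ann D.R))
    positivity
  intro eps d eta hU v hv ε hε hε1
  obtain ⟨w, hw, hwv⟩ := hv.approx ε hε
  refine ⟨w, hw, hwv, ?_⟩
  have key := hw22 S hS w hw ((OpData.upd D eps d eta).aa v) (fun _ => 12 * B * ε) ?_ ?_ ?_ ?_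
  · refine key.trans ?_
    refine mul_le_mul_of_nonneg_left ?_ hC
    rw [hI ε]
    have h1 : (12 * B * ε) ^ 2 ≤ (12 * B) ^ 2 := by
      refine pow_le_pow_left₀ (by positivity) ?_ 2
      exact mul_le_of_le_one_right (by positivity) hε1
    have h2 := ENNReal.toReal_nonneg (a := volume (Ann D.R))
    have h3 := mul_le_mul_of_nonneg_right h1 h2
    linarith
  · intro x hx
    have hx' : x ∈ cAnn D.R := ⟨hx.1.le, hx.2.le⟩
    rw [hSG x hx']
    exact cord_aa hU v (lt_of_lt_of_le hD.a_lt hx.1.le)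
  · intro x hx
    have hx' : x ∈ cAnn D.R := ⟨hx.1.le, hx.2.le⟩
    obtain ⟨ha, hb, -, -⟩ := hcb eps d eta hU v x hx'
    obtain ⟨-, hw1, hw2⟩ := hwv x hx
    have hsol := hv.solves x hx
    have e1 := f2_tr_sub ((OpData.upd D eps d eta).aa v x) (D2 v x) (D2 w x)
    have e2 : tr2 ((OpData.upd D eps d eta).aa v x) (D2 v x) =
        - ∑ i, (OpData.upd D eps d eta).bb v x i * D1 w x i -
          ∑ i, (OpData.upd D eps d eta).bb v x i * (D1 v x i - D1 w x i) := by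
      have e3 : ∑ i, (OpData.upd D eps d eta).bb v x i * D1 v x i =
          ∑ i, (OpData.upd D eps d eta).bb v x i * D1 w x i +
          ∑ i, (OpData.upd D eps d eta).bb v x i * (D1 v x i - D1 w x i) := by
        rw [← Finset.sum_add_distrib]
        refine Finset.sum_congr rfl fun i _ => ?_
        ring
      linarith
    have b1 : |∑ i, (OpData.upd D eps d eta).bb v x i * D1 w x i| ≤ 3 * (B * Real.sqrt (vsq (D1 w x))) :=
      f2_dot hb (f2_abs_le (D1 w x))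
    have b2 : |∑ i, (OpData.upd D eps d eta).bb v x i * (D1 v x i - D1 w x i)| ≤ 3 * (B * ε) := by
      refine f2_dot (u := fun i => D1 v x i - D1 w x i) hb ?_
      intro i
      rw [abs_sub_comm]
      exact hw1 i
    have b3 : |tr2 ((OpData.upd D eps d eta).aa v x) (fun i j => D2 v x i j - D2 w x i j)| ≤ 9 * (B * ε) := by
      refine f2_tr ha ?_
      intro i j
      rw [abs_sub_comm]
      exact hw2 i j
    rw [e1, e2]
    rw [abs_le] at b1 b2 b3 ⊢
    constructor <;> linarith [b1.1, b1.2, b2.1, b2.2, b3.1, b3.2]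
  · intro x hx
    positivity
  · exact integrableOn_const (f2_annF D.R).ne

theorem f2_sq {a b ε : ℝ} (h : |a - b| ≤ ε) : b ^ 2 ≤ 2 * a ^ 2 + 2 * ε ^ 2 := by
  have h1 : (a - b) ^ 2 ≤ ε ^ 2 := by
    rw [← sq_abs]
    exact pow_le_pow_left₀ (abs_nonneg _) h 2
  nlinarith [sq_nonneg (2 * a - b)]

theorem f2_vsq {u s : Fin 3 → ℝ} {ε : ℝ} (h : ∀ i, |u i - s i| ≤ ε) : vsq s ≤ 2 * vsq u + 6 * ε ^ 2 := by
  unfold vsq
  rw [Fin.sum_univ_three, Fin.sum_univ_three]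
  linarith [f2_sq (h 0), f2_sq (h 1), f2_sq (h 2)]

theorem f2_fsq {u s : Matrix (Fin 3) (Fin 3) ℝ} {ε : ℝ} (h : ∀ i j, |u i j - s i j| ≤ ε) :
    fsq s ≤ 2 * fsq u + 18 * ε ^ 2 := by
  have h0 := f2_vsq (h 0)
  have h1 := f2_vsq (h 1)
  have h2 := f2_vsq (h 2)
  unfold vsq at h0 h1 h2
  unfold fsq
  rw [Fin.sum_univ_three (fun i => ∑ j, s i j ^ 2), Fin.sum_univ_three (fun i => ∑ j, u i j ^ 2)]
  linarith

/-- **F2.** Take `w` from `Sol.approx` with `ε`; on `Ann`: `|a:D²w| = |a:(D²w - D²v) - b·(D1 v - D1 w) - b·D1 w| ≤ C √vsq(D1 w) + C ε`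
(F1), `w22` with `f = C ε` (constant), `S` from F0b and Cord from A3b (`S x = G x` on the annulus); let `ε → 0`: the integrals of
`fsq (D2 v)` etc. are the limits (uniform convergence of bounded functions on the annulus). -/
theorem sol_bd {D : OpData} (hD : D.Ok) : ∃ C : ℝ, 0 ≤ C ∧ ∀ (eps d : ℝ) (eta : E3 → ℝ), (OpData.upd D eps d eta).Ok →
    ∀ v : E3 → ℝ, Sol (OpData.upd D eps d eta) v →
      ∫ x in Ann D.R, (fsq (D2 v x) + vsq (D1 v x) + vsq (D1 v x) ^ 2) ≤ C := by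
  obtain ⟨C, hC, hb⟩ := f2_w hD
  have hV := ENNReal.toReal_nonneg (a := volume (Ann D.R))
  refine ⟨8 * C + 96 * (volume (Ann D.R)).toReal, by positivity, ?_⟩
  intro eps d eta hU v hv
  obtain ⟨w, hw, hwv, hwI⟩ := hb eps d eta hU v hv 1 one_pos le_rfl
  have hgc : Continuous fun x => fsq (D2 w x) + vsq (D1 w x) + vsq (D1 w x) ^ 2 :=
    ((f2_fsq_cont hw.smooth).add (f2_vsq_cont hw.smooth)).add ((f2_vsq_cont hw.smooth).pow 2)
  have hgi : IntegrableOn (fun x => fsq (D2 w x) + vsq (D1 w x) + vsq (D1 w x) ^ 2) (Ann D.R) := f2_intOn hgc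
  have hi : ∫ x in Ann D.R, (8 * (fsq (D2 w x) + vsq (D1 w x) + vsq (D1 w x) ^ 2) + 96) =
      8 * (∫ x in Ann D.R, (fsq (D2 w x) + vsq (D1 w x) + vsq (D1 w x) ^ 2)) + 96 * (volume (Ann D.R)).toReal := by
    rw [integral_add (hgi.const_mul 8) (integrableOn_const (f2_annF D.R).ne), integral_const_mul,
      setIntegral_const, smul_eq_mul]
    rw [mul_comm (96 : ℝ)]
    rfl
  have hle : ∫ x in Ann D.R, (fsq (D2 v x) + vsq (D1 v x) + vsq (D1 v x) ^ 2) ≤
      ∫ x in Ann D.R, (8 * (fsq (D2 w x) + vsq (D1 w x) + vsq (D1 w x) ^ 2) + 96) := by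
    refine integral_mono_of_nonneg (Eventually.of_forall fun x => ?_)
      ((hgi.const_mul 8).add (integrableOn_const (f2_annF D.R).ne)) ?_
    · have h1 : 0 ≤ fsq (D2 v x) := Finset.sum_nonneg fun i _ => Finset.sum_nonneg fun j _ => sq_nonneg _
      have h2 : 0 ≤ vsq (D1 v x) := Finset.sum_nonneg fun i _ => sq_nonneg _
      show 0 ≤ fsq (D2 v x) + vsq (D1 v x) + vsq (D1 v x) ^ 2
      positivity
    · filter_upwards [ae_restrict_mem (f2_annM D.R)] with x hx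
      obtain ⟨-, h1, h2⟩ := hwv x hx
      have f1 := f2_fsq h2
      have v1 := f2_vsq h1
      have h3 : 0 ≤ vsq (D1 v x) := Finset.sum_nonneg fun i _ => sq_nonneg _
      have h4 : 0 ≤ vsq (D1 w x) := Finset.sum_nonneg fun i _ => sq_nonneg _
      have h5 : 0 ≤ fsq (D2 w x) := Finset.sum_nonneg fun i _ => Finset.sum_nonneg fun j _ => sq_nonneg _
      have h6 : vsq (D1 v x) ^ 2 ≤ (2 * vsq (D1 w x) + 6) ^ 2 := by
        refine pow_le_pow_left₀ h3 ?_ 2
        linarith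
      have h7 : (2 * vsq (D1 w x) + 6) ^ 2 ≤ 8 * vsq (D1 w x) ^ 2 + 72 := by
        nlinarith [sq_nonneg (2 * vsq (D1 w x) - 6)]
      show fsq (D2 v x) + vsq (D1 v x) + vsq (D1 v x) ^ 2 ≤
        8 * (fsq (D2 w x) + vsq (D1 w x) + vsq (D1 w x) ^ 2) + 96
      linarith
  rw [hi] at hle
  linarith

end UMB.W
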