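import Pool.Agent.Lib.UMB.W.F1U
import Pool.Agent.Lib.UMB.W.F2

/-! # UMB.W chunk F2U: the W^{2,2} bound for the solutions, uniform also in the tensor k -/

set_option autoImplicit false

open Filter Topology Set MeasureTheory
open scoped ContDiff BigOperators
open Pool.Agent.Lib.PenroseSph (E3 Tens pd)
open UMB.Lin (Ann cAnn sig)

namespace UMB.W

/-- The uniform bound for the approximations. -/
theorem f2u_w {D : OpData} (hD : D.Ok) (K : ℝ) : ∃ C : ℝ, 0 ≤ C ∧ ∀ (k : Tens) (eps d : ℝ) (eta : E3 → ℝ),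
    (∀ x ∈ cAnn D.R, ∀ i j, |k x i j| ≤ K) → (OpData.updk D k eps d eta).Ok →
    ∀ v : E3 → ℝ, Sol (OpData.updk D k eps d eta) v → ∀ ε : ℝ, 0 < ε → ε ≤ 1 →
      ∃ w : E3 → ℝ, Cls D.R w ∧ (∀ x ∈ Ann D.R, |w x - v x| ≤ ε ∧
        (∀ i, |D1 w x i - D1 v x i| ≤ ε) ∧ ∀ i j, |D2 w x i j - D2 v x i j| ≤ ε) ∧
      ∫ x in Ann D.R, (fsq (D2 w x) + vsq (D1 w x) + vsq (D1 w x) ^ 2) ≤ C := by
  obtain ⟨S, lam, Lam, hLam, hS, hSG⟩ := exists_metric hD
  obtain ⟨B, hB, hcb⟩ := coeff_bdU hD K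
  have hp0 := hD.one_lt_p0
  have hc : 0 < (D.p0 - 1) / 2 := by linarith
  have hC1 : 0 ≤ 7 / (D.p0 - 1) := div_nonneg (by norm_num) (by linarith)
  obtain ⟨C, hC, hw22⟩ := w22 (R := D.R) hD.one_lt_R (lam := lam) (Lam := Lam) hS.lam_pos hc hC1
    (B := 3 * B) (by linarith)
  have hI : ∀ ε : ℝ, ∫ x in Ann D.R, (12 * B * ε) ^ 2 = (12 * B * ε) ^ 2 * (volume (Ann D.R)).toReal := by
    intro ε
    rw [setIntegral_const, smul_eq_mul, mul_comm]
    rfl
  refine ⟨C * (1 + (12 * B) ^ 2 * (volume (Ann D.R)).toReal), ?_, ?_⟩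
  · have := ENNReal.toReal_nonneg (a := volume (Ann D.R))
    positivity
  intro k eps d eta hk hU v hv ε hε hε1
  obtain ⟨w, hw, hwv⟩ := hv.approx ε hε
  refine ⟨w, hw, hwv, ?_⟩
  have key := hw22 S hS w hw ((OpData.updk D k eps d eta).aa v) (fun _ => 12 * B * ε) ?_ ?_ ?_ ?_
  · refine key.trans ?_
    refine mul_le_mul_of_nonneg_left ?_ hC
    rw [hI ε]
    have h1 : (12 * B * ε) ^ 2 ≤ (12 * B) ^ 2 := by
      refine pow_le_pow_left₀ (by positivity) ?_ 2
      exact mul_le_of_le_one_right (by positivity) hε1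
    have h2 := ENNReal.toReal_nonneg (a := volume (Ann D.R))
    have h3 := mul_le_mul_of_nonneg_right h1 h2
    linarith
  · intro x hx
    have hx' : x ∈ cAnn D.R := ⟨hx.1.le, hx.2.le⟩
    rw [hSG x hx']
    exact cord_aa hU v (lt_of_lt_of_le hD.a_lt hx.1.le)
  · intro x hx
    have hx' : x ∈ cAnn D.R := ⟨hx.1.le, hx.2.le⟩
    obtain ⟨ha, hb, -, -⟩ := hcb k eps d eta hk hU v x hx'
    obtain ⟨-, hw1, hw2⟩ := hwv x hx
    have hsol := hv.solves x hx
    have e1 := f2_tr_sub ((OpData.updk D k eps d eta).aa v x) (D2 v x) (D2 w x)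
    have e2 : tr2 ((OpData.updk D k eps d eta).aa v x) (D2 v x) =
        - ∑ i, (OpData.updk D k eps d eta).bb v x i * D1 w x i -
          ∑ i, (OpData.updk D k eps d eta).bb v x i * (D1 v x i - D1 w x i) := by
      have e3 : ∑ i, (OpData.updk D k eps d eta).bb v x i * D1 v x i =
          ∑ i, (OpData.updk D k eps d eta).bb v x i * D1 w x i +
          ∑ i, (OpData.updk D k eps d eta).bb v x i * (D1 v x i - D1 w x i) := by
        rw [← Finset.sum_add_distrib]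
        refine Finset.sum_congr rfl fun i _ => ?_
        ring
      linarith
    have b1 : |∑ i, (OpData.updk D k eps d eta).bb v x i * D1 w x i| ≤ 3 * (B * Real.sqrt (vsq (D1 w x))) :=
      f2_dot hb (f2_abs_le (D1 w x))
    have b2 : |∑ i, (OpData.updk D k eps d eta).bb v x i * (D1 v x i - D1 w x i)| ≤ 3 * (B * ε) := by
      refine f2_dot (u := fun i => D1 v x i - D1 w x i) hb ?_
      intro i
      rw [abs_sub_comm]
      exact hw1 i
    have b3 : |tr2 ((OpData.updk D k eps d eta).aa v x) (fun i j => D2 v x i j - D2 w x i j)| ≤ 9 * (B * ε) := by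
      refine f2_tr ha ?_
      intro i j
      rw [abs_sub_comm]
      exact hw2 i j
    rw [e1, e2]
    rw [abs_le] at b1 b2 b3 ⊢
    constructor <;> linarith [b1.1, b1.2, b2.1, b2.2, b3.1, b3.2]
  · intro x hx
    positivity
  · exact integrableOn_const (f2_annF D.R).ne

/-- **F2U.** As F2 (`sol_bd` in F2.lean) with F1U. -/
theorem sol_bdU {D : OpData} (hD : D.Ok) (K : ℝ) : ∃ C : ℝ, 0 ≤ C ∧ ∀ (k : Tens) (eps d : ℝ) (eta : E3 → ℝ),
    (∀ x ∈ cAnn D.R, ∀ i j, |k x i j| ≤ K) → (OpData.updk D k eps d eta).Ok →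
    ∀ v : E3 → ℝ, Sol (OpData.updk D k eps d eta) v →
      ∫ x in Ann D.R, (fsq (D2 v x) + vsq (D1 v x) + vsq (D1 v x) ^ 2) ≤ C := by
  obtain ⟨C, hC, hb⟩ := f2u_w hD K
  have hV := ENNReal.toReal_nonneg (a := volume (Ann D.R))
  refine ⟨8 * C + 96 * (volume (Ann D.R)).toReal, by positivity, ?_⟩
  intro k eps d eta hk hU v hv
  obtain ⟨w, hw, hwv, hwI⟩ := hb k eps d eta hk hU v hv 1 one_pos le_rfl
  have hgc : Continuous fun x => fsq (D2 w x) + vsq (D1 w x) + vsq (D1 w x) ^ 2 :=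
    ((f2_fsq_cont hw.smooth).add (f2_vsq_cont hw.smooth)).add ((f2_vsq_cont hw.smooth).pow 2)
  have hgi : IntegrableOn (fun x => fsq (D2 w x) + vsq (D1 w x) + vsq (D1 w x) ^ 2) (Ann D.R) := f2_intOn hgc
  have hi : ∫ x in Ann D.R, (8 * (fsq (D2 w x) + vsq (D1 w x) + vsq (D1 w x) ^ 2) + 96) =
      8 * (∫ x in Ann D.R, (fsq (D2 w x) + vsq (D1 w x) + vsq (D1 w x) ^ 2)) + 96 * (volume (Ann D.R)).toReal := by
    rw [integral_add (hgi.const_mul 8) (integrableOn_const (f2_annF D.R).ne), integral_const_mul,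
      setIntegral_const, smul_eq_mul]
    rw [mul_comm (96 : ℝ)]
    rfl
  have hle : ∫ x in Ann D.R, (fsq (D2 v x) + vsq (D1 v x) + vsq (D1 v x) ^ 2) ≤
      ∫ x in Ann D.R, (8 * (fsq (D2 w x) + vsq (D1 w x) + vsq (D1 w x) ^ 2) + 96) := by
    refine integral_mono_of_nonneg (Eventually.of_forall fun x => ?_)
      ((hgi.const_mul 8).add (integrableOn_const (f2_annF D.R).ne)) ?_
    · have h1 : 0 ≤ fsq (D2 v x) := Finset.sum_nonneg fun i _ => Finset.sum_nonneg fun j _ => sq_nonneg _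
      have h2 : 0 ≤ vsq (D1 v x) := Finset.sum_nonneg fun i _ => sq_nonneg _
      show 0 ≤ fsq (D2 v x) + vsq (D1 v x) + vsq (D1 v x) ^ 2
      positivity
    · filter_upwards [ae_restrict_mem (f2_annM D.R)] with x hx
      obtain ⟨-, h1, h2⟩ := hwv x hx
      have f1 := f2_fsq h2
      have v1 := f2_vsq h1
      have h3 : 0 ≤ vsq (D1 v x) := Finset.sum_nonneg fun i _ => sq_nonneg _
      have h4 : 0 ≤ vsq (D1 w x) := Finset.sum_nonneg fun i _ => sq_nonneg _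
      have h5 : 0 ≤ fsq (D2 w x) := Finset.sum_nonneg fun i _ => Finset.sum_nonneg fun j _ => sq_nonneg _
      have h6 : vsq (D1 v x) ^ 2 ≤ (2 * vsq (D1 w x) + 6) ^ 2 := by
        refine pow_le_pow_left₀ h3 ?_ 2
        linarith
      have h7 : (2 * vsq (D1 w x) + 6) ^ 2 ≤ 8 * vsq (D1 w x) ^ 2 + 72 := by
        nlinarith [sq_nonneg (2 * vsq (D1 w x) - 6)]
      show fsq (D2 v x) + vsq (D1 v x) + vsq (D1 v x) ^ 2 ≤
        8 * (fsq (D2 w x) + vsq (D1 w x) + vsq (D1 w x) ^ 2) + 96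
      linarith
  rw [hi] at hle
  linarith

end UMB.W
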