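import Pool.Agent.Lib.UMB.W.EDefs

/-! # UMB.W chunk E0: the functions kt, K, F -/

set_option autoImplicit false

open Filter Topology Set MeasureTheory
open scoped ContDiff BigOperators
open Pool.Agent.Lib.PenroseSph (E3 Tens pd)
open UMB.Lin (Ann cAnn sig)

namespace UMB.W

variable {p0 : ℝ} {p : ℝ → ℝ}

theorem kt_bd (hp : Expo p0 p) (z : ℝ) : 1 ≤ kt p z ∧ kt p z ≤ 2 / (p0 - 1) := by
  have h1 := hp.one_lt
  have h2 := hp.ge z
  have h3 := hp.le z
  have h4 : 0 < p z - 1 := by linarith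
  have h5 : 0 < p0 - 1 := by linarith
  unfold kt
  constructor
  · rw [le_div_iff₀ h4]
    linarith
  · rw [div_le_div_iff₀ h4 h5]
    nlinarith

theorem kt_smooth (hp : Expo p0 p) : ContDiff ℝ ∞ (kt p) := by
  have h1 := hp.one_lt
  refine ContDiff.div (contDiff_const.sub hp.smooth) (hp.smooth.sub contDiff_const) ?_
  intro z hz
  have := hp.ge z
  linarith

theorem KK_deriv (hp : Expo p0 p) (z : ℝ) : HasDerivAt (KK p) (kt p z) z := by
  have hc : Continuous (kt p) := (kt_smooth hp).continuous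
  exact intervalIntegral.integral_hasDerivAt_right (hc.intervalIntegrable _ _)
    (hc.stronglyMeasurableAtFilter _ _) hc.continuousAt

/-- `contDiff_infty_iff_deriv`. -/
theorem KK_smooth (hp : Expo p0 p) : ContDiff ℝ ∞ (KK p) := by
  rw [contDiff_infty_iff_deriv]
  refine ⟨fun z => (KK_deriv hp z).differentiableAt, ?_⟩
  have : deriv (KK p) = kt p := by
    funext z
    exact (KK_deriv hp z).deriv
  rw [this]
  exact kt_smooth hp

theorem KK_bd (hp : Expo p0 p) {z : ℝ} (hz : 0 ≤ z) : z ≤ KK p z ∧ KK p z ≤ 2 / (p0 - 1) * z := by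
  have hc : Continuous (kt p) := (kt_smooth hp).continuous
  constructor
  · have h1 : ∫ t in (0 : ℝ)..z, (1 : ℝ) ≤ ∫ t in (0 : ℝ)..z, kt p t :=
      intervalIntegral.integral_mono_on hz (by simp) (hc.intervalIntegrable _ _)
        (fun t _ => (kt_bd hp t).1)
    simpa [KK] using h1
  · have h1 : ∫ t in (0 : ℝ)..z, kt p t ≤ ∫ t in (0 : ℝ)..z, (2 / (p0 - 1)) :=
      intervalIntegral.integral_mono_on hz (hc.intervalIntegrable _ _) (by simp)
        (fun t _ => (kt_bd hp t).2)
    rw [intervalIntegral.integral_const, smul_eq_mul, sub_zero, mul_comm] at h1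
    exact h1

theorem e0_mono (hp : Expo p0 p) : StrictMono (KK p) := by
  refine strictMono_of_deriv_pos fun z => ?_
  rw [(KK_deriv hp z).deriv]
  linarith [(kt_bd hp z).1]

/-- derivative of `F` at a point where `K + κ > 0` -/
theorem e0_deriv (hp : Expo p0 p) {κ : ℝ} (hκ : 0 < κ) {z : ℝ} (hz : 0 < KK p z + κ) :
    HasDerivAt (FF p κ) (- (KK p z + κ)⁻¹) z := by
  have hcK : Continuous (KK p) := (KK_smooth hp).continuous
  have hpos : ∀ t ∈ Set.uIcc z 1, 0 < KK p t + κ := by
    intro t ht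
    rcases le_total z 1 with h | h
    · rw [Set.uIcc_of_le h] at ht
      have := (e0_mono hp).monotone ht.1
      linarith
    · rw [Set.uIcc_of_ge h] at ht
      have h0 : KK p 0 = 0 := by simp [KK]
      have := (e0_mono hp).monotone (show (0 : ℝ) ≤ t by linarith [ht.1])
      linarith
  have hcont : ContinuousOn (fun t => (KK p t + κ)⁻¹) (Set.uIcc z 1) := by
    refine ContinuousOn.inv₀ (hcK.continuousOn.add continuousOn_const) ?_
    intro t ht
    exact (hpos t ht).ne'
  have hopen : IsOpen {t : ℝ | 0 < KK p t + κ} := isOpen_lt continuous_const (hcK.add continuous_const)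
  have hcontAt : ContinuousAt (fun t => (KK p t + κ)⁻¹) z :=
    ContinuousAt.inv₀ (hcK.continuousAt.add continuousAt_const) hz.ne'
  have hmeas : StronglyMeasurableAtFilter (fun t => (KK p t + κ)⁻¹) (𝓝 z) volume := by
    have hco : ContinuousOn (fun t => (KK p t + κ)⁻¹) {t : ℝ | 0 < KK p t + κ} := by
      refine ContinuousOn.inv₀ (hcK.continuousOn.add continuousOn_const) ?_
      intro t ht
      exact (show 0 < KK p t + κ from ht).ne'
    exact hco.stronglyMeasurableAtFilter hopen z hz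
  exact intervalIntegral.integral_hasDerivAt_left hcont.intervalIntegrable hmeas hcontAt

/-- For `0 ≤ z`: `K + κ > 0` on a neighbourhood of `[z, 1]` (resp. `[1, z]`). -/
theorem FF_deriv (hp : Expo p0 p) {κ : ℝ} (hκ : 0 < κ) {z : ℝ} (hz : 0 ≤ z) :
    HasDerivAt (FF p κ) (- (KK p z + κ)⁻¹) z := by
  refine e0_deriv hp hκ ?_
  have := (KK_bd hp hz).1
  linarith

/-- `K` is increasing (`kt ≥ 1`), so the set is an open half line; the derivative of `F` there is the smooth function
`- (K + κ)⁻¹` (`contDiffOn_infty_iff_deriv_of_isOpen`). -/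
theorem FF_smooth (hp : Expo p0 p) {κ : ℝ} (hκ : 0 < κ) : ContDiffOn ℝ ∞ (FF p κ) {z : ℝ | 0 < KK p z + κ} := by
  have hcK : Continuous (KK p) := (KK_smooth hp).continuous
  have hopen : IsOpen {t : ℝ | 0 < KK p t + κ} := isOpen_lt continuous_const (hcK.add continuous_const)
  rw [contDiffOn_infty_iff_deriv_of_isOpen hopen]
  refine ⟨fun z hz => (e0_deriv hp hκ hz).differentiableAt.differentiableWithinAt, ?_⟩
  have h1 : ContDiffOn ℝ ∞ (fun z => - (KK p z + κ)⁻¹) {t : ℝ | 0 < KK p t + κ} := by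
    refine ContDiffOn.neg (ContDiffOn.inv ((KK_smooth hp).contDiffOn.add contDiffOn_const) ?_)
    intro t ht
    exact (show 0 < KK p t + κ from ht).ne'
  refine h1.congr ?_
  intro z hz
  exact (e0_deriv hp hκ hz).deriv

theorem FF_one (p : ℝ → ℝ) (κ : ℝ) : FF p κ 1 = 0 := by
  simp [FF]

theorem FF_bd (hp : Expo p0 p) {κ : ℝ} (hκ : 0 < κ) {z : ℝ} (hz : 0 ≤ z) (hz1 : z ≤ 1) :
    0 ≤ FF p κ z ∧ FF p κ z ≤ κ⁻¹ := by
  have hcK : Continuous (KK p) := (KK_smooth hp).continuous
  have hpos : ∀ t ∈ Set.Icc z 1, κ ≤ KK p t + κ := by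
    intro t ht
    have h0 := (KK_bd hp (show (0 : ℝ) ≤ t by linarith [ht.1])).1
    linarith [ht.1]
  have hint : IntervalIntegrable (fun t => (KK p t + κ)⁻¹) volume z 1 := by
    refine ContinuousOn.intervalIntegrable ?_
    rw [Set.uIcc_of_le hz1]
    refine ContinuousOn.inv₀ (hcK.continuousOn.add continuousOn_const) ?_
    intro t ht
    have := hpos t ht
    linarith
  constructor
  · refine intervalIntegral.integral_nonneg hz1 ?_
    intro t ht
    have := hpos t ht
    exact inv_nonneg.mpr (by linarith)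
  · have h1 : FF p κ z ≤ ∫ t in z..(1 : ℝ), κ⁻¹ := by
      refine intervalIntegral.integral_mono_on hz1 hint (by simp) ?_
      intro t ht
      exact inv_anti₀ hκ (hpos t ht)
    rw [intervalIntegral.integral_const, smul_eq_mul] at h1
    have h2 : 0 < κ⁻¹ := inv_pos.mpr hκ
    nlinarith

theorem FF_anti (hp : Expo p0 p) {κ : ℝ} (hκ : 0 < κ) : StrictAntiOn (FF p κ) (Set.Ici 0) := by
  refine strictAntiOn_of_deriv_neg (convex_Ici 0) ?_ ?_
  · intro z hz
    exact (FF_deriv hp hκ hz).continuousAt.continuousWithinAt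
  · intro z hz
    rw [interior_Ici] at hz
    rw [(FF_deriv hp hκ (le_of_lt hz)).deriv]
    have h0 := (KK_bd hp (le_of_lt hz)).1
    have h1 : (0 : ℝ) < z := hz
    have h2 : 0 < (KK p z + κ)⁻¹ := inv_pos.mpr (by linarith)
    linarith

end UMB.W
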