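import Pool.Agent.Lib.UMB.W.EDefs

/-! # UMB.W chunk E3: the size of the misalignment -/

set_option autoImplicit false

open Filter Topology Set MeasureTheory
open scoped ContDiff BigOperators
open Pool.Agent.Lib.PenroseSph (E3 Tens pd)
open UMB.Lin (Ann cAnn sig)

namespace UMB.W

/-- The bilinear form. -/
noncomputable def e3_b (G : Matrix (Fin 3) (Fin 3) ℝ) (u v : Fin 3 → ℝ) : ℝ := ∑ i, ∑ j, G i j * u i * v j

theorem e3_nonneg {G : Matrix (Fin 3) (Fin 3) ℝ} (hp : ∀ u : Fin 3 → ℝ, u ≠ 0 → 0 < q1 G u) (u : Fin 3 → ℝ) :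
    0 ≤ q1 G u := by
  by_cases h : u = 0
  · subst h
    simp [q1]
  · exact (hp u h).le

theorem e3_expand {G : Matrix (Fin 3) (Fin 3) ℝ} (hG : ∀ i j, G i j = G j i) (u v : Fin 3 → ℝ) (t : ℝ) :
    q1 G (fun i => u i + t * v i) = q1 G u + 2 * t * e3_b G u v + t ^ 2 * q1 G v := by
  simp only [q1, e3_b, Fin.sum_univ_three]
  rw [hG 1 0, hG 2 0, hG 2 1]
  ring

theorem e3_cs {G : Matrix (Fin 3) (Fin 3) ℝ} (hG : ∀ i j, G i j = G j i)
    (hp : ∀ u : Fin 3 → ℝ, u ≠ 0 → 0 < q1 G u) (u v : Fin 3 → ℝ) :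
    |e3_b G u v| ≤ Real.sqrt (q1 G u) * Real.sqrt (q1 G v) := by
  have h : ∀ t : ℝ, 0 ≤ q1 G v * (t * t) + (2 * e3_b G u v) * t + q1 G u := by
    intro t
    have h1 := e3_nonneg hp (fun i => u i + t * v i)
    rw [e3_expand hG] at h1
    nlinarith [h1]
  have h2 := discrim_le_zero h
  rw [discrim] at h2
  rw [← Real.sqrt_mul (e3_nonneg hp u)]
  apply Real.abs_le_sqrt
  nlinarith [h2]

theorem e3_tri {G : Matrix (Fin 3) (Fin 3) ℝ} (hG : ∀ i j, G i j = G j i)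
    (hp : ∀ u : Fin 3 → ℝ, u ≠ 0 → 0 < q1 G u) (q u : Fin 3 → ℝ) :
    Real.sqrt (q1 G u) ≤ Real.sqrt (q1 G q) + Real.sqrt (q1 G (fun i => q i - u i)) := by
  have h1 : q1 G u = q1 G q - 2 * e3_b G q (fun i => q i - u i) + q1 G (fun i => q i - u i) := by
    have h2 := e3_expand hG q (fun i => q i - u i) (-1)
    have h3 : (fun i => q i + (-1) * (q i - u i)) = u := by
      funext i
      ring
    rw [h3] at h2
    rw [h2]
    ring
  have h4 := e3_cs hG hp q (fun i => q i - u i)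
  have h5 := neg_abs_le (e3_b G q (fun i => q i - u i))
  have hq := Real.sq_sqrt (e3_nonneg hp q)
  have hD := Real.sq_sqrt (e3_nonneg hp (fun i => q i - u i))
  rw [Real.sqrt_le_left (by positivity), h1]
  nlinarith

theorem e3_sum {G : Matrix (Fin 3) (Fin 3) ℝ} (hG : ∀ i j, G i j = G j i) (q u : Fin 3 → ℝ) {N : ℝ}
    {n : Fin 3 → ℝ} (hn : ∀ i, n i = (∑ j, G i j * q j) / N) :
    ∑ i, n i * u i = e3_b G q u / N := by
  simp only [hn, e3_b, Fin.sum_univ_three]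
  rw [hG 1 0, hG 2 0, hG 2 1]
  ring

theorem e3_self (G : Matrix (Fin 3) (Fin 3) ℝ) (q : Fin 3 → ℝ) : e3_b G q q = q1 G q := rfl

theorem e3_sub (G : Matrix (Fin 3) (Fin 3) ℝ) (q u : Fin 3 → ℝ) :
    e3_b G q u = q1 G q - e3_b G q (fun i => q i - u i) := by
  simp only [q1, e3_b, Fin.sum_univ_three]
  ring

/-- **E3a.** `n = G q/N`, `N = √(G(q,q)+eps²)`, `s = √G(u,u)`, `ρ = min (s, eps + 2 √G(q-u,q-u))`.
Let `m = G u/√(s²+eps²)`. Then `m·u = s²/√(s²+eps²) ≥ s - eps` and `s |m - n|_gc ≤ 2 √G(q-u,q-u)`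
(`s |z/√(|z|²+ε²) - z'/√(|z'|²+ε²)| ≤ 2|z-z'|` for `s = |z|`: write the difference as
`(z - z')/N(z) + z' (1/N(z) - 1/N(z'))`, `|N(z)-N(z')| ≤ |z-z'|`, `|z'| ≤ N(z')`). Also `|n·u| ≤ s`. -/
theorem mis1 {G : Matrix (Fin 3) (Fin 3) ℝ} (hG : ∀ i j, G i j = G j i) (hp : ∀ u : Fin 3 → ℝ, u ≠ 0 → 0 < q1 G u)
    {eps : ℝ} (he : 0 < eps) (q u : Fin 3 → ℝ) {n : Fin 3 → ℝ}
    (hn : ∀ i, n i = (∑ j, G i j * q j) / Real.sqrt (q1 G q + eps ^ 2)) :
    0 ≤ Real.sqrt (q1 G u) - ∑ i, n i * u i ∧ Real.sqrt (q1 G u) - ∑ i, n i * u i ≤ 2 * rho G eps q u := by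
  set N : ℝ := Real.sqrt (q1 G q + eps ^ 2) with hN
  have hq0 := e3_nonneg hp q
  have hNsq : N ^ 2 = q1 G q + eps ^ 2 := Real.sq_sqrt (by positivity)
  have hNpos : 0 < N := Real.sqrt_pos.mpr (by positivity)
  have hNe : eps ≤ N := by
    rw [hN]
    apply Real.le_sqrt_of_sq_le
    linarith
  set s : ℝ := Real.sqrt (q1 G u) with hs
  set qn : ℝ := Real.sqrt (q1 G q) with hqn
  set D : ℝ := Real.sqrt (q1 G (fun i => q i - u i)) with hD
  have hs0 : 0 ≤ s := Real.sqrt_nonneg _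
  have hqn0 : 0 ≤ qn := Real.sqrt_nonneg _
  have hD0 : 0 ≤ D := Real.sqrt_nonneg _
  have hqnsq : qn ^ 2 = q1 G q := Real.sq_sqrt hq0
  have hqN : qn ≤ N := by
    rw [hqn, hN]
    apply Real.sqrt_le_sqrt
    nlinarith [sq_nonneg eps]
  rw [e3_sum hG q u hn]
  have hcs : |e3_b G q u| ≤ qn * s := e3_cs hG hp q u
  have hcs2 : |e3_b G q (fun i => q i - u i)| ≤ qn * D := e3_cs hG hp q (fun i => q i - u i)
  have htri : s ≤ qn + D := e3_tri hG hp q u
  have hqs : qn * s ≤ N * s := mul_le_mul_of_nonneg_right hqN hs0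
  have hqD : qn * D ≤ N * D := mul_le_mul_of_nonneg_right hqN hD0
  have h1 : e3_b G q u / N ≤ s := by
    rw [div_le_iff₀ hNpos]
    linarith [le_abs_self (e3_b G q u)]
  have h2 : - s ≤ e3_b G q u / N := by
    rw [le_div_iff₀ hNpos]
    linarith [neg_abs_le (e3_b G q u)]
  have h3 : s - eps - 2 * D ≤ e3_b G q u / N := by
    rw [le_div_iff₀ hNpos, e3_sub G q u, ← hqnsq]
    have h4 := le_abs_self (e3_b G q (fun i => q i - u i))
    have h5 : (s - eps - 2 * D) * N ≤ (N - eps - D) * N := by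
      apply mul_le_mul_of_nonneg_right _ hNpos.le
      linarith
    have h6 : (N - eps - D) * N ≤ qn ^ 2 - N * D := by
      have h7 : N ^ 2 = qn ^ 2 + eps ^ 2 := by rw [hNsq, hqnsq]
      nlinarith [mul_le_mul_of_nonneg_left hNe he.le]
    linarith
  refine ⟨by linarith, ?_⟩
  have h8 : s - e3_b G q u / N ≤ 2 * s := by linarith
  have h9 : s - e3_b G q u / N ≤ 2 * (eps + 2 * D) := by linarith
  have h10 : rho G eps q u = min s (eps + 2 * D) := rfl
  rw [h10]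
  rcases min_choice s (eps + 2 * D) with h | h
  · rw [h]
    exact h8
  · rw [h]
    exact h9

/-- **E3b.** `gc` inverse of `G`: `|n|² = gc(n,n) = G(q,q)/(G(q,q)+eps²) ≤ 1` and `s²(1-|n|²) ≤ 2 s ρ`, because
`s(1-|n|) ≤ s(1-|m|) + s|m-n| ≤ eps + 2|q-u|` and `s(1-|n|) ≤ s`. -/
theorem mis2 {G gc : Matrix (Fin 3) (Fin 3) ℝ} (hG : ∀ i j, G i j = G j i) (hgs : ∀ i j, gc i j = gc j i)
    (hgc : ∀ i j, ∑ l, G i l * gc l j = if i = j then 1 else 0)
    (hp : ∀ u : Fin 3 → ℝ, u ≠ 0 → 0 < q1 G u)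
    {eps : ℝ} (he : 0 < eps) (q u : Fin 3 → ℝ) {n : Fin 3 → ℝ}
    (hn : ∀ i, n i = (∑ j, G i j * q j) / Real.sqrt (q1 G q + eps ^ 2)) :
    q1 gc n ≤ 1 ∧ q1 G u * (1 - q1 gc n) ≤ 2 * Real.sqrt (q1 G u) * rho G eps q u := by
  set N : ℝ := Real.sqrt (q1 G q + eps ^ 2) with hN
  have hq0 := e3_nonneg hp q
  have hNsq : N ^ 2 = q1 G q + eps ^ 2 := Real.sq_sqrt (by positivity)
  have hNpos : 0 < N := Real.sqrt_pos.mpr (by positivity)
  set s : ℝ := Real.sqrt (q1 G u) with hs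
  set qn : ℝ := Real.sqrt (q1 G q) with hqn
  set D : ℝ := Real.sqrt (q1 G (fun i => q i - u i)) with hD
  have hs0 : 0 ≤ s := Real.sqrt_nonneg _
  have hqn0 : 0 ≤ qn := Real.sqrt_nonneg _
  have hD0 : 0 ≤ D := Real.sqrt_nonneg _
  have hqnsq : qn ^ 2 = q1 G q := Real.sq_sqrt hq0
  have hssq : s ^ 2 = q1 G u := Real.sq_sqrt (e3_nonneg hp u)
  have htri : s ≤ qn + D := e3_tri hG hp q u
  have hnn : q1 gc n = qn ^ 2 / N ^ 2 := by
    -- `∑_j gc i j n j = q i / N`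
    have h1 : ∀ i, ∑ j, gc i j * n j = q i / N := by
      intro i
      have h2 : ∑ j, gc i j * n j = (∑ j, gc i j * ∑ l, G j l * q l) / N := by
        rw [Finset.sum_div]
        refine Finset.sum_congr rfl fun j _ => ?_
        rw [hn]
        ring
      rw [h2]
      congr 1
      have h3 : ∀ l, ∑ j, G l j * gc j i = if l = i then 1 else 0 := fun l => hgc l i
      have h4 : ∑ j, gc i j * ∑ l, G j l * q l = ∑ l, (∑ j, G l j * gc j i) * q l := by
        simp only [Finset.mul_sum, Finset.sum_mul]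
        rw [Finset.sum_comm]
        refine Finset.sum_congr rfl fun l _ => Finset.sum_congr rfl fun j _ => ?_
        rw [hgs i j, hG j l]
        ring
      rw [h4]
      simp [h3]
    have h5 : q1 gc n = ∑ i, n i * ∑ j, gc i j * n j := by
      simp only [q1, Finset.mul_sum]
      refine Finset.sum_congr rfl fun i _ => Finset.sum_congr rfl fun j _ => ?_
      ring
    rw [h5]
    have h6 : ∑ i, n i * ∑ j, gc i j * n j = (∑ i, n i * q i) / N := by
      rw [Finset.sum_div]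
      refine Finset.sum_congr rfl fun i _ => ?_
      rw [h1]
      ring
    rw [h6, e3_sum hG q q hn, e3_self, hqnsq]
    field_simp
  have hNsq' : N ^ 2 = qn ^ 2 + eps ^ 2 := by rw [hNsq, hqnsq]
  have hN2 : 0 < N ^ 2 := by positivity
  have h1m : 1 - q1 gc n = eps ^ 2 / N ^ 2 := by
    rw [hnn]
    field_simp
    linarith
  refine ⟨?_, ?_⟩
  · have : 0 ≤ eps ^ 2 / N ^ 2 := by positivity
    linarith
  · rw [h1m, ← hssq]
    have h10 : rho G eps q u = min s (eps + 2 * D) := rfl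
    have ha : s * (eps ^ 2 / N ^ 2) ≤ s := by
      have : eps ^ 2 / N ^ 2 ≤ 1 := by
        rw [div_le_one hN2]
        nlinarith [sq_nonneg qn]
      nlinarith
    have hb : s * (eps ^ 2 / N ^ 2) ≤ eps + 2 * D := by
      have h2 : s * (eps ^ 2 / N ^ 2) ≤ (qn + D) * (eps ^ 2 / N ^ 2) :=
        mul_le_mul_of_nonneg_right htri (by positivity)
      have h3 : qn * (eps ^ 2 / N ^ 2) ≤ eps := by
        rw [mul_div_assoc', div_le_iff₀ hN2, hNsq']
        nlinarith [sq_nonneg (qn - eps), mul_nonneg he.le (sq_nonneg (qn - eps)), he, mul_nonneg he.le (mul_nonneg hqn0 he.le)]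
      have h4 : D * (eps ^ 2 / N ^ 2) ≤ D := by
        have : eps ^ 2 / N ^ 2 ≤ 1 := by
          rw [div_le_one hN2]
          nlinarith [sq_nonneg qn]
        nlinarith
      have h5 : (qn + D) * (eps ^ 2 / N ^ 2) = qn * (eps ^ 2 / N ^ 2) + D * (eps ^ 2 / N ^ 2) := by ring
      linarith
    have hc : s * (eps ^ 2 / N ^ 2) ≤ rho G eps q u := by
      rw [h10]
      exact le_min ha hb
    have hr0 : 0 ≤ s * (eps ^ 2 / N ^ 2) := by positivity
    calc s ^ 2 * (eps ^ 2 / N ^ 2) = s * (s * (eps ^ 2 / N ^ 2)) := by ring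
      _ ≤ s * rho G eps q u := mul_le_mul_of_nonneg_left hc hs0
      _ ≤ 2 * s * rho G eps q u := by nlinarith [mul_nonneg hs0 (hr0.trans hc)]

end UMB.W
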