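import Pool.Agent.Lib.UMB.W.A2

/-! # UMB.W chunk A3: the coefficients of the mollified operator satisfy the Cordes condition -/

set_option autoImplicit false

open Filter Topology Set MeasureTheory
open scoped ContDiff BigOperators
open Pool.Agent.Lib.PenroseSph (E3 Tens pd)
open UMB.Lin (Ann cAnn sig)

namespace UMB.W

theorem a3_q1_nonneg {G : Matrix (Fin 3) (Fin 3) ℝ}
    (hp : ∀ u : Fin 3 → ℝ, u ≠ 0 → 0 < q1 G u) (u : Fin 3 → ℝ) : 0 ≤ q1 G u := by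
  by_cases hu : u = 0
  · subst hu
    simp [q1]
  · exact (hp u hu).le

theorem a3_cs {G : Matrix (Fin 3) (Fin 3) ℝ} (hs : ∀ i j, G i j = G j i)
    (hp : ∀ u : Fin 3 → ℝ, 0 ≤ q1 G u) (q u : Fin 3 → ℝ) :
    (∑ i, ∑ j, G i j * q j * u i) ^ 2 ≤ q1 G q * q1 G u := by
  have h1 : ∀ t : ℝ, 0 ≤ q1 G q * (t * t) + (-2 * ∑ i, ∑ j, G i j * q j * u i) * t + q1 G u := by
    intro t
    have h2 := hp (fun i => u i - t * q i)
    have h3 : q1 G (fun i => u i - t * q i) =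
        q1 G q * (t * t) + (-2 * ∑ i, ∑ j, G i j * q j * u i) * t + q1 G u := by
      simp only [q1, Fin.sum_univ_three, hs 1 0, hs 2 0, hs 2 1]
      ring
    rw [h3] at h2
    exact h2
  have h4 := discrim_le_zero h1
  unfold discrim at h4
  linarith

/-- **A3a.** `(n·u)² ≤ G(u,u)`: `n·u = G(q,u)/N`, `G(q,u)² ≤ G(q,q) G(u,u)` (Cauchy-Schwarz for the positive form `G`:
discriminant of `t ↦ q1 G (u - t q) ≥ 0`), `N² = G(q,q) + eps²`. -/
theorem nn_le {D : OpData} (hD : D.Ok) (v : E3 → ℝ) {x : E3} (hx : D.a < ‖x‖) (u : Fin 3 → ℝ) :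
    (∑ i, D.nn v x i * u i) ^ 2 ≤ q1 (D.G x) u := by
  have hs : ∀ i j, D.G x i j = D.G x j i := fun i j => (hD.G_symm x hx).apply j i
  have hp : ∀ w : Fin 3 → ℝ, 0 ≤ q1 (D.G x) w := a3_q1_nonneg (hD.G_pos x hx)
  have hcs := a3_cs hs hp (D.qd v x) u
  have hq0 := hp (D.qd v x)
  have hu0 := hp u
  have he : 0 < D.eps ^ 2 := pow_pos hD.eps_pos 2
  have hN2 : D.Nd v x ^ 2 = q1 (D.G x) (D.qd v x) + D.eps ^ 2 := by
    unfold OpData.Nd
    exact Real.sq_sqrt (by linarith)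
  have hNpos : 0 < D.Nd v x ^ 2 := by
    rw [hN2]
    linarith
  have h1 : ∑ i, D.nn v x i * u i = (∑ i, ∑ j, D.G x i j * D.qd v x j * u i) / D.Nd v x := by
    rw [Finset.sum_div]
    refine Finset.sum_congr rfl fun i _ => ?_
    unfold OpData.nn
    rw [div_mul_eq_mul_div, Finset.sum_mul]
  rw [h1, div_pow, div_le_iff₀ hNpos, hN2]
  nlinarith [mul_nonneg he.le hu0]

/-- **A3b.** -/
theorem cord_aa {D : OpData} (hD : D.Ok) (v : E3 → ℝ) {x : E3} (hx : D.a < ‖x‖) :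
    Cord ((D.p0 - 1) / 2) (7 / (D.p0 - 1)) (D.G x) (D.aa v x) :=
  cordes hD.one_lt_p0 (hD.p_ge _) (hD.p_le _) (fun i j => (hD.G_symm x hx).apply j i)
    (hD.G_pos x hx) (nn_le hD v hx)

end UMB.W
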