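import Pool.Agent.Lib.UMB.W.F3
import Pool.Agent.Lib.UMB.W.A3
import Pool.Agent.Lib.UMB.W.SolReg

/-! # UMB.W chunk F7: the sign of the drift term -/

set_option autoImplicit false

open Filter Topology Set MeasureTheory
open scoped ContDiff BigOperators
open Pool.Agent.Lib.PenroseSph (E3 Tens pd)
open UMB.Lin (Ann cAnn sig)

namespace UMB.W

theorem f7_cs {G : Matrix (Fin 3) (Fin 3) ℝ} (hG : ∀ i j, G i j = G j i)
    (hp : ∀ u : Fin 3 → ℝ, u ≠ 0 → 0 < q1 G u) (q u : Fin 3 → ℝ) :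
    |∑ i, (∑ l, G i l * q l) * u i| ≤ Real.sqrt (q1 G q) * Real.sqrt (q1 G u) := by
  have h := a3_cs hG (a3_q1_nonneg hp) q u
  have e : ∑ i, ∑ j, G i j * q j * u i = ∑ i, (∑ l, G i l * q l) * u i := by
    refine Finset.sum_congr rfl fun i _ => ?_
    rw [Finset.sum_mul]
  rw [e] at h
  rw [← Real.sqrt_mul (a3_q1_nonneg hp q)]
  exact Real.abs_le_sqrt h

/-- **F7a.** `n·u = G(q,u)/N ≥ - |u-q|`: `G(q,u) = G(q,q) + G(q,u-q) ≥ - |q||u-q|`, `|q| ≤ N`. -/
theorem nu_ge {G : Matrix (Fin 3) (Fin 3) ℝ} (hG : ∀ i j, G i j = G j i) (hp : ∀ u : Fin 3 → ℝ, u ≠ 0 → 0 < q1 G u)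
    {eps : ℝ} (he : 0 < eps) (q u : Fin 3 → ℝ) :
    - Real.sqrt (q1 G (fun j => q j - u j)) ≤ (∑ i, (∑ l, G i l * q l) * u i) / Real.sqrt (q1 G q + eps ^ 2) := by
  have hq := a3_q1_nonneg hp q
  have he2 : 0 < eps ^ 2 := pow_pos he 2
  have hN : 0 < Real.sqrt (q1 G q + eps ^ 2) := Real.sqrt_pos.2 (by linarith)
  rw [le_div_iff₀ hN]
  have h1 := f7_cs hG hp q (fun j => q j - u j)
  have e1 : ∑ i, (∑ l, G i l * q l) * u i =
      q1 G q - ∑ i, (∑ l, G i l * q l) * (q i - u i) := by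
    simp only [q1, Fin.sum_univ_three]
    ring
  have h2 : Real.sqrt (q1 G q) ≤ Real.sqrt (q1 G q + eps ^ 2) := Real.sqrt_le_sqrt (by linarith)
  have h3 := abs_le.1 h1
  have h4 := mul_le_mul_of_nonneg_right h2 (Real.sqrt_nonneg (q1 G (fun j => q j - u j)))
  rw [e1]
  nlinarith [h3.2]

/-- **F7b.** If `k` is plane-nonnegative with respect to `G` (`hk`), the drift term `(a:k) n·dv` is `≥ - C |q - dv|`,
F1 and F3. -/
theorem drift_err {D : OpData} (hD : D.Ok)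
    (hk : ∀ x ∈ Ann D.R, ∀ (P : ℝ) (n : Fin 3 → ℝ), 1 ≤ P → P ≤ 2 → (∀ u : Fin 3 → ℝ, (∑ i, n i * u i) ^ 2 ≤ q1 (D.G x) u) →
      0 ≤ tr2 (fun i j => D.G x i j + (P - 2) * n i * n j) (D.k x)) :
    ∃ C : ℝ, 0 ≤ C ∧ ∀ (eps d : ℝ) (eta : E3 → ℝ), (OpData.upd D eps d eta).Ok →
    d ≤ 1 → ∀ v : E3 → ℝ, Sol (OpData.upd D eps d eta) v →
      ∫ x in Ann D.R, max 0 (- (tr2 ((OpData.upd D eps d eta).aa v x) (D.k x)
        * ∑ i, (OpData.upd D eps d eta).nn v x i * D1 v x i)) ≤ C * d ^ (1 / 2 : ℝ) := by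
  obtain ⟨B, hB, h1⟩ := coeff_bd hD
  obtain ⟨B', hB', h2⟩ := exists_bd hD
  obtain ⟨C, hC, h3⟩ := sol_err hD
  set V : ℝ := (volume (Ann D.R)).toReal with hV
  have hV0 : 0 ≤ V := ENNReal.toReal_nonneg
  refine ⟨B * Real.sqrt (9 * B') * ((C + V) / 2), by positivity, fun eps d eta hOk hd1 v hS => ?_⟩
  have hd : 0 < d := hOk.d_pos
  set D' := OpData.upd D eps d eta with hD'
  set δ : ℝ := d ^ (1 / 2 : ℝ) with hδdef
  have hδ : 0 < δ := Real.rpow_pos_of_pos hd _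
  have hδ2 : δ * δ = d := by
    rw [hδdef, ← Real.rpow_add hd]
    norm_num
  have hint : IntegrableOn (fun x => vsq (fun i => D'.qd v x i - D1 v x i)) (Ann D.R) := sr_int_q hOk hS
  obtain ⟨h4, -⟩ := h3 eps d eta hOk hd1 v hS
  have hpt : ∀ x ∈ Ann D.R, max 0 (- (tr2 (D'.aa v x) (D.k x) * ∑ i, D'.nn v x i * D1 v x i)) ≤
      B * Real.sqrt (9 * B') * ((vsq (fun i => D'.qd v x i - D1 v x i) / δ + δ) / 2) := by
    intro x hx
    have hxa : D.a < ‖x‖ := hD.a_lt.trans hx.1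
    have hsym : ∀ i j, D.G x i j = D.G x j i := fun i j => (hD.G_symm x hxa).apply j i
    have hτ0 : 0 ≤ tr2 (D'.aa v x) (D.k x) :=
      hk x hx (D.p (D'.vd v x)) (D'.nn v x) (hD.one_lt_p0.le.trans (hD.p_ge _)) (hD.p_le _)
        (fun u => nn_le hOk v hxa u)
    have hτB : tr2 (D'.aa v x) (D.k x) ≤ B :=
      (le_abs_self _).trans (h1 eps d eta hOk v x (UMB.Lin.Ann_subset D.R hx)).2.2.2
    have heps : 0 < eps := hOk.eps_pos
    have hnu := nu_ge hsym (hD.G_pos x hxa) heps (D'.qd v x) (D1 v x)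
    have hnn : ∑ i, D'.nn v x i * D1 v x i =
        (∑ i, (∑ l, D.G x i l * D'.qd v x l) * D1 v x i) / Real.sqrt (q1 (D.G x) (D'.qd v x) + eps ^ 2) := by
      rw [Finset.sum_div]
      refine Finset.sum_congr rfl fun i _ => ?_
      have : D'.nn v x i = (∑ l, D.G x i l * D'.qd v x l) / Real.sqrt (q1 (D.G x) (D'.qd v x) + eps ^ 2) := rfl
      rw [this, div_mul_eq_mul_div]
    have hq1 : q1 (D.G x) (fun j => D'.qd v x j - D1 v x j) ≤
        9 * B' * vsq (fun j => D'.qd v x j - D1 v x j) :=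
      q1_le (fun i j => (h2 x (UMB.Lin.Ann_subset D.R hx)).1 i j) _
    set z := vsq (fun j => D'.qd v x j - D1 v x j)
    have hz : 0 ≤ z := Finset.sum_nonneg fun _ _ => sq_nonneg _
    have hsq : Real.sqrt (q1 (D.G x) (fun j => D'.qd v x j - D1 v x j)) ≤
        Real.sqrt (9 * B') * ((z / δ + δ) / 2) := by
      refine (Real.sqrt_le_sqrt hq1).trans ?_
      rw [Real.sqrt_mul (by positivity)]
      exact mul_le_mul_of_nonneg_left (sr_sqrt_le hz hδ) (Real.sqrt_nonneg _)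
    have hzδ : 0 ≤ (z / δ + δ) / 2 := by positivity
    rw [hnn]
    apply max_le
    · positivity
    · set c := (∑ i, (∑ l, D.G x i l * D'.qd v x l) * D1 v x i) /
        Real.sqrt (q1 (D.G x) (D'.qd v x) + eps ^ 2)
      have e1 : - c ≤ Real.sqrt (9 * B') * ((z / δ + δ) / 2) := by linarith
      calc -(tr2 (D'.aa v x) (D.k x) * c) = tr2 (D'.aa v x) (D.k x) * (- c) := by ring
        _ ≤ tr2 (D'.aa v x) (D.k x) * (Real.sqrt (9 * B') * ((z / δ + δ) / 2)) :=
            mul_le_mul_of_nonneg_left e1 hτ0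
        _ ≤ B * (Real.sqrt (9 * B') * ((z / δ + δ) / 2)) :=
            mul_le_mul_of_nonneg_right hτB (by positivity)
        _ = _ := by ring
  have hint2 : IntegrableOn (fun x => B * Real.sqrt (9 * B') *
      ((vsq (fun i => D'.qd v x i - D1 v x i) / δ + δ) / 2)) (Ann D.R) := by
    have hc : IntegrableOn (fun _ : E3 => δ) (Ann D.R) :=
      integrableOn_const (UMB.Lin.volume_Ann_lt_top D.R).ne
    exact (((hint.div_const δ).add hc).div_const 2).const_mul _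
  calc ∫ x in Ann D.R, max 0 (- (tr2 (D'.aa v x) (D.k x) * ∑ i, D'.nn v x i * D1 v x i))
      ≤ ∫ x in Ann D.R, B * Real.sqrt (9 * B') *
          ((vsq (fun i => D'.qd v x i - D1 v x i) / δ + δ) / 2) := by
        refine integral_mono_of_nonneg (Eventually.of_forall fun x => le_max_left _ _) hint2 ?_
        filter_upwards [ae_restrict_mem (UMB.Lin.measurableSet_Ann D.R)] with x hx
        exact hpt x hx
    _ = B * Real.sqrt (9 * B') *
          (((∫ x in Ann D.R, vsq (fun i => D'.qd v x i - D1 v x i)) / δ + V * δ) / 2) := by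
        rw [integral_const_mul, integral_div, integral_add (hint.div_const δ)
          (integrableOn_const (UMB.Lin.volume_Ann_lt_top D.R).ne), integral_div]
        simp [hV, Measure.real]
    _ ≤ B * Real.sqrt (9 * B') * ((C * d / δ + V * δ) / 2) := by
        gcongr
    _ = B * Real.sqrt (9 * B') * ((C + V) / 2) * δ := by
        rw [← hδ2]
        field_simp

end UMB.W
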