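import Pool.Agent.Lib.UMB.W.F3
import Pool.Agent.Lib.UMB.W.F7

/-! # UMB.W chunk F6: the coefficients against the exactly aligned ones -/

set_option autoImplicit false

open Filter Topology Set MeasureTheory
open scoped ContDiff BigOperators
open Pool.Agent.Lib.PenroseSph (E3 Tens pd)
open UMB.Lin (Ann cAnn sig)

namespace UMB.W

/-- The exactly aligned matrix `G + (p-2) m m`, `m = G u/√(G(u,u)+eps²)`. -/
noncomputable def aal (G : Matrix (Fin 3) (Fin 3) ℝ) (p eps : ℝ) (u : Fin 3 → ℝ) : Matrix (Fin 3) (Fin 3) ℝ :=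
  fun i j => G i j + (p - 2) * ((∑ l, G i l * u l) / Real.sqrt (q1 G u + eps ^ 2))
    * ((∑ l, G j l * u l) / Real.sqrt (q1 G u + eps ^ 2))

/-- components of `G z` -/
theorem f6_comp {G : Matrix (Fin 3) (Fin 3) ℝ} (hG : ∀ i j, G i j = G j i)
    (hp : ∀ u : Fin 3 → ℝ, u ≠ 0 → 0 < q1 G u) {B : ℝ} (hB : ∀ i j, |G i j| ≤ B) (z : Fin 3 → ℝ) (i : Fin 3) :
    |∑ l, G i l * z l| ≤ Real.sqrt B * Real.sqrt (q1 G z) := by
  have h := f7_cs hG hp z (Pi.single i 1)
  have e1 : ∑ i', (∑ l, G i' l * z l) * (Pi.single i 1 : Fin 3 → ℝ) i' = ∑ l, G i l * z l := by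
    rw [Finset.sum_eq_single i]
    · simp
    · intro b _ hb
      simp [hb]
    · simp
  have e2 : q1 G (Pi.single i 1) = G i i := by
    unfold q1
    rw [Finset.sum_eq_single i]
    · rw [Finset.sum_eq_single i]
      · simp
      · intro b _ hb
        simp [hb]
      · simp
    · intro b _ hb
      simp [Pi.single_apply, hb]
    · simp
  rw [e1, e2] at h
  refine h.trans ?_
  rw [mul_comm]
  exact mul_le_mul_of_nonneg_right (Real.sqrt_le_sqrt ((le_abs_self _).trans (hB i i))) (Real.sqrt_nonneg _)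

/-- triangle inequality for `N` -/
theorem f6_tri {G : Matrix (Fin 3) (Fin 3) ℝ} (hG : ∀ i j, G i j = G j i)
    (hp : ∀ u : Fin 3 → ℝ, u ≠ 0 → 0 < q1 G u) (eps : ℝ) (q u : Fin 3 → ℝ) :
    Real.sqrt (q1 G q + eps ^ 2) ≤ Real.sqrt (q1 G u + eps ^ 2) + Real.sqrt (q1 G (fun j => q j - u j)) := by
  have hu := a3_q1_nonneg hp u
  have hr := a3_q1_nonneg hp (fun j => q j - u j)
  have he := sq_nonneg eps
  have h1 := f7_cs hG hp u (fun j => q j - u j)
  have e1 : q1 G q = q1 G u + 2 * (∑ i, (∑ l, G i l * u l) * (q i - u i)) + q1 G (fun j => q j - u j) := by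
    simp only [q1, Fin.sum_univ_three, hG 1 0, hG 2 0, hG 2 1]
    ring
  have h2 : Real.sqrt (q1 G u) ≤ Real.sqrt (q1 G u + eps ^ 2) := Real.sqrt_le_sqrt (by linarith)
  apply Real.sqrt_le_iff.2
  refine ⟨by positivity, ?_⟩
  rw [add_sq, Real.sq_sqrt (by linarith), Real.sq_sqrt hr, e1]
  have h3 := (abs_le.1 h1).2
  have h4 := mul_le_mul_of_nonneg_right h2 (Real.sqrt_nonneg (q1 G (fun j => q j - u j)))
  nlinarith

/-- **F6a.** `q ↦ G q/√(G(q,q)+eps²)` is Lipschitz with constant `C/eps` (`|G_ij| ≤ B`, `0 < eps ≤ 1`):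
write the difference as `G(q-u)/N(q) + G u (1/N(q) - 1/N(u))`, `N ≥ eps`, `|N(q)-N(u)| ≤ √G(q-u,q-u)`, and in the metric `G`
`|u| ≤ N(u)`; components: `|(G z)_i| ≤ √(G_ii) √G(z,z)`. -/
theorem m_lip {G : Matrix (Fin 3) (Fin 3) ℝ} (hG : ∀ i j, G i j = G j i) (hp : ∀ u : Fin 3 → ℝ, u ≠ 0 → 0 < q1 G u)
    {B eps : ℝ} (hB : ∀ i j, |G i j| ≤ B) (he : 0 < eps) (q u : Fin 3 → ℝ) (i : Fin 3) :
    |(∑ l, G i l * q l) / Real.sqrt (q1 G q + eps ^ 2) - (∑ l, G i l * u l) / Real.sqrt (q1 G u + eps ^ 2)|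
      ≤ 2 * Real.sqrt B * (Real.sqrt (q1 G (fun j => q j - u j)) / eps) := by
  have hq := a3_q1_nonneg hp q
  have hu := a3_q1_nonneg hp u
  have he2 : 0 < eps ^ 2 := pow_pos he 2
  have hNq : eps ≤ Real.sqrt (q1 G q + eps ^ 2) := Real.le_sqrt_of_sq_le (by linarith)
  have hNu : eps ≤ Real.sqrt (q1 G u + eps ^ 2) := Real.le_sqrt_of_sq_le (by linarith)
  have hNu' : Real.sqrt (q1 G u) ≤ Real.sqrt (q1 G u + eps ^ 2) := Real.sqrt_le_sqrt (by linarith)
  have hc1 := f6_comp hG hp hB (fun j => q j - u j) i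
  have hc2 := f6_comp hG hp hB u i
  have ht1 := f6_tri hG hp eps q u
  have ht2 := f6_tri hG hp eps u q
  have e0 : q1 G (fun j => u j - q j) = q1 G (fun j => q j - u j) := by
    simp only [q1, Fin.sum_univ_three]
    ring
  rw [e0] at ht2
  set r := Real.sqrt (q1 G (fun j => q j - u j))
  set N := Real.sqrt (q1 G q + eps ^ 2)
  set M := Real.sqrt (q1 G u + eps ^ 2)
  set b := Real.sqrt B
  have hb : 0 ≤ b := Real.sqrt_nonneg _
  have hr : 0 ≤ r := Real.sqrt_nonneg _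
  have hN0 : 0 < N := by linarith
  have hM0 : 0 < M := by linarith
  have e1 : (∑ l, G i l * q l) / N - (∑ l, G i l * u l) / M =
      (∑ l, G i l * (q l - u l)) / N + (∑ l, G i l * u l) / M * ((M - N) / N) := by
    have : ∑ l, G i l * (q l - u l) = (∑ l, G i l * q l) - ∑ l, G i l * u l := by
      rw [← Finset.sum_sub_distrib]
      refine Finset.sum_congr rfl fun l _ => ?_
      ring
    rw [this]
    field_simp
    ring
  rw [e1]
  have b1 : |(∑ l, G i l * (q l - u l)) / N| ≤ b * (r / eps) := by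
    rw [abs_div, abs_of_pos hN0, div_le_iff₀ hN0]
    refine hc1.trans ?_
    have : r ≤ r / eps * N := by
      rw [div_mul_eq_mul_div, le_div_iff₀ he]
      exact mul_le_mul_of_nonneg_left hNq hr
    calc b * r ≤ b * (r / eps * N) := mul_le_mul_of_nonneg_left this hb
      _ = _ := by ring
  have b2 : |(∑ l, G i l * u l) / M| ≤ b := by
    rw [abs_div, abs_of_pos hM0, div_le_iff₀ hM0]
    exact hc2.trans (mul_le_mul_of_nonneg_left hNu' hb)
  have b3 : |(M - N) / N| ≤ r / eps := by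
    rw [abs_div, abs_of_pos hN0, div_le_div_iff₀ hN0 he]
    have : |M - N| ≤ r := by
      rw [abs_le]
      constructor <;> linarith
    exact mul_le_mul this hNq he.le hr
  refine (abs_add_le _ _).trans ?_
  rw [abs_mul]
  have b4 := mul_le_mul b2 b3 (abs_nonneg _) hb
  linarith

/-- size of the difference of the matrices -/
theorem f6_diff {G : Matrix (Fin 3) (Fin 3) ℝ} (hG : ∀ i j, G i j = G j i) (hp : ∀ u : Fin 3 → ℝ, u ≠ 0 → 0 < q1 G u)
    {B eps : ℝ} (hB : ∀ i j, |G i j| ≤ B) (he : 0 < eps) (q u : Fin 3 → ℝ) {P p : ℝ} (hp1 : 1 ≤ p) (hp2 : p ≤ 2)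
    (i j : Fin 3) :
    |(G i j + (P - 2) * ((∑ l, G i l * q l) / Real.sqrt (q1 G q + eps ^ 2))
      * ((∑ l, G j l * q l) / Real.sqrt (q1 G q + eps ^ 2))) - aal G p eps u i j|
      ≤ B * |P - p| + 4 * B * (Real.sqrt (q1 G (fun j => q j - u j)) / eps) := by
  have hB0 : 0 ≤ B := (abs_nonneg _).trans (hB 0 0)
  have hbb : Real.sqrt B * Real.sqrt B = B := Real.mul_self_sqrt hB0
  have hcomp : ∀ (z : Fin 3 → ℝ) (i : Fin 3), |(∑ l, G i l * z l) / Real.sqrt (q1 G z + eps ^ 2)| ≤ Real.sqrt B := by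
    intro z i
    have hz := a3_q1_nonneg hp z
    have hN0 : 0 < Real.sqrt (q1 G z + eps ^ 2) := Real.sqrt_pos.2 (by positivity)
    rw [abs_div, abs_of_pos hN0, div_le_iff₀ hN0]
    refine (f6_comp hG hp hB z i).trans (mul_le_mul_of_nonneg_left ?_ (Real.sqrt_nonneg _))
    exact Real.sqrt_le_sqrt (by have := sq_nonneg eps; linarith)
  unfold aal
  have ni := hcomp q i
  have nj := hcomp q j
  have mi := hcomp u i
  have mj := hcomp u j
  have li := m_lip hG hp hB he q u i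
  have lj := m_lip hG hp hB he q u j
  set n := (∑ l, G i l * q l) / Real.sqrt (q1 G q + eps ^ 2)
  set n' := (∑ l, G j l * q l) / Real.sqrt (q1 G q + eps ^ 2)
  set m := (∑ l, G i l * u l) / Real.sqrt (q1 G u + eps ^ 2)
  set m' := (∑ l, G j l * u l) / Real.sqrt (q1 G u + eps ^ 2)
  set b := Real.sqrt B
  have hb : 0 ≤ b := Real.sqrt_nonneg _
  set r := Real.sqrt (q1 G (fun j => q j - u j)) / eps
  have hr : 0 ≤ r := by positivity
  have e1 : (G i j + (P - 2) * n * n') - (G i j + (p - 2) * m * m') =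
      (P - p) * (n * n') + (p - 2) * (n * (n' - m') + m' * (n - m)) := by ring
  rw [e1]
  have c1 : |n * n'| ≤ B := by
    rw [abs_mul, ← hbb]
    exact mul_le_mul ni nj (abs_nonneg _) hb
  have c2 : |n * (n' - m')| ≤ b * (2 * b * r) := by
    rw [abs_mul]
    exact mul_le_mul ni lj (abs_nonneg _) hb
  have c3 : |m' * (n - m)| ≤ b * (2 * b * r) := by
    rw [abs_mul]
    exact mul_le_mul mj li (abs_nonneg _) hb
  have c4 : |p - 2| ≤ 1 := by
    rw [abs_le]
    constructor <;> linarith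
  have c5 : |n * (n' - m') + m' * (n - m)| ≤ 4 * B * r := by
    refine (abs_add_le _ _).trans ?_
    have : b * (2 * b * r) = 2 * B * r := by rw [← hbb]; ring
    linarith
  refine (abs_add_le _ _).trans ?_
  rw [abs_mul (P - p) (n * n'), abs_mul (p - 2) _]
  have d1 := mul_le_mul_of_nonneg_left c1 (abs_nonneg (P - p))
  have d2 := mul_le_mul c4 c5 (abs_nonneg _) zero_le_one
  linarith

/-- **F6b.** `|aa - aal| ≤ C |p(v_d) - p(v)| + (C/eps) |q - dv|` componentwise (bounded `n`, `m`), then Cauchy-Schwarz with F2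
and F3 (`p` is Lipschitz on `[0,1]`). -/
theorem align_err {D : OpData} (hD : D.Ok) : ∃ C : ℝ, 0 ≤ C ∧ ∀ (eps d : ℝ) (eta : E3 → ℝ), (OpData.upd D eps d eta).Ok →
    d ≤ 1 → eps ≤ 1 → ∀ v : E3 → ℝ, Sol (OpData.upd D eps d eta) v →
      ∫ x in Ann D.R, ∑ i, ∑ j, |(OpData.upd D eps d eta).aa v x i j - aal (D.G x) (D.p (v x)) eps (D1 v x) i j| * |D2 v x i j|
        ≤ C * eps⁻¹ * d ^ (1 / 2 : ℝ) := by
  obtain ⟨B, hB, h1⟩ := exists_bd hD
  obtain ⟨C2, hC2, h2⟩ := sol_bd hD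
  obtain ⟨C3, hC3, h3⟩ := sol_err hD
  obtain ⟨L, hL, h4⟩ := sr_lip hD.p_smooth
  set K1 : ℝ := 9 * (B * L) with hK1
  set K2 : ℝ := 9 * (4 * B * Real.sqrt (9 * B)) with hK2
  have hK1' : 0 ≤ K1 := by positivity
  have hK2' : 0 ≤ K2 := by positivity
  refine ⟨(K1 + K2) * ((C2 + C3) / 2), by positivity, fun eps d eta hOk hd1 heps1 v hS => ?_⟩
  have hd : 0 < d := hOk.d_pos
  have heps : 0 < eps := hOk.eps_pos
  set D' := OpData.upd D eps d eta with hD'
  set δ : ℝ := d ^ (1 / 2 : ℝ) with hδdef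
  have hδ : 0 < δ := Real.rpow_pos_of_pos hd _
  have hδ2 : δ * δ = d := by
    rw [hδdef, ← Real.rpow_add hd]
    norm_num
  have i1 : IntegrableOn (fun x => vsq (fun i => D'.qd v x i - D1 v x i)) (Ann D.R) := sr_int_q hOk hS
  have i2 : IntegrableOn (fun x => (D'.vd v x - v x) ^ 2) (Ann D.R) := sr_int_v hOk hS
  have i3 : IntegrableOn (fun x => fsq (D2 v x)) (Ann D.R) := sr_int_fsq (D := D') hS
  have i4 : IntegrableOn (fun x => vsq (D1 v x)) (Ann D.R) := sr_int_vsq (D := D') hS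
  have i5 : IntegrableOn (fun x => vsq (D1 v x) ^ 2) (Ann D.R) := sr_int_vsq2 (D := D') hS
  obtain ⟨g1, g2⟩ := h3 eps d eta hOk hd1 v hS
  have g3 : ∫ x in Ann D.R, fsq (D2 v x) ≤ C2 := by
    refine le_trans ?_ (h2 eps d eta hOk v hS)
    refine integral_mono i3 ((i3.add i4).add i5) fun x => ?_
    have e1 : 0 ≤ vsq (D1 v x) := Finset.sum_nonneg fun _ _ => sq_nonneg _
    have e2 : 0 ≤ vsq (D1 v x) ^ 2 := sq_nonneg _
    show fsq (D2 v x) ≤ fsq (D2 v x) + vsq (D1 v x) + vsq (D1 v x) ^ 2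
    linarith
  have hpt : ∀ x ∈ Ann D.R, ∑ i, ∑ j, |D'.aa v x i j - aal (D.G x) (D.p (v x)) eps (D1 v x) i j| * |D2 v x i j| ≤
      K1 * ((δ * fsq (D2 v x) + (D'.vd v x - v x) ^ 2 / δ) / 2) +
      K2 / eps * ((δ * fsq (D2 v x) + vsq (fun i => D'.qd v x i - D1 v x i) / δ) / 2) := by
    intro x hx
    have hxa : D.a < ‖x‖ := hD.a_lt.trans hx.1
    have hxc := UMB.Lin.Ann_subset D.R hx
    have hsym : ∀ i j, D.G x i j = D.G x j i := fun i j => (hD.G_symm x hxa).apply j i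
    have hGB : ∀ i j, |D.G x i j| ≤ B := (h1 x hxc).1
    have hv0 := hS.nonneg x hxc
    have hv1 := hS.le_one x hxc
    obtain ⟨hw0, hw1⟩ := sr_vd_mem hOk hS.cont hS.nonneg hS.le_one x
    have hP := h4 (D'.vd v x) (v x) hw0 hw1 hv0 hv1
    have hz : 0 ≤ vsq (fun i => D'.qd v x i - D1 v x i) := Finset.sum_nonneg fun _ _ => sq_nonneg _
    have hf : 0 ≤ fsq (D2 v x) := Finset.sum_nonneg fun _ _ => Finset.sum_nonneg fun _ _ => sq_nonneg _
    have hq1 : q1 (D.G x) (fun j => D'.qd v x j - D1 v x j) ≤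
        9 * B * vsq (fun j => D'.qd v x j - D1 v x j) := q1_le hGB _
    have hsq : Real.sqrt (q1 (D.G x) (fun j => D'.qd v x j - D1 v x j)) ≤
        Real.sqrt (9 * B) * Real.sqrt (vsq (fun j => D'.qd v x j - D1 v x j)) := by
      refine (Real.sqrt_le_sqrt hq1).trans (le_of_eq ?_)
      rw [Real.sqrt_mul (by positivity)]
    have hterm : ∀ i j, |D'.aa v x i j - aal (D.G x) (D.p (v x)) eps (D1 v x) i j| * |D2 v x i j| ≤
        (B * (L * |D'.vd v x - v x|) + 4 * B * (Real.sqrt (9 * B) *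
          Real.sqrt (vsq (fun j => D'.qd v x j - D1 v x j)) / eps)) * Real.sqrt (fsq (D2 v x)) := by
      intro i j
      apply mul_le_mul _ (Real.abs_le_sqrt (a4_ent (D2 v x) i j)) (abs_nonneg _) (by positivity)
      have h5 := f6_diff hsym (hD.G_pos x hxa) hGB heps (D'.qd v x) (D1 v x) (P := D.p (D'.vd v x))
        (p := D.p (v x)) (hD.one_lt_p0.le.trans (hD.p_ge _)) (hD.p_le _) i j
      have h6 : D'.aa v x i j = D.G x i j + (D.p (D'.vd v x) - 2) *
        ((∑ l, D.G x i l * D'.qd v x l) / Real.sqrt (q1 (D.G x) (D'.qd v x) + eps ^ 2))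
        * ((∑ l, D.G x j l * D'.qd v x l) / Real.sqrt (q1 (D.G x) (D'.qd v x) + eps ^ 2)) := rfl
      rw [h6]
      refine h5.trans (add_le_add (mul_le_mul_of_nonneg_left hP hB) ?_)
      apply mul_le_mul_of_nonneg_left _ (by positivity)
      exact div_le_div_of_nonneg_right hsq heps.le
    have hsum : ∑ i, ∑ j, |D'.aa v x i j - aal (D.G x) (D.p (v x)) eps (D1 v x) i j| * |D2 v x i j| ≤
        9 * ((B * (L * |D'.vd v x - v x|) + 4 * B * (Real.sqrt (9 * B) *
          Real.sqrt (vsq (fun j => D'.qd v x j - D1 v x j)) / eps)) * Real.sqrt (fsq (D2 v x))) := by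
      refine (Finset.sum_le_sum fun i _ => Finset.sum_le_sum fun j _ => hterm i j).trans (le_of_eq ?_)
      simp only [Finset.sum_const, Finset.card_univ, Fintype.card_fin, nsmul_eq_mul]
      push_cast
      ring
    refine hsum.trans ?_
    have k1 := sr_mul_le hf (sq_nonneg (D'.vd v x - v x)) hδ
    rw [Real.sqrt_sq_eq_abs] at k1
    have k2 := sr_mul_le hf hz hδ
    have k3 := mul_le_mul_of_nonneg_left k1 hK1'
    have k4 := mul_le_mul_of_nonneg_left k2 (by positivity : 0 ≤ K2 / eps)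
    refine le_trans (le_of_eq ?_) (add_le_add k3 k4)
    rw [hK1, hK2]
    field_simp
  have j1 : IntegrableOn (fun x => K1 * ((δ * fsq (D2 v x) + (D'.vd v x - v x) ^ 2 / δ) / 2)) (Ann D.R) :=
    (((i3.const_mul δ).add (i2.div_const δ)).div_const 2).const_mul _
  have j2 : IntegrableOn (fun x => K2 / eps *
      ((δ * fsq (D2 v x) + vsq (fun i => D'.qd v x i - D1 v x i) / δ) / 2)) (Ann D.R) :=
    (((i3.const_mul δ).add (i1.div_const δ)).div_const 2).const_mul _
  calc ∫ x in Ann D.R, ∑ i, ∑ j, |D'.aa v x i j - aal (D.G x) (D.p (v x)) eps (D1 v x) i j| * |D2 v x i j|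
      ≤ ∫ x in Ann D.R, (K1 * ((δ * fsq (D2 v x) + (D'.vd v x - v x) ^ 2 / δ) / 2) +
        K2 / eps * ((δ * fsq (D2 v x) + vsq (fun i => D'.qd v x i - D1 v x i) / δ) / 2)) := by
        refine integral_mono_of_nonneg (Eventually.of_forall fun x => Finset.sum_nonneg fun i _ =>
          Finset.sum_nonneg fun j _ => mul_nonneg (abs_nonneg _) (abs_nonneg _)) (j1.add j2) ?_
        filter_upwards [ae_restrict_mem (UMB.Lin.measurableSet_Ann D.R)] with x hx
        exact hpt x hx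
    _ = K1 * ((δ * (∫ x in Ann D.R, fsq (D2 v x)) + (∫ x in Ann D.R, (D'.vd v x - v x) ^ 2) / δ) / 2) +
        K2 / eps * ((δ * (∫ x in Ann D.R, fsq (D2 v x)) +
          (∫ x in Ann D.R, vsq (fun i => D'.qd v x i - D1 v x i)) / δ) / 2) := by
        rw [integral_add j1 j2, integral_const_mul, integral_const_mul, integral_div, integral_div,
          integral_add (i3.const_mul δ) (i2.div_const δ), integral_add (i3.const_mul δ) (i1.div_const δ),
          integral_const_mul, integral_div, integral_div]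
    _ ≤ K1 * ((δ * C2 + C3 * d / δ) / 2) + K2 / eps * ((δ * C2 + C3 * d / δ) / 2) := by
        gcongr
    _ = (K1 + K2 / eps) * (δ * ((C2 + C3) / 2)) := by
        rw [← hδ2]
        field_simp
    _ ≤ (K1 / eps + K2 / eps) * (δ * ((C2 + C3) / 2)) := by
        gcongr
        rw [le_div_iff₀ heps]
        exact mul_le_of_le_one_right hK1' heps1
    _ = (K1 + K2) * ((C2 + C3) / 2) * eps⁻¹ * δ := by
        rw [div_eq_mul_inv, div_eq_mul_inv]
        ring

end UMB.W
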