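import Pool.Agent.Lib.UMB.W.Defs

/-! # UMB.W chunk B4: the boundary flux, algebra -/

set_option autoImplicit false

open Filter Topology Set MeasureTheory
open scoped ContDiff BigOperators
open Pool.Agent.Lib.PenroseSph (E3 Tens pd)
open UMB.Lin (Ann cAnn sig)

namespace UMB.W

/-- Polynomial core of B4 (symmetric matrices written out). -/
theorem b4_core (c x0 x1 x2 s00 s01 s02 s11 s12 s22 b00 b01 b02 b11 b12 b22 : ℝ)
    (x u : Fin 3 → ℝ) (B S : Matrix (Fin 3) (Fin 3) ℝ)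
    (hx0 : x 0 = x0) (hx1 : x 1 = x1) (hx2 : x 2 = x2)
    (hu0 : u 0 = c * x0) (hu1 : u 1 = c * x1) (hu2 : u 2 = c * x2)
    (hs00 : S 0 0 = s00) (hs01 : S 0 1 = s01) (hs02 : S 0 2 = s02) (hs10 : S 1 0 = s01) (hs11 : S 1 1 = s11)
    (hs12 : S 1 2 = s12) (hs20 : S 2 0 = s02) (hs21 : S 2 1 = s12) (hs22 : S 2 2 = s22)
    (hb00 : B 0 0 = b00) (hb01 : B 0 1 = b01) (hb02 : B 0 2 = b02) (hb10 : B 1 0 = b01) (hb11 : B 1 1 = b11)
    (hb12 : B 1 2 = b12) (hb20 : B 2 0 = b02) (hb21 : B 2 1 = b12) (hb22 : B 2 2 = b22) :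
    ∑ i : Fin 3, ∑ j : Fin 3, ∑ k : Fin 3, ∑ l : Fin 3, S i k * S j l *
      (x k * ((if i = l then u j else 0) + x i * B l j - (if j = l then u i else 0) - x j * B l i)
      - x l * ((if i = k then u j else 0) + x i * B k j - (if j = k then u i else 0) - x j * B k i))
      = 2 * ((∑ i, ∑ j, S i j * x i * x j) * (∑ i, ∑ j, S i j * B i j)
          - ∑ i, ∑ j, (∑ k, S i k * x k) * (∑ k, S j k * x k) * B i j)
        - 2 * c * ((∑ i, ∑ j, S i j * x i * x j) * (∑ k, S k k) - ∑ i, (∑ j, S i j * x j) ^ 2) := by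
  simp only [Fin.sum_univ_three, hx0, hx1, hx2, hu0, hu1, hu2, hs00, hs01, hs02, hs10, hs11, hs12, hs20, hs21, hs22,
    hb00, hb01, hb02, hb10, hb11, hb12, hb20, hb21, hb22, Fin.isValue, if_true, Fin.reduceEq, if_false, reduceIte]
  ring

/-- **B4.** Pure algebra. Let `N = x/ρ`, `e = x·u`; by `h1`: `u = e x/ρ²`. From `h2` one gets for all vectors `p, q`
orthogonal to `x`: `pᵀ B q = (e/ρ²) p·q` (multiply `h2` by `x_i x_k p_j q_l` and sum). With `m = S x`, `μ = x·m`: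
`∑_i V^i x_i = (e/ρ²) (mᵀ B m - μ S:B)`, and `S = m mᵀ/μ + T` with `T x = 0` (if `μ = 0` use the formula multiplied by `μ`,
or argue directly), so `μ S:B - mᵀ B m = μ T:B = μ (e/ρ²) tr T = (e/ρ²)(μ tr S - |m|²)`.
A brute force alternative: `simp [Fin.sum_univ_three]`, substitute `u` and solve the relations for the tangential part of `B`. -/
theorem flux_alg {x : Fin 3 → ℝ} {ρ : ℝ} (hρ : 0 < ρ) (hx : ∑ i, x i ^ 2 = ρ ^ 2) {u : Fin 3 → ℝ}
    {B S : Matrix (Fin 3) (Fin 3) ℝ} (hB : ∀ i j, B i j = B j i) (hS : ∀ i j, S i j = S j i)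
    (h1 : ∀ i j, x i * u j = x j * u i)
    (h2 : ∀ i j k l, x k * ((if i = l then u j else 0) + x i * B l j - (if j = l then u i else 0) - x j * B l i)
      - x l * ((if i = k then u j else 0) + x i * B k j - (if j = k then u i else 0) - x j * B k i) = 0) :
    ∑ i, (∑ j, ∑ k, ∑ l, S i j * S k l * (B j k * u l - B k l * u j)) * x i
      = - ((∑ i, x i * u i) ^ 2 / ρ ^ 4)
        * ((∑ i, ∑ j, S i j * x i * x j) * (∑ k, S k k) - ∑ i, (∑ j, S i j * x j) ^ 2) := by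
  set c : ℝ := (∑ i, x i * u i) / ρ ^ 2 with hc
  have hu : ∀ j, u j = c * x j := by
    intro j
    have h : (∑ i, x i ^ 2) * u j = x j * ∑ i, x i * u i := by
      rw [Finset.sum_mul, Finset.mul_sum]
      refine Finset.sum_congr rfl fun i _ => ?_
      have := h1 i j
      linear_combination x i * this
    rw [hx] at h
    rw [hc]
    field_simp
    linear_combination h
  have key : ∑ i : Fin 3, ∑ j : Fin 3, ∑ k : Fin 3, ∑ l : Fin 3, S i k * S j l *
      (x k * ((if i = l then u j else 0) + x i * B l j - (if j = l then u i else 0) - x j * B l i)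
      - x l * ((if i = k then u j else 0) + x i * B k j - (if j = k then u i else 0) - x j * B k i)) = 0 := by
    refine Finset.sum_eq_zero fun i _ => Finset.sum_eq_zero fun j _ => Finset.sum_eq_zero fun k _ =>
      Finset.sum_eq_zero fun l _ => ?_
    rw [h2 i j k l, mul_zero]
  rw [b4_core c (x 0) (x 1) (x 2) (S 0 0) (S 0 1) (S 0 2) (S 1 1) (S 1 2) (S 2 2) (B 0 0) (B 0 1) (B 0 2) (B 1 1)
    (B 1 2) (B 2 2) x u B S rfl rfl rfl (hu 0) (hu 1) (hu 2) rfl rfl rfl (hS 1 0) rfl rfl (hS 2 0) (hS 2 1) rfl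
    rfl rfl rfl (hB 1 0) rfl rfl (hB 2 0) (hB 2 1) rfl] at key
  have hl : ∑ i, (∑ j, ∑ k, ∑ l, S i j * S k l * (B j k * u l - B k l * u j)) * x i
      = c * (∑ i, ∑ j, (∑ k, S i k * x k) * (∑ k, S j k * x k) * B i j
        - (∑ i, ∑ j, S i j * x i * x j) * (∑ i, ∑ j, S i j * B i j)) := by
    have e1 := hS 1 0
    have e2 := hS 2 0
    have e3 := hS 2 1
    simp only [Fin.sum_univ_three, hu, e1, e2, e3]
    ring
  have hcc : (∑ i, x i * u i) ^ 2 / ρ ^ 4 = c ^ 2 := by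
    rw [hc, div_pow]
    congr 1
    ring
  rw [hl, hcc]
  linear_combination (-c / 2) * key

end UMB.W
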