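import Pool.Agent.Lib.UMB.Op
import Pool.Agent.Lib.UMB.Lin.G5d

/-!
# UMB.W: the block W (section 2b): Cordes estimate, bounds and errors

Flat second derivatives `D2 w`, gradient `D1 w` (Op.lean), annulus and divergence theorem of UMB.Lin.
-/

set_option autoImplicit false

open Filter Topology Set MeasureTheory
open scoped ContDiff BigOperators
open Pool.Agent.Lib.PenroseSph (E3 Tens pd)
open UMB.Lin (Ann cAnn sig)

namespace UMB.W

/-- The vector field `V^i = S^ij S^kl (w_jk w_l - w_kl w_j)`. -/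
noncomputable def VV (S : Tens) (w : E3 → ℝ) (i : Fin 3) (x : E3) : ℝ :=
  ∑ j, ∑ k, ∑ l, S x i j * S x k l * (D2 w x j k * D1 w x l - D2 w x k l * D1 w x j)

/-- The remainder in the divergence of `V`. -/
noncomputable def RR (S : Tens) (w : E3 → ℝ) (x : E3) : ℝ :=
  ∑ i, ∑ j, ∑ k, ∑ l, pd i (fun y => S y i j * S y k l) x * (D2 w x j k * D1 w x l - D2 w x k l * D1 w x j)

/-- Smooth symmetric matrix field, elliptic and bounded with its first derivatives on the closed annulus. -/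
structure Fld (R lam Lam : ℝ) (S : Tens) : Prop where
  smooth : ∀ i j, ContDiff ℝ ∞ fun x => S x i j
  symm : ∀ x i j, S x i j = S x j i
  lam_pos : 0 < lam
  ell : ∀ x ∈ cAnn R, ∀ u : Fin 3 → ℝ, lam * vsq u ≤ q1 (S x) u
  bd : ∀ x ∈ cAnn R, ∀ i j, |S x i j| ≤ Lam
  bd1 : ∀ x ∈ cAnn R, ∀ i j k, |pd k (fun y => S y i j) x| ≤ Lam

/-- Cordes condition for the pair `S` (metric), `A` (coefficients) with constants `c`, `C1`. -/
def Cord (c C1 : ℝ) (S A : Matrix (Fin 3) (Fin 3) ℝ) : Prop :=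
  ∀ M : Matrix (Fin 3) (Fin 3) ℝ, (∀ i j, M i j = M j i) → tr2 S M ^ 2 ≤ (1 - c) * nsq S M + C1 * tr2 A M ^ 2

/-- The class of test functions: globally smooth, value `1` on the unit sphere and `0` on the sphere of radius `R`. -/
structure Cls (R : ℝ) (w : E3 → ℝ) : Prop where
  smooth : ContDiff ℝ ∞ w
  one : ∀ x : E3, ‖x‖ = 1 → w x = 1
  zero : ∀ x : E3, ‖x‖ = R → w x = 0
  bd : ∀ x ∈ cAnn R, |w x| ≤ 2

/-- The boundary layer of width `s`. -/
def Lay (R s : ℝ) : Set E3 := {x : E3 | x ∈ Ann R ∧ (‖x‖ < 1 + s ∨ R - s < ‖x‖)}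

/-- A mollifier of radius `d`. -/
structure Mol (d : ℝ) (η : E3 → ℝ) : Prop where
  smooth : ContDiff ℝ ∞ η
  nonneg : ∀ x, 0 ≤ η x
  supp : ∀ x : E3, d ≤ ‖x‖ → η x = 0
  int : ∫ x : E3, η x = 1

end UMB.W
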