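import Pool.Agent.Lib.PenroseSph.SphRot
import Pool.Agent.Lib.UMB.W.Defs

/-! # UMB.W chunk B3: relations on a sphere where the function is constant -/

set_option autoImplicit false

open Filter Topology Set MeasureTheory
open scoped ContDiff BigOperators
open Pool.Agent.Lib.PenroseSph (E3 Tens pd)
open UMB.Lin (Ann cAnn sig)

namespace UMB.W

/-- **B3a.** Rotation derivatives of a function which vanishes on the sphere: differentiate
`s ↦ f (rot hij s x)` at `s = 0` (`PenroseSph.hasDerivAt_rot`, `rotLin_norm`); trivial for `i = j`. -/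
theorem rot_zero {f : E3 → ℝ} (hf : ContDiff ℝ 1 f) {ρ : ℝ} (h : ∀ y : E3, ‖y‖ = ρ → f y = 0) {x : E3}
    (hx : ‖x‖ = ρ) (i j : Fin 3) : x i * pd j f x - x j * pd i f x = 0 := by
  by_cases hij : i = j
  · subst hij
    ring
  · have hr0 : Pool.Agent.Lib.PenroseSph.rotLin i j 0 x = x := by
      ext k
      rw [Pool.Agent.Lib.PenroseSph.rotLin_apply]
      simp
    have hd : DifferentiableAt ℝ f (Pool.Agent.Lib.PenroseSph.rotLin i j 0 x) :=
      (hf.differentiable (by norm_num)) _
    have h1 := hd.hasFDerivAt.comp_hasDerivAt (0 : ℝ)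
      (Pool.Agent.Lib.PenroseSph.hasDerivAt_rot hij 0 x)
    have hconst : (f ∘ fun s : ℝ => Pool.Agent.Lib.PenroseSph.rotLin i j s x) = fun _ => (0 : ℝ) := by
      funext s
      change f (Pool.Agent.Lib.PenroseSph.rotLin i j s x) = 0
      apply h
      rw [Pool.Agent.Lib.PenroseSph.rotLin_norm hij, hx]
    rw [hconst] at h1
    have h2 := h1.unique (hasDerivAt_const (0 : ℝ) (0 : ℝ))
    rw [hr0, map_add, map_smul, map_smul, smul_eq_mul, smul_eq_mul] at h2
    unfold pd
    linarith

/-- **B3b.** Apply B3a to `w - c`. -/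
theorem bdry1 {w : E3 → ℝ} (hw : ContDiff ℝ 1 w) {ρ c : ℝ} (h : ∀ y : E3, ‖y‖ = ρ → w y = c) {x : E3}
    (hx : ‖x‖ = ρ) (i j : Fin 3) : x i * D1 w x j = x j * D1 w x i := by
  have h1 := rot_zero (f := fun y => w y - c) (hw.sub contDiff_const)
    (fun y hy => by rw [h y hy, sub_self]) hx i j
  have h2 : ∀ k, pd k (fun y => w y - c) x = pd k w x := by
    intro k
    unfold pd
    rw [fderiv_sub_const]
  rw [h2, h2] at h1
  unfold D1
  linarith

/-- **B3c.** Apply B3a to `f(y) = y_i ∂_j w(y) - y_j ∂_i w(y)`, which vanishes on the sphere by B3b. -/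
theorem bdry2 {w : E3 → ℝ} (hw : ContDiff ℝ 2 w) {ρ c : ℝ} (h : ∀ y : E3, ‖y‖ = ρ → w y = c) {x : E3}
    (hx : ‖x‖ = ρ) (i j k l : Fin 3) :
    x k * ((if i = l then D1 w x j else 0) + x i * D2 w x l j - (if j = l then D1 w x i else 0) - x j * D2 w x l i)
      - x l * ((if i = k then D1 w x j else 0) + x i * D2 w x k j - (if j = k then D1 w x i else 0)
        - x j * D2 w x k i) = 0 := by
  have hc : ∀ m : Fin 3, ContDiff ℝ 1 (fun y : E3 => y m) := fun m =>
    (EuclideanSpace.proj m : E3 →L[ℝ] ℝ).contDiff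
  have hp : ∀ m : Fin 3, ContDiff ℝ 1 (pd m w) := fun m =>
    (hw.fderiv_right (m := 1) (by norm_num)).clm_apply contDiff_const
  have hdc : ∀ m : Fin 3, DifferentiableAt ℝ (fun y : E3 => y m) x := fun m =>
    ((hc m).differentiable (by norm_num)) x
  have hdp : ∀ m : Fin 3, DifferentiableAt ℝ (pd m w) x := fun m =>
    ((hp m).differentiable (by norm_num)) x
  have hf : ContDiff ℝ 1 (fun y : E3 => y i * pd j w y - y j * pd i w y) :=
    ((hc i).mul (hp j)).sub ((hc j).mul (hp i))
  have h1 := rot_zero hf (ρ := ρ) (fun y hy => by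
    have h2 := bdry1 (hw.of_le (by norm_num)) h hy i j
    unfold D1 at h2
    linarith) hx k l
  have h3 : ∀ m : Fin 3, pd m (fun y : E3 => y i * pd j w y - y j * pd i w y) x =
      (if i = m then D1 w x j else 0) + x i * D2 w x m j - (if j = m then D1 w x i else 0)
        - x j * D2 w x m i := by
    intro m
    rw [Pool.Agent.Lib.PenroseSph.pd_sub (f := fun y : E3 => y i * pd j w y)
        (g := fun y : E3 => y j * pd i w y) m ((hdc i).mul (hdp j)) ((hdc j).mul (hdp i)),
      Pool.Agent.Lib.PenroseSph.pd_mul m (hdc i) (hdp j),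
      Pool.Agent.Lib.PenroseSph.pd_mul m (hdc j) (hdp i),
      Pool.Agent.Lib.PenroseSph.pd_coord, Pool.Agent.Lib.PenroseSph.pd_coord]
    unfold D1 D2
    split_ifs <;> ring
  rw [h3, h3] at h1
  exact h1

end UMB.W
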