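import Pool.Agent.Lib.UMB.W.A1

/-! # UMB.W chunk A2: Cordes inequality, general metric -/

set_option autoImplicit false

open Filter Topology Set MeasureTheory
open scoped ContDiff BigOperators
open Pool.Agent.Lib.PenroseSph (E3 Tens pd)
open UMB.Lin (Ann cAnn sig)

namespace UMB.W

open scoped MatrixOrder ComplexOrder in
/-- A symmetric positive matrix is `Cᵀ C` with an invertible `C`. -/
theorem a2_factor {S : Matrix (Fin 3) (Fin 3) ℝ} (hs : ∀ i j, S i j = S j i)
    (h : ∀ u : Fin 3 → ℝ, u ≠ 0 → 0 < q1 S u) :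
    ∃ C : Matrix (Fin 3) (Fin 3) ℝ, IsUnit C.det ∧ S = C.transpose * C := by
  have e : ∀ u : Fin 3 → ℝ, star u ⬝ᵥ S.mulVec u = q1 S u := by
    intro u
    simp only [star_trivial, dotProduct, Matrix.mulVec, q1, Finset.mul_sum]
    refine Finset.sum_congr rfl fun i _ => Finset.sum_congr rfl fun j _ => ?_
    ring
  have hpd : S.PosDef := by
    refine Matrix.PosDef.of_dotProduct_mulVec_pos ?_ ?_
    · ext i j
      simp only [Matrix.conjTranspose_apply, star_trivial]
      exact hs j i
    · intro u hu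
      rw [e]
      exact h u hu
  obtain ⟨C, hC⟩ := CStarAlgebra.nonneg_iff_eq_star_mul_self.mp hpd.posSemidef.nonneg
  have hC' : S = C.transpose * C := by
    rw [hC]
    congr 1
  refine ⟨C, ?_, hC'⟩
  have hdet : S.det ≠ 0 := hpd.det_pos.ne'
  rw [hC', Matrix.det_mul, Matrix.det_transpose] at hdet
  exact isUnit_iff_ne_zero.2 (left_ne_zero_of_mul hdet)

theorem a2_tr (S M : Matrix (Fin 3) (Fin 3) ℝ) : tr2 S M = (S * M.transpose).trace := by
  simp only [tr2, Matrix.trace, Matrix.diag_apply, Matrix.mul_apply, Matrix.transpose_apply]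

theorem a2_fsq (M : Matrix (Fin 3) (Fin 3) ℝ) : fsq M = (M * M.transpose).trace := by
  simp only [fsq, Matrix.trace, Matrix.diag_apply, Matrix.mul_apply, Matrix.transpose_apply, sq]

theorem a2_nsq (S M : Matrix (Fin 3) (Fin 3) ℝ) (hs : ∀ i j, S i j = S j i) :
    nsq S M = (S * M * S * M.transpose).trace := by
  simp only [nsq, Matrix.trace, Matrix.diag_apply, Matrix.mul_apply, Matrix.transpose_apply,
    Fin.sum_univ_three, hs 1 0, hs 2 0, hs 2 1]
  ring

/-- **A2.** `a = G + (P-2) n n` with `(n·u)² ≤ G(u,u)` for all `u`.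
Proof: `G = L Lᵀ` with an invertible matrix `L` (`G` is positive definite: `Matrix.PosDef`, e.g. the square root, or
`Matrix.posSemidef_iff_eq_conjTranspose_mul_self`; invertible since `det G ≠ 0`). Put `M' = Lᵀ M L`, `n' = L⁻¹ n`. Then
`∑ M'_ii = tr2 G M`, `fsq M' = nsq G M` (for symmetric `M`), `∑ (δ_ij + (P-2) n'_i n'_j) M'_ij = tr2 G M + (P-2) nᵀ M n`;
`|n'|² ≤ 1`: take `u` with `Lᵀ u = n'`, then `n·u = |n'|²` and `G(u,u) = |n'|²`, so `|n'|⁴ ≤ |n'|²`. Apply `cordes_one`. -/
theorem cordes {p0 P : ℝ} (h1 : 1 < p0) (h2 : p0 ≤ P) (h3 : P ≤ 2) {G : Matrix (Fin 3) (Fin 3) ℝ}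
    (hs : ∀ i j, G i j = G j i) (hp : ∀ u : Fin 3 → ℝ, u ≠ 0 → 0 < q1 G u) {n : Fin 3 → ℝ}
    (hn : ∀ u : Fin 3 → ℝ, (∑ i, n i * u i) ^ 2 ≤ q1 G u) :
    Cord ((p0 - 1) / 2) (7 / (p0 - 1)) G (fun i j => G i j + (P - 2) * n i * n j) := by
  intro M hM
  obtain ⟨C, hdet, hG⟩ := a2_factor hs hp
  have hMt : M.transpose = M := by
    ext i j
    exact hM j i
  -- the vector n'
  obtain ⟨n', hn'⟩ : ∃ n' : Fin 3 → ℝ, C.transpose.mulVec n' = n := by
    refine ⟨C.transpose⁻¹.mulVec n, ?_⟩
    have : IsUnit C.transpose.det := by rwa [Matrix.det_transpose]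
    rw [Matrix.mulVec_mulVec, Matrix.mul_nonsing_inv _ this, Matrix.one_mulVec]
  obtain ⟨u, hu⟩ : ∃ u : Fin 3 → ℝ, C.mulVec u = n' := by
    refine ⟨C⁻¹.mulVec n', ?_⟩
    rw [Matrix.mulVec_mulVec, Matrix.mul_nonsing_inv _ hdet, Matrix.one_mulVec]
  have hvsq : ∀ w : Fin 3 → ℝ, vsq w = w ⬝ᵥ w := by
    intro w
    simp only [vsq, dotProduct, sq]
  have hq1 : ∀ (S : Matrix (Fin 3) (Fin 3) ℝ) (w : Fin 3 → ℝ), q1 S w = w ⬝ᵥ S.mulVec w := by
    intro S w
    simp only [dotProduct, Matrix.mulVec, q1, Finset.mul_sum]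
    refine Finset.sum_congr rfl fun i _ => Finset.sum_congr rfl fun j _ => ?_
    ring
  have hn1 : vsq n' ≤ 1 := by
    have h4 := hn u
    have e1 : ∑ i, n i * u i = vsq n' := by
      have : ∑ i, n i * u i = n ⬝ᵥ u := rfl
      rw [this, ← hn', hvsq, Matrix.mulVec_transpose, ← Matrix.dotProduct_mulVec, hu]
    have e2 : q1 G u = vsq n' := by
      rw [hq1, hG, ← Matrix.mulVec_mulVec, hu, hvsq, Matrix.dotProduct_mulVec,
        Matrix.vecMul_transpose, hu]
    rw [e1, e2] at h4
    have h5 : 0 ≤ vsq n' := Finset.sum_nonneg fun i _ => sq_nonneg _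
    nlinarith
  have h6 := cordes_one h1 h2 h3 n' hn1 (C * M * C.transpose)
  have e1 : ∑ i, (C * M * C.transpose) i i = tr2 G M := by
    have : ∑ i, (C * M * C.transpose) i i = (C * M * C.transpose).trace := rfl
    rw [this, a2_tr, hMt, hG, Matrix.trace_mul_comm, Matrix.mul_assoc]
  have e2 : fsq (C * M * C.transpose) = nsq G M := by
    rw [a2_fsq, a2_nsq G M hs, hG]
    have : (C * M * C.transpose) * (C * M * C.transpose).transpose =
        C * (M * C.transpose * C * M.transpose * C.transpose) := by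
      simp only [Matrix.transpose_mul, Matrix.transpose_transpose, Matrix.mul_assoc]
    rw [this, Matrix.trace_mul_comm]
    have e : M * C.transpose * C * M.transpose * C.transpose * C =
        M * (C.transpose * C) * (M.transpose * (C.transpose * C)) := by
      simp only [Matrix.mul_assoc]
    have e' : C.transpose * C * M * (C.transpose * C) * M.transpose =
        (C.transpose * C) * (M * (C.transpose * C) * M.transpose) := by
      simp only [Matrix.mul_assoc]
    rw [e, e', Matrix.trace_mul_comm (C.transpose * C)]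
    simp only [Matrix.mul_assoc]
  have e3 : ∑ i, ∑ j, ((if i = j then 1 else 0) + (P - 2) * n' i * n' j) *
      (C * M * C.transpose) i j = tr2 (fun i j => G i j + (P - 2) * n i * n j) M := by
    have a1 : ∑ i, ∑ j, ((if i = j then 1 else 0) + (P - 2) * n' i * n' j) *
        (C * M * C.transpose) i j = (∑ i, (C * M * C.transpose) i i) +
        (P - 2) * (n' ⬝ᵥ (C * M * C.transpose).mulVec n') := by
      have b1 : ∀ i : Fin 3, ∑ j, ((if i = j then 1 else 0) + (P - 2) * n' i * n' j) *
        (C * M * C.transpose) i j = (C * M * C.transpose) i i +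
        (P - 2) * (n' i * ∑ j, (C * M * C.transpose) i j * n' j) := by
        intro i
        simp only [add_mul, Finset.sum_add_distrib, ite_mul, one_mul, zero_mul,
          Finset.sum_ite_eq, Finset.mem_univ, if_true, Finset.mul_sum]
        congr 1
        refine Finset.sum_congr rfl fun j _ => ?_
        ring
      rw [Finset.sum_congr rfl fun i _ => b1 i, Finset.sum_add_distrib, ← Finset.mul_sum]
      rfl
    have a2 : n' ⬝ᵥ (C * M * C.transpose).mulVec n' = n ⬝ᵥ M.mulVec n := by
      rw [← Matrix.mulVec_mulVec, ← Matrix.mulVec_mulVec, hn', Matrix.dotProduct_mulVec,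
        ← Matrix.mulVec_transpose, hn']
    have a3 : tr2 (fun i j => G i j + (P - 2) * n i * n j) M = tr2 G M +
        (P - 2) * (n ⬝ᵥ M.mulVec n) := by
      have b1 : ∀ i : Fin 3, ∑ j, (G i j + (P - 2) * n i * n j) * M i j =
          (∑ j, G i j * M i j) + (P - 2) * (n i * ∑ j, M i j * n j) := by
        intro i
        simp only [add_mul, Finset.sum_add_distrib, Finset.mul_sum]
        congr 1
        refine Finset.sum_congr rfl fun j _ => ?_
        ring
      unfold tr2
      rw [Finset.sum_congr rfl fun i _ => b1 i, Finset.sum_add_distrib, ← Finset.mul_sum]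
      rfl
    rw [a1, a2, a3, e1]
  rw [e1, e2, e3] at h6
  exact h6

end UMB.W
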