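import Pool.Agent.Lib.UMB.W.Defs

/-! # UMB.W chunk A4: elementary inequalities for matrices -/

set_option autoImplicit false

open Filter Topology Set MeasureTheory
open scoped ContDiff BigOperators
open Pool.Agent.Lib.PenroseSph (E3 Tens pd)
open UMB.Lin (Ann cAnn sig)

namespace UMB.W

open scoped MatrixOrder ComplexOrder in
/-- A symmetric matrix with nonnegative quadratic form is `Cᵀ C`. -/
theorem a4_factor {S : Matrix (Fin 3) (Fin 3) ℝ} (hs : ∀ i j, S i j = S j i)
    (h : ∀ u : Fin 3 → ℝ, 0 ≤ q1 S u) :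
    ∃ C : Matrix (Fin 3) (Fin 3) ℝ, ∀ i j, S i j = ∑ m, C m i * C m j := by
  have hpsd : S.PosSemidef := by
    refine Matrix.PosSemidef.of_dotProduct_mulVec_nonneg ?_ ?_
    · ext i j
      simp only [Matrix.conjTranspose_apply, star_trivial]
      exact hs j i
    · intro u
      have e : star u ⬝ᵥ S.mulVec u = q1 S u := by
        simp only [star_trivial, dotProduct, Matrix.mulVec, q1, Finset.mul_sum]
        refine Finset.sum_congr rfl fun i _ => Finset.sum_congr rfl fun j _ => ?_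
        ring
      rw [e]
      exact h u
  obtain ⟨C, hC⟩ := CStarAlgebra.nonneg_iff_eq_star_mul_self.mp hpsd.nonneg
  refine ⟨C, fun i j => ?_⟩
  rw [hC, Matrix.mul_apply]
  refine Finset.sum_congr rfl fun m _ => ?_
  rw [Matrix.star_apply, star_trivial]

theorem a4_id1 (C B : Matrix (Fin 3) (Fin 3) ℝ) (S : Matrix (Fin 3) (Fin 3) ℝ)
    (hC : ∀ i j, S i j = ∑ m, C m i * C m j) :
    nsq S B = ∑ m, q1 S (fun i => ∑ j, B i j * C m j) := by
  have e : ∀ i k, (∑ j, ∑ l, S j l * B i j * B k l) =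
      ∑ m, (∑ j, B i j * C m j) * (∑ l, B k l * C m l) := by
    intro i k
    simp only [hC, Finset.sum_mul, Finset.mul_sum]
    rw [Finset.sum_congr rfl fun j _ => Finset.sum_comm, Finset.sum_comm]
    refine Finset.sum_congr rfl fun m _ => Finset.sum_comm.trans ?_
    refine Finset.sum_congr rfl fun j _ => Finset.sum_congr rfl fun l _ => ?_
    ring
  calc nsq S B = ∑ i, ∑ k, S i k * ∑ j, ∑ l, S j l * B i j * B k l := by
        unfold nsq
        refine Finset.sum_congr rfl fun i _ => ?_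
        rw [Finset.sum_comm]
        refine Finset.sum_congr rfl fun k _ => ?_
        rw [Finset.mul_sum]
        refine Finset.sum_congr rfl fun j _ => ?_
        rw [Finset.mul_sum]
        refine Finset.sum_congr rfl fun l _ => ?_
        ring
    _ = ∑ i, ∑ k, ∑ m, S i k * (∑ j, B i j * C m j) * (∑ l, B k l * C m l) := by
        refine Finset.sum_congr rfl fun i _ => Finset.sum_congr rfl fun k _ => ?_
        rw [e, Finset.mul_sum]
        refine Finset.sum_congr rfl fun m _ => ?_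
        ring
    _ = ∑ m, q1 S (fun i => ∑ j, B i j * C m j) := by
        unfold q1
        rw [Finset.sum_congr rfl fun i _ => Finset.sum_comm, Finset.sum_comm]

theorem a4_id2 (C B : Matrix (Fin 3) (Fin 3) ℝ) (S : Matrix (Fin 3) (Fin 3) ℝ)
    (hC : ∀ i j, S i j = ∑ m, C m i * C m j) :
    ∑ m, vsq (fun i => ∑ j, B i j * C m j) = ∑ i, q1 S (fun j => B i j) := by
  unfold vsq q1
  rw [Finset.sum_comm]
  refine Finset.sum_congr rfl fun i _ => ?_
  simp only [hC, sq, Finset.sum_mul, Finset.mul_sum]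
  rw [Finset.sum_comm]
  refine Finset.sum_congr rfl fun j _ => ?_
  rw [Finset.sum_comm]
  refine Finset.sum_congr rfl fun l _ => ?_
  refine Finset.sum_congr rfl fun m _ => ?_
  ring

/-- **A4a.** Proof: for a symmetric `S` with `lam |u|² ≤ S(u,u)` write `S = L Lᵀ` (Matrix.PosSemidef); then
`nsq S B = ∑ (Lᵀ B L)_ij²` and `|Lᵀ u|² = S(u,u) ≥ lam |u|²` is used for the columns of `B L` and then for the rows.
Or without square root: for fixed `B` the sum is `∑_jl S_jl T_jl` with `T_jl = ∑_ik S_ik B_ij B_kl` positive semidefinite,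
`T(u,u) = S(Bu,Bu) ≥ lam |Bu|²`. -/
theorem nsq_ge {lam : ℝ} (hl : 0 ≤ lam) {S : Matrix (Fin 3) (Fin 3) ℝ} (hs : ∀ i j, S i j = S j i)
    (h : ∀ u : Fin 3 → ℝ, lam * vsq u ≤ q1 S u) (B : Matrix (Fin 3) (Fin 3) ℝ) :
    lam ^ 2 * fsq B ≤ nsq S B := by
  have hv : ∀ u : Fin 3 → ℝ, 0 ≤ vsq u := fun u => Finset.sum_nonneg fun i _ => sq_nonneg _
  obtain ⟨C, hC⟩ := a4_factor hs fun u => (mul_nonneg hl (hv u)).trans (h u)
  rw [a4_id1 C B S hC]
  calc lam ^ 2 * fsq B = lam * ∑ i, lam * vsq (fun j => B i j) := by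
        rw [← Finset.mul_sum]
        unfold fsq vsq
        ring
    _ ≤ lam * ∑ i, q1 S (fun j => B i j) :=
        mul_le_mul_of_nonneg_left (Finset.sum_le_sum fun i _ => h _) hl
    _ = ∑ m, lam * vsq (fun i => ∑ j, B i j * C m j) := by
        rw [← a4_id2 C B S hC, Finset.mul_sum]
    _ ≤ _ := Finset.sum_le_sum fun m _ => h _

theorem a4_ent (B : Matrix (Fin 3) (Fin 3) ℝ) (i j : Fin 3) : B i j ^ 2 ≤ fsq B := by
  have h1 : B i j ^ 2 ≤ ∑ j, B i j ^ 2 :=
    Finset.single_le_sum (f := fun j => B i j ^ 2) (fun j _ => sq_nonneg _) (Finset.mem_univ j)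
  have h2 : ∑ j, B i j ^ 2 ≤ fsq B :=
    Finset.single_le_sum (f := fun i => ∑ j, B i j ^ 2)
      (fun i _ => Finset.sum_nonneg fun j _ => sq_nonneg _) (Finset.mem_univ i)
  exact h1.trans h2

theorem a4_vent (u : Fin 3 → ℝ) (i : Fin 3) : u i ^ 2 ≤ vsq u :=
  Finset.single_le_sum (f := fun i => u i ^ 2) (fun j _ => sq_nonneg _) (Finset.mem_univ i)

/-- **A4b.** 81 terms, `|B_ij B_kl| ≤ fsq B`. -/
theorem nsq_le {Lam : ℝ} {S : Matrix (Fin 3) (Fin 3) ℝ} (h : ∀ i j, |S i j| ≤ Lam)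
    (B : Matrix (Fin 3) (Fin 3) ℝ) : nsq S B ≤ 81 * Lam ^ 2 * fsq B := by
  have hL : 0 ≤ Lam := (abs_nonneg _).trans (h 0 0)
  have hB : 0 ≤ fsq B := (sq_nonneg _).trans (a4_ent B 0 0)
  have hterm : ∀ i j k l, S i k * S j l * B i j * B k l ≤ Lam ^ 2 * fsq B := by
    intro i j k l
    have h1 : |B i j * B k l| ≤ fsq B := by
      have h2 := a4_ent B i j
      have h3 := a4_ent B k l
      rw [abs_le]
      constructor
      · nlinarith [sq_nonneg (B i j + B k l)]
      · nlinarith [sq_nonneg (B i j - B k l)]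
    have h2 : |S i k * S j l| ≤ Lam ^ 2 := by
      rw [abs_mul, sq]
      exact mul_le_mul (h i k) (h j l) (abs_nonneg _) hL
    calc S i k * S j l * B i j * B k l ≤ |S i k * S j l * B i j * B k l| := le_abs_self _
      _ = |S i k * S j l| * |B i j * B k l| := by rw [← abs_mul]; ring_nf
      _ ≤ _ := mul_le_mul h2 h1 (abs_nonneg _) (by positivity)
  calc nsq S B ≤ ∑ _i : Fin 3, ∑ _j : Fin 3, ∑ _k : Fin 3, ∑ _l : Fin 3, Lam ^ 2 * fsq B :=
        Finset.sum_le_sum fun i _ => Finset.sum_le_sum fun j _ => Finset.sum_le_sum fun k _ =>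
          Finset.sum_le_sum fun l _ => hterm i j k l
    _ = 81 * Lam ^ 2 * fsq B := by
        simp only [Finset.sum_const, Finset.card_univ, Fintype.card_fin, nsmul_eq_mul]
        push_cast
        ring

/-- **A4c.** -/
theorem abs_tr2_le {Lam : ℝ} {S : Matrix (Fin 3) (Fin 3) ℝ} (h : ∀ i j, |S i j| ≤ Lam)
    (B : Matrix (Fin 3) (Fin 3) ℝ) : |tr2 S B| ≤ 9 * Lam * Real.sqrt (fsq B) := by
  have hL : 0 ≤ Lam := (abs_nonneg _).trans (h 0 0)
  calc |tr2 S B| ≤ ∑ i, |∑ j, S i j * B i j| := Finset.abs_sum_le_sum_abs _ _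
    _ ≤ ∑ i, ∑ j, |S i j * B i j| := Finset.sum_le_sum fun i _ => Finset.abs_sum_le_sum_abs _ _
    _ ≤ ∑ _i : Fin 3, ∑ _j : Fin 3, Lam * Real.sqrt (fsq B) := by
        refine Finset.sum_le_sum fun i _ => Finset.sum_le_sum fun j _ => ?_
        rw [abs_mul]
        exact mul_le_mul (h i j) (Real.abs_le_sqrt (a4_ent B i j)) (abs_nonneg _) hL
    _ = 9 * Lam * Real.sqrt (fsq B) := by
        simp only [Finset.sum_const, Finset.card_univ, Fintype.card_fin, nsmul_eq_mul]
        push_cast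
        ring

/-- **A4d.** -/
theorem q1_le {Lam : ℝ} {S : Matrix (Fin 3) (Fin 3) ℝ} (h : ∀ i j, |S i j| ≤ Lam)
    (u : Fin 3 → ℝ) : q1 S u ≤ 9 * Lam * vsq u := by
  have hL : 0 ≤ Lam := (abs_nonneg _).trans (h 0 0)
  calc q1 S u ≤ ∑ _i : Fin 3, ∑ _j : Fin 3, Lam * vsq u := by
        refine Finset.sum_le_sum fun i _ => Finset.sum_le_sum fun j _ => ?_
        have h1 : |u i * u j| ≤ vsq u := by
          have h2 := a4_vent u i
          have h3 := a4_vent u j
          rw [abs_le]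
          constructor
          · nlinarith [sq_nonneg (u i + u j)]
          · nlinarith [sq_nonneg (u i - u j)]
        calc S i j * u i * u j ≤ |S i j * u i * u j| := le_abs_self _
          _ = |S i j| * |u i * u j| := by rw [← abs_mul]; ring_nf
          _ ≤ _ := mul_le_mul (h i j) h1 (abs_nonneg _) hL
    _ = 9 * Lam * vsq u := by
        simp only [Finset.sum_const, Finset.card_univ, Fintype.card_fin, nsmul_eq_mul]
        push_cast
        ring

end UMB.W
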