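import Pool.Agent.Lib.UMB.W.Defs

/-! # UMB.W chunk A5: constants by compactness -/

set_option autoImplicit false

open Filter Topology Set MeasureTheory
open scoped ContDiff BigOperators
open Pool.Agent.Lib.PenroseSph (E3 Tens pd)
open UMB.Lin (Ann cAnn sig)

namespace UMB.W

theorem a5_compact (R : ℝ) : IsCompact (cAnn R) := by
  apply Metric.isCompact_of_isClosed_isBounded
  · exact (isClosed_le continuous_const continuous_norm).inter
      (isClosed_le continuous_norm continuous_const)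
  · apply (Metric.isBounded_closedBall (x := (0 : E3)) (r := R)).subset
    intro x hx
    rw [mem_closedBall_zero_iff]
    exact hx.2

theorem a5_bound (R : ℝ) {f : E3 → ℝ} (hf : Continuous f) :
    ∃ C : ℝ, 0 ≤ C ∧ ∀ x ∈ cAnn R, |f x| ≤ C := by
  obtain ⟨C, hC⟩ := (a5_compact R).exists_bound_of_continuousOn hf.continuousOn
  exact ⟨|C|, abs_nonneg _, fun x hx => (hC x hx).trans (le_abs_self _)⟩

theorem a5_sphere : IsCompact {u : Fin 3 → ℝ | vsq u = 1} := by
  apply Metric.isCompact_of_isClosed_isBounded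
  · apply isClosed_eq _ continuous_const
    unfold vsq
    fun_prop
  · apply (Metric.isBounded_closedBall (x := (0 : Fin 3 → ℝ)) (r := 1)).subset
    intro u hu
    rw [mem_closedBall_zero_iff, pi_norm_le_iff_of_nonneg zero_le_one]
    intro i
    rw [Real.norm_eq_abs]
    apply abs_le_one_iff_mul_self_le_one.2
    have h1 : u i ^ 2 ≤ vsq u := by
      unfold vsq
      exact Finset.single_le_sum (f := fun j => u j ^ 2) (fun _ _ => sq_nonneg _) (Finset.mem_univ i)
    have h2 : vsq u = 1 := hu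
    nlinarith

theorem a5_pd_cont {f : E3 → ℝ} (hf : ContDiff ℝ ∞ f) (k : Fin 3) : Continuous (pd k f) := by
  have h1 : Continuous (fderiv ℝ f) := hf.continuous_fderiv (by simp)
  exact h1.clm_apply continuous_const

theorem a5_q1_smul (S : Matrix (Fin 3) (Fin 3) ℝ) (c : ℝ) (u : Fin 3 → ℝ) :
    q1 S (c • u) = c ^ 2 * q1 S u := by
  unfold q1
  simp only [Finset.mul_sum, Pi.smul_apply, smul_eq_mul]
  refine Finset.sum_congr rfl fun i _ => Finset.sum_congr rfl fun j _ => ?_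
  ring

theorem a5_vsq_smul (c : ℝ) (u : Fin 3 → ℝ) : vsq (c • u) = c ^ 2 * vsq u := by
  unfold vsq
  simp only [Finset.mul_sum, Pi.smul_apply, smul_eq_mul]
  refine Finset.sum_congr rfl fun i _ => ?_
  ring

theorem a5_lower (R : ℝ) {S : Tens} (h1 : ∀ i j, ContDiff ℝ ∞ fun x => S x i j)
    (h3 : ∀ x ∈ cAnn R, ∀ u : Fin 3 → ℝ, u ≠ 0 → 0 < q1 (S x) u) :
    ∃ lam : ℝ, 0 < lam ∧ ∀ x ∈ cAnn R, ∀ u : Fin 3 → ℝ, lam * vsq u ≤ q1 (S x) u := by
  by_cases hne : (cAnn R).Nonempty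
  · have hK : IsCompact (cAnn R ×ˢ {u : Fin 3 → ℝ | vsq u = 1}) := (a5_compact R).prod a5_sphere
    have hKne : (cAnn R ×ˢ {u : Fin 3 → ℝ | vsq u = 1}).Nonempty := by
      apply hne.prod
      refine ⟨Pi.single 0 1, ?_⟩
      show vsq _ = 1
      simp [vsq, Fin.sum_univ_three, Pi.single_apply]
    have hcont : ContinuousOn (fun p : E3 × (Fin 3 → ℝ) => q1 (S p.1) p.2)
        (cAnn R ×ˢ {u : Fin 3 → ℝ | vsq u = 1}) := by
      apply Continuous.continuousOn
      unfold q1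
      refine continuous_finsetSum _ fun i _ => continuous_finsetSum _ fun j _ => ?_
      have h4 : Continuous fun p : E3 × (Fin 3 → ℝ) => S p.1 i j :=
        (h1 i j).continuous.comp continuous_fst
      have h5 : ∀ k : Fin 3, Continuous fun p : E3 × (Fin 3 → ℝ) => p.2 k := fun k =>
        (continuous_apply k).comp continuous_snd
      exact (h4.mul (h5 i)).mul (h5 j)
    obtain ⟨⟨x₀, u₀⟩, hmem, hmin⟩ := hK.exists_isMinOn hKne hcont
    have hu₀ : u₀ ≠ 0 := by
      rintro rfl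
      have : vsq (0 : Fin 3 → ℝ) = 1 := hmem.2
      simp [vsq] at this
    refine ⟨q1 (S x₀) u₀, h3 x₀ hmem.1 u₀ hu₀, fun x hx u => ?_⟩
    by_cases hu : vsq u = 0
    · have hu0 : u = 0 := by
        unfold vsq at hu
        rw [Finset.sum_eq_zero_iff_of_nonneg fun _ _ => sq_nonneg _] at hu
        ext i
        have := hu i (Finset.mem_univ i)
        exact pow_eq_zero_iff (n := 2) (by norm_num) |>.1 this
      subst hu0
      simp [vsq, q1]
    · have hv0 : 0 ≤ vsq u := Finset.sum_nonneg fun _ _ => sq_nonneg _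
      have hv : 0 < vsq u := lt_of_le_of_ne hv0 (Ne.symm hu)
      set s := Real.sqrt (vsq u)
      have hs : 0 < s := Real.sqrt_pos.2 hv
      have hs2 : s ^ 2 = vsq u := Real.sq_sqrt hv0
      have hmem2 : vsq (s⁻¹ • u) = 1 := by
        rw [a5_vsq_smul, ← hs2, ← mul_pow, inv_mul_cancel₀ hs.ne', one_pow]
      have h6 := hmin (⟨hx, hmem2⟩ : ((x, s⁻¹ • u) : E3 × (Fin 3 → ℝ)) ∈
        cAnn R ×ˢ {u : Fin 3 → ℝ | vsq u = 1})
      have h7 : q1 (S x₀) u₀ ≤ q1 (S x) (s⁻¹ • u) := h6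
      rw [a5_q1_smul] at h7
      rw [← hs2]
      calc q1 (S x₀) u₀ * s ^ 2 ≤ (s⁻¹ ^ 2 * q1 (S x) u) * s ^ 2 :=
            mul_le_mul_of_nonneg_right h7 (by positivity)
        _ = q1 (S x) u := by
            field_simp
  · exact ⟨1, one_pos, fun x hx => (hne ⟨x, hx⟩).elim⟩

/-- **A5.** Compactness of the closed annulus (times the unit sphere of `Fin 3 → ℝ` for the lower bound); for `R < 1` the
closed annulus is empty. -/
theorem exists_fld (R : ℝ) {S : Tens} (h1 : ∀ i j, ContDiff ℝ ∞ fun x => S x i j) (h2 : ∀ x i j, S x i j = S x j i)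
    (h3 : ∀ x ∈ cAnn R, ∀ u : Fin 3 → ℝ, u ≠ 0 → 0 < q1 (S x) u) :
    ∃ lam Lam : ℝ, 0 ≤ Lam ∧ Fld R lam Lam S := by
  obtain ⟨lam, hl, hell⟩ := a5_lower R h1 h3
  choose C hC0 hC using fun i j => a5_bound R (h1 i j).continuous
  choose C' hC0' hC' using fun i j k => a5_bound R (a5_pd_cont (h1 i j) k)
  have hA : 0 ≤ ∑ i, ∑ j, C i j := Finset.sum_nonneg fun _ _ => Finset.sum_nonneg fun _ _ => hC0 _ _
  have hB : 0 ≤ ∑ i, ∑ j, ∑ k, C' i j k :=
    Finset.sum_nonneg fun _ _ => Finset.sum_nonneg fun _ _ => Finset.sum_nonneg fun _ _ => hC0' _ _ _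
  refine ⟨lam, ∑ i, ∑ j, C i j + ∑ i, ∑ j, ∑ k, C' i j k, add_nonneg hA hB, h1, h2, hl, hell, ?_, ?_⟩
  · intro x hx i j
    have e1 : C i j ≤ ∑ j, C i j :=
      Finset.single_le_sum (f := fun j => C i j) (fun _ _ => hC0 _ _) (Finset.mem_univ j)
    have e2 : ∑ j, C i j ≤ ∑ i, ∑ j, C i j :=
      Finset.single_le_sum (f := fun i => ∑ j, C i j)
        (fun _ _ => Finset.sum_nonneg fun _ _ => hC0 _ _) (Finset.mem_univ i)
    have := hC i j x hx
    linarith
  · intro x hx i j k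
    have e1 : C' i j k ≤ ∑ k, C' i j k :=
      Finset.single_le_sum (f := fun k => C' i j k) (fun _ _ => hC0' _ _ _) (Finset.mem_univ k)
    have e2 : ∑ k, C' i j k ≤ ∑ j, ∑ k, C' i j k :=
      Finset.single_le_sum (f := fun j => ∑ k, C' i j k)
        (fun _ _ => Finset.sum_nonneg fun _ _ => hC0' _ _ _) (Finset.mem_univ j)
    have e3 : ∑ j, ∑ k, C' i j k ≤ ∑ i, ∑ j, ∑ k, C' i j k :=
      Finset.single_le_sum (f := fun i => ∑ j, ∑ k, C' i j k)
        (fun _ _ => Finset.sum_nonneg fun _ _ => Finset.sum_nonneg fun _ _ => hC0' _ _ _)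
        (Finset.mem_univ i)
    have := hC' i j k x hx
    linarith

end UMB.W
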