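import Pool.Agent.Lib.UMB.W.Defs

/-! # UMB.W chunk A1: Cordes inequality, flat case -/

set_option autoImplicit false

open Filter Topology Set MeasureTheory
open scoped ContDiff BigOperators
open Pool.Agent.Lib.PenroseSph (E3 Tens pd)
open UMB.Lin (Ann cAnn sig)

namespace UMB.W

/-- Cauchy-Schwarz for double sums. -/
theorem a1_cs (E M : Matrix (Fin 3) (Fin 3) ℝ) :
    (∑ i, ∑ j, E i j * M i j) ^ 2 ≤ fsq E * fsq M := by
  have h := Finset.sum_mul_sq_le_sq_mul_sq (Finset.univ : Finset (Fin 3 × Fin 3))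
    (fun p => E p.1 p.2) (fun p => M p.1 p.2)
  rw [Fintype.sum_prod_type, Fintype.sum_prod_type, Fintype.sum_prod_type] at h
  exact h

theorem a1_sum_E (n : Fin 3 → ℝ) (q t : ℝ) :
    fsq (fun i j => (if i = j then 1 else 0) - t * ((if i = j then 1 else 0) + q * n i * n j)) =
      3 - 2 * t * (3 + q * vsq n) + t ^ 2 * (3 + 2 * q * vsq n + q ^ 2 * vsq n ^ 2) := by
  simp only [fsq, vsq, Fin.sum_univ_three, if_true, if_neg (show ¬ ((0 : Fin 3) = 1) by decide), if_neg (show ¬ ((0 : Fin 3) = 2) by decide),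
    if_neg (show ¬ ((1 : Fin 3) = 0) by decide), if_neg (show ¬ ((1 : Fin 3) = 2) by decide),
    if_neg (show ¬ ((2 : Fin 3) = 0) by decide), if_neg (show ¬ ((2 : Fin 3) = 1) by decide)]
  ring

theorem a1_tr (n : Fin 3 → ℝ) (q t : ℝ) (M : Matrix (Fin 3) (Fin 3) ℝ) :
    ∑ i, M i i = (∑ i, ∑ j, ((if i = j then 1 else 0) -
      t * ((if i = j then 1 else 0) + q * n i * n j)) * M i j) +
      t * ∑ i, ∑ j, ((if i = j then 1 else 0) + q * n i * n j) * M i j := by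
  simp only [Fin.sum_univ_three, if_true, if_neg (show ¬ ((0 : Fin 3) = 1) by decide), if_neg (show ¬ ((0 : Fin 3) = 2) by decide),
    if_neg (show ¬ ((1 : Fin 3) = 0) by decide), if_neg (show ¬ ((1 : Fin 3) = 2) by decide),
    if_neg (show ¬ ((2 : Fin 3) = 0) by decide), if_neg (show ¬ ((2 : Fin 3) = 1) by decide)]
  ring

/-- **A1.** `a = 1 + (P-2) n n`, `|n| ≤ 1`, `1 < p0 ≤ P ≤ 2`.
Proof: put `A i j = δ_ij + (P-2) n_i n_j`, `s = (2-P) |n|² ∈ [0, 2-p0]`. Then `∑ A_ij² = 2 + (1-s)²`, `∑ A_ii = 3 - s`.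
With `t = (3-s)/(2+(1-s)²)` one has `0 ≤ t ≤ 3/2` and
`tr M = ∑ (δ_ij - t A_ij) M_ij + t ∑ A_ij M_ij`, `∑ (δ_ij - t A_ij)² = 3 - (3-s)²/(2+(1-s)²) ≤ 1 - (p0-1)`, because
`(3-s)² - 2(2+(1-s)²) = (1-s)(3+s) ≥ 3(p0-1)` and `2 + (1-s)² ≤ 3`. Cauchy-Schwarz for the first sum, and
`(X+Y)² ≤ (1+h) X² + (1+1/h) Y²` with `h = (p0-1)/2`: `(1+h)(2-p0) ≤ 1-(p0-1)/2`, `(1+1/h)·(9/4) ≤ 7/(p0-1)`
(use `p0 ≤ 2`). -/
theorem cordes_one {p0 P : ℝ} (h1 : 1 < p0) (h2 : p0 ≤ P) (h3 : P ≤ 2) (n : Fin 3 → ℝ) (hn : vsq n ≤ 1)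
    (M : Matrix (Fin 3) (Fin 3) ℝ) :
    (∑ i, M i i) ^ 2 ≤ (1 - (p0 - 1) / 2) * fsq M
      + 7 / (p0 - 1) * (∑ i, ∑ j, ((if i = j then 1 else 0) + (P - 2) * n i * n j) * M i j) ^ 2 := by
  have hv0 : 0 ≤ vsq n := Finset.sum_nonneg fun i _ => sq_nonneg _
  have hM0 : 0 ≤ fsq M := Finset.sum_nonneg fun i _ => Finset.sum_nonneg fun j _ => sq_nonneg _
  obtain ⟨q, hq⟩ : ∃ q, q = P - 2 := ⟨_, rfl⟩
  obtain ⟨v, hv⟩ : ∃ v, v = vsq n := ⟨_, rfl⟩
  rw [← hq]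
  rw [← hv] at hn hv0
  have hq1 : p0 - 2 ≤ q := by linarith
  have hq0 : q ≤ 0 := by linarith
  obtain ⟨s, hs⟩ : ∃ s, s = -(q * v) := ⟨_, rfl⟩
  have hs0 : 0 ≤ s := by rw [hs]; nlinarith
  have hs1 : s ≤ 2 - p0 := by rw [hs]; nlinarith
  set D : ℝ := 2 + (1 - s) ^ 2 with hD
  have hD2 : 2 ≤ D := by rw [hD]; nlinarith [sq_nonneg (1 - s)]
  have hD3 : D ≤ 3 := by rw [hD]; nlinarith
  have hDpos : 0 < D := by linarith
  set t : ℝ := (3 - s) / D with ht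
  have htD : t * D = 3 - s := by rw [ht]; field_simp
  have ht0 : 0 ≤ t := by rw [ht]; exact div_nonneg (by linarith) hDpos.le
  have ht1 : t ≤ 3 / 2 := by
    rw [ht, div_le_iff₀ hDpos]
    nlinarith
  set X : ℝ := ∑ i, ∑ j, ((if i = j then 1 else 0) -
      t * ((if i = j then 1 else 0) + q * n i * n j)) * M i j with hX
  set Y : ℝ := ∑ i, ∑ j, ((if i = j then 1 else 0) + q * n i * n j) * M i j with hY
  have htr : ∑ i, M i i = X + t * Y := a1_tr n q t M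
  have hE : 3 - 2 * t * (3 + q * v) + t ^ 2 * (3 + 2 * q * v + q ^ 2 * v ^ 2) ≤ 2 - p0 := by
    have e1 : q * v = -s := by rw [hs]; ring
    have e2 : q ^ 2 * v ^ 2 = s ^ 2 := by rw [hs]; ring
    have e3 : 2 * q * v = -(2 * s) := by rw [hs]; ring
    rw [e1, e2, e3]
    have e4 : 3 - 2 * t * (3 + -s) + t ^ 2 * (3 + -(2 * s) + s ^ 2) = 3 - t * (t * D) := by
      have : 3 + -(2 * s) + s ^ 2 = D := by rw [hD]; ring
      rw [this]
      have h5 : t ^ 2 * D = t * (t * D) := by ring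
      rw [h5, htD]
      ring
    rw [e4, htD]
    have h6 : p0 + 1 ≤ t * (3 - s) := by
      rw [ht, div_mul_eq_mul_div, le_div_iff₀ hDpos]
      nlinarith
    linarith
  have hX2 : X ^ 2 ≤ (2 - p0) * fsq M := by
    have h5 := a1_cs (fun i j => (if i = j then 1 else 0) -
      t * ((if i = j then 1 else 0) + q * n i * n j)) M
    rw [a1_sum_E, ← hv] at h5
    exact h5.trans (mul_le_mul_of_nonneg_right hE hM0)
  rw [htr]
  obtain ⟨e, he⟩ : ∃ e, e = p0 - 1 := ⟨_, rfl⟩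
  have he0 : 0 < e := by linarith
  have he1 : e ≤ 1 := by linarith
  rw [← he]
  have h7 : (X + t * Y) ^ 2 ≤ (1 + e / 2) * X ^ 2 + (1 + 2 / e) * (t * Y) ^ 2 := by
    have h8 : 0 ≤ (e / 2) * (X - 2 / e * (t * Y)) ^ 2 := by positivity
    have h9 : (1 + e / 2) * X ^ 2 + (1 + 2 / e) * (t * Y) ^ 2 - (X + t * Y) ^ 2 =
        (e / 2) * (X - 2 / e * (t * Y)) ^ 2 := by
      field_simp
      ring
    linarith
  have h8 : (1 + e / 2) * X ^ 2 ≤ (1 - e / 2) * fsq M := by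
    have h9 : (1 + e / 2) * X ^ 2 ≤ (1 + e / 2) * ((2 - p0) * fsq M) :=
      mul_le_mul_of_nonneg_left hX2 (by linarith)
    have h10 : (1 + e / 2) * ((2 - p0) * fsq M) = (1 - e / 2 - e ^ 2 / 2) * fsq M := by
      have : 2 - p0 = 1 - e := by linarith
      rw [this]
      ring
    rw [h10] at h9
    refine h9.trans (mul_le_mul_of_nonneg_right ?_ hM0)
    nlinarith [sq_nonneg e]
  have h9 : (1 + 2 / e) * (t * Y) ^ 2 ≤ 7 / e * Y ^ 2 := by
    have h10 : (1 + 2 / e) * (t * Y) ^ 2 = ((1 + 2 / e) * t ^ 2) * Y ^ 2 := by ring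
    rw [h10]
    apply mul_le_mul_of_nonneg_right _ (sq_nonneg Y)
    have h11 : t ^ 2 ≤ 9 / 4 := by nlinarith
    have h12 : (1 + 2 / e) * t ^ 2 ≤ (1 + 2 / e) * (9 / 4) :=
      mul_le_mul_of_nonneg_left h11 (by positivity)
    refine h12.trans ?_
    have h13 : (1 + 2 / e) * (9 / 4) = (9 / 4 * e + 9 / 2) / e := by
      field_simp
      ring
    rw [h13]
    exact div_le_div_of_nonneg_right (by linarith) he0.le
  linarith

end UMB.W
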