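import Pool.Agent.Lib.UMB.W.Defs

/-! # UMB.W chunk B1: the divergence identity -/

set_option autoImplicit false

open Filter Topology Set MeasureTheory
open scoped ContDiff BigOperators
open Pool.Agent.Lib.PenroseSph (E3 Tens pd)
open UMB.Lin (Ann cAnn sig)

namespace UMB.W

theorem b1_contDiff_pd {n m : ℕ∞} {w : E3 → ℝ} (hw : ContDiff ℝ n w) (hmn : m + 1 ≤ n) (k : Fin 3) :
    ContDiff ℝ m (pd k w) := by
  have h1 : ContDiff ℝ m (fderiv ℝ w) := hw.fderiv_right (by exact_mod_cast hmn)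
  exact h1.clm_apply contDiff_const

theorem b1_comm {w : E3 → ℝ} (hw : ContDiff ℝ 2 w) (i j : Fin 3) (x : E3) :
    pd i (pd j w) x = pd j (pd i w) x := by
  have hsym : IsSymmSndFDerivAt ℝ w x := by
    refine hw.contDiffAt.isSymmSndFDerivAt ?_
    simp
  have hd : DifferentiableAt ℝ (fderiv ℝ w) x := by
    have h1 : ContDiff ℝ 1 (fderiv ℝ w) := hw.fderiv_right (by norm_num)
    exact (h1.differentiable (by norm_num)).differentiableAt
  have key : ∀ a b : Fin 3, pd a (pd b w) x =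
      fderiv ℝ (fderiv ℝ w) x (EuclideanSpace.single a 1) (EuclideanSpace.single b 1) := by
    intro a b
    unfold Pool.Agent.Lib.PenroseSph.pd
    have h2 : (fun y => fderiv ℝ w y (EuclideanSpace.single b 1)) =
        fun y => (fderiv ℝ w y) (EuclideanSpace.single b 1) := rfl
    rw [show (fun x => (fderiv ℝ w x) (EuclideanSpace.single b 1)) =
        fun x => (fderiv ℝ w x) ((fun _ : E3 => EuclideanSpace.single b (1 : ℝ)) x) from rfl]
    rw [fderiv_clm_apply hd (differentiableAt_const _)]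
    simp
  rw [key, key]
  exact hsym _ _

theorem b1_swap (f : Fin 3 → Fin 3 → Fin 3 → Fin 3 → ℝ) :
    ∑ i, ∑ j, ∑ k, ∑ l, f i j k l = ∑ i, ∑ j, ∑ k, ∑ l, f k l i j := by
  simp only [Fin.sum_univ_three]
  ring

theorem b1_perm (f : Fin 3 → Fin 3 → Fin 3 → Fin 3 → ℝ) :
    ∑ i, ∑ j, ∑ k, ∑ l, f i j k l = ∑ i, ∑ j, ∑ k, ∑ l, f j k i l := by
  simp only [Fin.sum_univ_three]
  ring

theorem b1_alg (S B : Matrix (Fin 3) (Fin 3) ℝ) (g : Fin 3 → ℝ) (T : Fin 3 → Fin 3 → Fin 3 → ℝ)
    (hS : ∀ i j, S i j = S j i) (hT : ∀ i j k, T k i j = T i j k) :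
    ∑ i, ∑ j, ∑ k, ∑ l, S i j * S k l *
      ((T i j k * g l + B j k * B i l) - (T i k l * g j + B k l * B i j)) =
      nsq S B - tr2 S B ^ 2 := by
  have e1 : ∑ i, ∑ j, ∑ k, ∑ l, S i j * S k l * (T i j k * g l) =
      ∑ i, ∑ j, ∑ k, ∑ l, S i j * S k l * (T i k l * g j) := by
    rw [b1_swap fun i j k l => S i j * S k l * (T i k l * g j)]
    refine Finset.sum_congr rfl fun i _ => Finset.sum_congr rfl fun j _ =>
      Finset.sum_congr rfl fun k _ => Finset.sum_congr rfl fun l _ => ?_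
    rw [hT i j k]
    ring
  have e2 : nsq S B = ∑ i, ∑ j, ∑ k, ∑ l, S i j * S k l * (B j k * B i l) := by
    unfold nsq
    rw [b1_perm fun i j k l => S i k * S j l * B i j * B k l]
    refine Finset.sum_congr rfl fun i _ => Finset.sum_congr rfl fun j _ =>
      Finset.sum_congr rfl fun k _ => Finset.sum_congr rfl fun l _ => ?_
    rw [hS j i]
    ring
  have e3 : tr2 S B ^ 2 = ∑ i, ∑ j, ∑ k, ∑ l, S i j * S k l * (B k l * B i j) := by
    unfold tr2
    rw [sq]
    simp only [Finset.sum_mul, Finset.mul_sum]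
    refine Finset.sum_congr rfl fun i _ => Finset.sum_congr rfl fun j _ =>
      Finset.sum_congr rfl fun k _ => Finset.sum_congr rfl fun l _ => ?_
    ring
  rw [e2, e3]
  have e4 : ∀ i j k l : Fin 3, S i j * S k l *
      ((T i j k * g l + B j k * B i l) - (T i k l * g j + B k l * B i j)) =
      (S i j * S k l * (T i j k * g l) + S i j * S k l * (B j k * B i l)) -
      (S i j * S k l * (T i k l * g j) + S i j * S k l * (B k l * B i j)) := by
    intro i j k l
    ring
  simp only [e4, Finset.sum_sub_distrib, Finset.sum_add_distrib]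
  rw [e1]
  ring

theorem b1_pd_term {f g₁ g₂ g₃ g₄ : E3 → ℝ} {x : E3} (hf : DifferentiableAt ℝ f x)
    (h₁ : DifferentiableAt ℝ g₁ x) (h₂ : DifferentiableAt ℝ g₂ x)
    (h₃ : DifferentiableAt ℝ g₃ x) (h₄ : DifferentiableAt ℝ g₄ x) (i : Fin 3) :
    pd i (fun y => f y * (g₁ y * g₂ y - g₃ y * g₄ y)) x =
      pd i f x * (g₁ x * g₂ x - g₃ x * g₄ x) +
      f x * ((pd i g₁ x * g₂ x + g₁ x * pd i g₂ x) - (pd i g₃ x * g₄ x + g₃ x * pd i g₄ x)) := by
  unfold Pool.Agent.Lib.PenroseSph.pd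
  rw [fderiv_fun_mul hf ((h₁.fun_mul h₂).fun_sub (h₃.fun_mul h₄)),
    fderiv_fun_sub (h₁.fun_mul h₂) (h₃.fun_mul h₄), fderiv_fun_mul h₁ h₂, fderiv_fun_mul h₃ h₄]
  simp
  ring

theorem b1_pd_sum {ι : Type*} (s : Finset ι) {f : ι → E3 → ℝ} {x : E3}
    (hf : ∀ a ∈ s, DifferentiableAt ℝ (f a) x) (i : Fin 3) :
    pd i (fun y => ∑ a ∈ s, f a y) x = ∑ a ∈ s, pd i (f a) x := by
  unfold Pool.Agent.Lib.PenroseSph.pd
  rw [fderiv_fun_sum hf]
  simp

/-- **B1.** `∂_i V^i = |D²w|² - (tr D²w)² + r`: the two terms with third derivatives,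
`S^ij S^kl w_ijk w_l` and `S^ij S^kl w_ikl w_j`, agree after renaming and symmetry of third derivatives (the partial
derivatives commute: `second_derivative_symmetric`, `ContDiffAt.isSymmSndFDerivAt`). Suggestion: first a lemma
`pd i (D2 w · j k) x = T i j k` with `T` totally symmetric, then `simp [Fin.sum_univ_three]` and `linear_combination`, or
work with finite sums and `Finset.sum_comm`. -/
theorem div_VV {R lam Lam : ℝ} {S : Tens} (hS : Fld R lam Lam S) {w : E3 → ℝ} (hw : ContDiff ℝ 3 w) (x : E3) :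
    ∑ i, pd i (VV S w i) x = nsq (S x) (D2 w x) - tr2 (S x) (D2 w x) ^ 2 + RR S w x := by
  have hw2 : ContDiff ℝ 2 w := hw.of_le (by norm_num)
  have hp2 : ∀ k, ContDiff ℝ 2 (pd k w) := fun k => by
    have := b1_contDiff_pd (n := 3) (m := 2) (by exact_mod_cast hw) (by norm_num) k
    exact_mod_cast this
  have hp1 : ∀ j k, ContDiff ℝ 1 (pd j (pd k w)) := fun j k => by
    have := b1_contDiff_pd (n := 2) (m := 1) (w := pd k w) (by exact_mod_cast hp2 k) (by norm_num) j
    exact_mod_cast this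
  have hd1 : ∀ k, DifferentiableAt ℝ (pd k w) x := fun k =>
    ((hp2 k).differentiable (by norm_num)).differentiableAt
  have hd2 : ∀ j k, DifferentiableAt ℝ (pd j (pd k w)) x := fun j k =>
    ((hp1 j k).differentiable (by norm_num)).differentiableAt
  have hSd : ∀ i j, DifferentiableAt ℝ (fun y => S y i j) x := fun i j =>
    ((hS.smooth i j).differentiable (by simp)).differentiableAt
  have hcomm : ∀ j k, pd j (pd k w) = pd k (pd j w) := fun j k => funext fun y => b1_comm hw2 j k y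
  set T : Fin 3 → Fin 3 → Fin 3 → ℝ := fun i j k => pd i (pd j (pd k w)) x with hT
  have hT1 : ∀ i j k, T k i j = T i j k := by
    intro i j k
    simp only [hT]
    rw [b1_comm (hp2 j) k i x, hcomm k j]
  have hdiv : ∀ i, pd i (VV S w i) x = ∑ j, ∑ k, ∑ l,
      (pd i (fun y => S y i j * S y k l) x * (D2 w x j k * D1 w x l - D2 w x k l * D1 w x j) +
      S x i j * S x k l * ((T i j k * D1 w x l + D2 w x j k * D2 w x i l) -
        (T i k l * D1 w x j + D2 w x k l * D2 w x i j))) := by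
    intro i
    have hterm : ∀ j k l, DifferentiableAt ℝ (fun y => S y i j * S y k l *
        (D2 w y j k * D1 w y l - D2 w y k l * D1 w y j)) x := fun j k l =>
      ((hSd i j).fun_mul (hSd k l)).fun_mul
        (((hd2 j k).fun_mul (hd1 l)).fun_sub ((hd2 k l).fun_mul (hd1 j)))
    have e0 : VV S w i = fun y => ∑ j, ∑ k, ∑ l, S y i j * S y k l *
        (D2 w y j k * D1 w y l - D2 w y k l * D1 w y j) := rfl
    rw [e0, b1_pd_sum _ fun j _ => DifferentiableAt.fun_sum fun k _ =>
      DifferentiableAt.fun_sum fun l _ => hterm j k l]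
    refine Finset.sum_congr rfl fun j _ => ?_
    rw [b1_pd_sum _ fun k _ => DifferentiableAt.fun_sum fun l _ => hterm j k l]
    refine Finset.sum_congr rfl fun k _ => ?_
    rw [b1_pd_sum _ fun l _ => hterm j k l]
    refine Finset.sum_congr rfl fun l _ => ?_
    exact b1_pd_term ((hSd i j).fun_mul (hSd k l)) (hd2 j k) (hd1 l) (hd2 k l) (hd1 j) i
  simp only [hdiv, Finset.sum_add_distrib]
  rw [b1_alg (S x) (D2 w x) (D1 w x) T (hS.symm x) hT1]
  unfold RR
  ring

end UMB.W
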