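import Pool.Agent.Lib.UMB.W.Defs

/-! # UMB.W chunk B2: the remainder -/

set_option autoImplicit false

open Filter Topology Set MeasureTheory
open scoped ContDiff BigOperators
open Pool.Agent.Lib.PenroseSph (E3 Tens pd)
open UMB.Lin (Ann cAnn sig)

namespace UMB.W

theorem b2_pd_mul {f g : E3 → ℝ} (hf : ContDiff ℝ ∞ f) (hg : ContDiff ℝ ∞ g) (i : Fin 3) (x : E3) :
    pd i (fun y => f y * g y) x = f x * pd i g x + g x * pd i f x := by
  unfold Pool.Agent.Lib.PenroseSph.pd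
  have hf' : DifferentiableAt ℝ f x := (hf.differentiable (by simp)).differentiableAt
  have hg' : DifferentiableAt ℝ g x := (hg.differentiable (by simp)).differentiableAt
  rw [fderiv_fun_mul hf' hg']
  simp

theorem b2_entry (B : Matrix (Fin 3) (Fin 3) ℝ) (i j : Fin 3) : |B i j| ≤ Real.sqrt (fsq B) := by
  apply Real.abs_le_sqrt
  unfold fsq
  have h1 : B i j ^ 2 ≤ ∑ j, B i j ^ 2 :=
    Finset.single_le_sum (f := fun j => B i j ^ 2) (fun _ _ => sq_nonneg _) (Finset.mem_univ j)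
  exact h1.trans (Finset.single_le_sum (f := fun i => ∑ j, B i j ^ 2)
    (fun _ _ => Finset.sum_nonneg fun _ _ => sq_nonneg _) (Finset.mem_univ i))

theorem b2_entry1 (u : Fin 3 → ℝ) (i : Fin 3) : |u i| ≤ Real.sqrt (vsq u) := by
  apply Real.abs_le_sqrt
  unfold vsq
  exact Finset.single_le_sum (f := fun j => u j ^ 2) (fun _ _ => sq_nonneg _) (Finset.mem_univ i)

/-- **B2.** `|∂_i (S_ij S_kl)| ≤ 2 Lam²` (product rule), `|D2 w_jk D1 w_l| ≤ √fsq √vsq`; 81 terms, `81·2·2 = 324`. -/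
theorem RR_le {R lam Lam : ℝ} {S : Tens} (hS : Fld R lam Lam S) (w : E3 → ℝ) {x : E3} (hx : x ∈ cAnn R) :
    |RR S w x| ≤ 324 * Lam ^ 2 * (Real.sqrt (fsq (D2 w x)) * Real.sqrt (vsq (D1 w x))) := by
  have hL : 0 ≤ Lam := (abs_nonneg _).trans (hS.bd x hx 0 0)
  set F := Real.sqrt (fsq (D2 w x))
  set V := Real.sqrt (vsq (D1 w x))
  have hF : 0 ≤ F := Real.sqrt_nonneg _
  have hV : 0 ≤ V := Real.sqrt_nonneg _
  have h1 : ∀ i j k l : Fin 3, |pd i (fun y => S y i j * S y k l) x| ≤ 2 * Lam ^ 2 := by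
    intro i j k l
    rw [b2_pd_mul (hS.smooth i j) (hS.smooth k l)]
    have e1 := mul_le_mul (hS.bd x hx i j) (hS.bd1 x hx k l i) (abs_nonneg _) hL
    have e2 := mul_le_mul (hS.bd x hx k l) (hS.bd1 x hx i j i) (abs_nonneg _) hL
    refine (abs_add_le _ _).trans ?_
    rw [abs_mul, abs_mul]
    linarith
  have h2 : ∀ j k l : Fin 3,
      |D2 w x j k * D1 w x l - D2 w x k l * D1 w x j| ≤ 2 * (F * V) := by
    intro j k l
    refine (abs_sub _ _).trans ?_
    rw [abs_mul, abs_mul]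
    have e1 := mul_le_mul (b2_entry (D2 w x) j k) (b2_entry1 (D1 w x) l) (abs_nonneg _) hF
    have e2 := mul_le_mul (b2_entry (D2 w x) k l) (b2_entry1 (D1 w x) j) (abs_nonneg _) hF
    linarith
  have h3 : ∀ i j k l : Fin 3, |pd i (fun y => S y i j * S y k l) x *
      (D2 w x j k * D1 w x l - D2 w x k l * D1 w x j)| ≤ 4 * Lam ^ 2 * (F * V) := by
    intro i j k l
    rw [abs_mul]
    refine (mul_le_mul (h1 i j k l) (h2 j k l) (abs_nonneg _) (by positivity)).trans ?_
    linarith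
  unfold RR
  calc |∑ i, ∑ j, ∑ k, ∑ l, pd i (fun y => S y i j * S y k l) x *
      (D2 w x j k * D1 w x l - D2 w x k l * D1 w x j)|
      ≤ ∑ i : Fin 3, ∑ j : Fin 3, ∑ k : Fin 3, ∑ l : Fin 3, 4 * Lam ^ 2 * (F * V) := by
        refine (Finset.abs_sum_le_sum_abs _ _).trans (Finset.sum_le_sum fun i _ => ?_)
        refine (Finset.abs_sum_le_sum_abs _ _).trans (Finset.sum_le_sum fun j _ => ?_)
        refine (Finset.abs_sum_le_sum_abs _ _).trans (Finset.sum_le_sum fun k _ => ?_)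
        exact (Finset.abs_sum_le_sum_abs _ _).trans (Finset.sum_le_sum fun l _ => h3 i j k l)
    _ = 324 * Lam ^ 2 * (F * V) := by
        simp only [Finset.sum_const, Finset.card_univ, Fintype.card_fin, nsmul_eq_mul]
        push_cast
        ring

end UMB.W
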