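import Pool.Agent.Lib.UMB.W.B3
import Pool.Agent.Lib.UMB.W.B4

/-! # UMB.W chunk B5: sign and size of the boundary flux -/

set_option autoImplicit false

open Filter Topology Set MeasureTheory
open scoped ContDiff BigOperators
open Pool.Agent.Lib.PenroseSph (E3 Tens pd)
open UMB.Lin (Ann cAnn sig)

namespace UMB.W

theorem b5_snd {w : E3 → ℝ} (hw : ContDiff ℝ 2 w) (x : E3) (i j : Fin 3) :
    D2 w x i j = fderiv ℝ (fderiv ℝ w) x (EuclideanSpace.single i 1) (EuclideanSpace.single j 1) := by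
  have hd : DifferentiableAt ℝ (fderiv ℝ w) x :=
    ((hw.fderiv_right (m := 1) (by norm_num)).differentiable (by norm_num)) x
  have h1 : HasFDerivAt (fun y => fderiv ℝ w y (EuclideanSpace.single j 1))
      ((ContinuousLinearMap.apply ℝ ℝ (EuclideanSpace.single j (1 : ℝ))).comp
        (fderiv ℝ (fderiv ℝ w) x)) x :=
    (ContinuousLinearMap.apply ℝ ℝ (EuclideanSpace.single j (1 : ℝ))).hasFDerivAt.comp x
      hd.hasFDerivAt
  change fderiv ℝ (fun y => fderiv ℝ w y (EuclideanSpace.single j 1)) x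
    (EuclideanSpace.single i 1) = _
  rw [h1.fderiv]
  rfl

theorem b5_symm {w : E3 → ℝ} (hw : ContDiff ℝ 2 w) (x : E3) (i j : Fin 3) :
    D2 w x i j = D2 w x j i := by
  rw [b5_snd hw, b5_snd hw]
  exact (hw.contDiffAt.isSymmSndFDerivAt (by simp)) _ _

theorem b5_cs {G : Matrix (Fin 3) (Fin 3) ℝ} (hs : ∀ i j, G i j = G j i)
    (hp : ∀ u : Fin 3 → ℝ, 0 ≤ q1 G u) (q u : Fin 3 → ℝ) :
    (∑ i, ∑ j, G i j * q j * u i) ^ 2 ≤ q1 G q * q1 G u := by
  have h1 : ∀ t : ℝ, 0 ≤ q1 G q * (t * t) + (-2 * ∑ i, ∑ j, G i j * q j * u i) * t + q1 G u := by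
    intro t
    have h2 := hp (fun i => u i - t * q i)
    have h3 : q1 G (fun i => u i - t * q i) =
        q1 G q * (t * t) + (-2 * ∑ i, ∑ j, G i j * q j * u i) * t + q1 G u := by
      simp only [q1, Fin.sum_univ_three, hs 1 0, hs 2 0, hs 2 1]
      ring
    rw [h3] at h2
    exact h2
  have h4 := discrim_le_zero h1
  unfold discrim at h4
  linarith

/-- **B5a.** For a positive semidefinite `S`: `|Sx|² ≤ tr S · x·Sx`. Proof: `|Sx|² = S(x, Sx) ≤ S(x,x)^{1/2} S(Sx,Sx)^{1/2}`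
and `S(y,y) ≤ tr S |y|²` (Cauchy-Schwarz `S_ij² ≤ S_ii S_jj`). Or `S = L Lᵀ`. -/
theorem psd_sq {S : Matrix (Fin 3) (Fin 3) ℝ} (hs : ∀ i j, S i j = S j i) (hp : ∀ u : Fin 3 → ℝ, 0 ≤ q1 S u)
    (x : Fin 3 → ℝ) : ∑ i, (∑ j, S i j * x j) ^ 2 ≤ (∑ i, ∑ j, S i j * x i * x j) * (∑ k, S k k) := by
  have h1 : ∀ m : Fin 3, (∑ j, S m j * x j) ^ 2 ≤ q1 S x * S m m := by
    intro m
    have h2 := b5_cs hs hp x (Pi.single m 1)
    have h3 : ∑ i, ∑ j, S i j * x j * (Pi.single m (1 : ℝ) : Fin 3 → ℝ) i = ∑ j, S m j * x j := by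
      rw [Finset.sum_eq_single m]
      · simp
      · intro b _ hb
        simp [Pi.single_eq_of_ne hb]
      · intro h
        exact absurd (Finset.mem_univ m) h
    have h4 : q1 S (Pi.single m 1) = S m m := by
      unfold q1
      rw [Finset.sum_eq_single m]
      · rw [Finset.sum_eq_single m]
        · simp
        · intro b _ hb
          simp [Pi.single_eq_of_ne hb]
        · intro h
          exact absurd (Finset.mem_univ m) h
      · intro b _ hb
        simp [Pi.single_eq_of_ne hb]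
      · intro h
        exact absurd (Finset.mem_univ m) h
    rw [h3, h4] at h2
    exact h2
  calc ∑ i, (∑ j, S i j * x j) ^ 2 ≤ ∑ i, q1 S x * S i i := Finset.sum_le_sum fun i _ => h1 i
    _ = _ := by
      rw [← Finset.mul_sum]
      rfl

/-- **B5b.** If `w` is constant on `|x| = ρ`, `1 ≤ ρ ≤ R`, the flux of `V` is `≤ 0` and `≥ - 27 Lam² |dw|²`.
B3, B4 (with `u = D1 w x`, `B = D2 w x`, symmetric), `(x·u)² ≤ ρ² |u|²`, `x·Sx ≤ 9 Lam ρ²`, `tr S ≤ 3 Lam`. -/
theorem flux_VV {R lam Lam : ℝ} {S : Tens} (hS : Fld R lam Lam S) {w : E3 → ℝ} (hw : ContDiff ℝ 2 w) {ρ c : ℝ}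
    (h1 : 1 ≤ ρ) (h2 : ρ ≤ R) (h : ∀ y : E3, ‖y‖ = ρ → w y = c) {x : E3} (hx : ‖x‖ = ρ) :
    ∑ i, VV S w i x * x i ≤ 0 ∧ - (27 * Lam ^ 2 * vsq (D1 w x)) ≤ ∑ i, VV S w i x * x i := by
  have hρ : 0 < ρ := by linarith
  have hmem : x ∈ cAnn R := ⟨by rw [hx]; exact h1, by rw [hx]; exact h2⟩
  have hx2 : ∑ i, x i ^ 2 = ρ ^ 2 := by
    rw [← hx, EuclideanSpace.norm_sq_eq]
    simp
  have hsymm := hS.symm x
  have hpos : ∀ u : Fin 3 → ℝ, 0 ≤ q1 (S x) u := by
    intro u
    have h3 := hS.ell x hmem u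
    have h4 : 0 ≤ vsq u := Finset.sum_nonneg fun i _ => sq_nonneg _
    have h5 := hS.lam_pos
    nlinarith [mul_nonneg h5.le h4]
  have key := flux_alg (x := fun i => x i) hρ hx2 (u := D1 w x) (B := D2 w x) (S := S x)
    (b5_symm hw x) hsymm (bdry1 (hw.of_le (by norm_num)) h hx) (bdry2 hw h hx)
  have key' : ∑ i, VV S w i x * x i = - ((∑ i, x i * D1 w x i) ^ 2 / ρ ^ 4)
        * ((∑ i, ∑ j, S x i j * x i * x j) * (∑ k, S x k k) - ∑ i, (∑ j, S x i j * x j) ^ 2) := key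
  have hpsd := psd_sq hsymm hpos (fun i => x i)
  have hsx0 : 0 ≤ ∑ i, (∑ j, S x i j * x j) ^ 2 := Finset.sum_nonneg fun i _ => sq_nonneg _
  set P : ℝ := ∑ i, ∑ j, S x i j * x i * x j with hP
  set T : ℝ := ∑ k, S x k k with hT
  set Q : ℝ := ∑ i, (∑ j, S x i j * x j) ^ 2 with hQ
  have hP0 : 0 ≤ P := hpos (fun i => x i)
  have hLam : 0 ≤ Lam := (abs_nonneg _).trans (hS.bd x hmem 0 0)
  have hPle : P ≤ 9 * Lam * ρ ^ 2 := by
    have hij : ∀ i j : Fin 3, S x i j * x i * x j ≤ Lam * ρ ^ 2 := by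
      intro i j
      have hxi : ∀ m : Fin 3, |x m| ≤ ρ := by
        intro m
        rw [← hx, ← Real.norm_eq_abs]
        exact PiLp.norm_apply_le x m
      calc S x i j * x i * x j ≤ |S x i j * x i * x j| := le_abs_self _
        _ = |S x i j| * |x i| * |x j| := by rw [abs_mul, abs_mul]
        _ ≤ Lam * ρ * ρ := by
            gcongr
            · exact hS.bd x hmem i j
            · exact hxi i
            · exact hxi j
        _ = Lam * ρ ^ 2 := by ring
    have : P ≤ ∑ i : Fin 3, ∑ j : Fin 3, Lam * ρ ^ 2 :=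
      Finset.sum_le_sum fun i _ => Finset.sum_le_sum fun j _ => hij i j
    simp only [Finset.sum_const, Finset.card_univ, Fintype.card_fin, nsmul_eq_mul] at this
    push_cast at this
    linarith
  have hTle : T ≤ 3 * Lam := by
    have : T ≤ ∑ i : Fin 3, Lam :=
      Finset.sum_le_sum fun i _ => (le_abs_self _).trans (hS.bd x hmem i i)
    simp only [Finset.sum_const, Finset.card_univ, Fintype.card_fin, nsmul_eq_mul] at this
    push_cast at this
    linarith
  have hT0 : 0 ≤ T := by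
    by_contra hcon
    push Not at hcon
    have h6 := hpsd
    have hdiag : ∀ m : Fin 3, 0 ≤ S x m m := by
      intro m
      have h7 := hpos (Pi.single m 1)
      have h8 : q1 (S x) (Pi.single m 1) = S x m m := by
        unfold q1
        rw [Finset.sum_eq_single m]
        · rw [Finset.sum_eq_single m]
          · simp
          · intro b _ hb
            simp [Pi.single_eq_of_ne hb]
          · intro h
            exact absurd (Finset.mem_univ m) h
        · intro b _ hb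
          simp [Pi.single_eq_of_ne hb]
        · intro h
          exact absurd (Finset.mem_univ m) h
      rw [h8] at h7
      exact h7
    have : 0 ≤ T := Finset.sum_nonneg fun m _ => hdiag m
    linarith
  have hxu : (∑ i, x i * D1 w x i) ^ 2 ≤ ρ ^ 2 * vsq (D1 w x) := by
    have h9 := Finset.sum_mul_sq_le_sq_mul_sq Finset.univ (fun i => x i) (D1 w x)
    rw [hx2] at h9
    exact h9
  have hxu0 : 0 ≤ (∑ i, x i * D1 w x i) ^ 2 / ρ ^ 4 := by positivity
  rw [key']
  constructor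
  · have : 0 ≤ P * T - Q := by linarith
    nlinarith [mul_nonneg hxu0 this]
  · have h10 : P * T - Q ≤ 27 * Lam ^ 2 * ρ ^ 2 := by
      have h11 : P * T ≤ (9 * Lam * ρ ^ 2) * (3 * Lam) :=
        mul_le_mul hPle hTle hT0 (by positivity)
      nlinarith
    have h12 : (∑ i, x i * D1 w x i) ^ 2 / ρ ^ 4 ≤ vsq (D1 w x) / ρ ^ 2 := by
      rw [div_le_div_iff₀ (by positivity) (by positivity)]
      calc (∑ i, x i * D1 w x i) ^ 2 * ρ ^ 2 ≤ (ρ ^ 2 * vsq (D1 w x)) * ρ ^ 2 :=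
            mul_le_mul_of_nonneg_right hxu (by positivity)
        _ = vsq (D1 w x) * ρ ^ 4 := by ring
    have hv0 : 0 ≤ vsq (D1 w x) := Finset.sum_nonneg fun i _ => sq_nonneg _
    have h13 : 0 ≤ P * T - Q := by linarith
    have h14 : (∑ i, x i * D1 w x i) ^ 2 / ρ ^ 4 * (P * T - Q) ≤
        (vsq (D1 w x) / ρ ^ 2) * (27 * Lam ^ 2 * ρ ^ 2) :=
      mul_le_mul h12 h10 h13 (by positivity)
    have h15 : (vsq (D1 w x) / ρ ^ 2) * (27 * Lam ^ 2 * ρ ^ 2) = 27 * Lam ^ 2 * vsq (D1 w x) := by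
      field_simp
    linarith

end UMB.W
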