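import Pool.Agent.Lib.UMB.W.B5
import Pool.Agent.Lib.UMB.Lin.G4

/-! # UMB.W chunk B6: the integrated divergence -/

set_option autoImplicit false

open Filter Topology Set MeasureTheory
open scoped ContDiff BigOperators
open Pool.Agent.Lib.PenroseSph (E3 Tens pd)
open UMB.Lin (Ann cAnn sig)

namespace UMB.W

theorem b6_smooth {R lam Lam : ℝ} {S : Tens} (hS : Fld R lam Lam S) {w : E3 → ℝ} (hw : ContDiff ℝ ∞ w) (i : Fin 3) :
    ContDiff ℝ ∞ (VV S w i) := by
  unfold VV
  apply ContDiff.sum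
  intro j _
  apply ContDiff.sum
  intro k _
  apply ContDiff.sum
  intro l _
  have hD1 : ∀ a, ContDiff ℝ ∞ (fun x => D1 w x a) := fun a => UMB.Lin.contDiff_pd a hw
  have hD2 : ∀ a b, ContDiff ℝ ∞ (fun x => D2 w x a b) := fun a b =>
    UMB.Lin.contDiff_pd a (UMB.Lin.contDiff_pd b hw)
  exact ((hS.smooth i j).mul (hS.smooth k l)).mul (((hD2 j k).mul (hD1 l)).sub ((hD2 k l).mul (hD1 j)))

theorem b6_int {f : Metric.sphere (0 : E3) 1 → ℝ} (hf : Continuous f) : Integrable f sig :=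
  hf.integrable_of_hasCompactSupport (HasCompactSupport.of_compactSpace f)

theorem b6_coord (i : Fin 3) : Continuous (fun n : Metric.sphere (0 : E3) 1 => (n : E3) i) := by
  fun_prop

theorem b6_c2 {f : E3 → ℝ} (hf : Continuous f) (i : Fin 3) :
    Continuous (fun n : Metric.sphere (0 : E3) 1 => f (n : E3) * (n : E3) i) :=
  (hf.comp continuous_subtype_val).mul (b6_coord i)

theorem b6_c1 (R : ℝ) {f : E3 → ℝ} (hf : Continuous f) (i : Fin 3) :
    Continuous (fun n : Metric.sphere (0 : E3) 1 => f (R • (n : E3)) * (n : E3) i) :=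
  (hf.comp (continuous_subtype_val.const_smul R)).mul (b6_coord i)

/-- **B6.** `UMB.Lin.int_pd` for each component (`VV S w i` is smooth), the flux through `|x| = R` is `≤ 0`, the flux
through `|x| = 1` is `≥ - 27 Lam² |dw|²` (B5b). -/
theorem int_div_le {R lam Lam : ℝ} (hR : 1 < R) {S : Tens} (hS : Fld R lam Lam S) {w : E3 → ℝ} (hw : Cls R w) :
    ∫ x in Ann R, ∑ i, pd i (VV S w i) x
      ≤ 27 * Lam ^ 2 * ∫ n : Metric.sphere (0 : E3) 1, vsq (D1 w (n : E3)) ∂sig := by
  have hsm : ∀ i, ContDiff ℝ ∞ (VV S w i) := fun i => b6_smooth hS hw.smooth i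
  have hw2 : ContDiff ℝ 2 w := by exact_mod_cast contDiff_infty.1 hw.smooth 2
  have hn1 : ∀ n : Metric.sphere (0 : E3) 1, ‖(n : E3)‖ = 1 := fun n => by simp
  rw [integral_finsetSum _ (fun i _ => UMB.Lin.integrableOn_Ann (UMB.Lin.contDiff_pd i (hsm i)).continuous)]
  have h1 : ∀ i, ∫ x in Ann R, pd i (VV S w i) x
      = R ^ 2 * (∫ n : Metric.sphere (0 : E3) 1, VV S w i (R • (n : E3)) * (n : E3) i ∂sig)
        - ∫ n : Metric.sphere (0 : E3) 1, VV S w i (n : E3) * (n : E3) i ∂sig := fun i =>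
    UMB.Lin.int_pd hR i (by exact_mod_cast contDiff_infty.1 (hsm i) 1)
  have hc1 : ∀ i : Fin 3, Continuous (fun n : Metric.sphere (0 : E3) 1 => VV S w i (R • (n : E3)) * (n : E3) i) := fun i =>
    b6_c1 R (hsm i).continuous i
  have hc2 : ∀ i : Fin 3, Continuous (fun n : Metric.sphere (0 : E3) 1 => VV S w i (n : E3) * (n : E3) i) := fun i =>
    b6_c2 (hsm i).continuous i
  have hcv : Continuous (fun n : Metric.sphere (0 : E3) 1 => vsq (D1 w (n : E3))) := by
    unfold vsq D1
    apply continuous_finsetSum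
    intro i _
    exact ((UMB.Lin.contDiff_pd i hw.smooth).continuous.comp continuous_subtype_val).pow 2
  have e : ∑ i, ∫ x in Ann R, pd i (VV S w i) x
      = R ^ 2 * (∫ n : Metric.sphere (0 : E3) 1, ∑ i, VV S w i (R • (n : E3)) * (n : E3) i ∂sig)
        - ∫ n : Metric.sphere (0 : E3) 1, ∑ i, VV S w i (n : E3) * (n : E3) i ∂sig := by
    rw [integral_finsetSum _ (fun i _ => b6_int (hc1 i)), integral_finsetSum _ (fun i _ => b6_int (hc2 i)),
      Finset.mul_sum, ← Finset.sum_sub_distrib]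
    exact Finset.sum_congr rfl (fun i _ => h1 i)
  rw [e]
  have hA : (∫ n : Metric.sphere (0 : E3) 1, ∑ i, VV S w i (R • (n : E3)) * (n : E3) i ∂sig) ≤ 0 := by
    apply integral_nonpos
    intro n
    have hx : ‖R • (n : E3)‖ = R := by rw [norm_smul, hn1, mul_one, Real.norm_of_nonneg (by linarith)]
    have := (flux_VV hS hw2 hR.le le_rfl hw.zero hx).1
    have h2 : ∑ i, VV S w i (R • (n : E3)) * (R • (n : E3)) i
        = R * ∑ i, VV S w i (R • (n : E3)) * (n : E3) i := by
      rw [Finset.mul_sum]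
      apply Finset.sum_congr rfl
      intro i _
      simp
      ring
    rw [h2] at this
    have hR0 : 0 < R := by linarith
    show ∑ i, VV S w i (R • (n : E3)) * (n : E3) i ≤ 0
    by_contra hcon
    rw [not_le] at hcon
    have := mul_pos hR0 hcon
    linarith
  have hB : - (∫ n : Metric.sphere (0 : E3) 1, ∑ i, VV S w i (n : E3) * (n : E3) i ∂sig)
      ≤ 27 * Lam ^ 2 * ∫ n : Metric.sphere (0 : E3) 1, vsq (D1 w (n : E3)) ∂sig := by
    rw [← integral_neg, ← integral_const_mul]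
    apply integral_mono
    · exact (b6_int (continuous_finsetSum _ (fun i _ => hc2 i))).neg
    · exact (b6_int hcv).const_mul _
    · intro n
      have := (flux_VV hS hw2 le_rfl hR.le hw.one (hn1 n)).2
      show - (∑ i, VV S w i (n : E3) * (n : E3) i) ≤ 27 * Lam ^ 2 * vsq (D1 w (n : E3))
      linarith
  have hR2 : 0 ≤ R ^ 2 := sq_nonneg R
  nlinarith [mul_nonneg hR2 (neg_nonneg.mpr hA)]

end UMB.W
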