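import Pool.Agent.Lib.UMB.W.A5
import Pool.Agent.Lib.UMB.W.EDefs

/-! # UMB.W chunk F0: the metric of the operator as a global field -/

set_option autoImplicit false

open Filter Topology Set MeasureTheory
open scoped ContDiff BigOperators
open Pool.Agent.Lib.PenroseSph (E3 Tens pd)
open UMB.Lin (Ann cAnn sig)

namespace UMB.W

/-- **F0a.** A function smooth on `{a < |x|}`, `a < 1`, agrees on `{1 ≤ |x|}` (and near it) with a globally smooth function:
multiply with a smooth cutoff which is `1` for `|x| ≥ b` and `0` for `|x| ≤ b'`, `a < b' < b < 1` (`a ≥ 0`; e.g.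
`Real.smoothTransition` of `|x|²`, or `ContDiffBump`). -/
theorem exists_glob {a : ℝ} (h0 : 0 ≤ a) (h1 : a < 1) {f : E3 → ℝ} (hf : ContDiffOn ℝ ∞ f {x : E3 | a < ‖x‖}) :
    ∃ (g : E3 → ℝ) (b : ℝ), ContDiff ℝ ∞ g ∧ a < b ∧ b < 1 ∧ ∀ x : E3, b ≤ ‖x‖ → g x = f x := by
  obtain ⟨b', hb1, hb2⟩ := exists_between h1
  obtain ⟨b, hb3, hb4⟩ := exists_between hb2
  have hb'0 : 0 ≤ b' := by linarith
  have hd : 0 < b ^ 2 - b' ^ 2 := by nlinarith
  set χ : E3 → ℝ := fun x => Real.smoothTransition ((‖x‖ ^ 2 - b' ^ 2) / (b ^ 2 - b' ^ 2)) with hχ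
  have hχs : ContDiff ℝ ∞ χ := by
    apply Real.smoothTransition.contDiff.comp
    exact ((contDiff_norm_sq ℝ).sub contDiff_const).div_const _
  refine ⟨fun x => χ x * f x, b, ?_, by linarith, hb4, ?_⟩
  · rw [contDiff_iff_contDiffAt]
    intro x
    by_cases hx : a < ‖x‖
    · have hopen : IsOpen {x : E3 | a < ‖x‖} := isOpen_lt continuous_const continuous_norm
      exact hχs.contDiffAt.mul (hf.contDiffAt (hopen.mem_nhds hx))
    · have hx' : ‖x‖ < b' := by push Not at hx; linarith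
      have hev : (fun x => χ x * f x) =ᶠ[𝓝 x] fun _ => 0 := by
        have hopen : IsOpen {x : E3 | ‖x‖ < b'} := isOpen_lt continuous_norm continuous_const
        filter_upwards [hopen.mem_nhds hx'] with y hy
        have hy' : ‖y‖ < b' := hy
        have : χ y = 0 := by
          apply Real.smoothTransition.zero_of_nonpos
          apply div_nonpos_of_nonpos_of_nonneg _ hd.le
          have := norm_nonneg y
          nlinarith
        rw [this, zero_mul]
      exact contDiffAt_const.congr_of_eventuallyEq hev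
  · intro x hx
    have : χ x = 1 := by
      apply Real.smoothTransition.one_of_one_le
      rw [le_div_iff₀ hd]
      have : b ^ 2 ≤ ‖x‖ ^ 2 := pow_le_pow_left₀ (by linarith) hx 2
      linarith
    show χ x * f x = f x
    rw [this, one_mul]

/-- **F0b.** Apply F0a to the components, A5 for the constants. -/
theorem exists_metric {D : OpData} (hD : D.Ok) : ∃ (S : Tens) (lam Lam : ℝ), 0 ≤ Lam ∧ Fld D.R lam Lam S ∧
    ∀ x ∈ cAnn D.R, S x = D.G x := by
  choose g b hg hab hb1 hgf using fun i j => exists_glob hD.a_nonneg hD.a_lt (hD.G_smooth i j)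
  set S : Tens := fun x => fun i j => (g i j x + g j i x) / 2 with hS
  have hSG : ∀ x ∈ cAnn D.R, S x = D.G x := by
    intro x hx
    ext i j
    have hx1 : 1 ≤ ‖x‖ := hx.1
    have e1 := hgf i j x (by linarith [hb1 i j])
    have e2 := hgf j i x (by linarith [hb1 j i])
    have e3 : D.G x j i = D.G x i j := (hD.G_symm x (by linarith [hD.a_lt])).apply i j
    show (g i j x + g j i x) / 2 = D.G x i j
    rw [e1, e2, e3]
    ring
  have hs : ∀ i j, ContDiff ℝ ∞ fun x => S x i j := fun i j => ((hg i j).add (hg j i)).div_const 2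
  obtain ⟨lam, Lam, hL, hF⟩ := exists_fld D.R (S := S) hs (fun x i j => by
    show (g i j x + g j i x) / 2 = (g j i x + g i j x) / 2
    ring) (fun x hx u hu => by
      rw [hSG x hx]
      have hx1 : 1 ≤ ‖x‖ := hx.1
      exact hD.G_pos x (by linarith [hD.a_lt]) u hu)
  exact ⟨S, lam, Lam, hL, hF, hSG⟩

theorem f0_bound {ι : Type*} [Fintype ι] (R : ℝ) {f : ι → E3 → ℝ} (hf : ∀ i, ContinuousOn (f i) (cAnn R)) :
    ∃ B : ℝ, 0 ≤ B ∧ ∀ x ∈ cAnn R, ∀ i, |f i x| ≤ B := by
  choose C hC using fun i => (a5_compact R).exists_bound_of_continuousOn (hf i)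
  refine ⟨∑ i, |C i|, Finset.sum_nonneg fun _ _ => abs_nonneg _, fun x hx i => ?_⟩
  refine ((hC i x hx).trans (le_abs_self _)).trans ?_
  exact Finset.single_le_sum (f := fun i => |C i|) (fun _ _ => abs_nonneg _) (Finset.mem_univ i)

/-- **F0c.** Bound of the tensors on the closed annulus. -/
theorem exists_bd {D : OpData} (hD : D.Ok) : ∃ B : ℝ, 0 ≤ B ∧ ∀ x ∈ cAnn D.R,
    (∀ i j, |D.G x i j| ≤ B) ∧ (∀ i j, |D.k x i j| ≤ B) ∧ ∀ i j l, |D.Gam i x j l| ≤ B := by
  have hsub : cAnn D.R ⊆ {x : E3 | D.a < ‖x‖} := fun x hx => lt_of_lt_of_le hD.a_lt hx.1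
  obtain ⟨B1, h1, h1'⟩ := f0_bound D.R (f := fun (p : Fin 3 × Fin 3) x => D.G x p.1 p.2)
    fun p => (hD.G_smooth p.1 p.2).continuousOn.mono hsub
  obtain ⟨B2, h2, h2'⟩ := f0_bound D.R (f := fun (p : Fin 3 × Fin 3) x => D.k x p.1 p.2)
    fun p => (hD.k_smooth p.1 p.2).continuousOn.mono hsub
  obtain ⟨B3, h3, h3'⟩ := f0_bound D.R (f := fun (p : Fin 3 × Fin 3 × Fin 3) x => D.Gam p.1 x p.2.1 p.2.2)
    fun p => (hD.Gam_smooth p.1 p.2.1 p.2.2).continuousOn.mono hsub
  refine ⟨B1 + B2 + B3, by positivity, fun x hx => ⟨fun i j => ?_, fun i j => ?_, fun i j l => ?_⟩⟩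
  · have := h1' x hx (i, j)
    simp only at this
    linarith
  · have := h2' x hx (i, j)
    simp only at this
    linarith
  · have := h3' x hx (i, j, l)
    simp only at this
    linarith

end UMB.W
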