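import Pool.Agent.Lib.UMB.W.F0
import Pool.Agent.Lib.UMB.W.A3
import Pool.Agent.Lib.UMB.W.A4

/-! # UMB.W chunk F1U: bounds of the coefficients, uniform also in the tensor k -/

set_option autoImplicit false

open Filter Topology Set MeasureTheory
open scoped ContDiff BigOperators
open Pool.Agent.Lib.PenroseSph (E3 Tens pd)
open UMB.Lin (Ann cAnn sig)

namespace UMB.W

/-- Change of the tensor and of the small parameters. -/
def OpData.updk (D : OpData) (k : Tens) (eps d : ℝ) (eta : E3 → ℝ) : OpData :=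
  { D with k := k, eps := eps, d := d, eta := eta }

theorem f1u_tr2 {S T : Matrix (Fin 3) (Fin 3) ℝ} {a b : ℝ} (ha : 0 ≤ a) (hS : ∀ i j, |S i j| ≤ a)
    (hT : ∀ i j, |T i j| ≤ b) : |tr2 S T| ≤ 9 * (a * b) := by
  have h : ∀ i j, |S i j * T i j| ≤ a * b := fun i j => by
    rw [abs_mul]
    exact mul_le_mul (hS i j) (hT i j) (abs_nonneg _) ha
  unfold tr2
  have h1 : ∀ i, |∑ j, S i j * T i j| ≤ 3 * (a * b) := fun i => by
    refine (Finset.abs_sum_le_sum_abs _ _).trans ?_
    rw [Fin.sum_univ_three]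
    linarith [h i 0, h i 1, h i 2]
  refine (Finset.abs_sum_le_sum_abs _ _).trans ?_
  rw [Fin.sum_univ_three]
  linarith [h1 0, h1 1, h1 2]

/-- **F1U.** As F1 (`coeff_bd` in F1.lean), the constant depends on the bound `K` of `k` only. -/
theorem coeff_bdU {D : OpData} (hD : D.Ok) (K : ℝ) : ∃ B : ℝ, 0 ≤ B ∧ ∀ (k : Tens) (eps d : ℝ) (eta : E3 → ℝ),
    (∀ x ∈ cAnn D.R, ∀ i j, |k x i j| ≤ K) → (OpData.updk D k eps d eta).Ok →
    ∀ v : E3 → ℝ, ∀ x ∈ cAnn D.R, (∀ i j, |(OpData.updk D k eps d eta).aa v x i j| ≤ B) ∧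
      (∀ i, |(OpData.updk D k eps d eta).bb v x i| ≤ B) ∧ (∀ i, |(OpData.updk D k eps d eta).nn v x i| ≤ B) ∧
      |tr2 ((OpData.updk D k eps d eta).aa v x) (k x)| ≤ B := by
  obtain ⟨B, hB, hBd⟩ := exists_bd hD
  obtain ⟨N, hN⟩ : ∃ N : ℝ, N = B + 1 := ⟨_, rfl⟩
  have hN0 : 0 ≤ N := by linarith
  obtain ⟨A, hA⟩ : ∃ A : ℝ, A = B + N * N := ⟨_, rfl⟩
  have hA0 : 0 ≤ A := by rw [hA]; positivity
  obtain ⟨L, hL⟩ : ∃ L : ℝ, L = max K 0 := ⟨_, rfl⟩
  have hL0 : 0 ≤ L := by rw [hL]; exact le_max_right _ _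
  have hKL : K ≤ L := by rw [hL]; exact le_max_left _ _
  refine ⟨A + 9 * (A * B) + 9 * (A * L) + 9 * (A * L) * N + N, by positivity, fun k eps d eta hkb hok v x hx => ?_⟩
  obtain ⟨hG, _, hGam⟩ := hBd x hx
  have hk : ∀ i j, |k x i j| ≤ L := fun i j => (hkb x hx i j).trans hKL
  have hxa : (OpData.updk D k eps d eta).a < ‖x‖ := hok.a_lt.trans_le hx.1
  have hn : ∀ i, |(OpData.updk D k eps d eta).nn v x i| ≤ N := by
    intro i
    have h1 := nn_le hok v hxa (Pi.single i 1)
    have h2 : ∑ j, (OpData.updk D k eps d eta).nn v x j * (Pi.single i 1 : Fin 3 → ℝ) j =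
        (OpData.updk D k eps d eta).nn v x i := by
      simp [Pi.single_apply]
    have h3 : q1 ((OpData.updk D k eps d eta).G x) (Pi.single i 1) = D.G x i i := by
      simp [q1, Pi.single_apply, OpData.updk]
    rw [h2, h3] at h1
    have h4 : D.G x i i ≤ B := (le_abs_self _).trans (hG i i)
    rw [hN]
    nlinarith [sq_abs ((OpData.updk D k eps d eta).nn v x i),
      abs_nonneg ((OpData.updk D k eps d eta).nn v x i)]
  have ha : ∀ i j, |(OpData.updk D k eps d eta).aa v x i j| ≤ A := by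
    intro i j
    have h5 : (OpData.updk D k eps d eta).aa v x i j = D.G x i j +
        (D.p ((OpData.updk D k eps d eta).vd v x) - 2) * (OpData.updk D k eps d eta).nn v x i *
          (OpData.updk D k eps d eta).nn v x j := rfl
    have h6 : |D.p ((OpData.updk D k eps d eta).vd v x) - 2| ≤ 1 := by
      rw [abs_le]
      constructor <;> linarith [hD.p_ge ((OpData.updk D k eps d eta).vd v x), hD.one_lt_p0,
        hD.p_le ((OpData.updk D k eps d eta).vd v x)]
    rw [h5, hA]
    refine (abs_add_le _ _).trans (add_le_add (hG i j) ?_)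
    rw [abs_mul, abs_mul]
    calc |D.p ((OpData.updk D k eps d eta).vd v x) - 2| * |(OpData.updk D k eps d eta).nn v x i| *
          |(OpData.updk D k eps d eta).nn v x j| ≤ 1 * N * N := by
          gcongr
          · exact hn i
          · exact hn j
      _ = N * N := by ring
  have ht : |tr2 ((OpData.updk D k eps d eta).aa v x) (k x)| ≤ 9 * (A * L) := f1u_tr2 hA0 ha hk
  have hAB : 0 ≤ 9 * (A * B) := by positivity
  have hAL : 0 ≤ 9 * (A * L) := by positivity
  have hALN : 0 ≤ 9 * (A * L) * N := by positivity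
  refine ⟨fun i j => (ha i j).trans (by linarith), fun i => ?_, fun i => (hn i).trans (by linarith),
    ht.trans (by linarith)⟩
  have h7 : (OpData.updk D k eps d eta).bb v x i =
      - tr2 ((OpData.updk D k eps d eta).aa v x) (D.Gam i x) +
        tr2 ((OpData.updk D k eps d eta).aa v x) (k x) * (OpData.updk D k eps d eta).nn v x i := rfl
  rw [h7]
  refine (abs_add_le _ _).trans ?_
  rw [abs_neg, abs_mul]
  have h8 : |tr2 ((OpData.updk D k eps d eta).aa v x) (D.Gam i x)| ≤ 9 * (A * B) :=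
    f1u_tr2 hA0 ha (hGam i)
  have h9 : |tr2 ((OpData.updk D k eps d eta).aa v x) (k x)| *
      |(OpData.updk D k eps d eta).nn v x i| ≤ 9 * (A * L) * N :=
    mul_le_mul ht (hn i) (abs_nonneg _) hAL
  linarith

end UMB.W
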