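import Pool.Agent.Lib.UMB.W.Defs

/-! # UMB.W chunk M3: Jensen and Fubini for mollifications -/

set_option autoImplicit false

open Filter Topology Set MeasureTheory
open scoped ContDiff BigOperators
open Pool.Agent.Lib.PenroseSph (E3 Tens pd)
open UMB.Lin (Ann cAnn sig)

namespace UMB.W

/-- Jensen for the probability density `η` and a bounded measurable function. -/
theorem m3_jensen {η : E3 → ℝ} (hc : Continuous η) (hi : Integrable η) (h0 : ∀ x, 0 ≤ η x) (h1 : ∫ x : E3, η x = 1)
    {φ : E3 → ℝ} (hφ : Measurable φ) {M : ℝ} (hM : ∀ x, |φ x| ≤ M) :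
    (∫ x : E3, φ x * η x) ^ 2 ≤ ∫ x : E3, φ x ^ 2 * η x := by
  have i1 : Integrable (fun x : E3 => φ x * η x) := by
    refine Integrable.mono' (hi.const_mul M) (hφ.mul hc.measurable).aestronglyMeasurable
      (Eventually.of_forall fun x => ?_)
    rw [Real.norm_eq_abs, abs_mul, abs_of_nonneg (h0 x)]
    exact mul_le_mul_of_nonneg_right (hM x) (h0 x)
  have i2 : Integrable (fun x : E3 => φ x ^ 2 * η x) := by
    refine Integrable.mono' (hi.const_mul (M ^ 2)) ((hφ.pow_const 2).mul hc.measurable).aestronglyMeasurable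
      (Eventually.of_forall fun x => ?_)
    rw [Real.norm_eq_abs, abs_mul, abs_of_nonneg (h0 x)]
    refine mul_le_mul_of_nonneg_right ?_ (h0 x)
    rw [abs_of_nonneg (sq_nonneg _), ← sq_abs]
    exact pow_le_pow_left₀ (abs_nonneg _) (hM x) 2
  set m : ℝ := ∫ x : E3, φ x * η x with hm
  have e : ∫ x : E3, (φ x - m) ^ 2 * η x = (∫ x : E3, φ x ^ 2 * η x) - m ^ 2 := by
    have e1 : ∀ x : E3, (φ x - m) ^ 2 * η x = φ x ^ 2 * η x - (2 * m) * (φ x * η x) + m ^ 2 * η x := by
      intro x; ring
    simp_rw [e1]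
    have i3 : Integrable (fun x : E3 => φ x ^ 2 * η x - 2 * m * (φ x * η x)) := i2.sub (i1.const_mul _)
    rw [integral_add i3 (hi.const_mul _), integral_sub i2 (i1.const_mul _),
      integral_const_mul, integral_const_mul, h1, ← hm]
    ring
  have e0 : 0 ≤ ∫ x : E3, (φ x - m) ^ 2 * η x :=
    integral_nonneg fun x => mul_nonneg (sq_nonneg _) (h0 x)
  linarith

/-- **M3.** `g` measurable and bounded, vanishing outside a bounded set, `η` a mollifier of radius `d`. If for every
`|h| < d` `∫_{Ann R} (g(x-h) - F x)² dx ≤ K`, then `∫_{Ann R} ((∫ g(y) η(x-y) dy) - F x)² dx ≤ K`.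
Proof: `∫ g(y) η(x-y) dy - F x = ∫ (g(x-h) - F x) η(h) dh` (`integral_sub_left_eq_self`, `∫ η = 1`), Jensen / Cauchy-Schwarz:
its square is `≤ ∫ (g(x-h) - F x)² η(h) dh`, then Fubini (everything bounded, finite measures). -/
theorem moll_fubini {R d K : ℝ} (hd : 0 < d) {η : E3 → ℝ} (hη : Mol d η) {g F : E3 → ℝ} (hg : Measurable g)
    {Mg : ℝ} (hgb : ∀ x, |g x| ≤ Mg) (hgs : ∃ r : ℝ, ∀ x : E3, r ≤ ‖x‖ → g x = 0) (hF : Continuous F) (hK : 0 ≤ K)
    (h : ∀ y : E3, ‖y‖ < d → ∫ x in Ann R, (g (x - y) - F x) ^ 2 ≤ K) :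
    ∫ x in Ann R, ((∫ y, g y * η (x - y)) - F x) ^ 2 ≤ K := by
  have ηc : Continuous η := hη.smooth.continuous
  have ηi : Integrable η := by
    refine ηc.integrable_of_hasCompactSupport ?_
    refine HasCompactSupport.of_support_subset_isCompact (isCompact_closedBall (0 : E3) d) ?_
    intro x hx
    rw [mem_closedBall_zero_iff]
    by_contra hc
    exact hx (hη.supp x (not_le.1 hc).le)
  have annM : MeasurableSet (Ann R) := by
    have h1 : MeasurableSet {x : E3 | 1 < ‖x‖} := (isOpen_lt continuous_const continuous_norm).measurableSet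
    have h2 : MeasurableSet {x : E3 | ‖x‖ < R} := (isOpen_lt continuous_norm continuous_const).measurableSet
    exact h1.inter h2
  have annB : Ann R ⊆ Metric.closedBall (0 : E3) R := fun x hx => by
    rw [mem_closedBall_zero_iff]; exact hx.2.le
  have annF : volume (Ann R) < ⊤ :=
    lt_of_le_of_lt (measure_mono annB) (isCompact_closedBall (0 : E3) R).measure_lt_top
  have : IsFiniteMeasure (volume.restrict (Ann R)) := ⟨by rwa [Measure.restrict_apply_univ]⟩
  obtain ⟨MF, hMF⟩ : ∃ MF : ℝ, ∀ x ∈ Ann R, |F x| ≤ MF := by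
    obtain ⟨C, hC⟩ := (isCompact_closedBall (0 : E3) R).exists_bound_of_continuousOn hF.continuousOn
    exact ⟨C, fun x hx => by simpa using hC x (annB hx)⟩
  have hΦm : Measurable (fun p : E3 × E3 => (g (p.1 - p.2) - F p.1) ^ 2 * η p.2) := by
    have m1 : Measurable (fun p : E3 × E3 => g (p.1 - p.2)) := hg.comp (measurable_fst.sub measurable_snd)
    have m2 : Measurable (fun p : E3 × E3 => F p.1) := hF.measurable.comp measurable_fst
    have m3 : Measurable (fun p : E3 × E3 => η p.2) := ηc.measurable.comp measurable_snd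
    exact ((m1.sub m2).pow_const 2).mul m3
  have hbd : ∀ x ∈ Ann R, ∀ y : E3, (g (x - y) - F x) ^ 2 ≤ (Mg + MF) ^ 2 := by
    intro x hx y
    have h1 : |g (x - y) - F x| ≤ Mg + MF := (abs_sub _ _).trans (add_le_add (hgb _) (hMF x hx))
    rw [← sq_abs]
    exact pow_le_pow_left₀ (abs_nonneg _) h1 2
  have hae : ∀ᵐ x ∂(volume.restrict (Ann R)), x ∈ Ann R := ae_restrict_mem annM
  have hΦi : Integrable (fun p : E3 × E3 => (g (p.1 - p.2) - F p.1) ^ 2 * η p.2)
      ((volume.restrict (Ann R)).prod volume) := by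
    refine Integrable.mono' ((ηi.comp_snd (volume.restrict (Ann R))).const_mul ((Mg + MF) ^ 2))
      hΦm.aestronglyMeasurable ?_
    have hae2 : ∀ᵐ p ∂((volume.restrict (Ann R)).prod (volume : Measure E3)), p.1 ∈ Ann R :=
      Measure.quasiMeasurePreserving_fst.ae hae
    filter_upwards [hae2] with p hp
    rw [Real.norm_eq_abs, abs_mul, abs_of_nonneg (hη.nonneg _), abs_of_nonneg (sq_nonneg _)]
    exact mul_le_mul_of_nonneg_right (hbd p.1 hp p.2) (hη.nonneg _)
  have hpt : ∀ x ∈ Ann R, ((∫ y, g y * η (x - y)) - F x) ^ 2 ≤ ∫ y, (g (x - y) - F x) ^ 2 * η y := by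
    intro x hx
    have e1 : ∫ y, g y * η (x - y) = ∫ y, g (x - y) * η y := by
      have := integral_sub_left_eq_self (fun y : E3 => g (x - y) * η y) volume x
      rw [← this]
      refine integral_congr_ae (Eventually.of_forall fun y => ?_)
      simp
    have i1 : Integrable (fun y : E3 => g (x - y) * η y) := by
      refine Integrable.mono' (ηi.const_mul Mg)
        ((hg.comp (measurable_const.sub measurable_id)).mul ηc.measurable).aestronglyMeasurable
        (Eventually.of_forall fun y => ?_)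
      rw [Real.norm_eq_abs, abs_mul, abs_of_nonneg (hη.nonneg y)]
      exact mul_le_mul_of_nonneg_right (hgb _) (hη.nonneg y)
    have e2 : (∫ y, g y * η (x - y)) - F x = ∫ y, (g (x - y) - F x) * η y := by
      have e3 : ∀ y : E3, (g (x - y) - F x) * η y = g (x - y) * η y - F x * η y := fun y => by ring
      simp_rw [e3]
      rw [integral_sub i1 (ηi.const_mul _), integral_const_mul, hη.int, e1, mul_one]
    rw [e2]
    refine m3_jensen ηc ηi hη.nonneg hη.int (φ := fun y => g (x - y) - F x) (M := Mg + MF)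
      ((hg.comp (measurable_const.sub measurable_id)).sub measurable_const) ?_
    intro y
    exact (abs_sub _ _).trans (add_le_add (hgb _) (hMF x hx))
  calc ∫ x in Ann R, ((∫ y, g y * η (x - y)) - F x) ^ 2
      ≤ ∫ x in Ann R, ∫ y, (g (x - y) - F x) ^ 2 * η y := by
        refine integral_mono_of_nonneg (Eventually.of_forall fun x => sq_nonneg _) hΦi.integral_prod_left ?_
        filter_upwards [hae] with x hx
        exact hpt x hx
    _ = ∫ y, ∫ x in Ann R, (g (x - y) - F x) ^ 2 * η y := by
        exact integral_integral_swap (f := fun x y => (g (x - y) - F x) ^ 2 * η y) hΦi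
    _ ≤ ∫ y, K * η y := by
        refine integral_mono_of_nonneg (Eventually.of_forall fun y => ?_) (ηi.const_mul K)
          (Eventually.of_forall fun y => ?_)
        · exact integral_nonneg fun x => mul_nonneg (sq_nonneg _) (hη.nonneg y)
        · show ∫ x in Ann R, (g (x - y) - F x) ^ 2 * η y ≤ K * η y
          rw [integral_mul_const]
          by_cases hy : ‖y‖ < d
          · exact mul_le_mul_of_nonneg_right (h y hy) (hη.nonneg y)
          · rw [hη.supp y (not_lt.1 hy), mul_zero, mul_zero]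
    _ = K := by rw [integral_const_mul, hη.int, mul_one]

end UMB.W
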