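import Pool.Agent.Lib.UMB.W.Defs

/-! # UMB.W chunk M4: translations of a function cut off to the annulus -/

set_option autoImplicit false

open Filter Topology Set MeasureTheory
open scoped ContDiff BigOperators
open Pool.Agent.Lib.PenroseSph (E3 Tens pd)
open UMB.Lin (Ann cAnn sig)

namespace UMB.W

/-- Jensen on `[0,1]` for continuous functions. -/
theorem m4a_jensen {φ : ℝ → ℝ} (hφ : Continuous φ) :
    (∫ t in (0:ℝ)..1, φ t) ^ 2 ≤ ∫ t in (0:ℝ)..1, φ t ^ 2 := by
  set m : ℝ := ∫ t in (0:ℝ)..1, φ t with hm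
  have i1 : IntervalIntegrable φ volume 0 1 := hφ.intervalIntegrable 0 1
  have i2 : IntervalIntegrable (fun t => φ t ^ 2) volume 0 1 := (hφ.pow 2).intervalIntegrable 0 1
  have i3 : IntervalIntegrable (fun t => φ t ^ 2 - 2 * m * φ t) volume 0 1 := i2.sub (i1.const_mul _)
  have e : ∫ t in (0:ℝ)..1, (φ t - m) ^ 2 = (∫ t in (0:ℝ)..1, φ t ^ 2) - m ^ 2 := by
    have e1 : ∀ t : ℝ, (φ t - m) ^ 2 = φ t ^ 2 - 2 * m * φ t + m ^ 2 := by
      intro t; ring
    simp_rw [e1]
    rw [intervalIntegral.integral_add i3 intervalIntegrable_const, intervalIntegral.integral_sub i2 (i1.const_mul _),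
      intervalIntegral.integral_const_mul, intervalIntegral.integral_const, ← hm]
    simp
    ring
  have e0 : 0 ≤ ∫ t in (0:ℝ)..1, (φ t - m) ^ 2 :=
    intervalIntegral.integral_nonneg zero_le_one fun t _ => sq_nonneg _
  linarith

/-- The derivative in the direction `h` against the coordinate gradient. -/
theorem m4a_dir (F : E3 → ℝ) (y h : E3) : (fderiv ℝ F y h) ^ 2 ≤ ‖h‖ ^ 2 * vsq (D1 F y) := by
  have hh : h = ∑ i, h i • (EuclideanSpace.single i 1 : E3) := by
    ext j
    simp [Finset.sum_apply, Pi.single_apply]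
  have e : fderiv ℝ F y h = ∑ i, h i * D1 F y i := by
    conv_lhs => rw [hh]
    rw [map_sum]
    refine Finset.sum_congr rfl fun i _ => ?_
    rw [map_smul, smul_eq_mul]
    rfl
  have n : ‖h‖ ^ 2 = ∑ i, h i ^ 2 := by
    rw [EuclideanSpace.norm_sq_eq]
    exact Finset.sum_congr rfl fun i _ => by rw [Real.norm_eq_abs, sq_abs]
  rw [e, n, vsq]
  exact Finset.sum_mul_sq_le_sq_mul_sq _ _ _

/-- Continuity of the square of the gradient. -/
theorem m4a_cont {F : E3 → ℝ} (hF : ContDiff ℝ 1 F) : Continuous fun x => vsq (D1 F x) := by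
  have h := hF.continuous_fderiv one_ne_zero
  unfold vsq D1 pd
  exact continuous_finsetSum _ fun i _ => (h.clm_apply continuous_const).pow 2

/-- **M4a.** Interior part: if `|h| < d` and `x ∈ Ann R`, `1 + d ≤ |x| ≤ R - d`, the segment from `x` to `x - h` is in
`Ann R`: `(F(x-h) - F x)² ≤ |h|² ∫_0^1 vsq (D1 F (x - t h)) dt`; Fubini and translation invariance. -/
theorem trans_int {R d : ℝ} (hR : 1 < R) (hd : 0 < d) {F : E3 → ℝ} (hF : ContDiff ℝ 1 F) {h : E3} (hh : ‖h‖ < d) :
    ∫ x in {x : E3 | x ∈ Ann R ∧ 1 + d ≤ ‖x‖ ∧ ‖x‖ ≤ R - d}, (F (x - h) - F x) ^ 2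
      ≤ d ^ 2 * ∫ x in Ann R, vsq (D1 F x) := by
  set S : Set E3 := {x : E3 | x ∈ Ann R ∧ 1 + d ≤ ‖x‖ ∧ ‖x‖ ≤ R - d} with hS
  have annM : MeasurableSet (Ann R) := by
    have h1 : MeasurableSet {x : E3 | 1 < ‖x‖} := (isOpen_lt continuous_const continuous_norm).measurableSet
    have h2 : MeasurableSet {x : E3 | ‖x‖ < R} := (isOpen_lt continuous_norm continuous_const).measurableSet
    exact h1.inter h2
  have SM : MeasurableSet S := by
    have h1 : MeasurableSet {x : E3 | 1 + d ≤ ‖x‖} := (isClosed_le continuous_const continuous_norm).measurableSet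
    have h2 : MeasurableSet {x : E3 | ‖x‖ ≤ R - d} := (isClosed_le continuous_norm continuous_const).measurableSet
    exact annM.inter (h1.inter h2)
  have annB : Ann R ⊆ Metric.closedBall (0 : E3) R := fun x hx => by
    rw [mem_closedBall_zero_iff]; exact hx.2.le
  have SB : S ⊆ Metric.closedBall (0 : E3) R := fun x hx => annB hx.1
  have Gc : Continuous fun x => vsq (D1 F x) := m4a_cont hF
  have G0 : ∀ x, 0 ≤ vsq (D1 F x) := fun x => Finset.sum_nonneg fun i _ => sq_nonneg _
  -- pointwise inequality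
  have hpt : ∀ x : E3, (F (x - h) - F x) ^ 2 ≤ d ^ 2 * ∫ t in Ioc (0:ℝ) 1, vsq (D1 F (x - t • h)) := by
    intro x
    have hline : Continuous fun t : ℝ => x - t • h := continuous_const.sub (continuous_id.smul continuous_const)
    have hder : ∀ t : ℝ, HasDerivAt (fun t : ℝ => F (x - t • h)) (fderiv ℝ F (x - t • h) (-h)) t := by
      intro t
      have h1 : HasDerivAt (fun t : ℝ => x - t • h) (-h) t := by
        have := ((hasDerivAt_id t).smul_const h).const_sub x
        simpa using this
      exact ((hF.differentiable one_ne_zero (x - t • h)).hasFDerivAt).comp_hasDerivAt t h1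
    have hc : Continuous fun t : ℝ => fderiv ℝ F (x - t • h) (-h) :=
      (((hF.continuous_fderiv one_ne_zero)).comp hline).clm_apply continuous_const
    have ftc : ∫ t in (0:ℝ)..1, fderiv ℝ F (x - t • h) (-h) = F (x - h) - F x := by
      rw [intervalIntegral.integral_eq_sub_of_hasDerivAt (fun t _ => hder t) (hc.intervalIntegrable 0 1)]
      simp
    rw [← ftc]
    refine (m4a_jensen hc).trans ?_
    rw [← intervalIntegral.integral_of_le (zero_le_one' ℝ), ← intervalIntegral.integral_const_mul]
    refine intervalIntegral.integral_mono_on zero_le_one ((hc.pow 2).intervalIntegrable 0 1)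
      (((Gc.comp hline).const_mul (d ^ 2)).intervalIntegrable 0 1) fun t _ => ?_
    refine (m4a_dir F (x - t • h) (-h)).trans ?_
    refine mul_le_mul_of_nonneg_right ?_ (G0 _)
    rw [norm_neg]
    exact pow_le_pow_left₀ (norm_nonneg _) hh.le 2
  -- translated integrals
  have Gi : IntegrableOn (fun x => vsq (D1 F x)) (Ann R) :=
    (Gc.continuousOn.integrableOn_compact (isCompact_closedBall (0 : E3) R)).mono_set annB
  have htr : ∀ t ∈ Ioc (0:ℝ) 1, ∫ x in S, vsq (D1 F (x - t • h)) ≤ ∫ x in Ann R, vsq (D1 F x) := by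
    intro t ht
    rw [← integral_indicator SM, ← integral_indicator annM,
      ← integral_sub_right_eq_self ((Ann R).indicator fun x => vsq (D1 F x)) (t • h)]
    have hi : Integrable ((Ann R).indicator fun x => vsq (D1 F x)) := (integrable_indicator_iff annM).2 Gi
    refine integral_mono_of_nonneg (Eventually.of_forall fun x => ?_) (hi.comp_sub_right (t • h))
      (Eventually.of_forall fun x => ?_)
    · exact indicator_nonneg (fun x _ => G0 _) x
    · by_cases hx : x ∈ S
      · have hn : ‖t • h‖ < d := by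
          rw [norm_smul, Real.norm_eq_abs, abs_of_pos ht.1]
          calc t * ‖h‖ ≤ 1 * ‖h‖ := mul_le_mul_of_nonneg_right ht.2 (norm_nonneg _)
            _ < d := by rw [one_mul]; exact hh
        have hx' : x - t • h ∈ Ann R := by
          have h1 : ‖x‖ - ‖t • h‖ ≤ ‖x - t • h‖ := norm_sub_norm_le _ _
          have h2 : ‖x - t • h‖ ≤ ‖x‖ + ‖t • h‖ := norm_sub_le _ _
          have h3 := hx.2.1
          have h4 := hx.2.2
          exact ⟨by linarith, by linarith⟩
        show S.indicator (fun x => vsq (D1 F (x - t • h))) x ≤ (Ann R).indicator (fun x => vsq (D1 F x)) (x - t • h)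
        rw [indicator_of_mem hx, indicator_of_mem hx']
      · show S.indicator (fun x => vsq (D1 F (x - t • h))) x ≤ (Ann R).indicator (fun x => vsq (D1 F x)) (x - t • h)
        rw [indicator_of_notMem hx]
        exact indicator_nonneg (fun x _ => G0 _) _
  -- Fubini
  have Pi : Integrable (fun p : E3 × ℝ => vsq (D1 F (p.1 - p.2 • h)))
      ((volume.restrict S).prod (volume.restrict (Ioc (0:ℝ) 1))) := by
    have hcont : Continuous (fun p : E3 × ℝ => vsq (D1 F (p.1 - p.2 • h))) :=
      Gc.comp (continuous_fst.sub (continuous_snd.smul continuous_const))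
    have h1 : IntegrableOn (fun p : E3 × ℝ => vsq (D1 F (p.1 - p.2 • h)))
        (Metric.closedBall (0 : E3) R ×ˢ Icc (0:ℝ) 1) (volume.prod volume) :=
      hcont.continuousOn.integrableOn_compact ((isCompact_closedBall (0 : E3) R).prod isCompact_Icc)
    have h2 := h1.mono_set (prod_mono SB (Ioc_subset_Icc_self (a := (0:ℝ)) (b := 1)))
    rw [IntegrableOn, ← Measure.prod_restrict] at h2
    exact h2
  calc ∫ x in S, (F (x - h) - F x) ^ 2
      ≤ ∫ x in S, d ^ 2 * ∫ t in Ioc (0:ℝ) 1, vsq (D1 F (x - t • h)) := by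
        refine integral_mono_of_nonneg (Eventually.of_forall fun x => sq_nonneg _)
          (Pi.integral_prod_left.const_mul (d ^ 2)) (Eventually.of_forall fun x => hpt x)
    _ = d ^ 2 * ∫ t in Ioc (0:ℝ) 1, ∫ x in S, vsq (D1 F (x - t • h)) := by
        rw [integral_const_mul]
        congr 1
        exact integral_integral_swap (f := fun x t => vsq (D1 F (x - t • h))) Pi
    _ ≤ d ^ 2 * ∫ t in Ioc (0:ℝ) 1, (∫ x in Ann R, vsq (D1 F x)) := by
        refine mul_le_mul_of_nonneg_left ?_ (sq_nonneg d)
        refine integral_mono_ae Pi.integral_prod_right (integrableOn_const (by simp)) ?_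
        filter_upwards [ae_restrict_mem measurableSet_Ioc] with t ht
        exact htr t ht
    _ = d ^ 2 * ∫ x in Ann R, vsq (D1 F x) := by
        rw [setIntegral_const]
        simp

end UMB.W
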