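import Pool.Agent.Lib.UMB.W.T2
import Pool.Agent.Lib.UMB.W.M4

/-! # UMB.W chunk M4B: translations of a function cut off to the annulus -/

set_option autoImplicit false

open Filter Topology Set MeasureTheory
open scoped ContDiff BigOperators
open Pool.Agent.Lib.PenroseSph (E3 Tens pd)
open UMB.Lin (Ann cAnn sig)

namespace UMB.W

/-- The interior part of the annulus. -/
def m4bInt (R d : ℝ) : Set E3 := {x : E3 | x ∈ Ann R ∧ 1 + d ≤ ‖x‖ ∧ ‖x‖ ≤ R - d}

theorem m4b_measInt (R d : ℝ) : MeasurableSet (m4bInt R d) := by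
  have h1 : MeasurableSet {x : E3 | 1 + d ≤ ‖x‖} := measurableSet_le measurable_const measurable_norm
  have h2 : MeasurableSet {x : E3 | ‖x‖ ≤ R - d} := measurableSet_le measurable_norm measurable_const
  have h3 : m4bInt R d = Ann R ∩ ({x : E3 | 1 + d ≤ ‖x‖} ∩ {x : E3 | ‖x‖ ≤ R - d}) := rfl
  rw [h3]
  exact (UMB.Lin.measurableSet_Ann R).inter (h1.inter h2)

theorem m4b_measLay (R d : ℝ) : MeasurableSet (Lay R d) := by
  have h1 : MeasurableSet {x : E3 | ‖x‖ < 1 + d} := measurableSet_lt measurable_norm measurable_const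
  have h2 : MeasurableSet {x : E3 | R - d < ‖x‖} := measurableSet_lt measurable_const measurable_norm
  have h3 : Lay R d = Ann R ∩ ({x : E3 | ‖x‖ < 1 + d} ∪ {x : E3 | R - d < ‖x‖}) := rfl
  rw [h3]
  exact (UMB.Lin.measurableSet_Ann R).inter (h1.union h2)

theorem m4b_union (R d : ℝ) : Ann R = m4bInt R d ∪ Lay R d := by
  ext x
  constructor
  · intro hx
    by_cases h : 1 + d ≤ ‖x‖ ∧ ‖x‖ ≤ R - d
    · exact Or.inl ⟨hx, h.1, h.2⟩
    · refine Or.inr ⟨hx, ?_⟩
      by_contra h'
      push Not at h'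
      exact h ⟨h'.1, h'.2⟩
  · rintro (h | h)
    · exact h.1
    · exact h.1

theorem m4b_disj (R d : ℝ) : Disjoint (m4bInt R d) (Lay R d) := by
  rw [Set.disjoint_left]
  intro x hx hx'
  rcases hx'.2 with h | h
  · exact absurd h (not_lt.mpr hx.2.1)
  · exact absurd h (not_lt.mpr hx.2.2)

/-- Points of the interior part stay in the annulus. -/
theorem m4b_mem {R d : ℝ} {x h : E3} (hx : x ∈ m4bInt R d) (hh : ‖h‖ < d) : x - h ∈ Ann R := by
  constructor
  · have h1 := norm_sub_norm_le x h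
    linarith [hx.2.1]
  · have h1 := norm_sub_le x h
    linarith [hx.2.2]

/-- Splitting of the integral over the annulus. -/
theorem m4b_split {R d : ℝ} {G : E3 → ℝ} (hG : IntegrableOn G (Ann R)) :
    ∫ x in Ann R, G x = (∫ x in m4bInt R d, G x) + ∫ x in Lay R d, G x := by
  have h1 : ∫ x in Ann R, G x = ∫ x in m4bInt R d ∪ Lay R d, G x := by
    rw [← m4b_union]
  rw [h1]
  rw [m4b_union R d] at hG
  exact setIntegral_union (m4b_disj R d) (m4b_measLay R d) (hG.mono_set subset_union_left)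
    (hG.mono_set subset_union_right)

/-- Integrability of the square of the difference. -/
theorem m4b_int {R : ℝ} {g F : E3 → ℝ} (hg : Measurable g) {M : ℝ} (hgb : ∀ x, |g x| ≤ M) (hF : Continuous F)
    (h : E3) : IntegrableOn (fun x => (g (x - h) - F x) ^ 2) (Ann R) := by
  obtain ⟨N, hN⟩ := (UMB.Lin.isCompact_cAnn R).exists_bound_of_continuousOn hF.continuousOn
  have hm : Measurable fun x => (g (x - h) - F x) ^ 2 :=
    ((hg.comp (measurable_id.sub_const h)).sub hF.measurable).pow_const 2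
  refine Measure.integrableOn_of_bounded (M := (M + N) ^ 2) (UMB.Lin.volume_Ann_lt_top R).ne
    hm.aestronglyMeasurable ?_
  filter_upwards [ae_restrict_mem (UMB.Lin.measurableSet_Ann R)] with x hx
  rw [Real.norm_eq_abs, abs_pow]
  have h1 := hN x (UMB.Lin.Ann_subset R hx)
  rw [Real.norm_eq_abs] at h1
  have h2 : |g (x - h) - F x| ≤ M + N := (abs_sub _ _).trans (add_le_add (hgb _) h1)
  exact pow_le_pow_left₀ (abs_nonneg _) h2 2

theorem m4b_vsq_nonneg (u : Fin 3 → ℝ) : 0 ≤ vsq u := Finset.sum_nonneg fun _ _ => sq_nonneg _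

theorem m4b_vsq_cont {F : E3 → ℝ} (hF : ContDiff ℝ 1 F) : Continuous fun x => vsq (D1 F x) := by
  have h1 : Continuous (fderiv ℝ F) := hF.continuous_fderiv (by norm_num)
  unfold vsq D1 pd
  refine continuous_finsetSum _ fun i _ => ?_
  exact (h1.clm_apply continuous_const).pow 2

/-- Gradient of the square. -/
theorem m4b_sq {F : E3 → ℝ} (hF : ContDiff ℝ 1 F) (x : E3) :
    Real.sqrt (vsq (D1 (fun y => F y ^ 2) x)) ≤ F x ^ 2 + vsq (D1 F x) := by
  have hd : DifferentiableAt ℝ F x := (hF.differentiable (by norm_num)) x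
  have h1 : ∀ i, D1 (fun y => F y ^ 2) x i = 2 * F x * D1 F x i := by
    intro i
    unfold D1 pd
    have h2 : fderiv ℝ (fun y => F y ^ 2) x = (2 * F x) • fderiv ℝ F x := by
      rw [fderiv_fun_pow 2 hd]
      simp
    rw [h2]
    simp [smul_eq_mul]
  have h3 : vsq (D1 (fun y => F y ^ 2) x) = (2 * F x) ^ 2 * vsq (D1 F x) := by
    unfold vsq
    rw [Finset.mul_sum]
    refine Finset.sum_congr rfl fun i _ => ?_
    rw [h1 i]
    ring
  rw [h3]
  have h4 := m4b_vsq_nonneg (D1 F x)
  apply Real.sqrt_le_iff.mpr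
  constructor
  · positivity
  · nlinarith [sq_nonneg (F x ^ 2 - vsq (D1 F x))]

/-- **M4b.** `g = 1_Ann F`. On `Lay R d` use `(a-b)² ≤ 2a² + 2b²`; if `x` is in `Lay R d` and `x - h ∈ Ann R` then
`x - h ∈ Lay R (2d)` (translation invariance of the integral of `1_{Lay R (2d)} F²`). Then `layer_le` for `F²`
(`√vsq (D1 F²) = 2|F|√vsq ≤ F² + vsq`). For `d > 1` the estimate is also true (all `d > 0`, `C` depends on `R`): then
`∫ (g(x-h) - F)² ≤ 4 ∫ F²`. -/
theorem trans_all {R : ℝ} (hR : 1 < R) : ∃ C : ℝ, 0 ≤ C ∧ ∀ F : E3 → ℝ, ContDiff ℝ 1 F → ∀ d : ℝ, 0 < d →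
    ∀ h : E3, ‖h‖ < d → ∫ x in Ann R, ((Ann R).indicator F (x - h) - F x) ^ 2
      ≤ C * (d + d ^ 2) * ∫ x in Ann R, (F x ^ 2 + vsq (D1 F x)) := by
  obtain ⟨C0, hC0, hlay⟩ := layer_le hR
  refine ⟨12 * C0 + 1, by positivity, ?_⟩
  intro F hF d hd h hh
  set g : E3 → ℝ := (Ann R).indicator F with hgdef
  have hmA := UMB.Lin.measurableSet_Ann R
  have hgm : Measurable g := hF.continuous.measurable.indicator hmA
  obtain ⟨N, hN⟩ := (UMB.Lin.isCompact_cAnn R).exists_bound_of_continuousOn hF.continuous.continuousOn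
  have hgb : ∀ x, |g x| ≤ |N| := by
    intro x
    by_cases hx : x ∈ Ann R
    · rw [hgdef, indicator_of_mem hx]
      have h1 := hN x (UMB.Lin.Ann_subset R hx)
      rw [Real.norm_eq_abs] at h1
      exact h1.trans (le_abs_self _)
    · rw [hgdef, indicator_of_notMem hx]
      simp
  have hF2c : Continuous fun x => F x ^ 2 := hF.continuous.pow 2
  have hF2 : ContDiff ℝ 1 fun x => F x ^ 2 := hF.pow 2
  have hVc := m4b_vsq_cont hF
  have hIF := UMB.Lin.integrableOn_Ann (R := R) hF2c
  have hIV := UMB.Lin.integrableOn_Ann (R := R) hVc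
  set I := ∫ x in Ann R, (F x ^ 2 + vsq (D1 F x)) with hI
  have hI0 : 0 ≤ I := setIntegral_nonneg hmA fun x _ => add_nonneg (sq_nonneg _) (m4b_vsq_nonneg _)
  have hV : ∫ x in Ann R, vsq (D1 F x) ≤ I := by
    rw [hI]
    exact setIntegral_mono hIV (hIF.add hIV) fun x => by
      have := sq_nonneg (F x)
      show vsq (D1 F x) ≤ F x ^ 2 + vsq (D1 F x)
      linarith
  have hlayF : ∀ s : ℝ, 0 < s → ∫ x in Lay R s, F x ^ 2 ≤ 2 * C0 * s * I := by
    intro s hs
    have h1 := hlay _ hF2 s hs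
    have h2 : ∫ x in Lay R s, F x ^ 2 = ∫ x in Lay R s, |F x ^ 2| := by
      apply integral_congr_ae
      exact Eventually.of_forall fun x => (abs_of_nonneg (sq_nonneg (F x))).symm
    have h3 : ∫ x in Ann R, (|F x ^ 2| + Real.sqrt (vsq (D1 (fun y => F y ^ 2) x))) ≤ 2 * I := by
      rw [hI, ← integral_const_mul]
      apply setIntegral_mono
      · exact UMB.Lin.integrableOn_Ann
          (hF2c.abs.add (Real.continuous_sqrt.comp (m4b_vsq_cont hF2)))
      · exact (hIF.add hIV).const_mul 2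
      · intro x
        have h4 := m4b_sq hF x
        have h5 := abs_of_nonneg (sq_nonneg (F x))
        have h6 := m4b_vsq_nonneg (D1 F x)
        show |F x ^ 2| + Real.sqrt (vsq (D1 (fun y => F y ^ 2) x)) ≤ 2 * (F x ^ 2 + vsq (D1 F x))
        linarith
    rw [h2]
    calc _ ≤ C0 * s * ∫ x in Ann R, (|F x ^ 2| + Real.sqrt (vsq (D1 (fun y => F y ^ 2) x))) := h1
      _ ≤ C0 * s * (2 * I) := mul_le_mul_of_nonneg_left h3 (by positivity)
      _ = 2 * C0 * s * I := by ring
  have hint := m4b_int (R := R) hgm hgb hF.continuous h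
  rw [m4b_split (d := d) hint]
  have hA : ∫ x in m4bInt R d, (g (x - h) - F x) ^ 2 ≤ d ^ 2 * I := by
    have h1 : ∫ x in m4bInt R d, (g (x - h) - F x) ^ 2 = ∫ x in m4bInt R d, (F (x - h) - F x) ^ 2 := by
      apply setIntegral_congr_fun (m4b_measInt R d)
      intro x hx
      show (g (x - h) - F x) ^ 2 = (F (x - h) - F x) ^ 2
      rw [hgdef, indicator_of_mem (m4b_mem hx hh)]
    rw [h1]
    exact (trans_int hR hd hF hh).trans (mul_le_mul_of_nonneg_left hV (sq_nonneg d))
  have hsub : Lay R d ⊆ Ann R := fun x hx => hx.1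
  -- the translated function on the layer
  set L : E3 → ℝ := (Lay R (2 * d)).indicator fun x => F x ^ 2 with hL
  have hLint : Integrable L := by
    rw [hL, integrable_indicator_iff (m4b_measLay R _)]
    exact hIF.mono_set fun x hx => hx.1
  have hLnn : ∀ x, 0 ≤ L x := fun x => indicator_nonneg (fun x _ => sq_nonneg (F x)) x
  have hgL : ∀ x ∈ Lay R d, g (x - h) ^ 2 ≤ L (x - h) := by
    intro x hx
    by_cases hxh : x - h ∈ Ann R
    · have h1 : x - h ∈ Lay R (2 * d) := by
        refine ⟨hxh, ?_⟩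
        rcases hx.2 with h2 | h2
        · left
          have := norm_sub_le x h
          linarith
        · right
          have := norm_sub_norm_le x h
          linarith
      rw [hgdef, hL, indicator_of_mem hxh, indicator_of_mem h1]
    · rw [hgdef, indicator_of_notMem hxh]
      simpa using hLnn (x - h)
  have hB : ∫ x in Lay R d, (g (x - h) - F x) ^ 2 ≤ 12 * C0 * d * I := by
    have hLh : Integrable fun x => L (x - h) := hLint.comp_sub_right h
    have h1 : ∫ x in Lay R d, (g (x - h) - F x) ^ 2 ≤ ∫ x in Lay R d, (2 * L (x - h) + 2 * F x ^ 2) := by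
      apply setIntegral_mono_on (hint.mono_set hsub)
      · exact ((hLh.integrableOn).const_mul 2).add ((hIF.mono_set hsub).const_mul 2)
      · exact m4b_measLay R d
      · intro x hx
        have h2 := hgL x hx
        nlinarith [sq_nonneg (g (x - h) + F x)]
    have h2 : ∫ x in Lay R d, (2 * L (x - h) + 2 * F x ^ 2)
        = 2 * (∫ x in Lay R d, L (x - h)) + 2 * ∫ x in Lay R d, F x ^ 2 := by
      rw [integral_add ((hLh.integrableOn).const_mul 2) ((hIF.mono_set hsub).const_mul 2),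
        integral_const_mul, integral_const_mul]
    have h3 : ∫ x in Lay R d, L (x - h) ≤ ∫ x, L (x - h) :=
      setIntegral_le_integral hLh (Eventually.of_forall fun x => hLnn _)
    have h4 : ∫ x, L (x - h) = ∫ x in Lay R (2 * d), F x ^ 2 := by
      rw [integral_sub_right_eq_self L h, hL, integral_indicator (m4b_measLay R _)]
    have h5 := hlayF (2 * d) (by positivity)
    have h6 := hlayF d hd
    calc _ ≤ 2 * (∫ x in Lay R d, L (x - h)) + 2 * ∫ x in Lay R d, F x ^ 2 := h1.trans h2.le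
      _ ≤ 2 * (2 * C0 * (2 * d) * I) + 2 * (2 * C0 * d * I) := by
          rw [h4] at h3
          linarith
      _ = 12 * C0 * d * I := by ring
  have hp1 : 0 ≤ C0 * d ^ 2 * I := by positivity
  have hp2 : 0 ≤ d * I := by positivity
  calc _ ≤ d ^ 2 * I + 12 * C0 * d * I := add_le_add hA hB
    _ ≤ (12 * C0 + 1) * (d + d ^ 2) * I := by nlinarith

end UMB.W
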