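import Pool.Agent.Lib.UMB.W.M2
import Pool.Agent.Lib.UMB.W.M3
import Pool.Agent.Lib.UMB.W.M4B

/-! # UMB.W chunk M5: the gradient error -/

set_option autoImplicit false

open Filter Topology Set MeasureTheory
open scoped ContDiff BigOperators
open Pool.Agent.Lib.PenroseSph (E3 Tens pd)
open UMB.Lin (Ann cAnn sig)

namespace UMB.W

private theorem m5_contDiff_pd (i : Fin 3) {v : E3 → ℝ} (hv : ContDiff ℝ ∞ v) :
    ContDiff ℝ ∞ (pd i v) := by
  have h : ContDiff ℝ ∞ (fderiv ℝ v) := hv.fderiv_right (m := ∞) (by norm_cast)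
  exact h.clm_apply contDiff_const

private theorem m5_int {R d Mg : ℝ} {η : E3 → ℝ} (hη : Mol d η) {g F : E3 → ℝ} (hg : Measurable g)
    (hgb : ∀ x, |g x| ≤ Mg) (hF : Continuous F) :
    IntegrableOn (fun x => ((∫ y, g y * η (x - y)) - F x) ^ 2) (Ann R) := by
  have hηi : Integrable η := integrable_of_integral_eq_one hη.int
  have hηm : Measurable η := hη.smooth.continuous.measurable
  have hm : StronglyMeasurable (fun x : E3 => ∫ y, g y * η (x - y)) := by
    apply StronglyMeasurable.integral_prod_right (f := fun x y : E3 => g y * η (x - y))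
    apply Measurable.stronglyMeasurable
    exact (hg.comp measurable_snd).mul (hηm.comp (measurable_fst.sub measurable_snd))
  have hb : ∀ x : E3, |∫ y, g y * η (x - y)| ≤ Mg := by
    intro x
    have h1 : ‖∫ y, g y * η (x - y)‖ ≤ ∫ y, Mg * η (x - y) := by
      apply norm_integral_le_of_norm_le
      · exact (hηi.comp_sub_left x).const_mul Mg
      · refine Filter.Eventually.of_forall fun y => ?_
        rw [Real.norm_eq_abs, abs_mul, abs_of_nonneg (hη.nonneg _)]
        exact mul_le_mul_of_nonneg_right (hgb y) (hη.nonneg _)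
    have h2 : ∫ y, Mg * η (x - y) = Mg := by
      rw [integral_const_mul, integral_sub_left_eq_self η volume x, hη.int, mul_one]
    rw [h2, Real.norm_eq_abs] at h1
    exact h1
  obtain ⟨MF, hMF⟩ := (UMB.Lin.isCompact_cAnn R).exists_bound_of_continuousOn
    (hF.continuousOn (s := cAnn R))
  refine Measure.integrableOn_of_bounded (M := (Mg + MF) ^ 2) (UMB.Lin.volume_Ann_lt_top R).ne
    ((hm.sub hF.stronglyMeasurable).pow 2).aestronglyMeasurable ?_
  refine (ae_restrict_iff' (UMB.Lin.measurableSet_Ann R)).2 (Filter.Eventually.of_forall ?_)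
  intro x hx
  have h3 : |F x| ≤ MF := hMF x (UMB.Lin.Ann_subset R hx)
  have h4 : |(∫ y, g y * η (x - y)) - F x| ≤ Mg + MF := by
    have h5 := abs_sub (∫ y, g y * η (x - y)) (F x)
    have h6 := hb x
    linarith
  have h7 : ‖((∫ y, g y * η (x - y)) - F x) ^ 2‖ = |(∫ y, g y * η (x - y)) - F x| ^ 2 := by
    rw [norm_pow, Real.norm_eq_abs]
  show ‖((∫ y, g y * η (x - y)) - F x) ^ 2‖ ≤ (Mg + MF) ^ 2
  rw [h7]
  exact pow_le_pow_left₀ (abs_nonneg _) h4 2

/-- **M5.** For each component `F = pd i w`: M2, M3 (with `g = 1_Ann pd i w`), M4b; `vsq (D1 (pd i w))` summed over `i` is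
`fsq (D2 w)`. -/
theorem qd_err {R : ℝ} (hR : 1 < R) : ∃ C : ℝ, 0 ≤ C ∧ ∀ (d : ℝ) (η w : E3 → ℝ), 0 < d → d ≤ 1 → Mol d η → Cls R w →
    ∫ x in Ann R, ∑ i, ((∫ y, ext R w y * pd i η (x - y)) - pd i w x) ^ 2
      ≤ C * d * ∫ x in Ann R, (vsq (D1 w x) + fsq (D2 w x)) := by
  obtain ⟨C0, hC0, hT⟩ := trans_all hR
  refine ⟨2 * C0, by positivity, ?_⟩
  intro d η w hd hd1 hη hw
  have hsm : ∀ i, ContDiff ℝ ∞ (pd i w) := fun i => m5_contDiff_pd i hw.smooth
  have hcont : ∀ i, Continuous (pd i w) := fun i => (hsm i).continuous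
  have hconv : ∀ (i : Fin 3) (x : E3), ∫ y, ext R w y * pd i η (x - y) =
      ∫ y, (Ann R).indicator (pd i w) y * η (x - y) := by
    intro i x
    rw [moll_grad hR hd hη hw x i, ← integral_indicator (UMB.Lin.measurableSet_Ann R)]
    congr 1
    funext y
    by_cases hy : y ∈ Ann R
    · rw [indicator_of_mem hy, indicator_of_mem hy]
    · rw [indicator_of_notMem hy, indicator_of_notMem hy, zero_mul]
  have hgm : ∀ i, Measurable ((Ann R).indicator (pd i w)) := fun i =>
    (hcont i).measurable.indicator (UMB.Lin.measurableSet_Ann R)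
  have hgb : ∀ i, ∃ M : ℝ, ∀ x, |(Ann R).indicator (pd i w) x| ≤ M := by
    intro i
    obtain ⟨M, hM⟩ := (UMB.Lin.isCompact_cAnn R).exists_bound_of_continuousOn
      ((hcont i).continuousOn (s := cAnn R))
    refine ⟨|M|, fun x => ?_⟩
    by_cases hx : x ∈ Ann R
    · rw [indicator_of_mem hx]
      exact (hM x (UMB.Lin.Ann_subset R hx)).trans (le_abs_self M)
    · rw [indicator_of_notMem hx, abs_zero]
      exact abs_nonneg M
  have hgs : ∀ i, ∃ r : ℝ, ∀ x : E3, r ≤ ‖x‖ → (Ann R).indicator (pd i w) x = 0 := by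
    intro i
    refine ⟨R, fun x hx => ?_⟩
    rw [indicator_of_notMem]
    intro h
    exact absurd h.2 (not_lt.2 hx)
  have hIcont : ∀ i, Continuous fun x => pd i w x ^ 2 + vsq (D1 (pd i w) x) := by
    intro i
    have h1 : ∀ j, Continuous fun x => pd j (pd i w) x := fun j =>
      (m5_contDiff_pd j (hsm i)).continuous
    unfold vsq D1
    exact ((hcont i).pow 2).add (continuous_finsetSum _ fun j _ => (h1 j).pow 2)
  have hInn : ∀ i, 0 ≤ ∫ x in Ann R, (pd i w x ^ 2 + vsq (D1 (pd i w) x)) := by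
    intro i
    apply integral_nonneg
    intro x
    have h1 : 0 ≤ vsq (D1 (pd i w) x) := Finset.sum_nonneg fun j _ => sq_nonneg _
    show 0 ≤ pd i w x ^ 2 + vsq (D1 (pd i w) x)
    positivity
  have hdd : d + d ^ 2 ≤ 2 * d := by nlinarith
  have hone : ∀ i, ∫ x in Ann R, ((∫ y, ext R w y * pd i η (x - y)) - pd i w x) ^ 2 ≤
      2 * C0 * d * ∫ x in Ann R, (pd i w x ^ 2 + vsq (D1 (pd i w) x)) := by
    intro i
    obtain ⟨Mg, hMg⟩ := hgb i
    have h1 := moll_fubini (K := 2 * C0 * d * ∫ x in Ann R, (pd i w x ^ 2 + vsq (D1 (pd i w) x)))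
      hd hη (hgm i) hMg (hgs i) (hcont i)
      (by have := hInn i; positivity)
      (fun h hh => by
        have h2 := hT (pd i w) ((hsm i).of_le (by exact_mod_cast le_top)) d hd h hh
        refine h2.trans ?_
        have h3 : C0 * (d + d ^ 2) ≤ 2 * C0 * d := by nlinarith
        exact mul_le_mul_of_nonneg_right h3 (hInn i))
    have h4 : (fun x => ((∫ y, ext R w y * pd i η (x - y)) - pd i w x) ^ 2) =
        fun x => ((∫ y, (Ann R).indicator (pd i w) y * η (x - y)) - pd i w x) ^ 2 := by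
      funext x
      rw [hconv i x]
    rw [h4]
    exact h1
  have hint : ∀ i, IntegrableOn
      (fun x => ((∫ y, ext R w y * pd i η (x - y)) - pd i w x) ^ 2) (Ann R) := by
    intro i
    obtain ⟨Mg, hMg⟩ := hgb i
    have h1 := m5_int (R := R) hη (hgm i) hMg (hcont i)
    have h4 : (fun x => ((∫ y, ext R w y * pd i η (x - y)) - pd i w x) ^ 2) =
        fun x => ((∫ y, (Ann R).indicator (pd i w) y * η (x - y)) - pd i w x) ^ 2 := by
      funext x
      rw [hconv i x]
    rw [h4]
    exact h1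
  have hfin : ∫ x in Ann R, (vsq (D1 w x) + fsq (D2 w x)) =
      ∑ i, ∫ x in Ann R, (pd i w x ^ 2 + vsq (D1 (pd i w) x)) := by
    rw [← integral_finsetSum _ fun i _ => UMB.Lin.integrableOn_Ann (hIcont i)]
    congr 1
    funext x
    simp only [vsq, fsq, D1, D2, Finset.sum_add_distrib]
    congr 1
    rw [Finset.sum_comm]
  rw [integral_finsetSum _ fun i _ => hint i, hfin, Finset.mul_sum]
  exact Finset.sum_le_sum fun i _ => hone i

end UMB.W
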