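import Pool.Agent.Lib.UMB.W.M3
import Pool.Agent.Lib.UMB.W.M4B

/-! # UMB.W chunk M6: the error of the mollified function -/

set_option autoImplicit false

open Filter Topology Set MeasureTheory
open scoped ContDiff BigOperators
open Pool.Agent.Lib.PenroseSph (E3 Tens pd)
open UMB.Lin (Ann cAnn sig)

namespace UMB.W

theorem m6_meas {R : ℝ} {w : E3 → ℝ} (hw : Measurable w) : Measurable (ext R w) := by
  unfold ext
  refine Measurable.ite (measurableSet_lt measurable_norm measurable_const) measurable_const ?_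
  exact Measurable.ite (measurableSet_le measurable_norm measurable_const) hw measurable_const

theorem m6_bd {R : ℝ} {w : E3 → ℝ} (hw : ∀ x ∈ cAnn R, |w x| ≤ 2) (x : E3) : |ext R w x| ≤ 2 := by
  unfold ext
  split_ifs with h1 h2
  · norm_num
  · exact hw x ⟨not_lt.mp h1, h2⟩
  · norm_num

theorem m6_eq {R : ℝ} {w : E3 → ℝ} {x : E3} (hx : x ∈ Ann R) : ext R w x = w x := by
  unfold ext
  rw [if_neg (not_lt.mpr hx.1.le), if_pos hx.2.le]

/-- **M6.** M3 with `g = ext R w`, `F = w` (bounded: `|w| ≤ 2` on the closed annulus); for `|h| < d`: interior part by M4a,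
on `Lay R d` the integrand is `≤ 16` and the volume of the layer is `≤ C d` (`layer_le` for the constant function `1`). -/
theorem vd_err {R : ℝ} (hR : 1 < R) : ∃ C : ℝ, 0 ≤ C ∧ ∀ (d : ℝ) (η w : E3 → ℝ), 0 < d → d ≤ 1 → Mol d η → Cls R w →
    ∫ x in Ann R, ((∫ y, ext R w y * η (x - y)) - w x) ^ 2 ≤ C * d * (1 + ∫ x in Ann R, vsq (D1 w x)) := by
  obtain ⟨C0, hC0, hlay⟩ := layer_le hR
  have hmA := UMB.Lin.measurableSet_Ann R
  set W0 := ∫ _x in Ann R, (1 : ℝ) with hW0
  have hW0nn : 0 ≤ W0 := setIntegral_nonneg hmA fun _ _ => zero_le_one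
  refine ⟨16 * C0 * W0 + 1, by positivity, ?_⟩
  intro d η w hd hd1 hη hw
  have hwc : Continuous w := hw.smooth.continuous
  have hw1 : ContDiff ℝ 1 w := hw.smooth.of_le (by exact_mod_cast le_top)
  have hV0 : 0 ≤ ∫ x in Ann R, vsq (D1 w x) := setIntegral_nonneg hmA fun x _ => m4b_vsq_nonneg _
  have hgm := m6_meas (R := R) hwc.measurable
  have hgb := m6_bd hw.bd
  apply moll_fubini hd hη hgm hgb ⟨R + 1, ?_⟩ hwc (by positivity)
  · intro y hy
    have hint := m4b_int (R := R) hgm hgb hwc y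
    rw [m4b_split (d := d) hint]
    have hA : ∫ x in m4bInt R d, (ext R w (x - y) - w x) ^ 2 ≤ d ^ 2 * ∫ x in Ann R, vsq (D1 w x) := by
      have h1 : ∫ x in m4bInt R d, (ext R w (x - y) - w x) ^ 2 = ∫ x in m4bInt R d, (w (x - y) - w x) ^ 2 := by
        apply setIntegral_congr_fun (m4b_measInt R d)
        intro x hx
        show (ext R w (x - y) - w x) ^ 2 = (w (x - y) - w x) ^ 2
        rw [m6_eq (m4b_mem hx hy)]
      rw [h1]
      exact trans_int hR hd hw1 hy
    have hsub : Lay R d ⊆ Ann R := fun x hx => hx.1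
    have hone : ∫ _x in Lay R d, (1 : ℝ) ≤ C0 * d * W0 := by
      have h1 := hlay (fun _ => (1 : ℝ)) contDiff_const d hd
      have h2 : ∀ x : E3, Real.sqrt (vsq (D1 (fun _ => (1 : ℝ)) x)) = 0 := by
        intro x
        have h3 : vsq (D1 (fun _ : E3 => (1 : ℝ)) x) = 0 := by
          unfold vsq D1 pd
          simp
        rw [h3, Real.sqrt_zero]
      have h4 : ∫ x in Ann R, (|(1 : ℝ)| + Real.sqrt (vsq (D1 (fun _ => (1 : ℝ)) x))) = W0 := by
        rw [hW0]
        apply integral_congr_ae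
        exact Eventually.of_forall fun x => by
          show |(1 : ℝ)| + Real.sqrt (vsq (D1 (fun _ => (1 : ℝ)) x)) = 1
          rw [h2 x]
          norm_num
      rw [h4] at h1
      calc ∫ _x in Lay R d, (1 : ℝ) = ∫ _x in Lay R d, |(1 : ℝ)| := by rw [abs_one]
        _ ≤ C0 * d * W0 := h1
    have hB : ∫ x in Lay R d, (ext R w (x - y) - w x) ^ 2 ≤ 16 * (C0 * d * W0) := by
      have hI1 : IntegrableOn (fun _ : E3 => (1 : ℝ)) (Ann R) := UMB.Lin.integrableOn_Ann continuous_const
      have h1 : ∫ x in Lay R d, (ext R w (x - y) - w x) ^ 2 ≤ ∫ _x in Lay R d, 16 * (1 : ℝ) := by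
        apply setIntegral_mono_on (hint.mono_set hsub) ((hI1.mono_set hsub).const_mul 16)
        · exact m4b_measLay R d
        · intro x hx
          have h2 := hgb (x - y)
          have h3 := hw.bd x (UMB.Lin.Ann_subset R hx.1)
          rw [abs_le] at h2 h3
          nlinarith
      rw [integral_const_mul] at h1
      linarith
    have hd2 : d ^ 2 * ∫ x in Ann R, vsq (D1 w x) ≤ d * ∫ x in Ann R, vsq (D1 w x) := by
      apply mul_le_mul_of_nonneg_right _ hV0
      nlinarith
    have hp : 0 ≤ 16 * (C0 * d * W0) * ∫ x in Ann R, vsq (D1 w x) := by positivity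
    calc _ ≤ d ^ 2 * (∫ x in Ann R, vsq (D1 w x)) + 16 * (C0 * d * W0) := add_le_add hA hB
      _ ≤ (16 * C0 * W0 + 1) * d * (1 + ∫ x in Ann R, vsq (D1 w x)) := by nlinarith
  · intro x hx
    unfold ext
    rw [if_neg (by linarith : ¬ ‖x‖ < 1), if_neg (by linarith : ¬ ‖x‖ ≤ R)]

end UMB.W
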