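import Pool.Agent.Lib.UMB.W.F2
import Pool.Agent.Lib.UMB.W.M5
import Pool.Agent.Lib.UMB.W.M6

/-! # UMB.W chunk F3: mollification errors of the solutions -/

set_option autoImplicit false

open Filter Topology Set MeasureTheory
open scoped ContDiff BigOperators
open Pool.Agent.Lib.PenroseSph (E3 Tens pd)
open UMB.Lin (Ann cAnn sig)

namespace UMB.W

/-- Extension of a function continuous on the closed annulus is measurable. -/
theorem f3_ext_meas {R : ℝ} {v : E3 → ℝ} (hv : ContinuousOn v (cAnn R)) : Measurable (ext R v) := by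
  classical
  have h1 : MeasurableSet {x : E3 | ‖x‖ < 1} := (isOpen_lt continuous_norm continuous_const).measurableSet
  have hA : MeasurableSet (cAnn R) := by
    have h2 : MeasurableSet {x : E3 | 1 ≤ ‖x‖} := (isClosed_le continuous_const continuous_norm).measurableSet
    have h3 : MeasurableSet {x : E3 | ‖x‖ ≤ R} := (isClosed_le continuous_norm continuous_const).measurableSet
    exact h2.inter h3
  have h5 : Measurable ((cAnn R).piecewise v (fun _ => (0 : ℝ))) :=
    hv.measurable_piecewise continuous_const.continuousOn hA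
  have h4 : ext R v = fun x => (if ‖x‖ < 1 then (1 : ℝ) else 0) + (cAnn R).piecewise v (fun _ => (0 : ℝ)) x := by
    funext x
    unfold ext
    by_cases hx : ‖x‖ < 1
    · have hn : x ∉ cAnn R := fun h => absurd h.1 (not_le.mpr hx)
      rw [if_pos hx, if_pos hx, Set.piecewise_eq_of_notMem _ _ _ hn, add_zero]
    · rw [if_neg hx, if_neg hx, zero_add]
      by_cases hx2 : ‖x‖ ≤ R
      · rw [if_pos hx2, Set.piecewise_eq_of_mem _ _ _ (show x ∈ cAnn R from ⟨not_lt.mp hx, hx2⟩)]
      · rw [if_neg hx2, Set.piecewise_eq_of_notMem _ _ _ (fun h => hx2 h.2)]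
  rw [h4]
  exact (Measurable.ite h1 measurable_const measurable_const).add h5

theorem f3_ext_bd {R M : ℝ} (hM : 1 ≤ M) {v : E3 → ℝ} (hv : ∀ x ∈ cAnn R, |v x| ≤ M) (x : E3) : |ext R v x| ≤ M := by
  unfold ext
  by_cases hx : ‖x‖ < 1
  · rw [if_pos hx, abs_one]
    exact hM
  · rw [if_neg hx]
    by_cases hx2 : ‖x‖ ≤ R
    · rw [if_pos hx2]
      exact hv x ⟨not_lt.mp hx, hx2⟩
    · rw [if_neg hx2, abs_zero]
      linarith

theorem f3_conv_int {ψ : E3 → ℝ} (hψ : Integrable ψ) {a : E3 → ℝ} (ha : Measurable a)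
    {M : ℝ} (hM : ∀ x, |a x| ≤ M) (x : E3) : Integrable fun y => a y * ψ (x - y) := by
  have h1 : Integrable fun y => ψ (x - y) := hψ.comp_sub_left x
  refine Integrable.mono' (h1.norm.const_mul M) (ha.aestronglyMeasurable.mul h1.aestronglyMeasurable) ?_
  refine Eventually.of_forall fun y => ?_
  rw [norm_mul]
  exact mul_le_mul_of_nonneg_right (hM y) (norm_nonneg _)

theorem f3_conv {ψ : E3 → ℝ} (hψ : Integrable ψ) {a b : E3 → ℝ} (ha : Measurable a) (hb : Measurable b)
    {M ε : ℝ} (hMa : ∀ x, |a x| ≤ M) (hMb : ∀ x, |b x| ≤ M) (h : ∀ x, |a x - b x| ≤ ε) (x : E3) :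
    |(∫ y, a y * ψ (x - y)) - ∫ y, b y * ψ (x - y)| ≤ ε * ∫ y, |ψ y| := by
  rw [← integral_sub (f3_conv_int hψ ha hMa x) (f3_conv_int hψ hb hMb x)]
  have h1 : Integrable fun y => ψ (x - y) := hψ.comp_sub_left x
  have e1 : ∫ y, |ψ y| = ∫ y, |ψ (x - y)| := (integral_sub_left_eq_self (fun y => |ψ y|) volume x).symm
  rw [e1, ← integral_const_mul, ← Real.norm_eq_abs]
  refine norm_integral_le_of_norm_le (h1.abs.const_mul ε) (Eventually.of_forall fun y => ?_)
  rw [← sub_mul, norm_mul]
  exact mul_le_mul_of_nonneg_right (h y) (norm_nonneg _)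

theorem f3_conv_cont {ψ : E3 → ℝ} (hψ : Continuous ψ) (hs : HasCompactSupport ψ) {a : E3 → ℝ} (ha : Measurable a)
    {M : ℝ} (hM : ∀ x, |a x| ≤ M) : Continuous fun x => ∫ y, a y * ψ (x - y) := by
  have hloc : LocallyIntegrable a := by
    have h1 : LocallyIntegrable (fun _ : E3 => M) := locallyIntegrable_const M
    refine h1.mono ha.aestronglyMeasurable (Eventually.of_forall fun x => ?_)
    rw [Real.norm_eq_abs, Real.norm_eq_abs]
    exact (hM x).trans (le_abs_self M)
  have h2 := HasCompactSupport.continuous_convolution_right (ContinuousLinearMap.mul ℝ ℝ) hs hloc hψ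
  exact h2

theorem f3_supp {d : ℝ} {η : E3 → ℝ} (hη : Mol d η) : HasCompactSupport η := by
  refine HasCompactSupport.of_support_subset_isCompact (isCompact_closedBall (0 : E3) d) ?_
  intro x hx
  rw [mem_closedBall_zero_iff]
  by_contra hc
  exact hx (hη.supp x (not_le.1 hc).le)

theorem f3_supp_pd {d : ℝ} {η : E3 → ℝ} (hη : Mol d η) (i : Fin 3) : HasCompactSupport (pd i η) := by
  have h1 : HasCompactSupport (fderiv ℝ η) := (f3_supp hη).fderiv ℝ
  exact h1.comp_left (g := fun L : E3 →L[ℝ] ℝ => L (EuclideanSpace.single i 1)) rfl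

theorem f3_lim {I A Bc : ℝ} (hB : 0 ≤ Bc) (h : ∀ ε : ℝ, 0 < ε → ε ≤ 1 → I ≤ A + ε ^ 2 * Bc) : I ≤ A := by
  refine le_of_forall_pos_le_add fun δ hδ => ?_
  have h1 : 0 < δ / (Bc + 1) := div_pos hδ (by linarith)
  have h2 := h (min 1 (δ / (Bc + 1))) (lt_min one_pos h1) (min_le_left _ _)
  have h3 : min 1 (δ / (Bc + 1)) ^ 2 * Bc ≤ δ := by
    have h4 : min 1 (δ / (Bc + 1)) ^ 2 ≤ δ / (Bc + 1) := by
      have h5 : 0 ≤ min 1 (δ / (Bc + 1)) := (lt_min one_pos h1).le
      have h6 : min 1 (δ / (Bc + 1)) ^ 2 ≤ min 1 (δ / (Bc + 1)) * 1 := by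
        rw [sq]
        exact mul_le_mul_of_nonneg_left (min_le_left _ _) h5
      rw [mul_one] at h6
      exact h6.trans (min_le_right _ _)
    refine (mul_le_mul_of_nonneg_right h4 hB).trans ?_
    rw [div_mul_eq_mul_div, div_le_iff₀ (by linarith)]
    nlinarith
  linarith

/-- **F3.** `qd_err`, `vd_err` for `w` from `Sol.approx`, then `ε → 0`: `qd`, `vd` of `w` converge uniformly to those of `v`
(`|ext w - ext v| ≤ ε` a.e., bounded support), the right sides are bounded as in F2 (`fsq (D2 w) ≤ 2 fsq (D2 v) + 18 ε²`). -/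
theorem sol_err {D : OpData} (hD : D.Ok) : ∃ C : ℝ, 0 ≤ C ∧ ∀ (eps d : ℝ) (eta : E3 → ℝ), (OpData.upd D eps d eta).Ok →
    d ≤ 1 → ∀ v : E3 → ℝ, Sol (OpData.upd D eps d eta) v →
      ∫ x in Ann D.R, vsq (fun i => (OpData.upd D eps d eta).qd v x i - D1 v x i) ≤ C * d ∧
      ∫ x in Ann D.R, ((OpData.upd D eps d eta).vd v x - v x) ^ 2 ≤ C * d := by
  obtain ⟨C2, hC2, hb⟩ := f2_w hD
  obtain ⟨C5, hC5, h5⟩ := qd_err (R := D.R) hD.one_lt_R
  obtain ⟨C6, hC6, h6⟩ := vd_err (R := D.R) hD.one_lt_R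
  have hV := ENNReal.toReal_nonneg (a := volume (Ann D.R))
  refine ⟨2 * (C5 * C2) + 2 * (C6 * (1 + C2)), by positivity, ?_⟩
  intro eps d eta hU hd1 v hv
  have hd : 0 < d := hU.d_pos
  have hη : Mol d (OpData.upd D eps d eta).etad := mol_etad hU
  -- facts about the extension of v
  have hvm : Measurable (ext D.R v) := f3_ext_meas hv.cont
  have hvb : ∀ x, |ext D.R v x| ≤ 2 := by
    refine f3_ext_bd (by norm_num) ?_
    intro x hx
    have h1 := hv.nonneg x hx
    have h2 := hv.le_one x hx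
    rw [abs_of_nonneg h1]
    linarith
  have hwm : ∀ w : E3 → ℝ, Cls D.R w → Measurable (ext D.R w) := fun w hw =>
    f3_ext_meas hw.smooth.continuous.continuousOn
  have hwb : ∀ w : E3 → ℝ, Cls D.R w → ∀ x, |ext D.R w x| ≤ 2 := fun w hw => f3_ext_bd (by norm_num) hw.bd
  have hwv : ∀ w : E3 → ℝ, Cls D.R w → ∀ ε : ℝ, 0 < ε → (∀ x ∈ Ann D.R, |w x - v x| ≤ ε) →
      ∀ x, |ext D.R v x - ext D.R w x| ≤ ε := by
    intro w hw ε hε h x
    unfold ext
    by_cases hx : ‖x‖ < 1
    · rw [if_pos hx, if_pos hx, sub_self, abs_zero]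
      exact hε.le
    · rw [if_neg hx, if_neg hx]
      by_cases hx2 : ‖x‖ ≤ D.R
      · rw [if_pos hx2, if_pos hx2]
        rcases eq_or_lt_of_le (not_lt.mp hx) with h1 | h1
        · rw [hw.one x h1.symm, hv.one x h1.symm, sub_self, abs_zero]
          exact hε.le
        · rcases eq_or_lt_of_le hx2 with h2 | h2
          · rw [hw.zero x h2, hv.zero x h2, sub_self, abs_zero]
            exact hε.le
          · rw [abs_sub_comm]
            exact h x ⟨h1, h2⟩
      · rw [if_neg hx2, if_neg hx2, sub_self, abs_zero]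
        exact hε.le
  have hsplit : ∀ w : E3 → ℝ, Cls D.R w → ∫ x in Ann D.R, (vsq (D1 w x) + fsq (D2 w x)) ≤
      ∫ x in Ann D.R, (fsq (D2 w x) + vsq (D1 w x) + vsq (D1 w x) ^ 2) := by
    intro w hw
    have c1 := f2_vsq_cont hw.smooth
    have c2 := f2_fsq_cont hw.smooth
    refine integral_mono (f2_intOn (c1.add c2)) (f2_intOn ((c2.add c1).add (c1.pow 2))) ?_
    intro x
    have h3 : 0 ≤ vsq (D1 w x) ^ 2 := sq_nonneg _
    show vsq (D1 w x) + fsq (D2 w x) ≤ fsq (D2 w x) + vsq (D1 w x) + vsq (D1 w x) ^ 2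
    linarith
  have hsplit2 : ∀ w : E3 → ℝ, Cls D.R w → ∫ x in Ann D.R, vsq (D1 w x) ≤
      ∫ x in Ann D.R, (fsq (D2 w x) + vsq (D1 w x) + vsq (D1 w x) ^ 2) := by
    intro w hw
    have c1 := f2_vsq_cont hw.smooth
    have c2 := f2_fsq_cont hw.smooth
    refine integral_mono (f2_intOn c1) (f2_intOn ((c2.add c1).add (c1.pow 2))) ?_
    intro x
    have h3 : 0 ≤ vsq (D1 w x) ^ 2 := sq_nonneg _
    have h4 : 0 ≤ fsq (D2 w x) := Finset.sum_nonneg fun i _ => Finset.sum_nonneg fun j _ => sq_nonneg _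
    show vsq (D1 w x) ≤ fsq (D2 w x) + vsq (D1 w x) + vsq (D1 w x) ^ 2
    linarith
  constructor
  · -- the gradient
    obtain ⟨K, hK0, hK⟩ : ∃ K : ℝ, 0 ≤ K ∧ ∀ i, ∫ y, |pd i (OpData.upd D eps d eta).etad y| ≤ K := by
      refine ⟨∑ i, ∫ y, |pd i (OpData.upd D eps d eta).etad y|, Finset.sum_nonneg fun i _ =>
        integral_nonneg fun y => abs_nonneg _, fun i => ?_⟩
      exact Finset.single_le_sum (f := fun i => ∫ y, |pd i (OpData.upd D eps d eta).etad y|)
        (fun j _ => integral_nonneg fun y => abs_nonneg _) (Finset.mem_univ i)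
    have hψc : ∀ i, Continuous (pd i (OpData.upd D eps d eta).etad) := fun i => (f2_pd_cont hη.smooth i).continuous
    have hψi : ∀ i, Integrable (pd i (OpData.upd D eps d eta).etad) := fun i =>
      (hψc i).integrable_of_hasCompactSupport (f3_supp_pd hη i)
    have main : ∫ x in Ann D.R, vsq (fun i => (OpData.upd D eps d eta).qd v x i - D1 v x i) ≤ 2 * (C5 * C2) * d := by
      refine f3_lim (Bc := 6 * (K + 1) ^ 2 * (volume (Ann D.R)).toReal) (by positivity) ?_
      intro ε hε hε1
      obtain ⟨w, hw, hwv', hwI⟩ := hb eps d eta hU v hv ε hε hε1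
      have e5 := h5 d (OpData.upd D eps d eta).etad w hd hd1 hη hw
      have hcl := hwv w hw ε hε fun x hx => (hwv' x hx).1
      have hgc : Continuous fun x => ∑ i, ((∫ y, ext D.R w y * pd i (OpData.upd D eps d eta).etad (x - y)) - pd i w x) ^ 2 := by
        refine continuous_finset_sum _ fun i _ => ?_
        exact ((f3_conv_cont (hψc i) (f3_supp_pd hη i) (hwm w hw) (hwb w hw)).sub
          (f2_pd_cont hw.smooth i).continuous).pow 2
      have hgi := f2_intOn (R := D.R) hgc
      have hi : ∫ x in Ann D.R, (2 * (∑ i, ((∫ y, ext D.R w y * pd i (OpData.upd D eps d eta).etad (x - y)) - pd i w x) ^ 2)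
          + 6 * (ε * (K + 1)) ^ 2) =
          2 * (∫ x in Ann D.R, (∑ i, ((∫ y, ext D.R w y * pd i (OpData.upd D eps d eta).etad (x - y)) - pd i w x) ^ 2))
          + 6 * (ε * (K + 1)) ^ 2 * (volume (Ann D.R)).toReal := by
        rw [integral_add (hgi.const_mul 2) (integrableOn_const (f2_annF D.R).ne), integral_const_mul,
          setIntegral_const, smul_eq_mul]
        rw [mul_comm (6 * (ε * (K + 1)) ^ 2)]
        rfl
      have hle : ∫ x in Ann D.R, vsq (fun i => (OpData.upd D eps d eta).qd v x i - D1 v x i) ≤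
          ∫ x in Ann D.R, (2 * (∑ i, ((∫ y, ext D.R w y * pd i (OpData.upd D eps d eta).etad (x - y)) - pd i w x) ^ 2)
          + 6 * (ε * (K + 1)) ^ 2) := by
        refine integral_mono_of_nonneg (Eventually.of_forall fun x => ?_)
          ((hgi.const_mul 2).add (integrableOn_const (f2_annF D.R).ne)) ?_
        · exact Finset.sum_nonneg fun i _ => sq_nonneg _
        · filter_upwards [ae_restrict_mem (f2_annM D.R)] with x hx
          obtain ⟨-, h1, -⟩ := hwv' x hx
          have hh : ∀ i, |((∫ y, ext D.R w y * pd i (OpData.upd D eps d eta).etad (x - y)) - pd i w x) -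
              ((OpData.upd D eps d eta).qd v x i - D1 v x i)| ≤ ε * (K + 1) := by
            intro i
            have k1 := f3_conv (hψi i) hvm (hwm w hw) hvb (hwb w hw) hcl x
            have k2 : ε * ∫ y, |pd i (OpData.upd D eps d eta).etad y| ≤ ε * K :=
              mul_le_mul_of_nonneg_left (hK i) hε.le
            have k3 : |D1 w x i - D1 v x i| ≤ ε := h1 i
            have k4 : (OpData.upd D eps d eta).qd v x i = ∫ y, ext D.R v y * pd i (OpData.upd D eps d eta).etad (x - y) := rfl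
            have k5 : D1 w x i = pd i w x := rfl
            rw [k4, ← k5]
            rw [abs_le] at k1 k3 ⊢
            constructor <;> linarith [k1.1, k1.2, k3.1, k3.2]
          exact f2_vsq (u := fun i => (∫ y, ext D.R w y * pd i (OpData.upd D eps d eta).etad (x - y)) - pd i w x) hh
      rw [hi] at hle
      have h7 := hsplit w hw
      have h8 : C5 * d * ∫ x in Ann D.R, (vsq (D1 w x) + fsq (D2 w x)) ≤ C5 * d * C2 :=
        mul_le_mul_of_nonneg_left (h7.trans hwI) (by positivity)
      have h9 := e5.trans h8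
      have h10 : 6 * (ε * (K + 1)) ^ 2 * (volume (Ann D.R)).toReal = ε ^ 2 * (6 * (K + 1) ^ 2 * (volume (Ann D.R)).toReal) := by
        ring
      rw [h10] at hle
      linarith
    have : 0 ≤ 2 * (C6 * (1 + C2)) * d := by positivity
    linarith
  · -- the function
    have hψc : Continuous (OpData.upd D eps d eta).etad := hη.smooth.continuous
    have hψi : Integrable (OpData.upd D eps d eta).etad := hψc.integrable_of_hasCompactSupport (f3_supp hη)
    have hK0 : 0 ≤ ∫ y, |(OpData.upd D eps d eta).etad y| := integral_nonneg fun y => abs_nonneg _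
    set K : ℝ := ∫ y, |(OpData.upd D eps d eta).etad y| with hKdef
    have main : ∫ x in Ann D.R, ((OpData.upd D eps d eta).vd v x - v x) ^ 2 ≤ 2 * (C6 * (1 + C2)) * d := by
      refine f3_lim (Bc := 2 * (K + 1) ^ 2 * (volume (Ann D.R)).toReal) (by positivity) ?_
      intro ε hε hε1
      obtain ⟨w, hw, hwv', hwI⟩ := hb eps d eta hU v hv ε hε hε1
      have e6 := h6 d (OpData.upd D eps d eta).etad w hd hd1 hη hw
      have hcl := hwv w hw ε hε fun x hx => (hwv' x hx).1
      have hgc : Continuous fun x => ((∫ y, ext D.R w y * (OpData.upd D eps d eta).etad (x - y)) - w x) ^ 2 :=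
        ((f3_conv_cont hψc (f3_supp hη) (hwm w hw) (hwb w hw)).sub hw.smooth.continuous).pow 2
      have hgi := f2_intOn (R := D.R) hgc
      have hi : ∫ x in Ann D.R, (2 * ((∫ y, ext D.R w y * (OpData.upd D eps d eta).etad (x - y)) - w x) ^ 2
          + 2 * (ε * (K + 1)) ^ 2) =
          2 * (∫ x in Ann D.R, ((∫ y, ext D.R w y * (OpData.upd D eps d eta).etad (x - y)) - w x) ^ 2)
          + 2 * (ε * (K + 1)) ^ 2 * (volume (Ann D.R)).toReal := by
        rw [integral_add (hgi.const_mul 2) (integrableOn_const (f2_annF D.R).ne), integral_const_mul,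
          setIntegral_const, smul_eq_mul]
        rw [mul_comm (2 * (ε * (K + 1)) ^ 2)]
        rfl
      have hle : ∫ x in Ann D.R, ((OpData.upd D eps d eta).vd v x - v x) ^ 2 ≤
          ∫ x in Ann D.R, (2 * ((∫ y, ext D.R w y * (OpData.upd D eps d eta).etad (x - y)) - w x) ^ 2
          + 2 * (ε * (K + 1)) ^ 2) := by
        refine integral_mono_of_nonneg (Eventually.of_forall fun x => sq_nonneg _)
          ((hgi.const_mul 2).add (integrableOn_const (f2_annF D.R).ne)) ?_
        filter_upwards [ae_restrict_mem (f2_annM D.R)] with x hx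
        obtain ⟨h0, -, -⟩ := hwv' x hx
        have hh : |((∫ y, ext D.R w y * (OpData.upd D eps d eta).etad (x - y)) - w x) -
            ((OpData.upd D eps d eta).vd v x - v x)| ≤ ε * (K + 1) := by
          have k1 := f3_conv hψi hvm (hwm w hw) hvb (hwb w hw) hcl x
          have k4 : (OpData.upd D eps d eta).vd v x = ∫ y, ext D.R v y * (OpData.upd D eps d eta).etad (x - y) := rfl
          rw [← hKdef] at k1
          rw [k4]
          rw [abs_le] at k1 h0 ⊢
          constructor <;> linarith [k1.1, k1.2, h0.1, h0.2]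
        exact f2_sq hh
      rw [hi] at hle
      have h7 := hsplit2 w hw
      have h8 : C6 * d * (1 + ∫ x in Ann D.R, vsq (D1 w x)) ≤ C6 * d * (1 + C2) :=
        mul_le_mul_of_nonneg_left (by linarith [h7.trans hwI]) (by positivity)
      have h9 := e6.trans h8
      have h10 : 2 * (ε * (K + 1)) ^ 2 * (volume (Ann D.R)).toReal = ε ^ 2 * (2 * (K + 1) ^ 2 * (volume (Ann D.R)).toReal) := by
        ring
      rw [h10] at hle
      linarith
    have : 0 ≤ 2 * (C5 * C2) * d := by positivity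
    linarith

end UMB.W
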