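import Pool.Agent.Lib.UMB.W.F3

/-! # UMB.W chunk F4: the error integral -/

set_option autoImplicit false

open Filter Topology Set MeasureTheory
open scoped ContDiff BigOperators
open Pool.Agent.Lib.PenroseSph (E3 Tens pd)
open UMB.Lin (Ann cAnn sig)

namespace UMB.W

theorem f4_isOpen (R : ℝ) : IsOpen (Ann R) :=
  (isOpen_lt continuous_const continuous_norm).inter (isOpen_lt continuous_norm continuous_const)

theorem f4_isClosed (R : ℝ) : IsClosed (cAnn R) :=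
  (isClosed_le continuous_const continuous_norm).inter
    (isClosed_le continuous_norm continuous_const)

theorem f4_isCompact (R : ℝ) : IsCompact (cAnn R) := by
  refine (isCompact_closedBall (0 : E3) R).of_isClosed_subset (f4_isClosed R) ?_
  intro x hx
  simpa [Metric.mem_closedBall] using hx.2

theorem f4_sub (R : ℝ) : Ann R ⊆ cAnn R := fun _ hx => ⟨hx.1.le, hx.2.le⟩

theorem f4_vol (R : ℝ) : volume (Ann R) < ⊤ :=
  lt_of_le_of_lt (measure_mono (f4_sub R)) (f4_isCompact R).measure_lt_top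

theorem f4_ext_meas {R : ℝ} {v : E3 → ℝ} (hv : ContinuousOn v (cAnn R)) : Measurable (ext R v) := by
  classical
  have h1 : Measurable ((cAnn R).piecewise v (fun _ => (0 : ℝ))) :=
    hv.measurable_piecewise continuousOn_const (f4_isClosed R).measurableSet
  have h2 : ext R v = (Metric.ball (0 : E3) 1).piecewise (fun _ => (1 : ℝ))
      ((cAnn R).piecewise v (fun _ => (0 : ℝ))) := by
    funext x
    by_cases h : ‖x‖ < 1
    · rw [Set.piecewise_eq_of_mem _ _ _ (by simpa using h)]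
      simp [ext, h]
    · rw [Set.piecewise_eq_of_notMem _ _ _ (by simpa using h)]
      by_cases h' : ‖x‖ ≤ R
      · have hx : x ∈ cAnn R := ⟨not_lt.1 h, h'⟩
        rw [Set.piecewise_eq_of_mem _ _ _ hx]
        simp [ext, h, h']
      · rw [Set.piecewise_eq_of_notMem _ _ _ (fun hx => h' hx.2)]
        simp [ext, h, h']
  rw [h2]
  exact Measurable.piecewise Metric.isOpen_ball.measurableSet measurable_const h1

theorem f4_ext_bd {R : ℝ} {v : E3 → ℝ} (h0 : ∀ x ∈ cAnn R, 0 ≤ v x) (h1 : ∀ x ∈ cAnn R, v x ≤ 1)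
    (x : E3) : |ext R v x| ≤ 1 := by
  unfold ext
  by_cases h : ‖x‖ < 1
  · simp [h]
  · by_cases h' : ‖x‖ ≤ R
    · simp only [h, h', if_true, if_false]
      have hx : x ∈ cAnn R := ⟨not_lt.1 h, h'⟩
      rw [abs_of_nonneg (h0 x hx)]
      exact h1 x hx
    · simp [h, h']

/-- Convolution with a continuous kernel of compact support: measurable and bounded. -/
theorem f4_conv {R : ℝ} {v : E3 → ℝ} (hv : ContinuousOn v (cAnn R)) (h0 : ∀ x ∈ cAnn R, 0 ≤ v x)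
    (h1 : ∀ x ∈ cAnn R, v x ≤ 1) {k : E3 → ℝ} (hk : Continuous k) (hkc : HasCompactSupport k) :
    Measurable (fun x => ∫ y, ext R v y * k (x - y)) ∧
      ∃ M : ℝ, ∀ x, |∫ y, ext R v y * k (x - y)| ≤ M := by
  constructor
  · have h2 : Measurable (Function.uncurry fun x y : E3 => ext R v y * k (x - y)) := by
      refine Measurable.mul ((f4_ext_meas hv).comp measurable_snd) ?_
      exact (hk.comp (continuous_fst.sub continuous_snd)).measurable
    exact (h2.stronglyMeasurable.integral_prod_right).measurable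
  · refine ⟨∫ y, |k y|, fun x => ?_⟩
    have hki : Integrable k := hk.integrable_of_hasCompactSupport hkc
    have hki' : Integrable (fun y => |k (x - y)|) := (hki.comp_sub_left x).abs
    have h3 : ‖∫ y, ext R v y * k (x - y)‖ ≤ ∫ y, |k (x - y)| := by
      refine norm_integral_le_of_norm_le hki' (Filter.Eventually.of_forall fun y => ?_)
      rw [Real.norm_eq_abs, abs_mul]
      have := f4_ext_bd h0 h1 y
      nlinarith [abs_nonneg (k (x - y)), abs_nonneg (ext R v y)]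
    have h4 : ∫ y, |k (x - y)| = ∫ y, |k y| :=
      integral_sub_left_eq_self (fun y => |k y|) volume x
    rw [h4] at h3
    exact h3

theorem f4_etad_smooth {D : OpData} (hD : D.Ok) : ContDiff ℝ ∞ D.etad := by
  unfold OpData.etad
  exact contDiff_const.mul (hD.eta_smooth.comp (contDiff_id.const_smul D.d⁻¹))

theorem f4_etad_cs {D : OpData} (hD : D.Ok) : HasCompactSupport D.etad := by
  refine HasCompactSupport.intro (isCompact_closedBall (0 : E3) D.d) fun x hx => ?_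
  have hx' : D.d < ‖x‖ := by simpa [Metric.mem_closedBall] using hx
  have h1 : (1 : ℝ) ≤ ‖D.d⁻¹ • x‖ := by
    rw [norm_smul, Real.norm_of_nonneg (inv_nonneg.2 hD.d_pos.le), le_inv_mul_iff₀ hD.d_pos]
    linarith
  simp [OpData.etad, hD.eta_supp _ h1]

theorem f4_pd_cont {f : E3 → ℝ} (hf : ContDiff ℝ ∞ f) (i : Fin 3) : Continuous (pd i f) := by
  unfold Pool.Agent.Lib.PenroseSph.pd
  exact (hf.continuous_fderiv (by simp)).clm_apply continuous_const

theorem f4_pd_cs {f : E3 → ℝ} (hf : HasCompactSupport f) (i : Fin 3) :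
    HasCompactSupport (pd i f) := by
  have h := hf.fderiv (𝕜 := ℝ)
  refine HasCompactSupport.intro h fun x hx => ?_
  have : fderiv ℝ f x = 0 := by
    by_contra hne
    exact hx (subset_tsupport _ hne)
  simp [Pool.Agent.Lib.PenroseSph.pd, this]

/-- Lipschitz estimate for the exponent. -/
theorem f4_lip {p : ℝ → ℝ} (hp : ContDiff ℝ ∞ p) (h1 : ∀ z, 1 ≤ p z) (h2 : ∀ z, p z ≤ 2) :
    ∃ L : ℝ, 0 ≤ L ∧ ∀ a b : ℝ, 0 ≤ b → b ≤ 1 → |p a - p b| ≤ L * |a - b| := by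
  obtain ⟨L0, hL0⟩ := (isCompact_Icc (a := (-1 : ℝ)) (b := 2)).exists_bound_of_continuousOn
    ((hp.continuous_deriv (by simp)).continuousOn (s := Icc (-1 : ℝ) 2))
  refine ⟨max L0 1, le_max_of_le_right zero_le_one, fun a b hb0 hb1 => ?_⟩
  by_cases hab : |a - b| ≤ 1
  · have ha : a ∈ Icc (-1 : ℝ) 2 := by
      have := abs_le.1 hab
      constructor <;> linarith
    have hb : b ∈ Icc (-1 : ℝ) 2 := ⟨by linarith, by linarith⟩
    have h := Convex.norm_image_sub_le_of_norm_deriv_le (f := p) (s := Icc (-1 : ℝ) 2) (C := L0)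
      (fun x _ => hp.differentiable (by simp) x) (fun x hx => hL0 x hx) (convex_Icc _ _) hb ha
    rw [Real.norm_eq_abs, Real.norm_eq_abs] at h
    exact h.trans (mul_le_mul_of_nonneg_right (le_max_left _ _) (abs_nonneg _))
  · have h3 : |p a - p b| ≤ 1 := by
      rw [abs_le]
      constructor <;> linarith [h1 a, h1 b, h2 a, h2 b]
    have h4 : (1 : ℝ) ≤ max L0 1 := le_max_right _ _
    nlinarith [not_le.1 hab]

theorem f4_vsq_nonneg (u : Fin 3 → ℝ) : 0 ≤ vsq u := Finset.sum_nonneg fun i _ => sq_nonneg _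

/-- The pointwise estimate. -/
theorem f4_point {B eps d τ σ s ρ δ W E F L : ℝ} (hB : 0 ≤ B) (hτ : 0 < τ) (hσ : 0 < σ)
    (hs : 0 ≤ s) (hs2 : s ^ 2 ≤ 9 * B * W) (hW : 0 ≤ W) (hρ : 0 ≤ ρ)
    (hρ2 : ρ ^ 2 ≤ 2 * eps ^ 2 + 72 * B * E) (hδ : 0 ≤ δ) (hδ1 : δ ≤ 1) (hδ2 : δ ^ 2 ≤ L ^ 2 * F) :
    ρ + s ^ 2 * ρ + s ^ 3 * δ ≤ τ⁻¹ * (2 * eps ^ 2 + 72 * B * E) + τ / 2
      + (τ / 2 + 3 / 4 * σ) * (81 * B ^ 2 * W ^ 2) + L ^ 2 / 4 * (σ⁻¹) ^ 3 * F := by
  have hτi : 0 < τ⁻¹ := inv_pos.2 hτ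
  have hσi : 0 < σ⁻¹ := inv_pos.2 hσ
  have hs4 : s ^ 4 ≤ 81 * B ^ 2 * W ^ 2 := by
    have : s ^ 4 = (s ^ 2) ^ 2 := by ring
    rw [this]
    calc (s ^ 2) ^ 2 ≤ (9 * B * W) ^ 2 := pow_le_pow_left₀ (sq_nonneg _) hs2 2
      _ = _ := by ring
  have a1 : ρ ≤ (τ⁻¹ * ρ ^ 2 + τ) / 2 := by
    have h : 0 ≤ τ⁻¹ * (ρ - τ) ^ 2 := mul_nonneg hτi.le (sq_nonneg _)
    have h' : τ⁻¹ * (ρ - τ) ^ 2 = τ⁻¹ * ρ ^ 2 - 2 * ρ * (τ⁻¹ * τ) + τ * (τ⁻¹ * τ) := by ring
    rw [inv_mul_cancel₀ hτ.ne'] at h'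
    linarith
  have a2 : s ^ 2 * ρ ≤ (τ * s ^ 4 + τ⁻¹ * ρ ^ 2) / 2 := by
    have h : 0 ≤ τ⁻¹ * (ρ - τ * s ^ 2) ^ 2 := mul_nonneg hτi.le (sq_nonneg _)
    have h' : τ⁻¹ * (ρ - τ * s ^ 2) ^ 2 =
        τ⁻¹ * ρ ^ 2 - 2 * ρ * s ^ 2 * (τ⁻¹ * τ) + τ * s ^ 4 * (τ⁻¹ * τ) := by ring
    rw [inv_mul_cancel₀ hτ.ne'] at h'
    linarith
  have a3 : s ^ 3 * δ ≤ (σ * s ^ 4 + σ⁻¹ * (s ^ 2 * δ ^ 2)) / 2 := by
    have h : 0 ≤ σ⁻¹ * (s * δ - σ * s ^ 2) ^ 2 := mul_nonneg hσi.le (sq_nonneg _)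
    have h' : σ⁻¹ * (s * δ - σ * s ^ 2) ^ 2 =
        σ⁻¹ * (s ^ 2 * δ ^ 2) - 2 * (s ^ 3 * δ) * (σ⁻¹ * σ) + σ * s ^ 4 * (σ⁻¹ * σ) := by ring
    rw [inv_mul_cancel₀ hσ.ne'] at h'
    linarith
  have a4 : σ⁻¹ * (s ^ 2 * δ ^ 2) ≤ (σ * s ^ 4 + σ⁻¹ ^ 3 * δ ^ 4) / 2 := by
    have h : 0 ≤ σ⁻¹ ^ 3 * (δ ^ 2 - σ ^ 2 * s ^ 2) ^ 2 :=
      mul_nonneg (pow_pos hσi 3).le (sq_nonneg _)
    have h' : σ⁻¹ ^ 3 * (δ ^ 2 - σ ^ 2 * s ^ 2) ^ 2 =
        σ⁻¹ ^ 3 * δ ^ 4 - 2 * (σ⁻¹ * (s ^ 2 * δ ^ 2)) * (σ⁻¹ * σ) ^ 2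
          + σ * s ^ 4 * (σ⁻¹ * σ) ^ 3 := by ring
    rw [inv_mul_cancel₀ hσ.ne'] at h'
    linarith
  have a5 : δ ^ 4 ≤ L ^ 2 * F := by
    have : δ ^ 4 ≤ δ ^ 2 := pow_le_pow_of_le_one hδ hδ1 (by norm_num)
    exact this.trans hδ2
  have a6 : σ⁻¹ ^ 3 * δ ^ 4 ≤ σ⁻¹ ^ 3 * (L ^ 2 * F) :=
    mul_le_mul_of_nonneg_left a5 (pow_pos hσi 3).le
  have a7 : τ⁻¹ * ρ ^ 2 ≤ τ⁻¹ * (2 * eps ^ 2 + 72 * B * E) :=
    mul_le_mul_of_nonneg_left hρ2 hτi.le
  have a8 : τ * s ^ 4 ≤ τ * (81 * B ^ 2 * W ^ 2) := mul_le_mul_of_nonneg_left hs4 hτ.le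
  have a9 : σ * s ^ 4 ≤ σ * (81 * B ^ 2 * W ^ 2) := mul_le_mul_of_nonneg_left hs4 hσ.le
  linarith

theorem f4_int {α : Type*} [MeasurableSpace α] {μ : Measure α} [IsFiniteMeasure μ] {E W F : α → ℝ}
    (hE : Integrable E μ) (hW : Integrable W μ) (hF : Integrable F μ) (c1 c2 c3 c4 c5 c6 c7 : ℝ) :
    ∫ x, (c1 * (c2 + c3 * E x) + c4 + c5 * (c6 * W x) + c7 * F x) ∂μ =
      c1 * (c2 * μ.real univ + c3 * ∫ x, E x ∂μ) + c4 * μ.real univ + c5 * (c6 * ∫ x, W x ∂μ)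
        + c7 * ∫ x, F x ∂μ := by
  have hc : ∀ c : ℝ, Integrable (fun _ : α => c) μ := fun c => integrable_const c
  have hcv : ∀ c : ℝ, ∫ _, c ∂μ = c * μ.real univ := fun c => by
    rw [integral_const, smul_eq_mul, mul_comm]
  have i0 : Integrable (fun x => c3 * E x) μ := hE.const_mul _
  have i1 : Integrable (fun x => c2 + c3 * E x) μ := (hc c2).add i0
  have i2 : Integrable (fun x => c1 * (c2 + c3 * E x)) μ := i1.const_mul _
  have i3 : Integrable (fun x => c1 * (c2 + c3 * E x) + c4) μ := i2.add (hc c4)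
  have i4 : Integrable (fun x => c5 * (c6 * W x)) μ := (hW.const_mul _).const_mul _
  have i5 : Integrable (fun x => c1 * (c2 + c3 * E x) + c4 + c5 * (c6 * W x)) μ := i3.add i4
  have i6 : Integrable (fun x => c7 * F x) μ := hF.const_mul _
  rw [integral_add i5 i6, integral_add i3 i4, integral_add i2 (hc c4), integral_const_mul,
    integral_add (hc c2) i0, integral_const_mul, integral_const_mul, integral_const_mul,
    integral_const_mul, hcv, hcv]

/-- The three pieces of the error integrand are measurable and bounded on the annulus. -/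
theorem f4_basic {D : OpData} (hD : D.Ok) {eps d : ℝ} {eta : E3 → ℝ}
    (hU : (OpData.upd D eps d eta).Ok) {v : E3 → ℝ} (hv : Sol (OpData.upd D eps d eta) v) :
    (AEStronglyMeasurable (fun x => Real.sqrt (q1 (D.G x) (D1 v x))) (volume.restrict (Ann D.R)) ∧
      AEStronglyMeasurable (fun x => rho (D.G x) eps ((OpData.upd D eps d eta).qd v x) (D1 v x))
        (volume.restrict (Ann D.R)) ∧
      AEStronglyMeasurable (fun x => |D.p ((OpData.upd D eps d eta).vd v x) - D.p (v x)|)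
        (volume.restrict (Ann D.R))) ∧
    ∃ K : ℝ, 0 ≤ K ∧ ∀ x ∈ Ann D.R, Real.sqrt (q1 (D.G x) (D1 v x)) ≤ K := by
  have hopen : IsOpen (Ann D.R) := f4_isOpen D.R
  have hms : MeasurableSet (Ann D.R) := hopen.measurableSet
  have hsub := f4_sub D.R
  obtain ⟨B, hB, hBd⟩ := exists_bd hD
  have hvc : ContinuousOn v (cAnn D.R) := hv.cont
  have hvs : ContDiffOn ℝ ∞ v (Ann D.R) := hv.smooth
  have hv0 : ∀ x ∈ cAnn D.R, 0 ≤ v x := hv.nonneg
  have hv1 : ∀ x ∈ cAnn D.R, v x ≤ 1 := hv.le_one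
  have hm1 : ∀ i, AEStronglyMeasurable (fun x => D1 v x i) (volume.restrict (Ann D.R)) := fun _ =>
    ((hvs.continuousOn_fderiv_of_isOpen hopen (by simp)).clm_apply
      continuousOn_const).aestronglyMeasurable hms
  have hmG : ∀ i j, AEStronglyMeasurable (fun x => D.G x i j) (volume.restrict (Ann D.R)) :=
    fun i j => ((hD.G_smooth i j).continuousOn.mono fun x hx =>
      (hD.a_lt.trans hx.1 : D.a < ‖x‖)).aestronglyMeasurable hms
  have hmv : AEStronglyMeasurable v (volume.restrict (Ann D.R)) :=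
    (hvc.mono hsub).aestronglyMeasurable hms
  have hq : ∀ i, Measurable (fun x => (OpData.upd D eps d eta).qd v x i) := fun i =>
    (f4_conv hvc hv0 hv1 (f4_pd_cont (f4_etad_smooth hU) i) (f4_pd_cs (f4_etad_cs hU) i)).1
  have hvd : Measurable ((OpData.upd D eps d eta).vd v) :=
    (f4_conv hvc hv0 hv1 (f4_etad_smooth hU).continuous (f4_etad_cs hU)).1
  have hq1 : ∀ u : E3 → Fin 3 → ℝ, (∀ i, AEStronglyMeasurable (fun x => u x i)
      (volume.restrict (Ann D.R))) → AEStronglyMeasurable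
        (fun x => Real.sqrt (q1 (D.G x) (u x))) (volume.restrict (Ann D.R)) := by
    intro u hu
    refine Real.continuous_sqrt.comp_aestronglyMeasurable ?_
    unfold q1
    exact Finset.aestronglyMeasurable_fun_sum _ fun i _ =>
      Finset.aestronglyMeasurable_fun_sum _ fun j _ => ((hmG i j).mul (hu i)).mul (hu j)
  refine ⟨⟨hq1 _ hm1, ?_, ?_⟩, ?_⟩
  · unfold rho
    refine (hq1 _ hm1).inf ?_
    exact (aestronglyMeasurable_const).add ((hq1 _ fun i =>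
      (hq i).aestronglyMeasurable.sub (hm1 i)).const_mul 2)
  · have h1 : AEStronglyMeasurable (fun x => D.p ((OpData.upd D eps d eta).vd v x) - D.p (v x))
        (volume.restrict (Ann D.R)) :=
      (hD.p_smooth.continuous.comp_aestronglyMeasurable hvd.aestronglyMeasurable).sub
        (hD.p_smooth.continuous.comp_aestronglyMeasurable hmv)
    exact continuous_abs.comp_aestronglyMeasurable h1
  · obtain ⟨w, hw, hwv⟩ := hv.approx 1 one_pos
    have hb1 : ∀ i, ∃ K : ℝ, ∀ x ∈ Ann D.R, |D1 v x i| ≤ K := by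
      intro i
      obtain ⟨K, hK⟩ := (f4_isCompact D.R).exists_bound_of_continuousOn
        ((f4_pd_cont hw.smooth i).continuousOn)
      refine ⟨K + 1, fun x hx => ?_⟩
      have h4 : |pd i w x| ≤ K := by simpa using hK x (hsub hx)
      have h5 := (hwv x hx).2.1 i
      simp only [D1] at h5 ⊢
      have h6 : |pd i v x| ≤ |pd i w x| + |pd i w x - pd i v x| := by
        have : pd i v x = pd i w x - (pd i w x - pd i v x) := by ring
        calc |pd i v x| = |pd i w x - (pd i w x - pd i v x)| := by rw [← this]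
          _ ≤ _ := abs_sub _ _
      linarith
    choose K hK using hb1
    refine ⟨Real.sqrt (9 * B * (K 0 ^ 2 + K 1 ^ 2 + K 2 ^ 2)), Real.sqrt_nonneg _, fun x hx => ?_⟩
    refine Real.sqrt_le_sqrt ((q1_le (hBd x (hsub hx)).1 _).trans ?_)
    refine mul_le_mul_of_nonneg_left ?_ (by positivity)
    have h6 : ∀ i, D1 v x i ^ 2 ≤ K i ^ 2 := fun i => by
      rw [← sq_abs]
      exact pow_le_pow_left₀ (abs_nonneg _) (hK i x hx) 2
    unfold vsq
    rw [Fin.sum_univ_three]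
    linarith [h6 0, h6 1, h6 2]

theorem f4_bdd {R K : ℝ} {f : E3 → ℝ} (hf : AEStronglyMeasurable f (volume.restrict (Ann R)))
    (hK : ∀ x ∈ Ann R, |f x| ≤ K) : IntegrableOn f (Ann R) := by
  refine IntegrableOn.of_bound (f4_vol R) hf K ?_
  rw [ae_restrict_iff' (f4_isOpen R).measurableSet]
  exact Filter.Eventually.of_forall fun x hx => hK x hx

theorem f4_rho_le {G : Matrix (Fin 3) (Fin 3) ℝ} {eps : ℝ} (he : 0 ≤ eps) (q u : Fin 3 → ℝ) :
    0 ≤ rho G eps q u ∧ rho G eps q u ≤ Real.sqrt (q1 G u) :=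
  ⟨le_min (Real.sqrt_nonneg _) (by positivity), min_le_left _ _⟩

theorem f4_int1 {D : OpData} (hD : D.Ok) {eps d : ℝ} {eta : E3 → ℝ}
    (hU : (OpData.upd D eps d eta).Ok) {v : E3 → ℝ} (hv : Sol (OpData.upd D eps d eta) v) :
    IntegrableOn (fun x => rho (D.G x) eps ((OpData.upd D eps d eta).qd v x) (D1 v x))
      (Ann D.R) := by
  obtain ⟨⟨h1, h2, h3⟩, K, hK0, hK⟩ := f4_basic hD hU hv
  refine f4_bdd (K := K) h2 fun x hx => ?_
  obtain ⟨h4, h5⟩ := f4_rho_le (G := D.G x) (eps := eps) hU.eps_pos.le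
    ((OpData.upd D eps d eta).qd v x) (D1 v x)
  rw [abs_of_nonneg h4]
  exact h5.trans (hK x hx)

theorem f4_int2 {D : OpData} (hD : D.Ok) {eps d : ℝ} {eta : E3 → ℝ}
    (hU : (OpData.upd D eps d eta).Ok) {v : E3 → ℝ} (hv : Sol (OpData.upd D eps d eta) v) :
    IntegrableOn (fun x => Real.sqrt (q1 (D.G x) (D1 v x)) ^ 2 *
      rho (D.G x) eps ((OpData.upd D eps d eta).qd v x) (D1 v x)) (Ann D.R) := by
  obtain ⟨⟨h1, h2, h3⟩, K, hK0, hK⟩ := f4_basic hD hU hv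
  refine f4_bdd (K := K ^ 2 * K) ((h1.pow 2).mul h2) fun x hx => ?_
  obtain ⟨h4, h5⟩ := f4_rho_le (G := D.G x) (eps := eps) hU.eps_pos.le
    ((OpData.upd D eps d eta).qd v x) (D1 v x)
  rw [abs_of_nonneg (mul_nonneg (sq_nonneg _) h4)]
  exact mul_le_mul (pow_le_pow_left₀ (Real.sqrt_nonneg _) (hK x hx) 2) (h5.trans (hK x hx)) h4
    (sq_nonneg _)

theorem f4_int3 {D : OpData} (hD : D.Ok) {eps d : ℝ} {eta : E3 → ℝ}
    (hU : (OpData.upd D eps d eta).Ok) {v : E3 → ℝ} (hv : Sol (OpData.upd D eps d eta) v) :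
    IntegrableOn (fun x => Real.sqrt (q1 (D.G x) (D1 v x)) ^ 3 *
      |D.p ((OpData.upd D eps d eta).vd v x) - D.p (v x)|) (Ann D.R) := by
  obtain ⟨⟨h1, h2, h3⟩, K, hK0, hK⟩ := f4_basic hD hU hv
  refine f4_bdd (K := K ^ 3 * 1) ((h1.pow 3).mul h3) fun x hx => ?_
  rw [abs_of_nonneg (mul_nonneg (pow_nonneg (Real.sqrt_nonneg _) 3) (abs_nonneg _))]
  refine mul_le_mul (pow_le_pow_left₀ (Real.sqrt_nonneg _) (hK x hx) 3) ?_ (abs_nonneg _)
    (by positivity)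
  rw [abs_le]
  constructor <;> linarith [hD.p_ge ((OpData.upd D eps d eta).vd v x), hD.p_ge (v x),
    hD.p_le ((OpData.upd D eps d eta).vd v x), hD.p_le (v x), hD.one_lt_p0]

/-- **F4a.** Hoelder. `s = √G(dv,dv)`, `ρ` the misalignment, `δ = |p(v_d) - p(v)| ≤ 1`: with `s² ≤ C vsq`,
`ρ ≤ eps + 2 √(C vsq(q - dv))`, `|p(v_d) - p(v)| ≤ Lp |v_d - v|` (`p` is Lipschitz on `[0,1]`):
`∫ ρ ≤ C (eps + √d)`, `∫ s² ρ ≤ (∫ s⁴)^{1/2} (∫ ρ²)^{1/2}`, `∫ s³ δ ≤ (∫ s⁴)^{3/4} (∫ δ⁴)^{1/4} ≤ C (∫ δ²)^{1/4} ≤ C d^{1/4}`. -/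
theorem err_int {D : OpData} (hD : D.Ok) : ∃ C : ℝ, 0 ≤ C ∧ ∀ (eps d : ℝ) (eta : E3 → ℝ), (OpData.upd D eps d eta).Ok →
    d ≤ 1 → eps ≤ 1 → ∀ v : E3 → ℝ, Sol (OpData.upd D eps d eta) v →
      ∫ x in Ann D.R, (rho (D.G x) eps ((OpData.upd D eps d eta).qd v x) (D1 v x)
        + Real.sqrt (q1 (D.G x) (D1 v x)) ^ 2 * rho (D.G x) eps ((OpData.upd D eps d eta).qd v x) (D1 v x)
        + Real.sqrt (q1 (D.G x) (D1 v x)) ^ 3 * |D.p ((OpData.upd D eps d eta).vd v x) - D.p (v x)|)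
      ≤ C * (eps + d ^ (1 / 4 : ℝ)) := by
  obtain ⟨C2, hC2, h2⟩ := sol_bd hD
  obtain ⟨C3, hC3, h3⟩ := sol_err hD
  obtain ⟨B, hB, hBd⟩ := exists_bd hD
  obtain ⟨L, hL, hLip⟩ := f4_lip hD.p_smooth (fun z => hD.one_lt_p0.le.trans (hD.p_ge z)) hD.p_le
  obtain ⟨V, hV⟩ : ∃ V : ℝ, V = volume.real (Ann D.R) := ⟨_, rfl⟩
  have hV0 : 0 ≤ V := hV ▸ measureReal_nonneg
  refine ⟨2 * V + 72 * B * C3 + V / 2 + 5 / 4 * (81 * B ^ 2 * C2) + L ^ 2 / 4 * C3, by positivity,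
    fun eps d eta hok hd1 he1 v hv => ?_⟩
  have hopen : IsOpen (Ann D.R) := f4_isOpen D.R
  have hms : MeasurableSet (Ann D.R) := hopen.measurableSet
  have hsub := f4_sub D.R
  have hvol := f4_vol D.R
  have : IsFiniteMeasure (volume.restrict (Ann D.R)) := ⟨by simpa using hvol⟩
  have heps : 0 < eps := hok.eps_pos
  have hd : 0 < d := hok.d_pos
  have hvc : ContinuousOn v (cAnn D.R) := hv.cont
  have hvs : ContDiffOn ℝ ∞ v (Ann D.R) := hv.smooth
  have hv0 : ∀ x ∈ cAnn D.R, 0 ≤ v x := hv.nonneg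
  have hv1 : ∀ x ∈ cAnn D.R, v x ≤ 1 := hv.le_one
  -- first derivatives
  have hcont1 : ∀ i, ContinuousOn (fun x => D1 v x i) (Ann D.R) := by
    intro i
    exact (hvs.continuousOn_fderiv_of_isOpen hopen (by simp)).clm_apply continuousOn_const
  have hs1 : ∀ i, ContDiffOn ℝ ∞ (fun x => pd i v x) (Ann D.R) := by
    intro i
    exact (hvs.fderiv_of_isOpen hopen (by simp)).clm_apply contDiffOn_const
  have hcont2 : ∀ i j, ContinuousOn (fun x => D2 v x i j) (Ann D.R) := by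
    intro i j
    exact ((hs1 j).continuousOn_fderiv_of_isOpen hopen (by simp)).clm_apply continuousOn_const
  obtain ⟨w, hw, hwv⟩ := hv.approx 1 one_pos
  have hb1 : ∀ i, ∃ K : ℝ, ∀ x ∈ Ann D.R, |D1 v x i| ≤ K := by
    intro i
    obtain ⟨K, hK⟩ := (f4_isCompact D.R).exists_bound_of_continuousOn
      ((f4_pd_cont hw.smooth i).continuousOn)
    refine ⟨K + 1, fun x hx => ?_⟩
    have h4 : |pd i w x| ≤ K := by simpa using hK x (hsub hx)
    have h5 := (hwv x hx).2.1 i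
    simp only [D1] at h5 ⊢
    have h6 : |pd i v x| ≤ |pd i w x| + |pd i w x - pd i v x| := by
      have : pd i v x = pd i w x - (pd i w x - pd i v x) := by ring
      calc |pd i v x| = |pd i w x - (pd i w x - pd i v x)| := by rw [← this]
        _ ≤ _ := abs_sub _ _
    linarith
  have hb2 : ∀ i j, ∃ K : ℝ, ∀ x ∈ Ann D.R, |D2 v x i j| ≤ K := by
    intro i j
    have hsw : ContDiff ℝ ∞ (pd j w) := by
      unfold Pool.Agent.Lib.PenroseSph.pd
      exact (hw.smooth.fderiv_right (m := ∞) (by simp)).clm_apply contDiff_const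
    obtain ⟨K, hK⟩ := (f4_isCompact D.R).exists_bound_of_continuousOn
      ((f4_pd_cont hsw i).continuousOn)
    refine ⟨K + 1, fun x hx => ?_⟩
    have h4 : |pd i (pd j w) x| ≤ K := by simpa using hK x (hsub hx)
    have h5 := (hwv x hx).2.2 i j
    simp only [D2] at h5 ⊢
    have h6 : |pd i (pd j v) x| ≤ |pd i (pd j w) x| + |pd i (pd j w) x - pd i (pd j v) x| := by
      have : pd i (pd j v) x = pd i (pd j w) x - (pd i (pd j w) x - pd i (pd j v) x) := by ring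
      calc |pd i (pd j v) x| = |pd i (pd j w) x - (pd i (pd j w) x - pd i (pd j v) x)| := by
            rw [← this]
        _ ≤ _ := abs_sub _ _
    linarith
  -- integrability on the annulus
  have hint : ∀ f : E3 → ℝ, AEStronglyMeasurable f (volume.restrict (Ann D.R)) →
      (∃ K : ℝ, ∀ x ∈ Ann D.R, |f x| ≤ K) → IntegrableOn f (Ann D.R) := by
    intro f hf hK
    obtain ⟨K, hK⟩ := hK
    refine IntegrableOn.of_bound hvol hf K ?_
    rw [ae_restrict_iff' hms]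
    exact Filter.Eventually.of_forall fun x hx => hK x hx
  have hm1 : ∀ i, AEStronglyMeasurable (fun x => D1 v x i) (volume.restrict (Ann D.R)) :=
    fun i => (hcont1 i).aestronglyMeasurable hms
  have hm2 : ∀ i j, AEStronglyMeasurable (fun x => D2 v x i j) (volume.restrict (Ann D.R)) :=
    fun i j => (hcont2 i j).aestronglyMeasurable hms
  have hmv : AEStronglyMeasurable v (volume.restrict (Ann D.R)) :=
    (hvc.mono hsub).aestronglyMeasurable hms
  -- the mollified quantities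
  have hq : ∀ i, Measurable (fun x => (OpData.upd D eps d eta).qd v x i) ∧
      ∃ M : ℝ, ∀ x, |(OpData.upd D eps d eta).qd v x i| ≤ M := fun i =>
    f4_conv hvc hv0 hv1 (f4_pd_cont (f4_etad_smooth hok) i) (f4_pd_cs (f4_etad_cs hok) i)
  have hvd : Measurable ((OpData.upd D eps d eta).vd v) ∧
      ∃ M : ℝ, ∀ x, |(OpData.upd D eps d eta).vd v x| ≤ M :=
    f4_conv hvc hv0 hv1 (f4_etad_smooth hok).continuous (f4_etad_cs hok)
  obtain ⟨K1, hK1⟩ : ∃ K : ℝ, ∀ x ∈ Ann D.R, ∀ i, |D1 v x i| ≤ K := by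
    choose K hK using hb1
    refine ⟨∑ i, |K i|, fun x hx i => (hK i x hx).trans ((le_abs_self _).trans ?_)⟩
    exact Finset.single_le_sum (f := fun i => |K i|) (fun j _ => abs_nonneg _) (Finset.mem_univ i)
  obtain ⟨K2, hK2⟩ : ∃ K : ℝ, ∀ x ∈ Ann D.R, ∀ i j, |D2 v x i j| ≤ K := by
    choose K hK using hb2
    refine ⟨∑ i, ∑ j, |K i j|, fun x hx i j => (hK i j x hx).trans ((le_abs_self _).trans ?_)⟩
    refine (Finset.single_le_sum (f := fun j => |K i j|) (fun j _ => abs_nonneg _)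
      (Finset.mem_univ j)).trans ?_
    exact Finset.single_le_sum (f := fun i => ∑ j, |K i j|)
      (fun i _ => Finset.sum_nonneg fun j _ => abs_nonneg _) (Finset.mem_univ i)
  obtain ⟨K3, hK3⟩ : ∃ K : ℝ, ∀ x i, |(OpData.upd D eps d eta).qd v x i| ≤ K := by
    choose K hK using fun i => (hq i).2
    refine ⟨∑ i, |K i|, fun x i => (hK i x).trans ((le_abs_self _).trans ?_)⟩
    exact Finset.single_le_sum (f := fun i => |K i|) (fun j _ => abs_nonneg _) (Finset.mem_univ i)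
  obtain ⟨K4, hK4⟩ := hvd.2
  have hvsqb : ∀ (u : Fin 3 → ℝ) (K : ℝ), (∀ i, |u i| ≤ K) → vsq u ≤ 3 * K ^ 2 := by
    intro u K hu
    unfold vsq
    rw [Fin.sum_univ_three]
    have h6 : ∀ i, u i ^ 2 ≤ K ^ 2 := fun i => by
      rw [← sq_abs]
      exact pow_le_pow_left₀ (abs_nonneg _) (hu i) 2
    linarith [h6 0, h6 1, h6 2]
  have hmvsq : ∀ u : E3 → Fin 3 → ℝ, (∀ i, AEStronglyMeasurable (fun x => u x i)
      (volume.restrict (Ann D.R))) → AEStronglyMeasurable (fun x => vsq (u x))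
      (volume.restrict (Ann D.R)) := by
    intro u hu
    unfold vsq
    exact Finset.aestronglyMeasurable_fun_sum _ fun i _ => (hu i).pow 2
  have iW : IntegrableOn (fun x => vsq (D1 v x) ^ 2) (Ann D.R) := by
    refine hint _ ((hmvsq _ hm1).pow 2) ⟨(3 * K1 ^ 2) ^ 2, fun x hx => ?_⟩
    rw [abs_of_nonneg (sq_nonneg _)]
    exact pow_le_pow_left₀ (f4_vsq_nonneg _) (hvsqb _ _ (hK1 x hx)) 2
  have iW1 : IntegrableOn (fun x => vsq (D1 v x)) (Ann D.R) := by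
    refine hint _ (hmvsq _ hm1) ⟨3 * K1 ^ 2, fun x hx => ?_⟩
    rw [abs_of_nonneg (f4_vsq_nonneg _)]
    exact hvsqb _ _ (hK1 x hx)
  have iW2 : IntegrableOn (fun x => fsq (D2 v x)) (Ann D.R) := by
    refine hint _ ?_ ⟨9 * K2 ^ 2, fun x hx => ?_⟩
    · unfold fsq
      exact Finset.aestronglyMeasurable_fun_sum _ fun i _ =>
        Finset.aestronglyMeasurable_fun_sum _ fun j _ => (hm2 i j).pow 2
    · have h6 : ∀ i j, D2 v x i j ^ 2 ≤ K2 ^ 2 := fun i j => by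
        rw [← sq_abs]
        exact pow_le_pow_left₀ (abs_nonneg _) (hK2 x hx i j) 2
      have h7 : 0 ≤ fsq (D2 v x) :=
        Finset.sum_nonneg fun i _ => Finset.sum_nonneg fun j _ => sq_nonneg _
      rw [abs_of_nonneg h7]
      unfold fsq
      simp only [Fin.sum_univ_three]
      linarith [h6 0 0, h6 0 1, h6 0 2, h6 1 0, h6 1 1, h6 1 2, h6 2 0, h6 2 1, h6 2 2]
  have iE : IntegrableOn (fun x => vsq (fun i => (OpData.upd D eps d eta).qd v x i - D1 v x i))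
      (Ann D.R) := by
    refine hint _ (hmvsq _ fun i => (hq i).1.aestronglyMeasurable.sub (hm1 i))
      ⟨3 * (K3 + K1) ^ 2, fun x hx => ?_⟩
    rw [abs_of_nonneg (f4_vsq_nonneg _)]
    exact hvsqb _ _ fun i => (abs_sub _ _).trans (add_le_add (hK3 x i) (hK1 x hx i))
  have iF : IntegrableOn (fun x => ((OpData.upd D eps d eta).vd v x - v x) ^ 2) (Ann D.R) := by
    refine hint _ ((hvd.1.aestronglyMeasurable.sub hmv).pow 2) ⟨(K4 + 1) ^ 2, fun x hx => ?_⟩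
    rw [abs_of_nonneg (sq_nonneg _), ← sq_abs]
    refine pow_le_pow_left₀ (abs_nonneg _) ((abs_sub _ _).trans (add_le_add (hK4 x) ?_)) 2
    rw [abs_of_nonneg (hv0 x (hsub hx))]
    exact hv1 x (hsub hx)
  have bW : ∫ x in Ann D.R, vsq (D1 v x) ^ 2 ≤ C2 := by
    refine le_trans ?_ (h2 eps d eta hok v hv)
    refine integral_mono iW ((iW2.add iW1).add iW) fun x => ?_
    have h7 : 0 ≤ fsq (D2 v x) :=
      Finset.sum_nonneg fun i _ => Finset.sum_nonneg fun j _ => sq_nonneg _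
    have h8 := f4_vsq_nonneg (D1 v x)
    simp only [Pi.add_apply]
    linarith
  obtain ⟨bE, bF⟩ := h3 eps d eta hok hd1 v hv
  -- the parameters
  obtain ⟨σ, hσd⟩ : ∃ σ : ℝ, σ = d ^ (1 / 4 : ℝ) := ⟨_, rfl⟩
  rw [← hσd]
  have hσ : 0 < σ := hσd ▸ Real.rpow_pos_of_pos hd _
  have hσ4 : σ ^ 4 = d := by
    rw [hσd, ← Real.rpow_natCast, ← Real.rpow_mul hd.le]
    norm_num
  have hσ1 : σ ≤ 1 := by
    by_contra hcon
    have : 1 < σ ^ 4 := one_lt_pow₀ (not_le.1 hcon) (by norm_num)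
    linarith
  obtain ⟨τ, hτd⟩ : ∃ τ : ℝ, τ = eps + σ := ⟨_, rfl⟩
  have hτ : 0 < τ := by rw [hτd]; positivity
  have hpt : ∀ x ∈ Ann D.R, (rho (D.G x) eps ((OpData.upd D eps d eta).qd v x) (D1 v x)
        + Real.sqrt (q1 (D.G x) (D1 v x)) ^ 2 *
          rho (D.G x) eps ((OpData.upd D eps d eta).qd v x) (D1 v x)
        + Real.sqrt (q1 (D.G x) (D1 v x)) ^ 3 *
          |D.p ((OpData.upd D eps d eta).vd v x) - D.p (v x)|)
      ≤ τ⁻¹ * (2 * eps ^ 2 + 72 * B *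
          vsq (fun i => (OpData.upd D eps d eta).qd v x i - D1 v x i)) + τ / 2
        + (τ / 2 + 3 / 4 * σ) * (81 * B ^ 2 * vsq (D1 v x) ^ 2)
        + L ^ 2 / 4 * (σ⁻¹) ^ 3 * ((OpData.upd D eps d eta).vd v x - v x) ^ 2 := by
    intro x hx
    have hGb := (hBd x (hsub hx)).1
    have hxa : D.a < ‖x‖ := hD.a_lt.trans hx.1
    have hG0 : ∀ u : Fin 3 → ℝ, 0 ≤ q1 (D.G x) u := a3_q1_nonneg (hD.G_pos x hxa)
    have hs2 : Real.sqrt (q1 (D.G x) (D1 v x)) ^ 2 ≤ 9 * B * vsq (D1 v x) := by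
      rw [Real.sq_sqrt (hG0 _)]
      exact q1_le hGb _
    have hρ0 : 0 ≤ rho (D.G x) eps ((OpData.upd D eps d eta).qd v x) (D1 v x) :=
      le_min (Real.sqrt_nonneg _) (by positivity)
    refine f4_point (d := d) hB hτ hσ (Real.sqrt_nonneg _) hs2 (f4_vsq_nonneg _) hρ0 ?_
      (abs_nonneg _) ?_ ?_
    · have h9 : rho (D.G x) eps ((OpData.upd D eps d eta).qd v x) (D1 v x) ≤
          eps + 2 * Real.sqrt (q1 (D.G x)
            (fun i => (OpData.upd D eps d eta).qd v x i - D1 v x i)) := min_le_right _ _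
      have h10 := q1_le hGb (fun i => (OpData.upd D eps d eta).qd v x i - D1 v x i)
      have h11 := Real.sq_sqrt (hG0 (fun i => (OpData.upd D eps d eta).qd v x i - D1 v x i))
      have h12 := Real.sqrt_nonneg (q1 (D.G x)
            (fun i => (OpData.upd D eps d eta).qd v x i - D1 v x i))
      have h13 := pow_le_pow_left₀ hρ0 h9 2
      nlinarith [sq_nonneg (eps - 2 * Real.sqrt (q1 (D.G x)
            (fun i => (OpData.upd D eps d eta).qd v x i - D1 v x i)))]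
    · rw [abs_le]
      constructor <;> linarith [hD.p_ge ((OpData.upd D eps d eta).vd v x), hD.p_ge (v x),
        hD.p_le ((OpData.upd D eps d eta).vd v x), hD.p_le (v x), hD.one_lt_p0]
    · have h14 := hLip ((OpData.upd D eps d eta).vd v x) (v x) (hv0 x (hsub hx)) (hv1 x (hsub hx))
      have h15 := pow_le_pow_left₀ (abs_nonneg _) h14 2
      rw [mul_pow, sq_abs ((OpData.upd D eps d eta).vd v x - v x)] at h15
      exact h15
  have hi : IntegrableOn (fun x => τ⁻¹ * (2 * eps ^ 2 + 72 * B *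
          vsq (fun i => (OpData.upd D eps d eta).qd v x i - D1 v x i)) + τ / 2
        + (τ / 2 + 3 / 4 * σ) * (81 * B ^ 2 * vsq (D1 v x) ^ 2)
        + L ^ 2 / 4 * (σ⁻¹) ^ 3 * ((OpData.upd D eps d eta).vd v x - v x) ^ 2) (Ann D.R) := by
    have hc : ∀ c : ℝ, IntegrableOn (fun _ : E3 => c) (Ann D.R) := fun c => integrable_const c
    exact (((((hc _).add (iE.const_mul _)).const_mul _).add (hc _)).add
      ((iW.const_mul _).const_mul _)).add (iF.const_mul _)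
  have hval : ∫ x in Ann D.R, (τ⁻¹ * (2 * eps ^ 2 + 72 * B *
          vsq (fun i => (OpData.upd D eps d eta).qd v x i - D1 v x i)) + τ / 2
        + (τ / 2 + 3 / 4 * σ) * (81 * B ^ 2 * vsq (D1 v x) ^ 2)
        + L ^ 2 / 4 * (σ⁻¹) ^ 3 * ((OpData.upd D eps d eta).vd v x - v x) ^ 2)
      = τ⁻¹ * (2 * eps ^ 2 * V + 72 * B *
          ∫ x in Ann D.R, vsq (fun i => (OpData.upd D eps d eta).qd v x i - D1 v x i)) + τ / 2 * V
        + (τ / 2 + 3 / 4 * σ) * (81 * B ^ 2 * ∫ x in Ann D.R, vsq (D1 v x) ^ 2)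
        + L ^ 2 / 4 * (σ⁻¹) ^ 3 *
          ∫ x in Ann D.R, ((OpData.upd D eps d eta).vd v x - v x) ^ 2 := by
    have h31 := f4_int iE iW iF τ⁻¹ (2 * eps ^ 2) (72 * B) (τ / 2) (τ / 2 + 3 / 4 * σ)
      (81 * B ^ 2) (L ^ 2 / 4 * (σ⁻¹) ^ 3)
    rw [measureReal_restrict_apply_univ, ← hV] at h31
    exact h31
  have hρnn : ∀ x ∈ Ann D.R, 0 ≤ (rho (D.G x) eps ((OpData.upd D eps d eta).qd v x) (D1 v x)
        + Real.sqrt (q1 (D.G x) (D1 v x)) ^ 2 *
          rho (D.G x) eps ((OpData.upd D eps d eta).qd v x) (D1 v x)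
        + Real.sqrt (q1 (D.G x) (D1 v x)) ^ 3 *
          |D.p ((OpData.upd D eps d eta).vd v x) - D.p (v x)|) := by
    intro x hx
    have hρ0 : 0 ≤ rho (D.G x) eps ((OpData.upd D eps d eta).qd v x) (D1 v x) :=
      le_min (Real.sqrt_nonneg _) (by positivity)
    positivity
  refine le_trans (integral_mono_of_nonneg ?_ hi ?_) ?_
  · rw [Filter.EventuallyLE, ae_restrict_iff' hms]
    exact Filter.Eventually.of_forall hρnn
  · rw [Filter.EventuallyLE, ae_restrict_iff' hms]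
    exact Filter.Eventually.of_forall hpt
  · rw [hval]
    have hτi : 0 < τ⁻¹ := inv_pos.2 hτ
    have hσi : 0 < σ⁻¹ := inv_pos.2 hσ
    have hτσ : τ * τ⁻¹ = 1 := mul_inv_cancel₀ hτ.ne'
    have c1 : τ⁻¹ * (2 * eps ^ 2 * V) ≤ 2 * V * τ := by
      have h16 : eps ^ 2 ≤ τ ^ 2 := pow_le_pow_left₀ heps.le (by rw [hτd]; linarith) 2
      have h17 : τ⁻¹ * (2 * eps ^ 2 * V) ≤ τ⁻¹ * (2 * τ ^ 2 * V) := by gcongr
      have h18 : τ⁻¹ * (2 * τ ^ 2 * V) = 2 * V * τ * (τ * τ⁻¹) := by ring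
      rw [h18, hτσ, mul_one] at h17
      exact h17
    have c2 : τ⁻¹ * (72 * B *
          ∫ x in Ann D.R, vsq (fun i => (OpData.upd D eps d eta).qd v x i - D1 v x i)) ≤
        72 * B * C3 * τ := by
      have h19 : d ≤ τ ^ 2 := by
        have h20 : σ ^ 2 ≤ τ ^ 2 := pow_le_pow_left₀ hσ.le (by rw [hτd]; linarith) 2
        have h21 : σ ^ 4 ≤ σ ^ 2 := pow_le_pow_of_le_one hσ.le hσ1 (by norm_num)
        linarith
      have h22 : τ⁻¹ * (72 * B *
          ∫ x in Ann D.R, vsq (fun i => (OpData.upd D eps d eta).qd v x i - D1 v x i)) ≤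
          τ⁻¹ * (72 * B * (C3 * τ ^ 2)) := by
        have h23 : ∫ x in Ann D.R, vsq (fun i => (OpData.upd D eps d eta).qd v x i - D1 v x i) ≤
            C3 * τ ^ 2 := bE.trans (mul_le_mul_of_nonneg_left h19 hC3)
        gcongr
      have h24 : τ⁻¹ * (72 * B * (C3 * τ ^ 2)) = 72 * B * C3 * τ * (τ * τ⁻¹) := by ring
      rw [h24, hτσ, mul_one] at h22
      exact h22
    have c3 : (τ / 2 + 3 / 4 * σ) * (81 * B ^ 2 * ∫ x in Ann D.R, vsq (D1 v x) ^ 2) ≤
        5 / 4 * (81 * B ^ 2 * C2) * τ := by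
      have h25 : σ ≤ τ := by rw [hτd]; linarith
      have h26 : (τ / 2 + 3 / 4 * σ) * (81 * B ^ 2 * ∫ x in Ann D.R, vsq (D1 v x) ^ 2) ≤
          (τ / 2 + 3 / 4 * σ) * (81 * B ^ 2 * C2) := by gcongr
      have h27 : 0 ≤ 81 * B ^ 2 * C2 := by positivity
      nlinarith
    have c4 : L ^ 2 / 4 * (σ⁻¹) ^ 3 *
          ∫ x in Ann D.R, ((OpData.upd D eps d eta).vd v x - v x) ^ 2 ≤ L ^ 2 / 4 * C3 * τ := by
      have h28 : L ^ 2 / 4 * (σ⁻¹) ^ 3 *
          ∫ x in Ann D.R, ((OpData.upd D eps d eta).vd v x - v x) ^ 2 ≤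
          L ^ 2 / 4 * (σ⁻¹) ^ 3 * (C3 * d) := by gcongr
      have h29 : L ^ 2 / 4 * (σ⁻¹) ^ 3 * (C3 * d) = L ^ 2 / 4 * C3 * σ * (σ⁻¹ * σ) ^ 3 := by
        rw [← hσ4]; ring
      rw [h29, inv_mul_cancel₀ hσ.ne', one_pow, mul_one] at h28
      have h30 : L ^ 2 / 4 * C3 * σ ≤ L ^ 2 / 4 * C3 * τ := by
        have : σ ≤ τ := by rw [hτd]; linarith
        gcongr
      exact h28.trans h30
    rw [mul_add, ← hτd]
    linarith

end UMB.W
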