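import Pool.Agent.Lib.UMB.W.Defs

/-! # UMB.W chunk M1: divergence theorem on the unit ball -/

set_option autoImplicit false

open Filter Topology Set MeasureTheory
open scoped ContDiff BigOperators
open Pool.Agent.Lib.PenroseSph (E3 Tens pd)
open UMB.Lin (Ann cAnn sig)

namespace UMB.W

theorem m1_cont {f : E3 → ℝ} (hf : ContDiff ℝ 1 f) (i : Fin 3) : Continuous (pd i f) := by
  unfold pd
  exact (hf.continuous_fderiv (by norm_num)).clm_apply continuous_const

theorem m1_supp {f : E3 → ℝ} (hc : HasCompactSupport f) (i : Fin 3) : HasCompactSupport (pd i f) := by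
  have h := hc.fderiv (𝕜 := ℝ)
  refine h.mono ?_
  intro x hx
  rw [Function.mem_support] at hx ⊢
  intro h0
  apply hx
  unfold pd
  rw [h0]
  simp

theorem m1_zero {f : E3 → ℝ} (hf : ContDiff ℝ 1 f) (hc : HasCompactSupport f) (i : Fin 3) :
    ∫ x, pd i f x = 0 := by
  have h1 : Integrable f := hf.continuous.integrable_of_hasCompactSupport hc
  have h2 : Integrable (pd i f) := (m1_cont hf i).integrable_of_hasCompactSupport (m1_supp hc i)
  have h := integral_mul_fderiv_eq_neg_fderiv_mul_of_integrable (μ := (volume : Measure E3)) (f := f)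
    (g := fun _ => (1 : ℝ)) (v := EuclideanSpace.single i 1) (by
      have h3 : (fun x => (fderiv ℝ f x) (EuclideanSpace.single i 1) * (1 : ℝ)) = pd i f := by
        funext x
        simp [pd]
      rw [h3]
      exact h2) (by simp)
    (by simpa using h1) (fun x _ => (hf.differentiable (by norm_num)).differentiableAt)
    (fun x _ => differentiableAt_const _)
  simp only [fderiv_fun_const, Pi.zero_apply, ContinuousLinearMap.zero_apply, mul_zero, integral_zero, mul_one] at h
  unfold pd
  linarith

/-- **M1.** `∫_{E3} ∂_i f = 0` (compact support: `integral_fderiv_eq_zero`-type lemma or Fubini), `= ∫_ball + ∫_{Ann R'}` for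
large `R'` (spheres are null sets, `f = 0` near and outside `|x| = R'`), and `∫_{Ann R'} ∂_i f = - ∫_{S²} f n_i` by
`UMB.Lin.int_pd`. -/
theorem ball_div {f : E3 → ℝ} (hf : ContDiff ℝ 1 f) (hc : HasCompactSupport f) (i : Fin 3) :
    ∫ x in Metric.ball (0 : E3) 1, pd i f x = ∫ n : Metric.sphere (0 : E3) 1, f (n : E3) * (n : E3) i ∂sig := by
  obtain ⟨r, hr⟩ := hc.isCompact.isBounded.subset_closedBall (0 : E3)
  set R : ℝ := max r 1 + 1 with hRdef
  have hR : 1 < R := by have := le_max_right r 1; linarith
  have hfz : ∀ x : E3, r < ‖x‖ → f x = 0 := by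
    intro x hx
    by_contra hne
    have := hr (subset_tsupport f hne)
    rw [mem_closedBall_zero_iff] at this
    linarith
  have hpz : ∀ x : E3, r < ‖x‖ → pd i f x = 0 := by
    intro x hx
    have hev : f =ᶠ[𝓝 x] fun _ => (0 : ℝ) := by
      have : {y : E3 | r < ‖y‖} ∈ 𝓝 x := (isOpen_lt continuous_const continuous_norm).mem_nhds hx
      filter_upwards [this] with y hy using hfz y hy
    unfold pd
    rw [hev.fderiv_eq]
    simp
  have hint : Integrable (pd i f) := (m1_cont hf i).integrable_of_hasCompactSupport (m1_supp hc i)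
  have h0 := m1_zero hf hc i
  have hsplit : (∫ x in Metric.ball (0 : E3) 1, pd i f x) + ∫ x in (Metric.ball (0 : E3) 1)ᶜ, pd i f x = 0 := by
    rw [integral_add_compl measurableSet_ball hint, h0]
  have hcomp : ∫ x in (Metric.ball (0 : E3) 1)ᶜ, pd i f x = ∫ x in Ann R, pd i f x := by
    have hae : ((Metric.ball (0 : E3) 1)ᶜ : Set E3) =ᵐ[volume] (Metric.closedBall (0 : E3) 1)ᶜ := by
      have hs : (volume : Measure E3) (Metric.sphere (0 : E3) 1) = 0 := Measure.addHaar_sphere _ _ _
      have : ∀ᵐ x ∂(volume : Measure E3), x ∉ Metric.sphere (0 : E3) 1 := by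
        rw [ae_iff]
        simp only [not_not]
        exact hs
      filter_upwards [this] with x hx
      apply propext
      show x ∉ Metric.ball (0 : E3) 1 ↔ x ∉ Metric.closedBall (0 : E3) 1
      rw [mem_ball_zero_iff, mem_closedBall_zero_iff]
      rw [mem_sphere_zero_iff_norm] at hx
      constructor
      · intro h1 h2
        exact hx (le_antisymm h2 (not_lt.1 h1))
      · intro h1 h2
        exact h1 h2.le
    rw [setIntegral_congr_set hae]
    apply setIntegral_eq_of_subset_of_forall_sdiff_eq_zero measurableSet_closedBall.compl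
    · intro x hx
      show x ∉ Metric.closedBall (0 : E3) 1
      rw [mem_closedBall_zero_iff, not_le]
      exact hx.1
    · intro x hx
      apply hpz
      have h1 : 1 < ‖x‖ := by
        have := hx.1
        rw [mem_compl_iff, mem_closedBall_zero_iff, not_le] at this
        exact this
      have h2 : ¬ ‖x‖ < R := fun h => hx.2 ⟨h1, h⟩
      have := le_max_left r 1
      rw [not_lt] at h2
      linarith
  have hann := UMB.Lin.int_pd hR i hf
  have hout : (∫ n : Metric.sphere (0 : E3) 1, f (R • (n : E3)) * (n : E3) i ∂sig) = 0 := by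
    have : ∀ n : Metric.sphere (0 : E3) 1, f (R • (n : E3)) * (n : E3) i = 0 := by
      intro n
      rw [hfz, zero_mul]
      rw [norm_smul]
      have hn : ‖(n : E3)‖ = 1 := by simp
      rw [hn, mul_one, Real.norm_of_nonneg (by linarith)]
      have := le_max_left r 1
      linarith
    simp [this]
  rw [hout] at hann
  rw [hcomp, hann] at hsplit
  linarith

end UMB.W
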