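import Pool.Agent.Lib.UMB.W.M0
import Pool.Agent.Lib.UMB.W.M1

/-! # UMB.W chunk M2: the mollified gradient is the mollification of the gradient -/

set_option autoImplicit false

open Filter Topology Set MeasureTheory
open scoped ContDiff BigOperators
open Pool.Agent.Lib.PenroseSph (E3 Tens pd)
open UMB.Lin (Ann cAnn sig)

namespace UMB.W

theorem m2_sphere (r : ℝ) : ∀ᵐ y ∂(volume : Measure E3), ‖y‖ ≠ r := by
  have hs : (volume : Measure E3) (Metric.sphere (0 : E3) r) = 0 := Measure.addHaar_sphere _ _ _
  rw [ae_iff]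
  refine measure_mono_null ?_ hs
  intro y hy
  simp only [not_not, mem_setOf_eq] at hy
  rw [mem_sphere_zero_iff_norm]
  exact hy

theorem m2_pd {η : E3 → ℝ} (hη : ContDiff ℝ ∞ η) (x : E3) (i : Fin 3) (y : E3) :
    pd i (fun y => η (x - y)) y = - pd i η (x - y) := by
  unfold pd
  have h1 : HasFDerivAt (fun y : E3 => x - y) (-(ContinuousLinearMap.id ℝ E3)) y := by
    have h0 := (hasFDerivAt_id (𝕜 := ℝ) y).const_sub x
    exact h0
  have h2 : HasFDerivAt η (fderiv ℝ η (x - y)) (x - y) :=
    (hη.differentiable (by simp)).differentiableAt.hasFDerivAt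
  have h3 := h2.comp y h1
  have h4 : fderiv ℝ (fun y => η (x - y)) y = (fderiv ℝ η (x - y)).comp (-(ContinuousLinearMap.id ℝ E3)) := h3.fderiv
  rw [h4]
  simp

theorem m2_supp {d : ℝ} {η : E3 → ℝ} (hη : Mol d η) (x : E3) : HasCompactSupport (fun y => η (x - y)) := by
  apply HasCompactSupport.of_support_subset_isCompact (isCompact_closedBall x d)
  intro y hy
  rw [Metric.mem_closedBall, dist_eq_norm]
  by_contra hcon
  rw [not_le] at hcon
  apply hy
  apply hη.supp
  rw [← norm_neg, neg_sub]
  exact hcon.le

/-- **M2.** `(pd i η)(x - y) = - ∂_{y_i} [η(x-y)]`. `ext` is `1` on the ball, `w` on the closed annulus, `0` outside. On the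
ball M1, on the annulus `UMB.Lin.int_pd` for `y ↦ w y η(x-y)` (`w = 1` resp. `0` on the spheres): the two boundary integrals
over the unit sphere cancel. Stated for a general mollifier. -/
theorem moll_grad {R d : ℝ} (hR : 1 < R) (hd : 0 < d) {η : E3 → ℝ} (hη : Mol d η) {w : E3 → ℝ} (hw : Cls R w)
    (x : E3) (i : Fin 3) :
    ∫ y, ext R w y * pd i η (x - y) = ∫ y in Ann R, pd i w y * η (x - y) := by
  have hgs : ContDiff ℝ ∞ (fun y : E3 => η (x - y)) := hη.smooth.comp (contDiff_const.sub contDiff_id)
  obtain ⟨g, hg⟩ : ∃ g : E3 → ℝ, g = fun y => η (x - y) := ⟨_, rfl⟩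
  have hgsm : ContDiff ℝ ∞ g := hg ▸ hgs
  have hg1 : ContDiff ℝ 1 g := by exact_mod_cast contDiff_infty.1 hgsm 1
  have hw1 : ContDiff ℝ 1 w := by exact_mod_cast contDiff_infty.1 hw.smooth 1
  have hgc : HasCompactSupport g := hg ▸ m2_supp hη x
  have hpg : ∀ y, pd i η (x - y) = - pd i g y := by
    intro y
    rw [hg, m2_pd hη.smooth x i y, neg_neg]
  have hcpg : Continuous (pd i g) := m1_cont hg1 i
  have hcpw : Continuous (pd i w) := m1_cont hw1 i
  have hball := ball_div hg1 hgc i
  have hprod := UMB.Lin.int_pd hR i (hw1.mul hg1)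
  have hout : (∫ n : Metric.sphere (0 : E3) 1, w (R • (n : E3)) * g (R • (n : E3)) * (n : E3) i ∂sig) = 0 := by
    have : ∀ n : Metric.sphere (0 : E3) 1, w (R • (n : E3)) * g (R • (n : E3)) * (n : E3) i = 0 := by
      intro n
      rw [hw.zero, zero_mul, zero_mul]
      rw [norm_smul]
      have hn : ‖(n : E3)‖ = 1 := by simp
      rw [hn, mul_one, Real.norm_of_nonneg (by linarith)]
    simp [this]
  have hin : (∫ n : Metric.sphere (0 : E3) 1, w (n : E3) * g (n : E3) * (n : E3) i ∂sig)
      = ∫ n : Metric.sphere (0 : E3) 1, g (n : E3) * (n : E3) i ∂sig := by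
    apply integral_congr_ae
    filter_upwards with n
    rw [hw.one _ (by simp), one_mul]
  rw [hout, hin, mul_zero, zero_sub] at hprod
  have hpdm : ∀ y, pd i (fun y => w y * g y) y = pd i w y * g y + w y * pd i g y := by
    intro y
    unfold pd
    rw [fderiv_fun_mul (hw1.differentiable (by norm_num)).differentiableAt
      (hg1.differentiable (by norm_num)).differentiableAt]
    simp
    ring
  have hprod2 : (∫ y in Ann R, pd i w y * g y) + ∫ y in Ann R, w y * pd i g y
      = - ∫ n : Metric.sphere (0 : E3) 1, g (n : E3) * (n : E3) i ∂sig := by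
    have i1 : IntegrableOn (fun y => pd i w y * g y) (Ann R) := UMB.Lin.integrableOn_Ann (hcpw.mul hgsm.continuous)
    have i2 : IntegrableOn (fun y => w y * pd i g y) (Ann R) := UMB.Lin.integrableOn_Ann (hw1.continuous.mul hcpg)
    rw [← integral_add i1 i2, ← hprod]
    apply integral_congr_ae
    filter_upwards with y
    exact (hpdm y).symm
  have hsplit : ∫ y, ext R w y * pd i η (x - y)
      = (∫ y in Metric.ball (0 : E3) 1, - pd i g y) + ∫ y in Ann R, - (w y * pd i g y) := by
    rw [← integral_indicator measurableSet_ball, ← integral_indicator (UMB.Lin.measurableSet_Ann R),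
      ← integral_add]
    · apply integral_congr_ae
      filter_upwards [m2_sphere 1, m2_sphere R] with y hy1 hy2
      rw [hpg y]
      by_cases h1 : ‖y‖ < 1
      · have ha : y ∈ Metric.ball (0 : E3) 1 := by simpa using h1
        have hb : y ∉ Ann R := fun h => by
          have := h.1
          linarith
        rw [indicator_of_mem ha, indicator_of_notMem hb]
        simp [ext, h1]
      · have ha : y ∉ Metric.ball (0 : E3) 1 := by simpa using h1
        by_cases h2 : ‖y‖ ≤ R
        · have hb : y ∈ Ann R := ⟨lt_of_le_of_ne (not_lt.1 h1) (Ne.symm hy1), lt_of_le_of_ne h2 hy2⟩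
          rw [indicator_of_notMem ha, indicator_of_mem hb]
          simp [ext, h1, h2]
        · have hb : y ∉ Ann R := fun h => h2 h.2.le
          rw [indicator_of_notMem ha, indicator_of_notMem hb]
          simp [ext, h1, h2]
    · rw [integrable_indicator_iff measurableSet_ball]
      exact ((hcpg.integrable_of_hasCompactSupport (m1_supp hgc i)).neg).integrableOn
    · rw [integrable_indicator_iff (UMB.Lin.measurableSet_Ann R)]
      exact UMB.Lin.integrableOn_Ann (hw1.continuous.mul hcpg).neg
  rw [hsplit, integral_neg, integral_neg, hball]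
  have hgx : ∀ y, η (x - y) = g y := fun y => by rw [hg]
  simp only [hgx]
  linarith

end UMB.W
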