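import Pool.Agent.Lib.UMB.W.Defs
import Pool.Agent.Lib.UMB.W.M4

/-! # UMB.W chunk M7A: differences of the extended function along rays -/

set_option autoImplicit false

open Filter Topology Set MeasureTheory
open scoped ContDiff BigOperators
open Pool.Agent.Lib.PenroseSph (E3 Tens pd)
open UMB.Lin (Ann cAnn sig)

namespace UMB.W

theorem m7a_annM (R : ℝ) : MeasurableSet (Ann R) := by
  have h1 : MeasurableSet {x : E3 | 1 < ‖x‖} := (isOpen_lt continuous_const continuous_norm).measurableSet
  have h2 : MeasurableSet {x : E3 | ‖x‖ < R} := (isOpen_lt continuous_norm continuous_const).measurableSet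
  exact h1.inter h2

/-- The extension of a test function is continuous. -/
theorem m7a_cont {R : ℝ} (hR : 1 < R) {w : E3 → ℝ} (hw : Cls R w) : Continuous (ext R w) := by
  have h1 : Continuous fun x : E3 => if ‖x‖ ≤ R then w x else 0 := by
    refine Continuous.if_le hw.smooth.continuous continuous_const continuous_norm continuous_const ?_
    intro x hx
    exact hw.zero x hx
  have h2 : Continuous fun x : E3 => if (1 : ℝ) ≤ ‖x‖ then (if ‖x‖ ≤ R then w x else 0) else 1 := by
    refine Continuous.if_le h1 continuous_const continuous_const continuous_norm ?_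
    intro x hx
    rw [if_pos (by rw [← hx]; exact hR.le)]
    exact hw.one x hx.symm
  have h3 : ext R w = fun x : E3 => if (1 : ℝ) ≤ ‖x‖ then (if ‖x‖ ≤ R then w x else 0) else 1 := by
    funext x
    unfold ext
    by_cases hx : ‖x‖ < 1
    · rw [if_pos hx, if_neg (not_le.mpr hx)]
    · rw [if_neg hx, if_pos (not_lt.mp hx)]
  rw [h3]
  exact h2

/-- Norm of the gradient, a measurable function with compact support and bounded. -/
theorem m7a_g_meas {R : ℝ} {w : E3 → ℝ} (hw : Cls R w) :
    Measurable ((Ann R).indicator (fun y => Real.sqrt (vsq (D1 w y)))) := by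
  have h1 : Continuous fun y => vsq (D1 w y) := m4a_cont (hw.smooth.of_le (by exact_mod_cast le_top))
  exact (h1.sqrt.measurable).indicator (m7a_annM R)

theorem m7a_g_bd {R : ℝ} {w : E3 → ℝ} (hw : Cls R w) :
    ∃ B : ℝ, 0 ≤ B ∧ ∀ y, (Ann R).indicator (fun y => Real.sqrt (vsq (D1 w y))) y ≤ B := by
  have h1 : Continuous fun y => Real.sqrt (vsq (D1 w y)) :=
    (m4a_cont (hw.smooth.of_le (by exact_mod_cast le_top))).sqrt
  obtain ⟨C, hC⟩ := (isCompact_closedBall (0 : E3) R).exists_bound_of_continuousOn h1.continuousOn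
  refine ⟨max C 0, le_max_right _ _, fun y => ?_⟩
  by_cases hy : y ∈ Ann R
  · rw [indicator_of_mem hy]
    have h2 := hC y (by rw [mem_closedBall_zero_iff]; exact hy.2.le)
    rw [Real.norm_eq_abs] at h2
    exact (le_abs_self _).trans (h2.trans (le_max_left _ _))
  · rw [indicator_of_notMem hy]
    exact le_max_right _ _

theorem m7a_g_nonneg {R : ℝ} {w : E3 → ℝ} (y : E3) :
    0 ≤ (Ann R).indicator (fun y => Real.sqrt (vsq (D1 w y))) y :=
  indicator_nonneg (fun _ _ => Real.sqrt_nonneg _) y

theorem m7a_int {φ : ℝ → ℝ} (hφ : Measurable φ) {B : ℝ} (hB : ∀ s, |φ s| ≤ B) (a b : ℝ) :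
    IntervalIntegrable φ volume a b := by
  have h1 : IntervalIntegrable (fun _ : ℝ => B) volume a b := intervalIntegrable_const
  refine h1.mono_fun hφ.aestronglyMeasurable (Eventually.of_forall fun s => ?_)
  show ‖φ s‖ ≤ ‖B‖
  rw [Real.norm_eq_abs, Real.norm_eq_abs]
  exact (hB s).trans (le_abs_self B)

theorem m7a_fin (x e : E3) (he : ‖e‖ = 1) (c : ℝ) : {s : ℝ | ‖x - s • e‖ = c}.Countable := by
  have hfin : {s : ℝ | ‖x - s • e‖ = c} ⊆
      ({inner ℝ x e + Real.sqrt (inner ℝ x e ^ 2 - ‖x‖ ^ 2 + c ^ 2),
        inner ℝ x e - Real.sqrt (inner ℝ x e ^ 2 - ‖x‖ ^ 2 + c ^ 2)} : Set ℝ) := by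
    intro s hs
    have h1 : ‖x - s • e‖ ^ 2 = c ^ 2 := by rw [show ‖x - s • e‖ = c from hs]
    rw [norm_sub_sq_real, norm_smul, he, mul_one, Real.norm_eq_abs, sq_abs, inner_smul_right] at h1
    have h2 : (s - inner ℝ x e) ^ 2 = inner ℝ x e ^ 2 - ‖x‖ ^ 2 + c ^ 2 := by linarith
    rw [← h2, Real.sqrt_sq_eq_abs]
    rcases le_total 0 (s - inner ℝ x e) with h | h
    · left
      rw [abs_of_nonneg h]
      ring
    · right
      rw [abs_of_nonpos h]
      show s = _
      ring
  exact ((Set.toFinite _).subset hfin).countable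

/-- **M7A.** For `x` in the closed annulus, `|ω| = 1`, `r ≥ 0`: FTC for `s ↦ ext R w (x - s ω)` on `[0, r]`. This function is
continuous (`w = 1` resp. `0` on the spheres) and has the derivative `0` or `- dw(ω)` outside the at most four `s` with
`|x - s ω| ∈ {1, R}` (a quadratic polynomial in `s`): `MeasureTheory.integral_eq_of_hasDerivAt_off_countable`. -/
theorem ray_diff {R : ℝ} (hR : 1 < R) {w : E3 → ℝ} (hw : Cls R w) {x : E3} (hx : x ∈ cAnn R) {e : E3} (he : ‖e‖ = 1)
    {r : ℝ} (hr : 0 ≤ r) :
    |ext R w (x - r • e) - ext R w x|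
      ≤ ∫ s in (0 : ℝ)..r, (Ann R).indicator (fun y => Real.sqrt (vsq (D1 w y))) (x - s • e) := by
  have hline : Continuous fun s : ℝ => x - s • e := continuous_const.sub (continuous_id.smul continuous_const)
  have hw1 : ContDiff ℝ 1 w := hw.smooth.of_le (by exact_mod_cast le_top)
  have hdc : Continuous fun y : E3 => - fderiv ℝ w y e :=
    ((hw1.continuous_fderiv one_ne_zero).clm_apply continuous_const).neg
  have hpt : ∀ y : E3, |(Ann R).indicator (fun y => - fderiv ℝ w y e) y| ≤
      (Ann R).indicator (fun y => Real.sqrt (vsq (D1 w y))) y := by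
    intro y
    by_cases hy : y ∈ Ann R
    · rw [indicator_of_mem hy, indicator_of_mem hy, abs_neg, ← Real.sqrt_sq_eq_abs]
      refine Real.sqrt_le_sqrt ?_
      have h1 := m4a_dir w y e
      rw [he] at h1
      linarith
    · rw [indicator_of_notMem hy, indicator_of_notMem hy, abs_zero]
  obtain ⟨B, hB0, hB⟩ := m7a_g_bd hw
  have hfm : Measurable fun s : ℝ => (Ann R).indicator (fun y => - fderiv ℝ w y e) (x - s • e) :=
    (hdc.measurable.indicator (m7a_annM R)).comp hline.measurable
  have hgm : Measurable fun s : ℝ => (Ann R).indicator (fun y => Real.sqrt (vsq (D1 w y))) (x - s • e) :=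
    (m7a_g_meas hw).comp hline.measurable
  have hFTC : ∫ s in (0 : ℝ)..r, (Ann R).indicator (fun y => - fderiv ℝ w y e) (x - s • e) =
      ext R w (x - r • e) - ext R w (x - (0 : ℝ) • e) := by
    refine integral_eq_of_hasDerivAt_off_countable (fun s : ℝ => ext R w (x - s • e)) _
      (s := {s : ℝ | ‖x - s • e‖ = 1} ∪ {s : ℝ | ‖x - s • e‖ = R}) ?_ ?_ ?_ ?_
    · exact (m7a_fin x e he 1).union (m7a_fin x e he R)
    · exact ((m7a_cont hR hw).comp hline).continuousOn
    · rintro s ⟨-, hs⟩
      have hs1 : ‖x - s • e‖ ≠ 1 := fun h => hs (Or.inl h)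
      have hs2 : ‖x - s • e‖ ≠ R := fun h => hs (Or.inr h)
      have hlc : ContinuousAt (fun s : ℝ => x - s • e) s := hline.continuousAt
      rcases lt_or_gt_of_ne hs1 with h1 | h1
      · -- inside the ball
        have hn : (x - s • e) ∉ Ann R := fun h => absurd h.1 (not_lt.mpr h1.le)
        rw [indicator_of_notMem hn]
        have h2 : ∀ᶠ t in 𝓝 s, ‖x - t • e‖ < 1 := (hline.norm.continuousAt).eventually_lt continuousAt_const h1
        refine (hasDerivAt_const s (1 : ℝ)).congr_of_eventuallyEq ?_
        filter_upwards [h2] with t ht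
        show ext R w (x - t • e) = 1
        unfold ext
        rw [if_pos ht]
      · rcases lt_or_gt_of_ne hs2 with h2 | h2
        · -- in the annulus
          have hn : (x - s • e) ∈ Ann R := ⟨h1, h2⟩
          rw [indicator_of_mem hn]
          have hd : HasDerivAt (fun t : ℝ => x - t • e) (-e) s := by
            have := ((hasDerivAt_id s).smul_const e).const_sub x
            simpa using this
          have h3 : HasDerivAt (fun t : ℝ => w (x - t • e)) (fderiv ℝ w (x - s • e) (-e)) s :=
            ((hw1.differentiable one_ne_zero (x - s • e)).hasFDerivAt).comp_hasDerivAt s hd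
          rw [map_neg] at h3
          refine h3.congr_of_eventuallyEq ?_
          have h4 : ∀ᶠ t in 𝓝 s, 1 < ‖x - t • e‖ := continuousAt_const.eventually_lt (hline.norm.continuousAt) h1
          have h5 : ∀ᶠ t in 𝓝 s, ‖x - t • e‖ < R := (hline.norm.continuousAt).eventually_lt continuousAt_const h2
          filter_upwards [h4, h5] with t ht1 ht2
          show ext R w (x - t • e) = w (x - t • e)
          unfold ext
          rw [if_neg (not_lt.mpr ht1.le), if_pos ht2.le]
        · -- outside
          have hn : (x - s • e) ∉ Ann R := fun h => absurd h.2 (not_lt.mpr (le_of_lt h2))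
          rw [indicator_of_notMem hn]
          have h3 : ∀ᶠ t in 𝓝 s, R < ‖x - t • e‖ := continuousAt_const.eventually_lt (hline.norm.continuousAt) h2
          refine (hasDerivAt_const s (0 : ℝ)).congr_of_eventuallyEq ?_
          filter_upwards [h3] with t ht
          show ext R w (x - t • e) = 0
          unfold ext
          rw [if_neg (not_lt.mpr (hR.le.trans (le_of_lt ht))), if_neg (not_le.mpr ht)]
    · exact m7a_int hfm (fun s => (hpt _).trans (hB _)) 0 r
  rw [zero_smul, sub_zero] at hFTC
  rw [← hFTC, ← Real.norm_eq_abs]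
  refine intervalIntegral.norm_integral_le_of_norm_le hr (Eventually.of_forall fun s _ => ?_) ?_
  · rw [Real.norm_eq_abs]
    exact hpt _
  · refine m7a_int hgm (B := B) (fun s => ?_) 0 r
    rw [abs_of_nonneg (m7a_g_nonneg _)]
    exact hB _

end UMB.W
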