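import Pool.Agent.Lib.UMB.W.M7A
import Pool.Agent.Lib.H16RA.Polar

/-! # UMB.W chunk M7B: Morrey's estimate, potential -/

set_option autoImplicit false

open Filter Topology Set MeasureTheory
open scoped ContDiff BigOperators
open Pool.Agent.Lib.PenroseSph (E3 Tens pd)
open UMB.Lin (Ann cAnn sig)

namespace UMB.W

/-- The integral of a bounded nonnegative function along a ray as a lower integral. -/
theorem m7b_ray {φ : ℝ → ℝ} (hφ : Measurable φ) {B : ℝ} (h0 : ∀ s, 0 ≤ φ s) (hB : ∀ s, φ s ≤ B) {d : ℝ} (hd : 0 < d) :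
    ∫⁻ t in Ioo (0 : ℝ) d, ENNReal.ofReal (φ t) = ENNReal.ofReal (∫ t in (0 : ℝ)..d, φ t) := by
  have h1 : IntegrableOn φ (Ioo (0 : ℝ) d) := by
    have h2 : IntervalIntegrable φ volume 0 d :=
      m7a_int hφ (B := B) (fun s => by rw [abs_of_nonneg (h0 s)]; exact hB s) 0 d
    rw [intervalIntegrable_iff_integrableOn_Ioc_of_le hd.le] at h2
    exact h2.mono_set Ioo_subset_Ioc_self
  rw [← ofReal_integral_eq_lintegral_ofReal h1 (Eventually.of_forall fun t => h0 t),
    intervalIntegral.integral_of_le hd.le, integral_Ioc_eq_integral_Ioo]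

/-- **M7B.** If `0 ≤ η ≤ M d⁻³` and `η = 0` for `|y| ≥ d`:
`∫ η(y) |W(x-y) - W(x)| dy ≤ (M/3) ∫_{|z|<d} g(x-z) |z|⁻² dz` with `W = ext R w`, `g = 1_Ann √vsq (D1 w)`.
Polar coordinates (`Pool.Agent.Lib.H16RA.polar 3 0` for `lintegral`, or `Measure.measurePreserving_homeomorphUnitSphereProd`):
`∫ = ∫_{S²} ∫_0^d r² η(rω) |W(x-rω)-W(x)| dr dω ≤ M d⁻³ ∫_{S²} ∫_0^d r² (∫_0^d g(x-sω) ds) dr dω
 = (M/3) ∫_{S²} ∫_0^d g(x-sω) ds dω` and back (`s² · s⁻² = 1`). -/
theorem morrey_pot {R : ℝ} (hR : 1 < R) {w : E3 → ℝ} (hw : Cls R w) {x : E3} (hx : x ∈ cAnn R) {d M : ℝ} (hd : 0 < d)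
    {η : E3 → ℝ} (hη : Mol d η) (hM : ∀ y, η y ≤ M * (d ^ 3)⁻¹) :
    ∫ y, η y * |ext R w (x - y) - ext R w x|
      ≤ M / 3 * ∫ z in Metric.ball (0 : E3) d,
          (Ann R).indicator (fun y => Real.sqrt (vsq (D1 w y))) (x - z) * (‖z‖ ^ 2)⁻¹ := by
  have hd3 : 0 < d ^ 3 := pow_pos hd 3
  have hM0 : 0 ≤ M := by
    have h1 := (hη.nonneg 0).trans (hM 0)
    by_contra hneg
    have h2 : M * (d ^ 3)⁻¹ < 0 := mul_neg_of_neg_of_pos (not_le.mp hneg) (inv_pos.mpr hd3)
    linarith
  set g : E3 → ℝ := (Ann R).indicator (fun y => Real.sqrt (vsq (D1 w y))) with hg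
  have hgm : Measurable g := m7a_g_meas hw
  have hg0 : ∀ y, 0 ≤ g y := fun y => m7a_g_nonneg y
  obtain ⟨B, hB0, hB⟩ := m7a_g_bd hw
  have hB : ∀ y, g y ≤ B := hB
  have hWc := m7a_cont hR hw
  -- the left side
  have hLc : Continuous fun y : E3 => η y * |ext R w (x - y) - ext R w x| :=
    hη.smooth.continuous.mul (((hWc.comp (continuous_const.sub continuous_id)).sub continuous_const).abs)
  have hL0 : ∀ y : E3, 0 ≤ η y * |ext R w (x - y) - ext R w x| := fun y => mul_nonneg (hη.nonneg y) (abs_nonneg _)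
  have hL : ∫ y, η y * |ext R w (x - y) - ext R w x| =
      (∫⁻ y, ENNReal.ofReal (η y * |ext R w (x - y) - ext R w x|)).toReal :=
    integral_eq_lintegral_of_nonneg_ae (Eventually.of_forall hL0) hLc.aestronglyMeasurable
  -- the right side
  have hRm : Measurable fun z : E3 => g (x - z) * (‖z‖ ^ 2)⁻¹ :=
    (hgm.comp (measurable_const.sub measurable_id)).mul ((measurable_norm.pow_const 2).inv)
  have hR0 : ∀ z : E3, 0 ≤ g (x - z) * (‖z‖ ^ 2)⁻¹ := fun z => mul_nonneg (hg0 _) (inv_nonneg.mpr (sq_nonneg _))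
  have hRI : ∫ z in Metric.ball (0 : E3) d, g (x - z) * (‖z‖ ^ 2)⁻¹ =
      (∫⁻ z in Metric.ball (0 : E3) d, ENNReal.ofReal (g (x - z) * (‖z‖ ^ 2)⁻¹)).toReal :=
    integral_eq_lintegral_of_nonneg_ae (Eventually.of_forall hR0) hRm.aestronglyMeasurable
  have hballM : MeasurableSet (Metric.ball (0 : E3) d) := Metric.isOpen_ball.measurableSet
  -- lines
  have hline : ∀ e : E3, Continuous fun s : ℝ => x - s • e := fun e =>
    continuous_const.sub (continuous_id.smul continuous_const)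
  set J : E3 → ℝ := fun e => ∫ s in (0 : ℝ)..d, g (x - s • e) with hJ
  have hJ0 : ∀ e, 0 ≤ J e := fun e => intervalIntegral.integral_nonneg hd.le fun s _ => hg0 _
  have hJB : ∀ e, J e ≤ B * d := by
    intro e
    have h1 : ∫ s in (0 : ℝ)..d, g (x - s • e) ≤ ∫ s in (0 : ℝ)..d, B := by
      refine intervalIntegral.integral_mono_on hd.le ?_ intervalIntegrable_const (fun s _ => hB _)
      exact m7a_int (hgm.comp (hline e).measurable) (B := B)
        (fun s => by rw [Function.comp_apply, abs_of_nonneg (hg0 _)]; exact hB _) 0 d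
    rw [intervalIntegral.integral_const, smul_eq_mul, sub_zero, mul_comm] at h1
    exact h1
  have hRr : ∫⁻ z in Metric.ball (0 : E3) d, ENNReal.ofReal (g (x - z) * (‖z‖ ^ 2)⁻¹) =
      ∫⁻ u : Metric.sphere (0 : E3) 1, ENNReal.ofReal (J (u : E3)) ∂((volume : Measure E3).toSphere) := by
    rw [← lintegral_indicator hballM]
    have hGm : Measurable ((Metric.ball (0 : E3) d).indicator fun z => ENNReal.ofReal (g (x - z) * (‖z‖ ^ 2)⁻¹)) :=
      (hRm.ennreal_ofReal).indicator hballM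
    have hpol := Pool.Agent.Lib.H16RA.polar 3 (0 : E3) hGm
    rw [hpol]
    refine lintegral_congr fun u => ?_
    have hu : ‖(u : E3)‖ = 1 := mem_sphere_zero_iff_norm.mp u.2
    have h1 : ∫⁻ t in Ioi (0 : ℝ), ((Metric.ball (0 : E3) d).indicator
        (fun z => ENNReal.ofReal (g (x - z) * (‖z‖ ^ 2)⁻¹)) (0 + t • (u : E3))) * ENNReal.ofReal (t ^ (3 - 1)) =
        ∫⁻ t in Ioi (0 : ℝ), (Iio d).indicator (fun t => ENNReal.ofReal (g (x - t • (u : E3)))) t := by
      refine setLIntegral_congr_fun measurableSet_Ioi ?_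
      intro t ht
      have ht0 : (0 : ℝ) < t := ht
      have hnt : ‖t • (u : E3)‖ = t := by rw [norm_smul, hu, mul_one, Real.norm_eq_abs, abs_of_pos ht0]
      show ((Metric.ball (0 : E3) d).indicator
        (fun z => ENNReal.ofReal (g (x - z) * (‖z‖ ^ 2)⁻¹)) (0 + t • (u : E3))) * ENNReal.ofReal (t ^ (3 - 1)) = _
      rw [zero_add]
      by_cases htd : t < d
      · have hm : t • (u : E3) ∈ Metric.ball (0 : E3) d := by
          rw [mem_ball_zero_iff, hnt]
          exact htd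
        rw [indicator_of_mem hm, indicator_of_mem (show t ∈ Iio d from htd), ← ENNReal.ofReal_mul (hR0 _), hnt]
        congr 1
        have : t ^ 2 ≠ 0 := (pow_pos ht0 2).ne'
        field_simp
      · have hm : t • (u : E3) ∉ Metric.ball (0 : E3) d := by
          rw [mem_ball_zero_iff, hnt]
          exact htd
        rw [indicator_of_notMem hm, indicator_of_notMem (show t ∉ Iio d from htd), zero_mul]
    rw [h1, lintegral_indicator measurableSet_Iio, Measure.restrict_restrict measurableSet_Iio]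
    have h2 : Iio d ∩ Ioi (0 : ℝ) = Ioo 0 d := by
      rw [inter_comm]
      exact Ioi_inter_Iio
    rw [h2]
    exact m7b_ray (φ := fun t => g (x - t • (u : E3))) (hgm.comp (hline _).measurable) (B := B)
      (fun s => hg0 _) (fun s => hB _) hd
  have hLr : ∫⁻ y, ENNReal.ofReal (η y * |ext R w (x - y) - ext R w x|) ≤
      ENNReal.ofReal (M / 3) *
        ∫⁻ u : Metric.sphere (0 : E3) 1, ENNReal.ofReal (J (u : E3)) ∂((volume : Measure E3).toSphere) := by
    have hpol := Pool.Agent.Lib.H16RA.polar 3 (0 : E3) (G := fun y => ENNReal.ofReal (η y * |ext R w (x - y) - ext R w x|))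
      hLc.measurable.ennreal_ofReal
    rw [hpol, ← lintegral_const_mul' _ _ ENNReal.ofReal_ne_top]
    refine lintegral_mono fun u => ?_
    have hu : ‖(u : E3)‖ = 1 := mem_sphere_zero_iff_norm.mp u.2
    have hc0 : 0 ≤ M * (d ^ 3)⁻¹ * J (u : E3) := mul_nonneg (mul_nonneg hM0 (inv_nonneg.mpr hd3.le)) (hJ0 _)
    have h1 : ∫⁻ t in Ioi (0 : ℝ), ENNReal.ofReal (η (0 + t • (u : E3)) *
        |ext R w (x - (0 + t • (u : E3))) - ext R w x|) * ENNReal.ofReal (t ^ (3 - 1)) ≤
        ∫⁻ t in Ioi (0 : ℝ), (Iio d).indicator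
          (fun t => ENNReal.ofReal (M * (d ^ 3)⁻¹ * J (u : E3) * t ^ 2)) t := by
      refine setLIntegral_mono' measurableSet_Ioi ?_
      intro t ht
      have ht0 : (0 : ℝ) < t := ht
      have hnt : ‖t • (u : E3)‖ = t := by rw [norm_smul, hu, mul_one, Real.norm_eq_abs, abs_of_pos ht0]
      rw [zero_add]
      by_cases htd : t < d
      · rw [indicator_of_mem (show t ∈ Iio d from htd), ← ENNReal.ofReal_mul (hL0 _)]
        refine ENNReal.ofReal_le_ofReal ?_
        have h2 := ray_diff hR hw hx hu ht0.le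
        have h3 : ∫ s in (0 : ℝ)..t, g (x - s • (u : E3)) ≤ J (u : E3) := by
          refine intervalIntegral.integral_mono_interval le_rfl ht0.le htd.le
            (Eventually.of_forall fun s => hg0 _) ?_
          exact m7a_int (hgm.comp (hline _).measurable) (B := B)
            (fun s => by rw [Function.comp_apply, abs_of_nonneg (hg0 _)]; exact hB _) 0 d
        have h4 : η (t • (u : E3)) * |ext R w (x - t • (u : E3)) - ext R w x| ≤ M * (d ^ 3)⁻¹ * J (u : E3) :=
          mul_le_mul (hM _) (h2.trans h3) (abs_nonneg _) (mul_nonneg hM0 (inv_nonneg.mpr hd3.le))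
        exact mul_le_mul_of_nonneg_right h4 (pow_nonneg ht0.le 2)
      · have h5 : η (t • (u : E3)) = 0 := hη.supp _ (by rw [hnt]; exact not_lt.mp htd)
        rw [h5, zero_mul, ENNReal.ofReal_zero, zero_mul]
        exact zero_le
    refine h1.trans ?_
    rw [lintegral_indicator measurableSet_Iio, Measure.restrict_restrict measurableSet_Iio]
    have h2 : Iio d ∩ Ioi (0 : ℝ) = Ioo 0 d := by
      rw [inter_comm]
      exact Ioi_inter_Iio
    rw [h2]
    have h3 : IntegrableOn (fun t : ℝ => M * (d ^ 3)⁻¹ * J (u : E3) * t ^ 2) (Ioo 0 d) := by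
      have hc : Continuous fun t : ℝ => M * (d ^ 3)⁻¹ * J (u : E3) * t ^ 2 := by fun_prop
      exact (hc.continuousOn.integrableOn_compact isCompact_Icc).mono_set Ioo_subset_Icc_self
    rw [← ofReal_integral_eq_lintegral_ofReal h3 (Eventually.of_forall fun t => mul_nonneg hc0 (sq_nonneg t)),
      ← integral_Ioc_eq_integral_Ioo, ← intervalIntegral.integral_of_le hd.le,
      intervalIntegral.integral_const_mul, integral_pow, ← ENNReal.ofReal_mul (div_nonneg hM0 (by norm_num))]
    refine ENNReal.ofReal_le_ofReal (le_of_eq ?_)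
    have : d ^ 3 ≠ 0 := hd3.ne'
    field_simp
    ring
  -- finiteness
  have hfin : ∫⁻ u : Metric.sphere (0 : E3) 1, ENNReal.ofReal (J (u : E3)) ∂((volume : Measure E3).toSphere) ≠ ⊤ := by
    have h1 : ∫⁻ u : Metric.sphere (0 : E3) 1, ENNReal.ofReal (J (u : E3)) ∂((volume : Measure E3).toSphere) ≤
        ∫⁻ u : Metric.sphere (0 : E3) 1, ENNReal.ofReal (B * d) ∂((volume : Measure E3).toSphere) :=
      lintegral_mono fun u => ENNReal.ofReal_le_ofReal (hJB _)
    rw [lintegral_const] at h1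
    refine (lt_of_le_of_lt h1 ?_).ne
    exact ENNReal.mul_lt_top ENNReal.ofReal_lt_top (measure_lt_top _ _)
  rw [hL, hRI, hRr]
  have h1 := ENNReal.toReal_mono (ENNReal.mul_ne_top ENNReal.ofReal_ne_top hfin) hLr
  rw [ENNReal.toReal_mul, ENNReal.toReal_ofReal (div_nonneg hM0 (by norm_num))] at h1
  exact h1

end UMB.W
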