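import Pool.Agent.Lib.UMB.W.Defs

/-! # UMB.W chunk T1: trace inequality -/

set_option autoImplicit false

open Filter Topology Set MeasureTheory
open scoped ContDiff BigOperators
open Pool.Agent.Lib.PenroseSph (E3 Tens pd)
open UMB.Lin (Ann cAnn sig)

namespace UMB.W

/-- the quadratic cutoff `(R² - |x|²)/(R² - 1)`, as a polynomial -/
noncomputable def t1psi (R : ℝ) (x : E3) : ℝ := (R ^ 2 - ∑ j : Fin 3, x j ^ 2) / (R ^ 2 - 1)

theorem t1_norm_sq (x : E3) : ∑ j : Fin 3, x j ^ 2 = ‖x‖ ^ 2 := by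
  rw [EuclideanSpace.norm_eq, Real.sq_sqrt (by positivity)]
  simp

theorem t1_hasFDerivAt_coord (i : Fin 3) (x : E3) :
    HasFDerivAt (fun y : E3 => y i) (EuclideanSpace.proj i : E3 →L[ℝ] ℝ) x :=
  (EuclideanSpace.proj i : E3 →L[ℝ] ℝ).hasFDerivAt

theorem t1_proj_single (i k : Fin 3) :
    (EuclideanSpace.proj i : E3 →L[ℝ] ℝ) (EuclideanSpace.single k (1 : ℝ)) = if i = k then 1 else 0 := by
  simp [EuclideanSpace.single_apply]

theorem t1_pd_coord (i : Fin 3) (x : E3) : pd i (fun y : E3 => y i) x = 1 := by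
  unfold pd
  rw [(t1_hasFDerivAt_coord i x).fderiv, t1_proj_single]
  simp

theorem t1_hasFDerivAt_psi (R : ℝ) (x : E3) :
    HasFDerivAt (t1psi R)
      ((R ^ 2 - 1)⁻¹ • (-(∑ j : Fin 3, (2 * x j) • (EuclideanSpace.proj j : E3 →L[ℝ] ℝ)))) x := by
  have h1 : ∀ j : Fin 3, HasFDerivAt (fun y : E3 => y j ^ 2) ((2 * x j) • (EuclideanSpace.proj j : E3 →L[ℝ] ℝ)) x := by
    intro j
    have := (t1_hasFDerivAt_coord j x).pow 2
    simpa [nsmul_eq_mul] using this
  have h2 : HasFDerivAt (fun y : E3 => ∑ j : Fin 3, y j ^ 2)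
      (∑ j : Fin 3, (2 * x j) • (EuclideanSpace.proj j : E3 →L[ℝ] ℝ)) x := by
    have := HasFDerivAt.fun_sum (u := Finset.univ) (fun j _ => h1 j)
    simpa using this
  have h3 := (h2.const_sub (R ^ 2)).const_smul ((R ^ 2 - 1)⁻¹)
  have h4 : t1psi R = fun y : E3 => (R ^ 2 - 1)⁻¹ • (R ^ 2 - ∑ j : Fin 3, y j ^ 2) := by
    funext y
    simp [t1psi, div_eq_inv_mul]
  rw [h4]
  exact h3

theorem t1_pd_psi (R : ℝ) (i : Fin 3) (x : E3) : pd i (t1psi R) x = -(2 * x i) / (R ^ 2 - 1) := by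
  unfold pd
  rw [(t1_hasFDerivAt_psi R x).fderiv]
  simp only [ContinuousLinearMap.smul_apply, ContinuousLinearMap.neg_apply, ContinuousLinearMap.sum_apply,
    t1_proj_single, smul_eq_mul]
  simp [Fin.sum_univ_three]
  fin_cases i <;> simp <;> ring

theorem t1_contDiff_coord (i : Fin 3) : ContDiff ℝ ∞ (fun y : E3 => y i) :=
  (EuclideanSpace.proj i : E3 →L[ℝ] ℝ).contDiff

theorem t1_contDiff_psi (R : ℝ) : ContDiff ℝ ∞ (t1psi R) := by
  unfold t1psi
  refine ContDiff.div_const (contDiff_const.sub (ContDiff.sum fun j _ => (t1_contDiff_coord j).pow 2)) _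

theorem t1_pd_mul {f g : E3 → ℝ} {x : E3} (hf : DifferentiableAt ℝ f x) (hg : DifferentiableAt ℝ g x) (i : Fin 3) :
    pd i (fun y => f y * g y) x = pd i f x * g x + f x * pd i g x := by
  unfold pd
  rw [fderiv_fun_mul hf hg]
  simp
  ring

/-- **T1.** `ψ(x) = (R² - |x|²)/(R² - 1)` (a polynomial, `0 ≤ ψ ≤ 1` on the annulus, `1` on the inner, `0` on the outer
sphere). `UMB.Lin.int_pd` for the fields `ψ f x_i`: `∫ (3 ψ f + ψ x·∇f + f x·∇ψ) = - ∫_{S²} f`. -/
theorem trace_le {R : ℝ} (hR : 1 < R) : ∃ C : ℝ, 0 ≤ C ∧ ∀ f : E3 → ℝ, ContDiff ℝ 1 f →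
    |∫ n : Metric.sphere (0 : E3) 1, f (n : E3) ∂sig|
      ≤ C * ∫ x in Ann R, (|f x| + Real.sqrt (vsq (D1 f x))) := by
  have hR2 : 0 < R ^ 2 - 1 := by nlinarith
  refine ⟨2 * R ^ 2 / (R ^ 2 - 1) + 3 + R, by positivity, fun f hf => ?_⟩
  have hfd : ∀ x, DifferentiableAt ℝ f x := fun x => hf.differentiable (by simp) x
  have hpsi1 : ContDiff ℝ 1 (t1psi R) := (t1_contDiff_psi R).of_le (by simp)
  have hpd : ∀ x, DifferentiableAt ℝ (t1psi R) x := fun x => hpsi1.differentiable (by simp) x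
  have hco : ∀ i : Fin 3, ContDiff ℝ 1 (fun y : E3 => y i) := fun i => (t1_contDiff_coord i).of_le (by simp)
  have hcd : ∀ (i : Fin 3) x, DifferentiableAt ℝ (fun y : E3 => y i) x :=
    fun i x => (hco i).differentiable (by simp) x
  set F : Fin 3 → E3 → ℝ := fun i y => (t1psi R y * f y) * y i with hF
  have hFc : ∀ i, ContDiff ℝ 1 (F i) := fun i => (hpsi1.mul hf).mul (hco i)
  have hpF : ∀ i x, pd i (F i) x = (-(2 * x i) / (R ^ 2 - 1) * f x + t1psi R x * pd i f x) * x i
      + t1psi R x * f x := by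
    intro i x
    have h1 := t1_pd_mul (f := fun y => t1psi R y * f y) (g := fun y : E3 => y i) (x := x)
      ((hpd x).mul (hfd x)) (hcd i x) i
    rw [hF]
    simp only
    rw [h1, t1_pd_mul (hpd x) (hfd x), t1_pd_coord, t1_pd_psi]
    ring
  have hsum : ∀ x, ∑ i, pd i (F i) x = -(2 * ‖x‖ ^ 2) / (R ^ 2 - 1) * f x
      + t1psi R x * (∑ i, pd i f x * x i) + 3 * (t1psi R x * f x) := by
    intro x
    simp only [hpF]
    rw [← t1_norm_sq]
    simp only [Fin.sum_univ_three]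
    ring
  have hpdc : ∀ {g : E3 → ℝ}, ContDiff ℝ 1 g → ∀ i, Continuous (fun x => pd i g x) := by
    intro g hg i
    unfold pd
    exact (hg.continuous_fderiv (by simp)).clm_apply continuous_const
  have hint : ∀ i, IntegrableOn (fun x => pd i (F i) x) (Ann R) := fun i =>
    UMB.Lin.integrableOn_Ann (hpdc (hFc i) i)
  have hmain : ∫ x in Ann R, ∑ i, pd i (F i) x = - ∫ n : Metric.sphere (0 : E3) 1, f (n : E3) ∂sig := by
    rw [integral_finset_sum _ (fun i _ => hint i)]
    simp only [UMB.Lin.int_pd hR _ (hFc _)]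
    have hz : ∀ (i : Fin 3) (n : Metric.sphere (0 : E3) 1), F i (R • (n : E3)) = 0 := by
      intro i n
      have : t1psi R (R • (n : E3)) = 0 := by
        unfold t1psi
        rw [t1_norm_sq, norm_smul]
        have hn : ‖(n : E3)‖ = 1 := by simp
        rw [hn]
        simp
      simp [hF, this]
    simp only [hz, zero_mul, integral_zero, mul_zero, zero_sub, Finset.sum_neg_distrib]
    congr 1
    have hcs : ∀ i : Fin 3, Continuous (fun n : Metric.sphere (0 : E3) 1 => F i (n : E3) * (n : E3) i) := by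
      intro i
      have h1 : Continuous (F i) := (hFc i).continuous
      have h2 : Continuous (fun y : E3 => y i) := (hco i).continuous
      exact (h1.comp continuous_subtype_val).mul (h2.comp continuous_subtype_val)
    rw [← integral_finset_sum _ (fun i _ => (hcs i).integrable_of_hasCompactSupport
      (HasCompactSupport.of_compactSpace _))]
    refine integral_congr_ae (Eventually.of_forall fun n => ?_)
    simp only
    have hn : ‖(n : E3)‖ = 1 := by simp
    have h1 : t1psi R (n : E3) = 1 := by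
      unfold t1psi
      rw [t1_norm_sq, hn]
      field_simp
    have h2 : ∑ i : Fin 3, (n : E3) i ^ 2 = 1 := by rw [t1_norm_sq, hn]; norm_num
    simp only [hF, h1]
    calc ∑ i : Fin 3, (1 * f (n : E3)) * (n : E3) i * (n : E3) i = f (n : E3) * ∑ i : Fin 3, (n : E3) i ^ 2 := by
          simp only [Fin.sum_univ_three]; ring
      _ = f (n : E3) := by rw [h2, mul_one]
  have habs : |∫ n : Metric.sphere (0 : E3) 1, f (n : E3) ∂sig| = |∫ x in Ann R, ∑ i, pd i (F i) x| := by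
    rw [hmain, abs_neg]
  rw [habs, ← integral_const_mul]
  have hvc : Continuous (fun x => Real.sqrt (vsq (D1 f x))) := by
    unfold vsq D1
    exact Real.continuous_sqrt.comp (continuous_finset_sum _ fun i _ => (hpdc hf i).pow 2)
  rw [← Real.norm_eq_abs]
  refine (norm_integral_le_integral_norm _).trans ?_
  refine setIntegral_mono_on ?_ ?_ (UMB.Lin.measurableSet_Ann R) ?_
  · exact (integrable_finset_sum _ fun i _ => hint i).norm
  · refine UMB.Lin.integrableOn_Ann ?_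
    exact continuous_const.mul ((hf.continuous.abs).add hvc)
  · intro x hx
    rw [Real.norm_eq_abs, hsum]
    have hx1 : 1 ≤ ‖x‖ := hx.1.le
    have hx2 : ‖x‖ ≤ R := hx.2.le
    have hn2 : ‖x‖ ^ 2 ≤ R ^ 2 := by nlinarith [norm_nonneg x]
    have hn1 : 1 ≤ ‖x‖ ^ 2 := by nlinarith
    have hp0 : 0 ≤ t1psi R x := by
      unfold t1psi
      rw [t1_norm_sq]
      exact div_nonneg (by linarith) hR2.le
    have hp1 : t1psi R x ≤ 1 := by
      unfold t1psi
      rw [t1_norm_sq, div_le_one hR2]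
      linarith
    have hcs : |∑ i, pd i f x * x i| ≤ Real.sqrt (vsq (D1 f x)) * R := by
      have h := Finset.sum_mul_sq_le_sq_mul_sq Finset.univ (fun i => pd i f x) (fun i => x i)
      have h0 : |∑ i, pd i f x * x i| ≤ Real.sqrt (vsq (D1 f x) * ‖x‖ ^ 2) := by
        refine Real.abs_le_sqrt ?_
        rw [← t1_norm_sq]
        exact h
      refine h0.trans ?_
      rw [Real.sqrt_mul' _ (by positivity), Real.sqrt_sq (norm_nonneg x)]
      exact mul_le_mul_of_nonneg_left hx2 (Real.sqrt_nonneg _)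
    have hsq : 0 ≤ Real.sqrt (vsq (D1 f x)) := Real.sqrt_nonneg _
    have hfa : 0 ≤ |f x| := abs_nonneg _
    have t1 : |-(2 * ‖x‖ ^ 2) / (R ^ 2 - 1) * f x| ≤ 2 * R ^ 2 / (R ^ 2 - 1) * |f x| := by
      rw [abs_mul]
      refine mul_le_mul_of_nonneg_right ?_ hfa
      rw [abs_div, abs_neg, abs_of_nonneg (by positivity : (0 : ℝ) ≤ 2 * ‖x‖ ^ 2), abs_of_pos hR2]
      exact div_le_div_of_nonneg_right (by linarith) hR2.le
    have t2 : |t1psi R x * (∑ i, pd i f x * x i)| ≤ R * Real.sqrt (vsq (D1 f x)) := by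
      rw [abs_mul, abs_of_nonneg hp0]
      calc t1psi R x * |∑ i, pd i f x * x i| ≤ 1 * |∑ i, pd i f x * x i| :=
            mul_le_mul_of_nonneg_right hp1 (abs_nonneg _)
        _ ≤ R * Real.sqrt (vsq (D1 f x)) := by rw [one_mul, mul_comm R]; exact hcs
    have t3 : |3 * (t1psi R x * f x)| ≤ 3 * |f x| := by
      rw [abs_mul, abs_mul, abs_of_nonneg hp0]
      have : t1psi R x * |f x| ≤ 1 * |f x| := mul_le_mul_of_nonneg_right hp1 hfa
      have h3 : |(3 : ℝ)| = 3 := by norm_num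
      rw [h3]
      linarith
    have h123 := abs_add_three (-(2 * ‖x‖ ^ 2) / (R ^ 2 - 1) * f x) (t1psi R x * (∑ i, pd i f x * x i))
      (3 * (t1psi R x * f x))
    have hA : 0 ≤ 2 * R ^ 2 / (R ^ 2 - 1) := by positivity
    have hRpos : 0 < R := by linarith
    calc _ ≤ _ := h123
      _ ≤ 2 * R ^ 2 / (R ^ 2 - 1) * |f x| + R * Real.sqrt (vsq (D1 f x)) + 3 * |f x| := by linarith
      _ ≤ (2 * R ^ 2 / (R ^ 2 - 1) + 3 + R) * (|f x| + Real.sqrt (vsq (D1 f x))) := by
          nlinarith [mul_nonneg hA hsq, mul_nonneg hRpos.le hfa]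

end UMB.W
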