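import Pool.Agent.Lib.UMB.W.Defs

/-! # UMB.W chunk T2: integrals over the boundary layer -/

set_option autoImplicit false

open Filter Topology Set MeasureTheory
open scoped ContDiff BigOperators
open Pool.Agent.Lib.PenroseSph (E3 Tens pd)
open UMB.Lin (Ann cAnn sig)

namespace UMB.W

/-- The integrand on the right hand side. -/
noncomputable def t2g (f : E3 → ℝ) (x : E3) : ℝ := |f x| + Real.sqrt (vsq (D1 f x))

theorem t2_cont {f : E3 → ℝ} (hf : ContDiff ℝ 1 f) : Continuous (t2g f) := by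
  unfold t2g
  have h1 : Continuous (fderiv ℝ f) := hf.continuous_fderiv (by norm_num)
  refine hf.continuous.abs.add (Real.continuous_sqrt.comp ?_)
  unfold vsq D1 pd
  refine continuous_finsetSum _ fun i _ => ?_
  exact (h1.clm_apply continuous_const).pow 2

theorem t2_nonneg (f : E3 → ℝ) (x : E3) : 0 ≤ t2g f x := add_nonneg (abs_nonneg _) (Real.sqrt_nonneg _)

theorem t2_fderiv {f : E3 → ℝ} (x : E3) {n : E3} (hn : ‖n‖ = 1) :
    |fderiv ℝ f x n| ≤ Real.sqrt (vsq (D1 f x)) := by
  have h1 : n = ∑ i, n i • (EuclideanSpace.single i (1 : ℝ) : E3) := by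
    ext j
    simp [Finset.sum_apply, Pi.single_apply]
  have h2 : fderiv ℝ f x n = ∑ i, n i * D1 f x i := by
    conv_lhs => rw [h1]
    rw [map_sum]
    refine Finset.sum_congr rfl fun i _ => ?_
    rw [map_smul, smul_eq_mul]
    rfl
  have h3 : ∑ i, n i ^ 2 = 1 := by
    have := EuclideanSpace.real_norm_sq_eq n
    rw [hn] at this
    linarith
  rw [h2]
  apply Real.abs_le_sqrt
  have h4 := Finset.sum_mul_sq_le_sq_mul_sq Finset.univ (fun i => n i) (D1 f x)
  rw [h3, one_mul] at h4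
  exact h4

theorem t2_key {R : ℝ} (hR : 1 < R) {f : E3 → ℝ} (hf : ContDiff ℝ 1 f) {n : E3} (hn : ‖n‖ = 1) {r : ℝ}
    (hr : r ∈ Icc 1 R) :
    |f (r • n)| ≤ (1 / (R - 1) + 1) * ∫ t in (1 : ℝ)..R, t ^ 2 * t2g f (t • n) := by
  have hR0 : 0 < R - 1 := by linarith
  have hcf : Continuous fun t : ℝ => f (t • n) := hf.continuous.comp (continuous_id.smul continuous_const)
  have hcg : Continuous fun t : ℝ => t2g f (t • n) :=
    (t2_cont hf).comp (continuous_id.smul continuous_const)
  have hcd : Continuous fun t : ℝ => fderiv ℝ f (t • n) n :=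
    ((hf.continuous_fderiv (by norm_num)).comp (continuous_id.smul continuous_const)).clm_apply continuous_const
  have hder : ∀ t : ℝ, HasDerivAt (fun t : ℝ => f (t • n)) (fderiv ℝ f (t • n) n) t := by
    intro t
    have h1 : HasDerivAt (fun t : ℝ => t • n) n t := by
      simpa using (hasDerivAt_id t).smul_const n
    exact ((hf.differentiable (by norm_num)) (t • n)).hasFDerivAt.comp_hasDerivAt t h1
  have hcs : Continuous fun t : ℝ => Real.sqrt (vsq (D1 f (t • n))) := by
    have h1 : (fun t : ℝ => Real.sqrt (vsq (D1 f (t • n)))) = fun t => t2g f (t • n) - |f (t • n)| := by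
      funext t
      unfold t2g
      ring
    rw [h1]
    exact hcg.sub hcf.abs
  set J := ∫ t in (1 : ℝ)..R, Real.sqrt (vsq (D1 f (t • n))) with hJ
  have hdiff : ∀ q ∈ Icc 1 R, |f (r • n)| ≤ |f (q • n)| + J := by
    intro q hq
    have h1 : ∫ t in q..r, fderiv ℝ f (t • n) n = f (r • n) - f (q • n) :=
      intervalIntegral.integral_eq_sub_of_hasDerivAt (fun t _ => hder t) (hcd.intervalIntegrable _ _)
    have h2 : |∫ t in q..r, fderiv ℝ f (t • n) n| ≤ J := by
      have h3 : |∫ t in q..r, fderiv ℝ f (t • n) n| ≤ |∫ t in q..r, Real.sqrt (vsq (D1 f (t • n)))| := by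
        have h4 := intervalIntegral.norm_integral_le_abs_of_norm_le (a := q) (b := r) (μ := volume)
          (f := fun t => fderiv ℝ f (t • n) n) (g := fun t => Real.sqrt (vsq (D1 f (t • n))))
          (Filter.Eventually.of_forall fun t => by
            rw [Real.norm_eq_abs]
            exact t2_fderiv _ hn) (hcs.intervalIntegrable _ _)
        rwa [Real.norm_eq_abs] at h4
      refine h3.trans ?_
      have h5 : ∀ a b : ℝ, 1 ≤ a → a ≤ b → b ≤ R →
          ∫ t in a..b, Real.sqrt (vsq (D1 f (t • n))) ≤ J := by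
        intro a b ha hab hb
        exact intervalIntegral.integral_mono_interval ha hab hb
          (Filter.Eventually.of_forall fun t => Real.sqrt_nonneg _) (hcs.intervalIntegrable _ _)
      have h6 : ∀ a b : ℝ, a ≤ b → 0 ≤ ∫ t in a..b, Real.sqrt (vsq (D1 f (t • n))) := fun a b hab =>
        intervalIntegral.integral_nonneg hab fun t _ => Real.sqrt_nonneg _
      rcases le_total q r with h | h
      · rw [abs_of_nonneg (h6 q r h)]
        exact h5 q r hq.1 h hr.2
      · rw [intervalIntegral.integral_symm, abs_neg, abs_of_nonneg (h6 r q h)]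
        exact h5 r q hr.1 h hq.2
    have h7 : f (r • n) = f (q • n) + (f (r • n) - f (q • n)) := by ring
    rw [h7]
    refine (abs_add_le _ _).trans ?_
    rw [h1] at h2
    linarith
  have havg : (R - 1) * |f (r • n)| ≤ (∫ q in (1 : ℝ)..R, |f (q • n)|) + (R - 1) * J := by
    have h1 : ∫ q in (1 : ℝ)..R, |f (r • n)| ≤ ∫ q in (1 : ℝ)..R, (|f (q • n)| + J) := by
      apply intervalIntegral.integral_mono_on hR.le (by simp) ((hcf.abs.add continuous_const).intervalIntegrable _ _)
      intro q hq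
      exact hdiff q hq
    rw [intervalIntegral.integral_const, intervalIntegral.integral_add (hcf.abs.intervalIntegrable _ _) (by simp),
      intervalIntegral.integral_const, smul_eq_mul, smul_eq_mul] at h1
    exact h1
  set I := ∫ t in (1 : ℝ)..R, t ^ 2 * t2g f (t • n) with hI
  have hle : ∀ h : ℝ → ℝ, Continuous h → (∀ t, 0 ≤ h t) → (∀ t, h t ≤ t2g f (t • n)) →
      ∫ t in (1 : ℝ)..R, h t ≤ I := by
    intro h hc _ hb
    apply intervalIntegral.integral_mono_on hR.le (hc.intervalIntegrable _ _)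
      (((continuous_id.pow 2).mul hcg).intervalIntegrable _ _)
    intro t ht
    have h1 : 1 ≤ t ^ 2 := by nlinarith [ht.1]
    have h2 := t2_nonneg f (t • n)
    calc h t ≤ t2g f (t • n) := hb t
      _ ≤ t ^ 2 * t2g f (t • n) := by nlinarith
  have hI1 : ∫ q in (1 : ℝ)..R, |f (q • n)| ≤ I := hle _ hcf.abs (fun t => abs_nonneg _) fun t =>
    le_add_of_nonneg_right (Real.sqrt_nonneg _)
  have hJ1 : J ≤ I := hle _ hcs (fun t => Real.sqrt_nonneg _) fun t => le_add_of_nonneg_left (abs_nonneg _)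
  have h8 : (R - 1) * |f (r • n)| ≤ I + (R - 1) * I := by nlinarith
  have h9 : (1 / (R - 1) + 1) * I = (I + (R - 1) * I) / (R - 1) := by
    field_simp
  rw [h9, le_div_iff₀ hR0]
  linarith

theorem t2_contS {a b : ℝ} {h : E3 → ℝ} (hh : Continuous h) :
    Continuous fun n : Metric.sphere (0 : E3) 1 => ∫ r in a..b, r ^ 2 * h (r • (n : E3)) := by
  apply intervalIntegral.continuous_parametric_intervalIntegral_of_continuous'
  exact (continuous_snd.pow 2).mul (hh.comp (continuous_snd.smul (continuous_subtype_val.comp continuous_fst)))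

theorem t2_int {a b : ℝ} {h : E3 → ℝ} (hh : Continuous h) :
    Integrable (fun n : Metric.sphere (0 : E3) 1 => ∫ r in a..b, r ^ 2 * h (r • (n : E3))) sig :=
  (t2_contS hh).integrable_of_hasCompactSupport (HasCompactSupport.of_compactSpace _)

theorem t2_shell {R : ℝ} (hR : 1 < R) {f : E3 → ℝ} (hf : ContDiff ℝ 1 f) {a b : ℝ} (ha : 1 ≤ a) (hab : a ≤ b)
    (hb : b ≤ R) :
    ∫ n : Metric.sphere (0 : E3) 1, (∫ r in a..b, r ^ 2 * |f (r • (n : E3))|) ∂sig
      ≤ (b - a) * (R ^ 2 * (1 / (R - 1) + 1)) * ∫ x in Ann R, t2g f x := by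
  have hR0 : 0 < R - 1 := by linarith
  rw [UMB.Lin.polar_Ann hR (t2_cont hf), ← integral_const_mul]
  apply integral_mono (t2_int hf.continuous.abs) ((t2_int (t2_cont hf)).const_mul _)
  intro n
  have hn : ‖(n : E3)‖ = 1 := by simp
  set I := ∫ t in (1 : ℝ)..R, t ^ 2 * t2g f (t • (n : E3)) with hI
  have hI0 : 0 ≤ I := intervalIntegral.integral_nonneg hR.le fun t _ =>
    mul_nonneg (sq_nonneg _) (t2_nonneg _ _)
  have hcf : Continuous fun r : ℝ => r ^ 2 * |f (r • (n : E3))| :=
    (continuous_id.pow 2).mul (hf.continuous.comp (continuous_id.smul continuous_const)).abs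
  have h1 : ∫ r in a..b, r ^ 2 * |f (r • (n : E3))| ≤ ∫ r in a..b, R ^ 2 * ((1 / (R - 1) + 1) * I) := by
    apply intervalIntegral.integral_mono_on hab (hcf.intervalIntegrable _ _) (by simp)
    intro r hr
    have h2 := t2_key hR hf hn (r := r) ⟨ha.trans hr.1, hr.2.trans hb⟩
    have h3 : r ^ 2 ≤ R ^ 2 := by
      have : 0 ≤ r := by linarith [hr.1]
      exact pow_le_pow_left₀ this (hr.2.trans hb) 2
    exact mul_le_mul h3 h2 (abs_nonneg _) (sq_nonneg _)
  rw [intervalIntegral.integral_const, smul_eq_mul] at h1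
  calc ∫ r in a..b, r ^ 2 * |f (r • (n : E3))| ≤ (b - a) * (R ^ 2 * ((1 / (R - 1) + 1) * I)) := h1
    _ = (b - a) * (R ^ 2 * (1 / (R - 1) + 1)) * I := by ring

/-- **T2.** Inner layer, `s ≤ R-1`: `polar_Ann` with `1+s` for `R`; for `r ∈ [1,R]` and a unit vector `n`
`|f(rn)| ≤ (R-1)⁻¹ ∫_1^R |f(ρn)| dρ + ∫_1^R |∇f(ρn)| dρ` (mean value of the continuous function and FTC), multiply by
`r² ≤ R²`, integrate over `r ∈ [1,1+s]` and over the sphere, `dρ ≤ ρ² dρ`. Outer layer: difference of the integrals over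
`Ann R` and `Ann (R-s)` (`polar_Ann` for both). For `s > R-1` the layer is the annulus: `C ≥ 1/(R-1)`. (One may also use
`Pool.Agent.Lib.H16RA.polar`.) -/
theorem layer_le {R : ℝ} (hR : 1 < R) : ∃ C : ℝ, 0 ≤ C ∧ ∀ f : E3 → ℝ, ContDiff ℝ 1 f → ∀ s : ℝ, 0 < s →
    ∫ x in Lay R s, |f x| ≤ C * s * ∫ x in Ann R, (|f x| + Real.sqrt (vsq (D1 f x))) := by
  have hR0 : 0 < R - 1 := by linarith
  refine ⟨2 * (R ^ 2 * (1 / (R - 1) + 1)) + 1 / (R - 1), by positivity, ?_⟩
  intro f hf s hs
  show _ ≤ _ * ∫ x in Ann R, t2g f x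
  have hcabs : Continuous fun x => |f x| := hf.continuous.abs
  have hG0 : 0 ≤ ∫ x in Ann R, t2g f x := setIntegral_nonneg (UMB.Lin.measurableSet_Ann R) fun x _ => t2_nonneg f x
  have hfg : ∫ x in Ann R, |f x| ≤ ∫ x in Ann R, t2g f x :=
    setIntegral_mono (UMB.Lin.integrableOn_Ann hcabs) (UMB.Lin.integrableOn_Ann (t2_cont hf)) fun x =>
      le_add_of_nonneg_right (Real.sqrt_nonneg _)
  have hB0 : 0 ≤ R ^ 2 * (1 / (R - 1) + 1) := by positivity
  have hsub : Lay R s ⊆ Ann R := fun x hx => hx.1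
  rcases le_or_gt (R - 1) s with hcase | hcase
  · have h1 : ∫ x in Lay R s, |f x| ≤ ∫ x in Ann R, |f x| :=
      setIntegral_mono_set (UMB.Lin.integrableOn_Ann hcabs)
        (Filter.Eventually.of_forall fun x => abs_nonneg _) hsub.eventuallyLE
    have h2 : 1 ≤ (1 / (R - 1)) * s := by
      rw [one_div_mul_eq_div, one_le_div hR0]
      exact hcase
    have h3 : 0 ≤ 2 * (R ^ 2 * (1 / (R - 1) + 1)) * s := by positivity
    calc ∫ x in Lay R s, |f x| ≤ ∫ x in Ann R, t2g f x := h1.trans hfg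
      _ = 1 * ∫ x in Ann R, t2g f x := (one_mul _).symm
      _ ≤ (2 * (R ^ 2 * (1 / (R - 1) + 1)) + 1 / (R - 1)) * s * ∫ x in Ann R, t2g f x := by
          apply mul_le_mul_of_nonneg_right _ hG0
          rw [add_mul]
          linarith
  · have hsub2 : Lay R s ⊆ Ann (1 + s) ∪ (Ann R \ Ann (R - s)) := by
      intro x hx
      rcases hx.2 with h | h
      · exact Or.inl ⟨hx.1.1, h⟩
      · exact Or.inr ⟨hx.1, fun h' => absurd h'.2 (not_lt.mpr h.le)⟩
    have hA1 : Ann (1 + s) ⊆ Ann R := fun x hx => ⟨hx.1, by linarith [hx.2]⟩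
    have hA2 : Ann (R - s) ⊆ Ann R := fun x hx => ⟨hx.1, by linarith [hx.2]⟩
    have hint := UMB.Lin.integrableOn_Ann (R := R) hcabs
    have hint2 : IntegrableOn (fun x => |f x|) (Ann (1 + s) ∪ (Ann R \ Ann (R - s))) :=
      hint.mono_set (union_subset hA1 diff_subset)
    have h1 : ∫ x in Lay R s, |f x| ≤ ∫ x in Ann (1 + s) ∪ (Ann R \ Ann (R - s)), |f x| :=
      setIntegral_mono_set hint2 (Filter.Eventually.of_forall fun x => abs_nonneg _) hsub2.eventuallyLE
    have h2 : ∫ x in Ann (1 + s) ∪ (Ann R \ Ann (R - s)), |f x|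
        ≤ (∫ x in Ann (1 + s), |f x|) + ∫ x in Ann R \ Ann (R - s), |f x| := by
      have h3 : Ann (1 + s) ∪ (Ann R \ Ann (R - s)) = Ann (1 + s) ∪ ((Ann R \ Ann (R - s)) \ Ann (1 + s)) := by
        rw [union_diff_self]
      rw [h3, setIntegral_union disjoint_sdiff_right
        (((UMB.Lin.measurableSet_Ann R).diff (UMB.Lin.measurableSet_Ann _)).diff (UMB.Lin.measurableSet_Ann _))
        (hint.mono_set hA1) (hint.mono_set (diff_subset.trans diff_subset))]
      have h4 : ∫ x in (Ann R \ Ann (R - s)) \ Ann (1 + s), |f x| ≤ ∫ x in Ann R \ Ann (R - s), |f x| :=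
        setIntegral_mono_set (hint.mono_set diff_subset)
          (Filter.Eventually.of_forall fun x => abs_nonneg _) (diff_subset (s := Ann R \ Ann (R - s))).eventuallyLE
      linarith
    have h5 : ∫ x in Ann R \ Ann (R - s), |f x| = (∫ x in Ann R, |f x|) - ∫ x in Ann (R - s), |f x| :=
      integral_diff (UMB.Lin.measurableSet_Ann _) hint hA2
    have h6 : (∫ x in Ann R, |f x|) - ∫ x in Ann (R - s), |f x|
        = ∫ n : Metric.sphere (0 : E3) 1, (∫ r in (R - s)..R, r ^ 2 * |f (r • (n : E3))|) ∂sig := by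
      rw [UMB.Lin.polar_Ann hR hcabs, UMB.Lin.polar_Ann (by linarith : 1 < R - s) hcabs,
        ← integral_sub (t2_int hcabs) (t2_int hcabs)]
      apply integral_congr_ae
      refine Filter.Eventually.of_forall fun n => ?_
      have hcf : Continuous fun r : ℝ => r ^ 2 * |f (r • (n : E3))| :=
        (continuous_id.pow 2).mul (hf.continuous.comp (continuous_id.smul continuous_const)).abs
      show (∫ r in (1 : ℝ)..R, r ^ 2 * |f (r • (n : E3))|) - (∫ r in (1 : ℝ)..(R - s), r ^ 2 * |f (r • (n : E3))|)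
        = ∫ r in (R - s)..R, r ^ 2 * |f (r • (n : E3))|
      rw [intervalIntegral.integral_interval_sub_left (hcf.intervalIntegrable _ _) (hcf.intervalIntegrable _ _)]
    have h7 := t2_shell hR hf (a := R - s) (b := R) (by linarith) (by linarith) le_rfl
    have h8 : ∫ x in Ann (1 + s), |f x|
        = ∫ n : Metric.sphere (0 : E3) 1, (∫ r in (1 : ℝ)..(1 + s), r ^ 2 * |f (r • (n : E3))|) ∂sig :=
      UMB.Lin.polar_Ann (by linarith) hcabs
    have h9 := t2_shell hR hf (a := 1) (b := 1 + s) le_rfl (by linarith) (by linarith)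
    have e1 : R - (R - s) = s := by ring
    have e2 : 1 + s - 1 = s := by ring
    rw [e1] at h7
    rw [e2] at h9
    rw [h5, h6] at h2
    rw [h8] at h2
    have h10 : 0 ≤ 1 / (R - 1) * s * ∫ x in Ann R, t2g f x := by positivity
    calc ∫ x in Lay R s, |f x| ≤ s * (R ^ 2 * (1 / (R - 1) + 1)) * (∫ x in Ann R, t2g f x)
          + s * (R ^ 2 * (1 / (R - 1) + 1)) * (∫ x in Ann R, t2g f x) := by linarith
      _ ≤ (2 * (R ^ 2 * (1 / (R - 1) + 1)) + 1 / (R - 1)) * s * ∫ x in Ann R, t2g f x := by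
          nlinarith

end UMB.W
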