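import Pool.Agent.Lib.UMB.W.T1
import Pool.Agent.Lib.UMB.W.EDefs

/-! # UMB.W chunk T3: trace of the gradient on the inner sphere -/

set_option autoImplicit false

open Filter Topology Set MeasureTheory
open scoped ContDiff BigOperators
open Pool.Agent.Lib.PenroseSph (E3 Tens pd)
open UMB.Lin (Ann cAnn sig)

namespace UMB.W

theorem t3_contDiff_pd {n m : WithTop ℕ∞} (hmn : m + 1 ≤ n) {u : E3 → ℝ} (hu : ContDiff ℝ n u) (i : Fin 3) :
    ContDiff ℝ m (fun x => pd i u x) := by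
  unfold pd
  exact (hu.fderiv_right hmn).clm_apply contDiff_const

theorem t3_pd_vsq {u : E3 → ℝ} (hu : ContDiff ℝ 3 u) (i : Fin 3) (x : E3) :
    pd i (fun y => vsq (D1 u y)) x = ∑ j, 2 * D1 u x j * D2 u x i j := by
  have hd : ∀ j, DifferentiableAt ℝ (fun y => pd j u y) x := fun j =>
    (t3_contDiff_pd (n := 3) (m := 2) (by norm_num) hu j).differentiable (by norm_num) x
  have h1 : HasFDerivAt (fun y => vsq (D1 u y)) (∑ j : Fin 3, (2 * pd j u x) • fderiv ℝ (fun y => pd j u y) x) x := by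
    have h2 : ∀ j : Fin 3, HasFDerivAt (fun y => (pd j u y) ^ 2) ((2 * pd j u x) • fderiv ℝ (fun y => pd j u y) x) x := by
      intro j
      have := (hd j).hasFDerivAt.pow 2
      simpa [nsmul_eq_mul] using this
    have h3 := HasFDerivAt.fun_sum (u := Finset.univ) (fun j _ => h2 j)
    exact h3
  have h4 : pd i (fun y => vsq (D1 u y)) x = (fderiv ℝ (fun y => vsq (D1 u y)) x) (EuclideanSpace.single i 1) := rfl
  rw [h4, h1.fderiv]
  simp only [ContinuousLinearMap.sum_apply, ContinuousLinearMap.smul_apply, smul_eq_mul]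
  rfl

/-- **T3.** `u` is a global `C³` function which agrees with `v` on the annulus: T1 for the `C¹` function `vsq (D1 u)`
(`√vsq(D1 (vsq (D1 u))) ≤ 2 √fsq (D2 u) √vsq (D1 u) ≤ fsq + vsq`). -/
theorem trace_grad {R : ℝ} (hR : 1 < R) : ∃ C : ℝ, 0 ≤ C ∧ ∀ u : E3 → ℝ, ContDiff ℝ 3 u →
    ∫ n : Metric.sphere (0 : E3) 1, vsq (D1 u (n : E3)) ∂sig
      ≤ C * ∫ x in Ann R, (fsq (D2 u x) + vsq (D1 u x)) := by
  obtain ⟨C, hC, hT⟩ := trace_le hR
  refine ⟨2 * C, by positivity, fun u hu => ?_⟩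
  have hc1 : ∀ j, ContDiff ℝ 2 (fun y => pd j u y) := fun j =>
    t3_contDiff_pd (n := 3) (m := 2) (by norm_num) hu j
  have hf : ContDiff ℝ 1 (fun x => vsq (D1 u x)) := by
    unfold vsq D1
    exact ContDiff.sum fun j _ => ((hc1 j).of_le (by norm_num)).pow 2
  have h1 := hT (fun x => vsq (D1 u x)) hf
  have hvs : ∀ w : Fin 3 → ℝ, 0 ≤ vsq w := fun w => Finset.sum_nonneg fun i _ => sq_nonneg _
  have hfs : ∀ B : Matrix (Fin 3) (Fin 3) ℝ, 0 ≤ fsq B := fun B =>
    Finset.sum_nonneg fun i _ => Finset.sum_nonneg fun j _ => sq_nonneg _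
  have hcD2 : ∀ i j, Continuous (fun x => D2 u x i j) := by
    intro i j
    have := t3_contDiff_pd (n := 2) (m := 1) (by norm_num) (hc1 j) i
    exact this.continuous
  have hcf : Continuous (fun x => fsq (D2 u x)) := by
    unfold fsq
    exact continuous_finset_sum _ fun i _ => continuous_finset_sum _ fun j _ => (hcD2 i j).pow 2
  have hkey : ∀ x, |vsq (D1 u x)| + Real.sqrt (vsq (D1 (fun y => vsq (D1 u y)) x)) ≤
      2 * (fsq (D2 u x) + vsq (D1 u x)) := by
    intro x
    rw [abs_of_nonneg (hvs _)]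
    have h2 : vsq (D1 (fun y => vsq (D1 u y)) x) ≤ (fsq (D2 u x) + vsq (D1 u x)) ^ 2 := by
      have h3 : ∀ i, (D1 (fun y => vsq (D1 u y)) x i) ^ 2 ≤ 4 * vsq (D1 u x) * ∑ j, D2 u x i j ^ 2 := by
        intro i
        have h4 : D1 (fun y => vsq (D1 u y)) x i = 2 * ∑ j, D1 u x j * D2 u x i j := by
          show pd i (fun y => vsq (D1 u y)) x = _
          rw [t3_pd_vsq hu, Finset.mul_sum]
          apply Finset.sum_congr rfl
          intro j _
          ring
        have h5 := Finset.sum_mul_sq_le_sq_mul_sq Finset.univ (fun j => D1 u x j) (fun j => D2 u x i j)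
        rw [h4]
        unfold vsq
        nlinarith [h5]
      calc vsq (D1 (fun y => vsq (D1 u y)) x) = ∑ i, (D1 (fun y => vsq (D1 u y)) x i) ^ 2 := rfl
        _ ≤ ∑ i, 4 * vsq (D1 u x) * ∑ j, D2 u x i j ^ 2 := Finset.sum_le_sum fun i _ => h3 i
        _ = 4 * vsq (D1 u x) * fsq (D2 u x) := by
            rw [← Finset.mul_sum]
            rfl
        _ ≤ (fsq (D2 u x) + vsq (D1 u x)) ^ 2 := by nlinarith [sq_nonneg (fsq (D2 u x) - vsq (D1 u x))]
    have h6 : Real.sqrt (vsq (D1 (fun y => vsq (D1 u y)) x)) ≤ fsq (D2 u x) + vsq (D1 u x) := by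
      apply Real.sqrt_le_iff.mpr
      exact ⟨add_nonneg (hfs _) (hvs _), h2⟩
    have := hfs (D2 u x)
    linarith
  have h7 : ∫ x in Ann R, (|vsq (D1 u x)| + Real.sqrt (vsq (D1 (fun y => vsq (D1 u y)) x))) ≤
      ∫ x in Ann R, 2 * (fsq (D2 u x) + vsq (D1 u x)) := by
    apply setIntegral_mono_on _ _ (UMB.Lin.measurableSet_Ann R) (fun x _ => hkey x)
    · apply UMB.Lin.integrableOn_Ann
      apply hf.continuous.abs.add
      apply Real.continuous_sqrt.comp
      unfold vsq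
      refine continuous_finset_sum _ fun i _ => Continuous.pow ?_ 2
      exact (t3_contDiff_pd (n := 1) (m := 0) (by norm_num) hf i).continuous
    · apply UMB.Lin.integrableOn_Ann
      exact continuous_const.mul (hcf.add hf.continuous)
  rw [integral_const_mul] at h7
  calc _ ≤ |∫ n : Metric.sphere (0 : E3) 1, vsq (D1 u (n : E3)) ∂sig| := le_abs_self _
    _ ≤ _ := h1
    _ ≤ C * (2 * ∫ x in Ann R, (fsq (D2 u x) + vsq (D1 u x))) := mul_le_mul_of_nonneg_left h7 hC
    _ = _ := by ring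

end UMB.W
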