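import Pool.Agent.Lib.UMB.W.A4
import Pool.Agent.Lib.UMB.W.B1
import Pool.Agent.Lib.UMB.W.B2
import Pool.Agent.Lib.UMB.W.B6
import Pool.Agent.Lib.UMB.W.T1

/-! # UMB.W chunk W1: energy inequality -/

set_option autoImplicit false

open Filter Topology Set MeasureTheory
open scoped ContDiff BigOperators
open Pool.Agent.Lib.PenroseSph (E3 Tens pd)
open UMB.Lin (Ann cAnn sig)

namespace UMB.W

theorem w1_contDiff_pd {g : E3 → ℝ} (hg : ContDiff ℝ ∞ g) (i : Fin 3) : ContDiff ℝ ∞ (fun x => pd i g x) := by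
  unfold pd
  exact (hg.fderiv_right (m := ∞) (by simp)).clm_apply contDiff_const

theorem w1_contDiff_D1 {w : E3 → ℝ} (hw : ContDiff ℝ ∞ w) (i : Fin 3) : ContDiff ℝ ∞ (fun x => D1 w x i) :=
  w1_contDiff_pd hw i

theorem w1_contDiff_D2 {w : E3 → ℝ} (hw : ContDiff ℝ ∞ w) (i j : Fin 3) : ContDiff ℝ ∞ (fun x => D2 w x i j) :=
  w1_contDiff_pd (g := fun x => pd j w x) (w1_contDiff_pd hw j) i

theorem w1_D2_symm {w : E3 → ℝ} (hw : ContDiff ℝ ∞ w) (x : E3) (i j : Fin 3) : D2 w x i j = D2 w x j i := by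
  have hsym : IsSymmSndFDerivAt ℝ w x := (hw.contDiffAt (x := x)).isSymmSndFDerivAt (by simp; norm_cast)
  have hd : DifferentiableAt ℝ (fderiv ℝ w) x :=
    ((hw.fderiv_right (m := 1) (by norm_cast)).differentiable (by simp)) x
  have key : ∀ a b : Fin 3, D2 w x a b
      = fderiv ℝ (fderiv ℝ w) x (EuclideanSpace.single a 1) (EuclideanSpace.single b 1) := by
    intro a b
    unfold D2 pd
    have h1 : HasFDerivAt (fun y => fderiv ℝ w y (EuclideanSpace.single b (1 : ℝ)))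
        ((fderiv ℝ (fderiv ℝ w) x).flip (EuclideanSpace.single b (1 : ℝ))) x := by
      have := hd.hasFDerivAt.clm_apply (hasFDerivAt_const (EuclideanSpace.single b (1 : ℝ) : E3) x)
      simpa using this
    rw [h1.fderiv]
    simp
  rw [key, key]
  exact hsym _ _

theorem w1_contDiff_VV {R lam Lam : ℝ} {S : Tens} (hS : Fld R lam Lam S) {w : E3 → ℝ} (hw : ContDiff ℝ ∞ w)
    (i : Fin 3) : ContDiff ℝ ∞ (VV S w i) := by
  unfold VV
  refine ContDiff.sum fun j _ => ContDiff.sum fun k _ => ContDiff.sum fun l _ => ?_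
  exact ((hS.smooth i j).mul (hS.smooth k l)).mul
    (((w1_contDiff_D2 hw j k).mul (w1_contDiff_D1 hw l)).sub ((w1_contDiff_D2 hw k l).mul (w1_contDiff_D1 hw j)))

theorem w1_fsq_nonneg (B : Matrix (Fin 3) (Fin 3) ℝ) : 0 ≤ fsq B := by
  unfold fsq
  positivity

theorem w1_vsq_nonneg (u : Fin 3 → ℝ) : 0 ≤ vsq u := by
  unfold vsq
  positivity

theorem w1_contDiff_vsq {w : E3 → ℝ} (hw : ContDiff ℝ ∞ w) : ContDiff ℝ ∞ (fun x => vsq (D1 w x)) := by
  unfold vsq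
  exact ContDiff.sum fun i _ => (w1_contDiff_D1 hw i).pow 2

theorem w1_cont_fsq {w : E3 → ℝ} (hw : ContDiff ℝ ∞ w) : Continuous (fun x => fsq (D2 w x)) := by
  unfold fsq
  exact continuous_finset_sum _ fun i _ => continuous_finset_sum _ fun j _ => (w1_contDiff_D2 hw i j).continuous.pow 2

theorem w1_pd_vsq {w : E3 → ℝ} (hw : ContDiff ℝ ∞ w) (x : E3) (i : Fin 3) :
    pd i (fun y => vsq (D1 w y)) x = 2 * ∑ j, D1 w x j * D2 w x i j := by
  have hd : ∀ j : Fin 3, DifferentiableAt ℝ (fun y => pd j w y) x :=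
    fun j => (w1_contDiff_pd hw j).differentiable (by simp) x
  have h1 : ∀ j : Fin 3, HasFDerivAt (fun y => pd j w y ^ 2) ((2 * pd j w x) • fderiv ℝ (fun y => pd j w y) x) x := by
    intro j
    have := (hd j).hasFDerivAt.pow 2
    simpa [nsmul_eq_mul] using this
  have h2 : HasFDerivAt (fun y => ∑ j : Fin 3, pd j w y ^ 2)
      (∑ j : Fin 3, (2 * pd j w x) • fderiv ℝ (fun y => pd j w y) x) x := by
    have := HasFDerivAt.fun_sum (u := Finset.univ) (fun j _ => h1 j)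
    simpa using this
  have h3 : (fun y => vsq (D1 w y)) = fun y => ∑ j : Fin 3, pd j w y ^ 2 := by
    funext y
    rfl
  rw [h3]
  have h4 : pd i (fun y => ∑ j : Fin 3, pd j w y ^ 2) x
      = (∑ j : Fin 3, (2 * pd j w x) • fderiv ℝ (fun y => pd j w y) x) (EuclideanSpace.single i 1) := by
    unfold pd at h2 ⊢
    rw [h2.fderiv]
  rw [h4]
  simp only [ContinuousLinearMap.sum_apply, ContinuousLinearMap.smul_apply, smul_eq_mul, Finset.mul_sum]
  refine Finset.sum_congr rfl fun j _ => ?_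
  unfold D1 D2
  show 2 * pd j w x * pd i (fun y => pd j w y) x = _
  ring

/-- `|∇ |∇w|²| ≤ 2 |D²w| |∇w|` -/
theorem w1_grad_vsq_le {w : E3 → ℝ} (hw : ContDiff ℝ ∞ w) (x : E3) :
    Real.sqrt (vsq (D1 (fun y => vsq (D1 w y)) x)) ≤ 2 * (Real.sqrt (fsq (D2 w x)) * Real.sqrt (vsq (D1 w x))) := by
  have h1 : vsq (D1 (fun y => vsq (D1 w y)) x) ≤ 4 * (fsq (D2 w x) * vsq (D1 w x)) := by
    have h2 : ∀ i : Fin 3, D1 (fun y => vsq (D1 w y)) x i ^ 2 ≤ 4 * ((∑ j, D2 w x i j ^ 2) * vsq (D1 w x)) := by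
      intro i
      have h3 : D1 (fun y => vsq (D1 w y)) x i = 2 * ∑ j, D1 w x j * D2 w x i j := w1_pd_vsq hw x i
      rw [h3, mul_pow]
      have h4 := Finset.sum_mul_sq_le_sq_mul_sq Finset.univ (fun j => D1 w x j) (fun j => D2 w x i j)
      have h5 : (∑ j, D1 w x j ^ 2) = vsq (D1 w x) := rfl
      rw [h5] at h4
      nlinarith
    calc vsq (D1 (fun y => vsq (D1 w y)) x) = ∑ i, D1 (fun y => vsq (D1 w y)) x i ^ 2 := rfl
      _ ≤ ∑ i, 4 * ((∑ j, D2 w x i j ^ 2) * vsq (D1 w x)) := Finset.sum_le_sum fun i _ => h2 i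
      _ = 4 * (fsq (D2 w x) * vsq (D1 w x)) := by
          unfold fsq
          rw [← Finset.mul_sum, ← Finset.sum_mul]
  have hf := w1_fsq_nonneg (D2 w x)
  have hv := w1_vsq_nonneg (D1 w x)
  rw [← Real.sqrt_mul hf]
  have h6 : (2 : ℝ) = Real.sqrt 4 := by
    rw [show (4 : ℝ) = 2 ^ 2 by norm_num, Real.sqrt_sq (by norm_num)]
  rw [h6, ← Real.sqrt_mul (by norm_num)]
  exact Real.sqrt_le_sqrt h1

/-- **W1.** `∫ |D²w|² ≤ C ∫ (|dw|² + f²)`.
Proof: Cord with `M = D2 w x` (symmetric): `c nsq S M ≤ nsq S M - (tr2 S M)² + C1 (tr2 A M)²`, `lam² fsq ≤ nsq` (A4a),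
`(tr2 A M)² ≤ 2 B² vsq + 2 f²`. By B1, B2, B6:
`∫ (nsq - tr2²) ≤ 27 Lam² ∫_{S²} vsq (D1 w) + 324 Lam² ∫ √fsq √vsq`. T1 for `f = vsq (D1 w)`
(`√vsq(D1 f) ≤ 2 √fsq √vsq`): `∫_{S²} vsq ≤ C ∫ (vsq + 2 √fsq √vsq)`. Finally `√fsq √vsq ≤ h fsq + vsq/(4h)` with small `h`. -/
theorem energy_ineq {R : ℝ} (hR : 1 < R) {lam Lam c C1 B : ℝ} (hl : 0 < lam) (hc : 0 < c) (hC1 : 0 ≤ C1) (hB : 0 ≤ B) :
    ∃ C : ℝ, 0 ≤ C ∧ ∀ S : Tens, Fld R lam Lam S → ∀ w : E3 → ℝ, Cls R w → ∀ (A : Tens) (f : E3 → ℝ),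
      (∀ x ∈ Ann R, Cord c C1 (S x) (A x)) →
      (∀ x ∈ Ann R, |tr2 (A x) (D2 w x)| ≤ B * Real.sqrt (vsq (D1 w x)) + f x) →
      (∀ x ∈ Ann R, 0 ≤ f x) → IntegrableOn (fun x => f x ^ 2) (Ann R) →
      ∫ x in Ann R, fsq (D2 w x) ≤ C * ((∫ x in Ann R, vsq (D1 w x)) + ∫ x in Ann R, f x ^ 2) := by
  obtain ⟨CT, hCT0, hCT⟩ := trace_le hR
  set K1 : ℝ := 27 * Lam ^ 2 * CT + 2 * C1 * B ^ 2 with hK1
  set K2 : ℝ := 54 * Lam ^ 2 * CT + 324 * Lam ^ 2 with hK2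
  have hK10 : 0 ≤ K1 := by positivity
  have hK20 : 0 ≤ K2 := by positivity
  set a : ℝ := c * lam ^ 2 with ha
  have ha0 : 0 < a := by positivity
  refine ⟨2 / a * (K1 + K2 ^ 2 / (2 * a) + 2 * C1), by positivity, ?_⟩
  intro S hS w hw A f hCord hA hf0 hfi
  have hws := hw.smooth
  -- integrands
  have hcf : Continuous (fun x => fsq (D2 w x)) := w1_cont_fsq hws
  have hcv : Continuous (fun x => vsq (D1 w x)) := (w1_contDiff_vsq hws).continuous
  have hcp : Continuous (fun x => Real.sqrt (fsq (D2 w x)) * Real.sqrt (vsq (D1 w x))) :=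
    (Real.continuous_sqrt.comp hcf).mul (Real.continuous_sqrt.comp hcv)
  have hcg : Continuous (fun x => ∑ i, pd i (VV S w i) x) :=
    continuous_finset_sum _ fun i _ => (w1_contDiff_pd (w1_contDiff_VV hS hws i) i).continuous
  have iF : IntegrableOn (fun x => fsq (D2 w x)) (Ann R) := UMB.Lin.integrableOn_Ann hcf
  have iV : IntegrableOn (fun x => vsq (D1 w x)) (Ann R) := UMB.Lin.integrableOn_Ann hcv
  have iP : IntegrableOn (fun x => Real.sqrt (fsq (D2 w x)) * Real.sqrt (vsq (D1 w x))) (Ann R) :=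
    UMB.Lin.integrableOn_Ann hcp
  have iG : IntegrableOn (fun x => ∑ i, pd i (VV S w i) x) (Ann R) := UMB.Lin.integrableOn_Ann hcg
  have hmeas := UMB.Lin.measurableSet_Ann R
  -- pointwise
  have hpt : ∀ x ∈ Ann R, a * fsq (D2 w x) ≤ (∑ i, pd i (VV S w i) x)
      + 324 * Lam ^ 2 * (Real.sqrt (fsq (D2 w x)) * Real.sqrt (vsq (D1 w x)))
      + (2 * C1 * B ^ 2 * vsq (D1 w x) + 2 * C1 * f x ^ 2) := by
    intro x hx
    have hxc : x ∈ cAnn R := UMB.Lin.Ann_subset R hx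
    have h1 := hCord x hx (D2 w x) (fun i j => w1_D2_symm hws x i j)
    have h2 := nsq_ge hl.le (hS.symm x) (hS.ell x hxc) (D2 w x)
    have h3 := div_VV hS (hws.of_le (by norm_cast)) x
    have h4 := RR_le hS w hxc
    have h4' := (abs_le.mp h4).1
    have h5 := hA x hx
    have hv := w1_vsq_nonneg (D1 w x)
    have h6 : tr2 (A x) (D2 w x) ^ 2 ≤ 2 * B ^ 2 * vsq (D1 w x) + 2 * f x ^ 2 := by
      have hsv := Real.sq_sqrt hv
      have h7 : tr2 (A x) (D2 w x) ^ 2 ≤ (B * Real.sqrt (vsq (D1 w x)) + f x) ^ 2 := by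
        rw [← sq_abs (tr2 (A x) (D2 w x))]
        exact pow_le_pow_left₀ (abs_nonneg _) h5 2
      have h8 : (B * Real.sqrt (vsq (D1 w x))) ^ 2 = B ^ 2 * vsq (D1 w x) := by
        rw [mul_pow, hsv]
      nlinarith [sq_nonneg (B * Real.sqrt (vsq (D1 w x)) - f x)]
    have h9 : C1 * tr2 (A x) (D2 w x) ^ 2 ≤ C1 * (2 * B ^ 2 * vsq (D1 w x) + 2 * f x ^ 2) :=
      mul_le_mul_of_nonneg_left h6 hC1
    have h10 : c * (lam ^ 2 * fsq (D2 w x)) ≤ c * nsq (S x) (D2 w x) := mul_le_mul_of_nonneg_left h2 hc.le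
    rw [ha]
    nlinarith
  have hI : a * ∫ x in Ann R, fsq (D2 w x) ≤ (∫ x in Ann R, ∑ i, pd i (VV S w i) x)
      + 324 * Lam ^ 2 * (∫ x in Ann R, Real.sqrt (fsq (D2 w x)) * Real.sqrt (vsq (D1 w x)))
      + (2 * C1 * B ^ 2 * (∫ x in Ann R, vsq (D1 w x)) + 2 * C1 * ∫ x in Ann R, f x ^ 2) := by
    have iA : IntegrableOn (fun x => (∑ i, pd i (VV S w i) x)
      + 324 * Lam ^ 2 * (Real.sqrt (fsq (D2 w x)) * Real.sqrt (vsq (D1 w x)))) (Ann R) :=
      iG.add (iP.const_mul (324 * Lam ^ 2))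
    have iB : IntegrableOn (fun x => 2 * C1 * B ^ 2 * vsq (D1 w x) + 2 * C1 * f x ^ 2) (Ann R) :=
      (iV.const_mul (2 * C1 * B ^ 2)).add (hfi.const_mul (2 * C1))
    have hm := setIntegral_mono_on (iF.const_mul a) (iA.add iB) hmeas hpt
    rw [integral_const_mul] at hm
    refine hm.trans_eq ?_
    have e1 : ∫ x in Ann R, ((∑ i, pd i (VV S w i) x)
        + 324 * Lam ^ 2 * (Real.sqrt (fsq (D2 w x)) * Real.sqrt (vsq (D1 w x)))
        + (2 * C1 * B ^ 2 * vsq (D1 w x) + 2 * C1 * f x ^ 2)) = (∫ x in Ann R, ∑ i, pd i (VV S w i) x)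
      + 324 * Lam ^ 2 * (∫ x in Ann R, Real.sqrt (fsq (D2 w x)) * Real.sqrt (vsq (D1 w x)))
      + (2 * C1 * B ^ 2 * (∫ x in Ann R, vsq (D1 w x)) + 2 * C1 * ∫ x in Ann R, f x ^ 2) := by
      rw [integral_add iA iB, integral_add iG (iP.const_mul (324 * Lam ^ 2)),
        integral_add (iV.const_mul (2 * C1 * B ^ 2)) (hfi.const_mul (2 * C1)), integral_const_mul, integral_const_mul,
        integral_const_mul]
    exact e1
  have hG := int_div_le hR hS hw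
  have hS2 : ∫ n : Metric.sphere (0 : E3) 1, vsq (D1 w (n : E3)) ∂sig
      ≤ CT * ((∫ x in Ann R, vsq (D1 w x))
        + 2 * ∫ x in Ann R, Real.sqrt (fsq (D2 w x)) * Real.sqrt (vsq (D1 w x))) := by
    have h1 := hCT (fun x => vsq (D1 w x)) ((w1_contDiff_vsq hws).of_le (by simp))
    refine (le_abs_self _).trans (h1.trans (mul_le_mul_of_nonneg_left ?_ hCT0))
    have hc1 : Continuous (fun x => Real.sqrt (vsq (D1 (fun y => vsq (D1 w y)) x))) :=
      Real.continuous_sqrt.comp (w1_contDiff_vsq (w1_contDiff_vsq hws)).continuous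
    have h2 : ∫ x in Ann R, (|vsq (D1 w x)| + Real.sqrt (vsq (D1 (fun y => vsq (D1 w y)) x)))
        ≤ ∫ x in Ann R, (vsq (D1 w x) + 2 * (Real.sqrt (fsq (D2 w x)) * Real.sqrt (vsq (D1 w x)))) := by
      refine setIntegral_mono_on (UMB.Lin.integrableOn_Ann (hcv.abs.add hc1)) (iV.add (iP.const_mul 2)) hmeas ?_
      intro x _
      have h3 := w1_grad_vsq_le hws x
      rw [abs_of_nonneg (w1_vsq_nonneg _)]
      linarith
    refine h2.trans_eq ?_
    rw [integral_add iV (iP.const_mul 2), integral_const_mul]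
  have hP : K2 * ∫ x in Ann R, Real.sqrt (fsq (D2 w x)) * Real.sqrt (vsq (D1 w x))
      ≤ a / 2 * (∫ x in Ann R, fsq (D2 w x)) + K2 ^ 2 / (2 * a) * ∫ x in Ann R, vsq (D1 w x) := by
    have h1 : ∫ x in Ann R, K2 * (Real.sqrt (fsq (D2 w x)) * Real.sqrt (vsq (D1 w x)))
        ≤ ∫ x in Ann R, (a / 2 * fsq (D2 w x) + K2 ^ 2 / (2 * a) * vsq (D1 w x)) := by
      refine setIntegral_mono_on (iP.const_mul K2) ((iF.const_mul _).add (iV.const_mul _)) hmeas ?_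
      intro x _
      have hf := Real.sq_sqrt (w1_fsq_nonneg (D2 w x))
      have hv := Real.sq_sqrt (w1_vsq_nonneg (D1 w x))
      set p := Real.sqrt (fsq (D2 w x))
      set q := Real.sqrt (vsq (D1 w x))
      rw [← hf, ← hv]
      have h2 : 0 ≤ (a * p - K2 * q) ^ 2 / (2 * a) := by positivity
      have h3 : (a * p - K2 * q) ^ 2 / (2 * a) = a / 2 * p ^ 2 - K2 * (p * q) + K2 ^ 2 / (2 * a) * q ^ 2 := by
        field_simp
        ring
      linarith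
    rw [integral_const_mul] at h1
    refine h1.trans_eq ?_
    rw [integral_add (iF.const_mul _) (iV.const_mul _), integral_const_mul, integral_const_mul]
  have hV0 : 0 ≤ ∫ x in Ann R, vsq (D1 w x) := setIntegral_nonneg hmeas fun x _ => w1_vsq_nonneg _
  have hf20 : 0 ≤ ∫ x in Ann R, f x ^ 2 := setIntegral_nonneg hmeas fun x _ => sq_nonneg _
  have hS3 : 27 * Lam ^ 2 * (∫ n : Metric.sphere (0 : E3) 1, vsq (D1 w (n : E3)) ∂sig)
      ≤ 27 * Lam ^ 2 * (CT * ((∫ x in Ann R, vsq (D1 w x))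
        + 2 * ∫ x in Ann R, Real.sqrt (fsq (D2 w x)) * Real.sqrt (vsq (D1 w x)))) :=
    mul_le_mul_of_nonneg_left hS2 (by positivity)
  set IF := ∫ x in Ann R, fsq (D2 w x)
  set IV := ∫ x in Ann R, vsq (D1 w x)
  set IP := ∫ x in Ann R, Real.sqrt (fsq (D2 w x)) * Real.sqrt (vsq (D1 w x))
  set If := ∫ x in Ann R, f x ^ 2
  have hfin : a / 2 * IF ≤ (K1 + K2 ^ 2 / (2 * a)) * IV + 2 * C1 * If := by
    have : a * IF ≤ K1 * IV + K2 * IP + 2 * C1 * If := by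
      rw [hK1, hK2]
      nlinarith
    nlinarith
  have h2a : IF = 2 / a * (a / 2 * IF) := by
    field_simp
  rw [h2a]
  have hq : 0 ≤ K2 ^ 2 / (2 * a) := by positivity
  calc 2 / a * (a / 2 * IF) ≤ 2 / a * ((K1 + K2 ^ 2 / (2 * a)) * IV + 2 * C1 * If) :=
        mul_le_mul_of_nonneg_left hfin (by positivity)
    _ ≤ 2 / a * ((K1 + K2 ^ 2 / (2 * a) + 2 * C1) * (IV + If)) := by
        refine mul_le_mul_of_nonneg_left ?_ (by positivity)
        nlinarith [mul_nonneg hK10 hf20, mul_nonneg hq hf20, mul_nonneg hC1 hV0]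
    _ = 2 / a * (K1 + K2 ^ 2 / (2 * a) + 2 * C1) * (IV + If) := by ring

end UMB.W
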